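import Mathlib
import Pool.Agent.H42.HW.Twist

open Complex Filter Topology

namespace Pool.Agent.H91.EdgeTw

open Pool.Agent.H89.EdgeBasic Pool.Agent.H89.EdgeOrd Pool.H42.HW

variable {m : ℕ}

/-- the twisting function of a pair (character, real number) -/
noncomputable def gx {N : ℕ} (x : DirichletCharacter ℂ m × ℝ) (p : Idx N) : ℂ :=
  x.1 ((p:ℕ) : ZMod m) * ch p x.2

lemma gx_norm_le {N : ℕ} (x : DirichletCharacter ℂ m × ℝ) (p : Idx N) : ‖gx x p‖ ≤ 1 := by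
  rw [gx, norm_mul, norm_ch, mul_one]
  exact DirichletCharacter.norm_le_one x.1 _

lemma char_mul_conj [NeZero m] (χ ξ : DirichletCharacter ℂ m) (n : ℕ) :
    χ (n : ZMod m) * (starRingEnd ℂ) (ξ (n : ZMod m)) = (χ * ξ⁻¹) (n : ZMod m) := by
  rw [MulChar.mul_apply, ← MulChar.star_apply']
  rfl

lemma gx_dv [NeZero m] {N : ℕ} (x y : DirichletCharacter ℂ m × ℝ) (p : Idx N) :
    gx x p * (starRingEnd ℂ) (gx y p) = (x.1 * y.1⁻¹) ((p:ℕ) : ZMod m) * ch p (x.2 - y.2) := by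
  rw [gx, gx, map_mul, conj_ch, sub_eq_add_neg, ch_add, ← char_mul_conj]
  ring

lemma crossM [NeZero m] {N : ℕ} (hN : 0 < N) (x y : DirichletCharacter ℂ m × ℝ) [Decidable (x = y)] :
    ∃ C : ℝ, 0 ≤ C ∧ ∀ η : ℝ, 0 < η → η ≤ 1 →
      |(∑' p : Idx N, (q p η : ℂ) * (gx x p * (starRingEnd ℂ) (gx y p))).re| ≤
        (if x = y then Real.log (1/η) else 0) + C := by
  by_cases hxy : x = y
  · obtain ⟨C, hC⟩ := primeSum_zero N hN
    refine ⟨max C 0, le_max_right _ _, fun η h0 h1 => ?_⟩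
    rw [if_pos hxy]
    subst hxy
    have h2 := hC η h0 h1
    have h3 : (∑' p : Idx N, (p:ℂ)^(-(1 + (η:ℂ)))).re = ∑' p : Idx N, q p η := by
      rw [Complex.re_tsum (summable_cpow N (by simp; exact h0))]
      apply tsum_congr
      intro p
      have h4 := cpow_split p η 0
      rw [ch_zero, mul_one] at h4
      simp only [Complex.ofReal_zero, zero_mul, add_zero] at h4
      rw [h4, Complex.ofReal_re]
    have h5 : ‖∑' p : Idx N, (q p η : ℂ) * (gx x p * (starRingEnd ℂ) (gx x p))‖ ≤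
        ∑' p : Idx N, q p η := by
      refine tsum_of_norm_bounded (summable_q N h0).hasSum (fun p => ?_)
      rw [norm_mul, Complex.norm_real, Real.norm_of_nonneg (q_pos p η).le, norm_mul,
        RCLike.norm_conj]
      have h6 := gx_norm_le x p
      calc q p η * (‖gx x p‖ * ‖gx x p‖) ≤ q p η * (1 * 1) := by
            apply mul_le_mul_of_nonneg_left _ (q_pos p η).le
            exact mul_le_mul h6 h6 (norm_nonneg _) zero_le_one
        _ = q p η := by ring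
    rw [h3] at h2
    rw [abs_le] at h2
    refine (Complex.abs_re_le_norm _).trans (h5.trans ?_)
    have := le_max_left C 0
    linarith
  · have h : x.1 * y.1⁻¹ ≠ 1 ∨ x.2 - y.2 ≠ 0 := by
      by_contra hcon
      push Not at hcon
      exact hxy (Prod.ext (mul_inv_eq_one.mp hcon.1) (sub_eq_zero.mp hcon.2))
    have : NeZero N := ⟨hN.ne'⟩
    have : NeZero (m * N) := ⟨mul_ne_zero (NeZero.ne _) (NeZero.ne _)⟩
    have hd : m ∣ m * N := Nat.dvd_mul_right m N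
    set Ψ := DirichletCharacter.changeLevel hd (x.1 * y.1⁻¹) with hΨ
    have hΨ1 : Ψ ≠ 1 ∨ x.2 - y.2 ≠ 0 := by
      rcases h with h | h
      · left
        intro h1
        apply h
        rw [hΨ] at h1
        exact (DirichletCharacter.changeLevel_eq_one_iff hd).mp h1
      · exact Or.inr h
    obtain ⟨C, hC⟩ := charSum_ne Ψ hΨ1
    refine ⟨max C 0, le_max_right _ _, fun η h0 h1 => ?_⟩
    rw [if_neg hxy, zero_add]
    refine le_trans (le_of_eq ?_) ((hC η h0 h1).trans (le_max_left _ _))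
    congr 2
    have e1 : (∑' p : Nat.Primes, Ψ ((p:ℕ) : ZMod (m * N)) * ((p:ℕ):ℂ)^(-(1 + (η:ℂ) + ((x.2 - y.2 : ℝ):ℂ) * I))) =
        ∑' n : ℕ, Set.indicator {p : ℕ | p.Prime}
          (fun n : ℕ => Ψ (n : ZMod (m * N)) * (n:ℂ)^(-(1 + (η:ℂ) + ((x.2 - y.2 : ℝ):ℂ) * I))) n :=
      tsum_subtype {p : ℕ | p.Prime}
        (fun n : ℕ => Ψ (n : ZMod (m * N)) * (n:ℂ)^(-(1 + (η:ℂ) + ((x.2 - y.2 : ℝ):ℂ) * I)))
    have e2 : (∑' p : Idx N, (x.1 * y.1⁻¹) ((p:ℕ) : ZMod m) *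
        ((p:ℕ):ℂ)^(-(1 + (η:ℂ) + ((x.2 - y.2 : ℝ):ℂ) * I))) =
        ∑' n : ℕ, Set.indicator {p : ℕ | p.Prime ∧ ¬ p ∣ N}
          (fun n : ℕ => (x.1 * y.1⁻¹) (n : ZMod m) * (n:ℂ)^(-(1 + (η:ℂ) + ((x.2 - y.2 : ℝ):ℂ) * I))) n :=
      tsum_subtype {p : ℕ | p.Prime ∧ ¬ p ∣ N}
        (fun n : ℕ => (x.1 * y.1⁻¹) (n : ZMod m) * (n:ℂ)^(-(1 + (η:ℂ) + ((x.2 - y.2 : ℝ):ℂ) * I)))
    have e3 : (∑' p : Idx N, (q p η : ℂ) * (gx x p * (starRingEnd ℂ) (gx y p))) =
        ∑' p : Idx N, (x.1 * y.1⁻¹) ((p:ℕ) : ZMod m) *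
          ((p:ℕ):ℂ)^(-(1 + (η:ℂ) + ((x.2 - y.2 : ℝ):ℂ) * I)) := by
      apply tsum_congr
      intro p
      rw [cpow_split p η, gx_dv]
      ring
    rw [e3, e2, e1]
    apply tsum_congr
    intro n
    by_cases hp : n.Prime
    · by_cases hQn : n ∣ m * N
      · have h2 : ((n : ℕ) : ZMod (m * N)) ∈ nonunits (ZMod (m * N)) := by
          rw [mem_nonunits_iff, ZMod.isUnit_iff_coprime, hp.coprime_iff_not_dvd, not_not]
          exact hQn
        have h3 : Ψ (n : ZMod (m * N)) = 0 := MulChar.map_nonunit _ h2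
        by_cases hnN : n ∣ N
        · simp [Set.indicator, hp, hnN, h3]
        · have h4 : n ∣ m := by
            rcases (hp.dvd_mul).mp hQn with h | h
            · exact h
            · exact absurd h hnN
          have h5 : (x.1 * y.1⁻¹) (n : ZMod m) = 0 := by
            apply MulChar.map_nonunit
            rw [ZMod.isUnit_iff_coprime, hp.coprime_iff_not_dvd, not_not]
            exact h4
          simp only [Set.indicator, Set.mem_ofPred_eq, hp, hnN, h3, h5, zero_mul, ite_self]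
      · have hcop : n.Coprime (m * N) := (hp.coprime_iff_not_dvd).mpr hQn
        have hnN : ¬ n ∣ N := fun h => hQn (h.trans (Nat.dvd_mul_left N m))
        have h3 : Ψ (n : ZMod (m * N)) = (x.1 * y.1⁻¹) (n : ZMod m) := changeLevel_apply_nat hd _ hcop
        simp only [Set.indicator, Set.mem_ofPred_eq, hp, hnN, h3, not_false_eq_true, and_self, if_true]
    · simp [Set.indicator, hp]

/-- The twisted bilinear edge inequality. -/
theorem bilinearM [NeZero m] {N i b : ℕ} {P : ℕ → Polynomial ℂ} (H : Hyp N i b P)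
    (S S' : Finset (DirichletCharacter ℂ m × ℝ)) :
    ∃ C : ℝ, ∀ η : ℝ, 0 < η → η ≤ 1 → ∀ v w : DirichletCharacter ℂ m × ℝ → ℝ,
      |∑ x ∈ S, ∑ y ∈ S', v x * w y *
        Real.log ‖∏' p : Idx N, ((P p).eval ((x.1 * y.1⁻¹) ((p:ℕ) : ZMod m) *
          (p:ℂ)^(-(1 + (i:ℂ)/2 + (η:ℂ) + ((x.2 - y.2 : ℝ):ℂ) * I))))⁻¹‖|
      ≤ (b * Real.log (1/η) + C) * (Real.sqrt (∑ x ∈ S, v x ^ 2) * Real.sqrt (∑ y ∈ S', w y ^ 2)) := by
  classical
  obtain ⟨C1, hC1, hq1⟩ := quad (N := N) S (fun x => gx x) (fun x p => gx_norm_le x p)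
    (fun x y => crossM H.N0 x y)
  obtain ⟨C2, hC2, hq2⟩ := quad (N := N) S' (fun x => gx x) (fun x p => gx_norm_le x p)
    (fun x y => crossM H.N0 x y)
  set B0 : ℝ := b * ∑' p : Idx N, ((p:ℝ)^2)⁻¹ with hB0
  have hB0pos : 0 ≤ B0 := mul_nonneg (Nat.cast_nonneg _) (tsum_nonneg fun p => by positivity)
  refine ⟨b * (C1 + C2) + S.card * S'.card * B0, ?_⟩
  intro η h0 h1 v w
  set nv := Real.sqrt (∑ x ∈ S, v x ^ 2) with hnv
  set nw := Real.sqrt (∑ y ∈ S', w y ^ 2) with hnw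
  have hl : 0 ≤ Real.log (1/η) := by
    apply Real.log_nonneg
    rw [le_div_iff₀ h0]
    linarith
  have hnv0 : 0 ≤ nv := Real.sqrt_nonneg _
  have hnw0 : 0 ≤ nw := Real.sqrt_nonneg _
  set X : DirichletCharacter ℂ m × ℝ → DirichletCharacter ℂ m × ℝ → ℝ := fun x y =>
    Real.log ‖∏' p : Idx N, ((P p).eval ((x.1 * y.1⁻¹) ((p:ℕ) : ZMod m) *
          (p:ℂ)^(-(1 + (i:ℂ)/2 + (η:ℂ) + ((x.2 - y.2 : ℝ):ℂ) * I))))⁻¹‖ with hX
  set Y : DirichletCharacter ℂ m × ℝ → DirichletCharacter ℂ m × ℝ → ℝ := fun x y =>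
    (∑' p : Idx N, (q p η : ℂ) * (nt P i p * (gx x p * (starRingEnd ℂ) (gx y p)))).re with hY
  have hre : ∀ θ : ℝ, 1 + (i:ℝ)/2 < (1 + (i:ℂ)/2 + (η:ℂ) + ((θ : ℝ):ℂ) * I).re := by
    intro θ
    simp
    exact h0
  have hXY : ∀ x y, |X x y - Y x y| ≤ B0 := by
    intro x y
    have h2 := log_norm_L (hyp_tw H (ψ := fun n : ℕ => (x.1 * y.1⁻¹) (n : ZMod m))
      (fun n => DirichletCharacter.norm_le_one _ _)) (hre (x.2 - y.2))
    simp only [tw_eval] at h2
    have h3 : (∑' p : Idx N, tr (tw (P p) ((x.1 * y.1⁻¹) ((p:ℕ) : ZMod m))) *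
        (p:ℂ)^(-(1 + (i:ℂ)/2 + (η:ℂ) + ((x.2 - y.2 : ℝ):ℂ) * I))).re = Y x y := by
      rw [hY]
      simp only
      congr 1
      apply tsum_congr
      intro p
      rw [cpow_split', tr_tw _ (H.h0 p p.2.1 p.2.2), nt, gx_dv]
      ring
    rw [h3] at h2
    exact h2
  have hsY : ∀ x y : DirichletCharacter ℂ m × ℝ, Summable (fun p : Idx N => (q p η : ℂ) * (nt P i p * (gx x p * (starRingEnd ℂ) (gx y p)))) := by
    intro x y
    refine Summable.of_norm_bounded ((summable_q N h0).mul_right (b:ℝ)) (fun p => ?_)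
    rw [norm_mul, norm_mul, Complex.norm_real, Real.norm_of_nonneg (q_pos p η).le]
    apply mul_le_mul_of_nonneg_left _ (q_pos p η).le
    have h2 : ‖gx x p * (starRingEnd ℂ) (gx y p)‖ ≤ 1 := by
      rw [norm_mul, RCLike.norm_conj]
      exact mul_le_one₀ (gx_norm_le x p) (norm_nonneg _) (gx_norm_le y p)
    calc ‖nt P i p‖ * ‖gx x p * (starRingEnd ℂ) (gx y p)‖ ≤ b * 1 :=
          mul_le_mul (nt_norm_le H p) h2 (norm_nonneg _) (Nat.cast_nonneg _)
      _ = b := mul_one _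
  obtain ⟨hsv, hbv⟩ := hq1 η h0 h1 v
  obtain ⟨hsw, hbw⟩ := hq2 η h0 h1 w
  have hmain : ∑ x ∈ S, ∑ y ∈ S', v x * w y * Y x y =
      (∑' p : Idx N, (q p η : ℂ) * ((nt P i p * ∑ x ∈ S, (v x : ℂ) * gx x p) *
        (starRingEnd ℂ) (∑ y ∈ S', (w y : ℂ) * gx y p))).re := by
    have e1 : ∀ p : Idx N, (q p η : ℂ) * ((nt P i p * ∑ x ∈ S, (v x : ℂ) * gx x p) *
        (starRingEnd ℂ) (∑ y ∈ S', (w y : ℂ) * gx y p)) =
        ∑ x ∈ S, ∑ y ∈ S', ((v x * w y : ℝ) : ℂ) * ((q p η : ℂ) * (nt P i p * (gx x p * (starRingEnd ℂ) (gx y p)))) := by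
      intro p
      rw [map_sum, mul_assoc (nt P i p), Finset.sum_mul_sum, Finset.mul_sum, Finset.mul_sum]
      apply Finset.sum_congr rfl
      intro x _
      rw [Finset.mul_sum, Finset.mul_sum]
      apply Finset.sum_congr rfl
      intro y _
      rw [map_mul, Complex.conj_ofReal]
      push_cast
      ring
    simp_rw [e1]
    rw [Summable.tsum_finsetSum (fun x _ => summable_sum (fun y _ => (hsY x y).mul_left _)), Complex.re_sum]
    apply Finset.sum_congr rfl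
    intro x _
    rw [Summable.tsum_finsetSum (fun y _ => (hsY x y).mul_left _), Complex.re_sum]
    apply Finset.sum_congr rfl
    intro y _
    rw [tsum_mul_left, Complex.re_ofReal_mul]
  have hns : ∀ p : Idx N, q p η * ‖nt P i p * ∑ x ∈ S, (v x : ℂ) * gx x p‖ ^ 2 ≤
      (b:ℝ) ^ 2 * (q p η * ‖∑ x ∈ S, (v x : ℂ) * gx x p‖ ^ 2) := by
    intro p
    rw [norm_mul, mul_pow]
    have h3 : ‖nt P i p‖ ^ 2 ≤ (b:ℝ) ^ 2 := pow_le_pow_left₀ (norm_nonneg _) (nt_norm_le H p) 2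
    have h4 : 0 ≤ q p η * ‖∑ x ∈ S, (v x : ℂ) * gx x p‖ ^ 2 := by
      have := (q_pos p η).le
      positivity
    calc q p η * (‖nt P i p‖ ^ 2 * ‖∑ x ∈ S, (v x : ℂ) * gx x p‖ ^ 2)
        = ‖nt P i p‖ ^ 2 * (q p η * ‖∑ x ∈ S, (v x : ℂ) * gx x p‖ ^ 2) := by ring
      _ ≤ _ := mul_le_mul_of_nonneg_right h3 h4
  have hsa : Summable (fun p : Idx N => q p η * ‖nt P i p * ∑ x ∈ S, (v x : ℂ) * gx x p‖ ^ 2) :=
    Summable.of_nonneg_of_le (fun p => by have := (q_pos p η).le; positivity) hns (hsv.mul_left _)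
  have hmb : |∑ x ∈ S, ∑ y ∈ S', v x * w y * Y x y| ≤ b * (Real.log (1/η) + (C1 + C2)) * (nv * nw) := by
    rw [hmain]
    refine (Pool.H42.HW.dual (fun p => nt P i p * ∑ x ∈ S, (v x : ℂ) * gx x p)
      (fun p => (starRingEnd ℂ) (∑ y ∈ S', (w y : ℂ) * gx y p)) η hsa (by simpa only [RCLike.norm_conj] using hsw)).trans ?_
    simp only [RCLike.norm_conj]
    have k1 : Real.sqrt (∑' p : Idx N, q p η * ‖nt P i p * ∑ x ∈ S, (v x : ℂ) * gx x p‖ ^ 2) ≤
        b * (Real.sqrt (Real.log (1/η) + (C1 + C2)) * nv) := by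
      have h3 : ∑' p : Idx N, q p η * ‖nt P i p * ∑ x ∈ S, (v x : ℂ) * gx x p‖ ^ 2 ≤
          (b:ℝ) ^ 2 * ((Real.log (1/η) + (C1 + C2)) * ∑ x ∈ S, v x ^ 2) := by
        refine (hsa.tsum_le_tsum hns (hsv.mul_left _)).trans ?_
        rw [tsum_mul_left]
        apply mul_le_mul_of_nonneg_left _ (by positivity)
        refine hbv.trans ?_
        apply mul_le_mul_of_nonneg_right _ (Finset.sum_nonneg fun _ _ => sq_nonneg _)
        linarith
      refine (Real.sqrt_le_sqrt h3).trans (le_of_eq ?_)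
      rw [Real.sqrt_mul (by positivity), Real.sqrt_sq (Nat.cast_nonneg _), Real.sqrt_mul (by linarith)]
    have k2 : Real.sqrt (∑' p : Idx N, q p η * ‖∑ y ∈ S', (w y : ℂ) * gx y p‖ ^ 2) ≤
        Real.sqrt (Real.log (1/η) + (C1 + C2)) * nw := by
      rw [hnw, ← Real.sqrt_mul (by linarith)]
      apply Real.sqrt_le_sqrt
      refine hbw.trans ?_
      apply mul_le_mul_of_nonneg_right _ (Finset.sum_nonneg fun _ _ => sq_nonneg _)
      linarith
    refine (mul_le_mul k1 k2 (Real.sqrt_nonneg _) (by positivity)).trans ?_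
    have k3 : Real.sqrt (Real.log (1/η) + (C1 + C2)) * Real.sqrt (Real.log (1/η) + (C1 + C2)) = Real.log (1/η) + (C1 + C2) :=
      Real.mul_self_sqrt (by linarith)
    calc b * (Real.sqrt (Real.log (1/η) + (C1 + C2)) * nv) * (Real.sqrt (Real.log (1/η) + (C1 + C2)) * nw)
        = b * (Real.sqrt (Real.log (1/η) + (C1 + C2)) * Real.sqrt (Real.log (1/η) + (C1 + C2))) * (nv * nw) := by ring
      _ ≤ _ := by rw [k3]
  have herr : |∑ x ∈ S, ∑ y ∈ S', v x * w y * (X x y - Y x y)| ≤ S.card * S'.card * B0 * (nv * nw) := by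
    refine (Finset.abs_sum_le_sum_abs _ _).trans ?_
    have e1 : ∀ x ∈ S, |∑ y ∈ S', v x * w y * (X x y - Y x y)| ≤ S'.card * (B0 * (nv * nw)) := by
      intro x hx
      refine (Finset.abs_sum_le_sum_abs _ _).trans ?_
      rw [← nsmul_eq_mul]
      apply Finset.sum_le_card_nsmul
      intro y hy
      rw [abs_mul, abs_mul]
      have a1 : |v x| ≤ nv := by
        rw [hnv]
        apply Real.abs_le_sqrt
        exact Finset.single_le_sum (fun t _ => sq_nonneg (v t)) hx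
      have a2 : |w y| ≤ nw := by
        rw [hnw]
        apply Real.abs_le_sqrt
        exact Finset.single_le_sum (fun t _ => sq_nonneg (w t)) hy
      have a3 := hXY x y
      calc |v x| * |w y| * |X x y - Y x y| ≤ nv * nw * B0 := by gcongr
        _ = B0 * (nv * nw) := by ring
    refine (Finset.sum_le_card_nsmul _ _ _ e1).trans ?_
    rw [nsmul_eq_mul]
    apply le_of_eq
    ring
  have hsplit : ∑ x ∈ S, ∑ y ∈ S', v x * w y * X x y =
      ∑ x ∈ S, ∑ y ∈ S', v x * w y * Y x y + ∑ x ∈ S, ∑ y ∈ S', v x * w y * (X x y - Y x y) := by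
    rw [← Finset.sum_add_distrib]
    apply Finset.sum_congr rfl
    intro x _
    rw [← Finset.sum_add_distrib]
    apply Finset.sum_congr rfl
    intro y _
    ring
  calc |∑ x ∈ S, ∑ y ∈ S', v x * w y * X x y|
      ≤ b * (Real.log (1/η) + (C1 + C2)) * (nv * nw) + S.card * S'.card * B0 * (nv * nw) := by
        rw [hsplit]
        exact (abs_add_le _ _).trans (add_le_add hmb herr)
    _ = (b * Real.log (1/η) + (b * (C1 + C2) + S.card * S'.card * B0)) * (nv * nw) := by ring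

end Pool.Agent.H91.EdgeTw
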