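import Mathlib
import Pool.Agent.H91.Edge.TwBil

open Complex Filter Topology

namespace Pool.Agent.H91.EdgeTw

open Pool.Agent.H89.EdgeBasic Pool.Agent.H89.EdgeOrd Pool.H42.HW

variable {m : ℕ}

/-- the convolution operator with the orders has norm at most `b` (real vectors) -/
lemma starM [NeZero m] {N i b : ℕ} {P : ℕ → Polynomial ℂ} (H : Hyp N i b P)
    (n : DirichletCharacter ℂ m → ℝ → ℝ)
    (hn : ∀ (χ : DirichletCharacter ℂ m) (θ : ℝ), Tendsto (fun η : ℝ =>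
      Real.log ‖∏' p : Idx N, ((P p).eval (χ ((p:ℕ) : ZMod m) *
        (p:ℂ)^(-(1 + (i:ℂ)/2 + (η:ℂ) + ((θ : ℝ):ℂ) * I))))⁻¹‖
        / Real.log (1/η)) (𝓝[>] 0) (𝓝 (-(n χ θ))))
    (S S' : Finset (DirichletCharacter ℂ m × ℝ)) (v w : DirichletCharacter ℂ m × ℝ → ℝ) :
    |∑ x ∈ S, ∑ y ∈ S', v x * w y * n (x.1 * y.1⁻¹) (x.2 - y.2)| ≤
      b * (Real.sqrt (∑ x ∈ S, v x ^ 2) * Real.sqrt (∑ y ∈ S', w y ^ 2)) := by
  obtain ⟨C, hC⟩ := bilinearM H S S'
  set D := Real.sqrt (∑ x ∈ S, v x ^ 2) * Real.sqrt (∑ y ∈ S', w y ^ 2) with hD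
  have h1 : Tendsto (fun η : ℝ => |∑ x ∈ S, ∑ y ∈ S', v x * w y *
      (Real.log ‖∏' p : Idx N, ((P p).eval ((x.1 * y.1⁻¹) ((p:ℕ) : ZMod m) *
        (p:ℂ)^(-(1 + (i:ℂ)/2 + (η:ℂ) + ((x.2 - y.2 : ℝ):ℂ) * I))))⁻¹‖
        / Real.log (1/η))|) (𝓝[>] 0) (𝓝 |∑ x ∈ S, ∑ y ∈ S', v x * w y * (-(n (x.1 * y.1⁻¹) (x.2 - y.2)))|) := by
    apply Tendsto.abs
    apply tendsto_finsetSum
    intro x _
    apply tendsto_finsetSum
    intro y _
    exact (hn (x.1 * y.1⁻¹) (x.2 - y.2)).const_mul _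
  have h2 : Tendsto (fun η : ℝ => ((b:ℝ) + C / Real.log (1/η)) * D) (𝓝[>] 0) (𝓝 (((b:ℝ) + 0) * D)) := by
    apply Tendsto.mul_const
    apply Tendsto.add tendsto_const_nhds
    exact tendsto_const_nhds.div_atTop tendsto_log_inv
  have hlt : ∀ᶠ η : ℝ in 𝓝[>] 0, η < 1 := by
    have : ∀ᶠ η : ℝ in 𝓝 0, η < 1 := gt_mem_nhds one_pos
    exact nhdsWithin_le_nhds this
  have h3 := le_of_tendsto_of_tendsto h1 h2 (by
    filter_upwards [self_mem_nhdsWithin, hlt] with η h3 h4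
    have hη : 0 < η := h3
    have hlog : 0 < Real.log (1/η) := by
      apply Real.log_pos
      rw [lt_div_iff₀ hη]
      linarith
    have h5 := hC η hη h4.le v w
    have e : ∑ x ∈ S, ∑ y ∈ S', v x * w y *
      (Real.log ‖∏' p : Idx N, ((P p).eval ((x.1 * y.1⁻¹) ((p:ℕ) : ZMod m) *
        (p:ℂ)^(-(1 + (i:ℂ)/2 + (η:ℂ) + ((x.2 - y.2 : ℝ):ℂ) * I))))⁻¹‖
        / Real.log (1/η)) = (∑ x ∈ S, ∑ y ∈ S', v x * w y *
      Real.log ‖∏' p : Idx N, ((P p).eval ((x.1 * y.1⁻¹) ((p:ℕ) : ZMod m) *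
        (p:ℂ)^(-(1 + (i:ℂ)/2 + (η:ℂ) + ((x.2 - y.2 : ℝ):ℂ) * I))))⁻¹‖)
        / Real.log (1/η) := by
      rw [Finset.sum_div]
      apply Finset.sum_congr rfl
      intro x _
      rw [Finset.sum_div]
      apply Finset.sum_congr rfl
      intro y _
      ring
    rw [e, abs_div, abs_of_pos hlog, div_le_iff₀ hlog]
    have e3 : ((b:ℝ) + C / Real.log (1/η)) * D * Real.log (1/η) = (b * Real.log (1/η) + C) * D := by
      rw [add_mul, add_mul, add_mul, div_mul_eq_mul_div, div_mul_cancel₀ _ hlog.ne']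
      ring
    rw [e3]
    exact h5)
  rw [add_zero] at h3
  have e2 : ∑ x ∈ S, ∑ y ∈ S', v x * w y * (-(n (x.1 * y.1⁻¹) (x.2 - y.2))) =
      -∑ x ∈ S, ∑ y ∈ S', v x * w y * n (x.1 * y.1⁻¹) (x.2 - y.2) := by
    rw [← Finset.sum_neg_distrib]
    apply Finset.sum_congr rfl
    intro x _
    rw [← Finset.sum_neg_distrib]
    apply Finset.sum_congr rfl
    intro y _
    ring
  rwa [e2, abs_neg] at h3

/-- square-sum bound from the operator bound -/
lemma sq_boundM {b : ℕ} (n : DirichletCharacter ℂ m → ℝ → ℝ)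
    (hstar : ∀ (S S' : Finset (DirichletCharacter ℂ m × ℝ)) (v w : DirichletCharacter ℂ m × ℝ → ℝ),
      |∑ x ∈ S, ∑ y ∈ S', v x * w y * n (x.1 * y.1⁻¹) (x.2 - y.2)| ≤
      b * (Real.sqrt (∑ x ∈ S, v x ^ 2) * Real.sqrt (∑ y ∈ S', w y ^ 2)))
    (T : Finset (DirichletCharacter ℂ m × ℝ)) : ∑ x ∈ T, n x.1 x.2 ^ 2 ≤ (b:ℝ) ^ 2 := by
  have h := hstar T {(1, 0)} (fun x => n x.1 x.2) (fun _ => 1)
  simp only [Finset.sum_singleton, sub_zero, mul_one, one_pow, Real.sqrt_one, inv_one] at h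
  have e : ∑ x ∈ T, n x.1 x.2 * n x.1 x.2 = ∑ x ∈ T, n x.1 x.2 ^ 2 := Finset.sum_congr rfl (fun x _ => by ring)
  rw [e, abs_of_nonneg (Finset.sum_nonneg fun _ _ => sq_nonneg _)] at h
  set A := ∑ x ∈ T, n x.1 x.2 ^ 2 with hA
  have hA0 : 0 ≤ A := Finset.sum_nonneg fun _ _ => sq_nonneg _
  have h2 : Real.sqrt A * Real.sqrt A = A := Real.mul_self_sqrt hA0
  have h3 : Real.sqrt A ≤ b := by
    by_contra hcon
    push Not at hcon
    have h4 : 0 < Real.sqrt A := lt_of_le_of_lt (Nat.cast_nonneg _) hcon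
    nlinarith
  calc A = Real.sqrt A * Real.sqrt A := h2.symm
    _ ≤ b * b := mul_le_mul h3 h3 (Real.sqrt_nonneg _) (Nat.cast_nonneg _)
    _ = (b:ℝ)^2 := by ring

/-- sup-norm bound from the operator bound; `e` is a unitary character of the group -/
lemma sup_boundM [NeZero m] {b : ℕ} (n : DirichletCharacter ℂ m → ℝ → ℝ)
    (hstar : ∀ (S S' : Finset (DirichletCharacter ℂ m × ℝ)) (v w : DirichletCharacter ℂ m × ℝ → ℝ),
      |∑ x ∈ S, ∑ y ∈ S', v x * w y * n (x.1 * y.1⁻¹) (x.2 - y.2)| ≤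
      b * (Real.sqrt (∑ x ∈ S, v x ^ 2) * Real.sqrt (∑ y ∈ S', w y ^ 2)))
    (Z : Finset (DirichletCharacter ℂ m × ℝ)) (hZ : ∀ x, x ∉ Z → n x.1 x.2 = 0)
    (e : DirichletCharacter ℂ m × ℝ → ℂ) (he1 : ∀ x, ‖e x‖ = 1)
    (he : ∀ x y, e (x.1 * y.1⁻¹, x.2 - y.2) = e x * (starRingEnd ℂ) (e y)) (ω : ℂ) (hω : ‖ω‖ = 1) :
    ∑ x ∈ Z, n x.1 x.2 * (ω * e x).re ≤ b := by
  classical
  have hfinG : Finite (DirichletCharacter ℂ m) := inferInstance
  have : Fintype (DirichletCharacter ℂ m) := Fintype.ofFinite _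
  set U : Finset (DirichletCharacter ℂ m) := Finset.univ with hU
  have hU0 : (0:ℝ) < U.card := by
    have : 0 < U.card := Finset.card_pos.mpr ⟨1, Finset.mem_univ _⟩
    exact_mod_cast this
  have key : ∀ ε : ℝ, 0 < ε → ∑ x ∈ Z, n x.1 x.2 * (ω * e x).re ≤ b * Real.sqrt (1 + ε) := by
    intro ε hε
    obtain ⟨B, B', hne, hadd, hcard⟩ := folner (Z.image Prod.snd) ε hε
    have hBpos : (0:ℝ) < B.card := by exact_mod_cast hne.card_pos
    set S := U ×ˢ B' with hS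
    set S' := U ×ˢ B with hS'
    have h1 := hstar S S' (fun x => (ω * e x).re) (fun y => (e y).re)
    have h2 := hstar S S' (fun x => (ω * e x).im) (fun y => (e y).im)
    have hsum : ∑ x ∈ S, ∑ y ∈ S', ((ω * e x).re * (e y).re * n (x.1 * y.1⁻¹) (x.2 - y.2)
        + (ω * e x).im * (e y).im * n (x.1 * y.1⁻¹) (x.2 - y.2)) =
        S'.card * ∑ x ∈ Z, n x.1 x.2 * (ω * e x).re := by
      rw [Finset.sum_comm, ← nsmul_eq_mul, ← Finset.sum_const]
      apply Finset.sum_congr rfl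
      intro y hy
      have e1 : ∀ x : DirichletCharacter ℂ m × ℝ, (ω * e x).re * (e y).re * n (x.1 * y.1⁻¹) (x.2 - y.2)
        + (ω * e x).im * (e y).im * n (x.1 * y.1⁻¹) (x.2 - y.2) =
          n (x.1 * y.1⁻¹) (x.2 - y.2) * (ω * e (x.1 * y.1⁻¹, x.2 - y.2)).re := by
        intro x
        rw [he, ← mul_assoc, Complex.mul_re (ω * e x), Complex.conj_re, Complex.conj_im]
        ring
      simp_rw [e1]
      have e2 : ∑ x ∈ Z.image (fun z : DirichletCharacter ℂ m × ℝ => (z.1 * y.1, z.2 + y.2)),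
          n (x.1 * y.1⁻¹) (x.2 - y.2) * (ω * e (x.1 * y.1⁻¹, x.2 - y.2)).re =
          ∑ x ∈ Z, n x.1 x.2 * (ω * e x).re := by
        rw [Finset.sum_image]
        · apply Finset.sum_congr rfl
          intro z _
          simp only [mul_inv_cancel_right, add_sub_cancel_right]
        · intro a _ c _ h
          simp only [Prod.mk.injEq] at h
          exact Prod.ext (mul_right_cancel h.1) (by linarith [h.2])
      rw [← e2]
      symm
      apply Finset.sum_subset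
      · intro x hx
        rw [Finset.mem_image] at hx
        obtain ⟨z, hz, rfl⟩ := hx
        rw [hS, Finset.mem_product]
        refine ⟨Finset.mem_univ _, ?_⟩
        rw [hS', Finset.mem_product] at hy
        have := hadd z.2 (Finset.mem_image_of_mem _ hz) y.2 hy.2
        rw [add_comm] at this
        exact this
      · intro x _ hx
        have : (x.1 * y.1⁻¹, x.2 - y.2) ∉ Z := by
          intro hmem
          apply hx
          rw [Finset.mem_image]
          exact ⟨_, hmem, Prod.ext (by simp) (by simp)⟩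
        have h0 := hZ _ this
        simp only at h0
        rw [h0, zero_mul]
    simp_rw [Finset.sum_add_distrib] at hsum
    set c1 := ∑ x ∈ S, (ω * e x).re ^ 2 with hc1
    set c2 := ∑ x ∈ S, (ω * e x).im ^ 2 with hc2
    set d1 := ∑ y ∈ S', (e y).re ^ 2 with hd1
    set d2 := ∑ y ∈ S', (e y).im ^ 2 with hd2
    have hc1n : 0 ≤ c1 := Finset.sum_nonneg fun _ _ => sq_nonneg _
    have hc2n : 0 ≤ c2 := Finset.sum_nonneg fun _ _ => sq_nonneg _
    have hd1n : 0 ≤ d1 := Finset.sum_nonneg fun _ _ => sq_nonneg _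
    have hd2n : 0 ≤ d2 := Finset.sum_nonneg fun _ _ => sq_nonneg _
    have hunit : ∀ z : ℂ, ‖z‖ = 1 → z.re ^ 2 + z.im ^ 2 = 1 := by
      intro z hz
      have := Complex.sq_norm z
      rw [hz, Complex.normSq_apply] at this
      nlinarith
    have hc : c1 + c2 = S.card := by
      rw [hc1, hc2, ← Finset.sum_add_distrib]
      have : ∀ x ∈ S, (ω * e x).re ^ 2 + (ω * e x).im ^ 2 = 1 := by
        intro x _
        apply hunit
        rw [norm_mul, hω, he1, one_mul]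
      rw [Finset.sum_congr rfl this]
      simp
    have hd : d1 + d2 = S'.card := by
      rw [hd1, hd2, ← Finset.sum_add_distrib]
      have : ∀ x ∈ S', (e x).re ^ 2 + (e x).im ^ 2 = 1 := fun x _ => hunit _ (he1 x)
      rw [Finset.sum_congr rfl this]
      simp
    have hcs : Real.sqrt c1 * Real.sqrt d1 + Real.sqrt c2 * Real.sqrt d2 ≤ Real.sqrt (c1 + c2) * Real.sqrt (d1 + d2) := by
      rw [← Real.sqrt_mul (show 0 ≤ c1 + c2 by linarith) (d1 + d2)]
      apply Real.le_sqrt_of_sq_le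
      have a1 := Real.mul_self_sqrt hc1n
      have a2 := Real.mul_self_sqrt hc2n
      have a3 := Real.mul_self_sqrt hd1n
      have a4 := Real.mul_self_sqrt hd2n
      have a5 := sq_nonneg (Real.sqrt c1 * Real.sqrt d2 - Real.sqrt c2 * Real.sqrt d1)
      calc (Real.sqrt c1 * Real.sqrt d1 + Real.sqrt c2 * Real.sqrt d2) ^ 2
          ≤ (Real.sqrt c1 * Real.sqrt d1 + Real.sqrt c2 * Real.sqrt d2) ^ 2 + (Real.sqrt c1 * Real.sqrt d2 - Real.sqrt c2 * Real.sqrt d1) ^ 2 := by linarith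
        _ = (Real.sqrt c1 * Real.sqrt c1 + Real.sqrt c2 * Real.sqrt c2) * (Real.sqrt d1 * Real.sqrt d1 + Real.sqrt d2 * Real.sqrt d2) := by ring
        _ = _ := by rw [a1, a2, a3, a4]
    have h3 : S'.card * ∑ x ∈ Z, n x.1 x.2 * (ω * e x).re ≤ b * (Real.sqrt (S.card) * Real.sqrt (S'.card)) := by
      rw [← hsum]
      refine (add_le_add ((le_abs_self _).trans h1) ((le_abs_self _).trans h2)).trans ?_
      rw [← mul_add]
      apply mul_le_mul_of_nonneg_left _ (Nat.cast_nonneg _)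
      rw [← hc, ← hd]
      exact hcs
    have hScard : (S.card : ℝ) ≤ (1 + ε) * S'.card := by
      rw [hS, hS', Finset.card_product, Finset.card_product]
      push_cast
      calc (U.card : ℝ) * B'.card ≤ U.card * ((1 + ε) * B.card) := mul_le_mul_of_nonneg_left hcard hU0.le
        _ = _ := by ring
    have hS'pos : (0:ℝ) < S'.card := by
      rw [hS', Finset.card_product]
      push_cast
      positivity
    have h4 : Real.sqrt (S.card) ≤ Real.sqrt (1 + ε) * Real.sqrt (S'.card) := by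
      rw [← Real.sqrt_mul (by linarith)]
      exact Real.sqrt_le_sqrt hScard
    have h5 : Real.sqrt (S'.card) * Real.sqrt (S'.card) = S'.card := Real.mul_self_sqrt hS'pos.le
    have h6 : S'.card * ∑ x ∈ Z, n x.1 x.2 * (ω * e x).re ≤ S'.card * (b * Real.sqrt (1 + ε)) := by
      refine h3.trans ?_
      calc b * (Real.sqrt (S.card) * Real.sqrt (S'.card)) ≤ b * ((Real.sqrt (1 + ε) * Real.sqrt (S'.card)) * Real.sqrt (S'.card)) := by
            gcongr
        _ = b * Real.sqrt (1 + ε) * (Real.sqrt (S'.card) * Real.sqrt (S'.card)) := by ring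
        _ = S'.card * (b * Real.sqrt (1 + ε)) := by rw [h5]; ring
    exact le_of_mul_le_mul_left h6 hS'pos
  have hlim : Tendsto (fun ε : ℝ => (b:ℝ) * Real.sqrt (1 + ε)) (𝓝[>] 0) (𝓝 ((b:ℝ) * Real.sqrt (1 + 0))) := by
    have : ContinuousAt (fun ε : ℝ => (b:ℝ) * Real.sqrt (1 + ε)) 0 := by fun_prop
    exact this.tendsto.mono_left nhdsWithin_le_nhds
  rw [add_zero, Real.sqrt_one, mul_one] at hlim
  refine ge_of_tendsto hlim ?_
  filter_upwards [self_mem_nhdsWithin] with ε hε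
  exact key ε hε

end Pool.Agent.H91.EdgeTw
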