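import Mathlib

open Filter Topology Metric MeasureTheory
open scoped ENNReal NNReal

namespace Pool.Agent.H91.Edge

lemma ediam_cb (x r : ℝ) : ediam (closedBall x r) = ENNReal.ofReal (2 * r) := by
  rw [Real.closedBall_eq_Icc, Real.ediam_Icc]
  congr 1
  ring

/-- limsup sets covered by few small balls have dimension zero -/
lemma dimH_limsup (S : ℕ → Finset ℝ) (r : ℕ → ℝ) (hr : ∀ k, 0 ≤ r k)
    (hr0 : Antitone r) (hr1 : Tendsto r atTop (𝓝 0)) (E : Set ℝ)
    (hE : ∀ m : ℕ, ∀ x ∈ E, ∃ k, ∃ s ∈ S (k + m), |x - s| ≤ r (k + m))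
    (hsum : ∀ δ : ℝ, 0 < δ → Summable fun k => ((S k).card : ℝ) * (2 * r k) ^ δ) :
    dimH E = 0 := by
  have key : ∀ δ : ℝ≥0, 0 < δ → μH[(δ:ℝ)] E = 0 := by
    intro δ hδ
    have hδ' : (0:ℝ) < δ := by exact_mod_cast hδ
    have h1 := Measure.hausdorffMeasure_le_liminf_tsum (β := ℕ)
      (ι := fun m => Σ k : ℕ, {x // x ∈ S (k + m)}) (δ:ℝ) E (l := atTop)
      (fun m => ENNReal.ofReal (2 * r m))
      (by
        have : Tendsto (fun m => ENNReal.ofReal (2 * r m)) atTop (𝓝 (ENNReal.ofReal (2 * 0))) :=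
          ENNReal.tendsto_ofReal (hr1.const_mul 2)
        simpa using this)
      (fun m i => closedBall (i.2 : ℝ) (r (i.1 + m)))
      (Filter.Eventually.of_forall fun m i => by
        rw [ediam_cb]
        apply ENNReal.ofReal_le_ofReal
        have := hr0 (show m ≤ i.1 + m by omega)
        linarith)
      (Filter.Eventually.of_forall fun m x hx => by
        obtain ⟨k, s, hs, hxs⟩ := hE m x hx
        rw [Set.mem_iUnion]
        refine ⟨⟨k, ⟨s, hs⟩⟩, ?_⟩
        rw [mem_closedBall, Real.dist_eq]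
        exact hxs)
    set F : ℕ → ℝ≥0∞ := fun k => ENNReal.ofReal (((S k).card : ℝ) * (2 * r k) ^ (δ:ℝ)) with hF
    have h2 : ∀ m, ∑' i : (Σ k : ℕ, {x // x ∈ S (k + m)}),
        (ediam (closedBall (i.2 : ℝ) (r (i.1 + m)))) ^ (δ:ℝ) = ∑' k, F (k + m) := by
      intro m
      rw [ENNReal.tsum_sigma']
      apply tsum_congr
      intro k
      rw [tsum_fintype]
      simp only [ediam_cb, Finset.sum_const, Finset.card_univ, Fintype.card_coe, nsmul_eq_mul]
      rw [hF]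
      simp only
      rw [ENNReal.ofReal_mul (Nat.cast_nonneg _), ENNReal.ofReal_natCast,
        ENNReal.ofReal_rpow_of_nonneg (mul_nonneg (by norm_num) (hr _)) hδ'.le]
    have h3 : ∑' k, F k ≠ ∞ := by
      have h4 : Summable fun k => ((S k).card : ℝ) * (2 * r k) ^ (δ:ℝ) := hsum δ hδ'
      have h5 : ∀ k, 0 ≤ ((S k).card : ℝ) * (2 * r k) ^ (δ:ℝ) := fun k =>
        mul_nonneg (Nat.cast_nonneg _) (Real.rpow_nonneg (mul_nonneg (by norm_num) (hr k)) _)
      rw [hF, ← ENNReal.ofReal_tsum_of_nonneg h5 h4]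
      exact ENNReal.ofReal_ne_top
    have h4 := ENNReal.tendsto_sum_nat_add F h3
    have h5 : liminf (fun m => ∑' i : (Σ k : ℕ, {x // x ∈ S (k + m)}),
        (ediam (closedBall (i.2 : ℝ) (r (i.1 + m)))) ^ (δ:ℝ)) atTop = 0 := by
      simp_rw [h2]
      exact h4.liminf_eq
    rw [h5] at h1
    exact le_antisymm h1 zero_le
  apply le_antisymm _ zero_le
  apply dimH_le
  intro d' hd'
  rcases eq_or_lt_of_le (zero_le (a := d')) with h | h
  · rw [← h]
    simp
  · rw [key d' h] at hd'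
    exact absurd hd' (by simp)

/-- bounded separated subsets imply a small cover -/
lemma cover_of_sep (E : Set ℝ) (r : ℝ) (hr : 0 ≤ r) (N : ℕ)
    (hN : ∀ S : Finset ℝ, (↑S : Set ℝ) ⊆ E → (∀ t ∈ S, ∀ t' ∈ S, t ≠ t' → r ≤ |t - t'|) →
      S.card ≤ N) :
    ∃ S : Finset ℝ, S.card ≤ N ∧ ∀ x ∈ E, ∃ s ∈ S, |x - s| ≤ r := by
  classical
  let Q : ℕ → Prop := fun m => ∃ S : Finset ℝ, (↑S : Set ℝ) ⊆ E ∧
    (∀ t ∈ S, ∀ t' ∈ S, t ≠ t' → r ≤ |t - t'|) ∧ S.card = m
  have hQ0 : Q 0 := ⟨∅, by simp, by simp, by simp⟩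
  have hQN : ∀ m, Q m → m ≤ N := by
    rintro m ⟨S, h1, h2, h3⟩
    rw [← h3]
    exact hN S h1 h2
  obtain ⟨m, hm, hmax⟩ : ∃ m, Q m ∧ ∀ m', Q m' → m' ≤ m := by
    refine ⟨Nat.findGreatest Q N, ?_, ?_⟩
    · exact Nat.findGreatest_spec (Nat.zero_le N) hQ0
    · intro m' hm'
      exact Nat.le_findGreatest (hQN m' hm') hm'
  obtain ⟨S, h1, h2, h3⟩ := hm
  refine ⟨S, ?_, ?_⟩
  · rw [h3]
    exact hQN m ⟨S, h1, h2, h3⟩
  intro x hx
  by_contra hcon
  push Not at hcon
  have hxS : x ∉ S := by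
    intro h
    have := hcon x h
    simp at this
    linarith
  have : Q (m + 1) := by
    refine ⟨insert x S, ?_, ?_, ?_⟩
    · intro y hy
      simp at hy
      rcases hy with rfl | hy
      · exact hx
      · exact h1 hy
    · intro t ht t' ht' hne
      rw [Finset.mem_insert] at ht ht'
      rcases ht with rfl | ht <;> rcases ht' with rfl | ht'
      · exact absurd rfl hne
      · exact (hcon t' ht').le
      · rw [abs_sub_comm]
        exact (hcon t ht).le
      · exact h2 t ht t' ht' hne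
    · rw [Finset.card_insert_of_notMem hxS, h3]
  have := hmax _ this
  omega

end Pool.Agent.H91.Edge
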