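import Mathlib

open Filter Topology

namespace Pool.Agent.H91.Edge

/-- Karamata's one-sided polynomial approximation -/
lemma karamata_approx {c : ℝ} (hc0 : 0 < c) (hc1 : c < 1) {ε : ℝ} (hε : 0 < ε) :
    ∃ p q : Polynomial ℝ, (∀ x ∈ Set.Icc (0:ℝ) 1,
        |(if c ≤ x then (1:ℝ) else 0) - (x + x * (1 - x) * p.eval x)| ≤ x * (1 - x) * q.eval x) ∧
      (∀ x ∈ Set.Icc (0:ℝ) 1, 0 ≤ q.eval x) ∧
      ∫ x in (0:ℝ)..1, q.eval x ≤ ε := by
  set M : ℝ := 2 / c + 2 / (1 - c) with hM
  have hc2 : 0 < 1 - c := by linarith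
  have hMpos : 0 < M := by positivity
  set η : ℝ := ε / (4 + M) with hη
  have hη0 : 0 < η := by positivity
  set u : ℝ → ℝ := fun x => (max x (c/2))⁻¹ with hu
  set w : ℝ → ℝ := fun x => -(max (1 - x) ((1-c)/2))⁻¹ with hw
  set τ : ℝ → ℝ := fun x => max 0 (min 1 ((x - c) / η)) with hτ
  have hmx : ∀ x : ℝ, 0 < max x (c/2) := fun x => lt_of_lt_of_le (by linarith) (le_max_right _ _)
  have hmy : ∀ x : ℝ, 0 < max (1 - x) ((1-c)/2) := fun x => lt_of_lt_of_le (by linarith) (le_max_right _ _)
  have hucont : Continuous u := by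
    apply Continuous.inv₀
    · fun_prop
    · intro x; exact (hmx x).ne'
  have hwcont : Continuous w := by
    apply Continuous.neg
    apply Continuous.inv₀
    · fun_prop
    · intro x; exact (hmy x).ne'
  have hτcont : Continuous τ := by
    fun_prop
  have hu0 : ∀ x, 0 < u x := fun x => inv_pos.mpr (hmx x)
  have hw0 : ∀ x, w x < 0 := fun x => neg_lt_zero.mpr (inv_pos.mpr (hmy x))
  have hτ0 : ∀ x, 0 ≤ τ x := fun x => le_max_left _ _
  have hτ1 : ∀ x, τ x ≤ 1 := fun x => max_le zero_le_one (min_le_left _ _)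
  have huM : ∀ x, u x ≤ 2 / c := by
    intro x
    have : u x ≤ (c/2)⁻¹ := inv_anti₀ (by linarith) (le_max_right _ _)
    refine this.trans (le_of_eq ?_)
    field_simp
  have hwM : ∀ x, -w x ≤ 2 / (1 - c) := by
    intro x
    have : (max (1 - x) ((1-c)/2))⁻¹ ≤ ((1-c)/2)⁻¹ := inv_anti₀ (by linarith) (le_max_right _ _)
    simp only [hw, neg_neg]
    refine this.trans (le_of_eq ?_)
    field_simp
  -- polynomials
  obtain ⟨p1, hp1⟩ := exists_polynomial_near_of_continuousOn 0 1
    (fun x => w x + (u x - w x) * τ x - η) (by fun_prop) η hη0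
  obtain ⟨p2, hp2⟩ := exists_polynomial_near_of_continuousOn 0 1
    (fun x => w x + (u x - w x) * τ (x + η) + η) (by fun_prop) η hη0
  -- the step function
  set g : ℝ → ℝ := fun x => if c ≤ x then (1:ℝ) else 0 with hg
  set s : ℝ → ℝ := fun x => w x + (u x - w x) * g x with hs
  have hτg : ∀ x, τ x ≤ g x := by
    intro x
    simp only [hg]
    split_ifs with h
    · exact hτ1 x
    · push Not at h
      simp only [hτ]
      apply max_le le_rfl
      refine (min_le_right _ _).trans ?_
      exact div_nonpos_of_nonpos_of_nonneg (by linarith) hη0.le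
  have hgτ : ∀ x, g x ≤ τ (x + η) := by
    intro x
    simp only [hg]
    split_ifs with h
    · simp only [hτ]
      refine le_trans ?_ (le_max_right _ _)
      apply le_min le_rfl
      rw [le_div_iff₀ hη0]
      linarith
    · exact hτ0 _
  have h1 : ∀ x ∈ Set.Icc (0:ℝ) 1, p1.eval x ≤ s x := by
    intro x hx
    have := (abs_lt.mp (hp1 x hx)).2
    have h2 : (u x - w x) * τ x ≤ (u x - w x) * g x :=
      mul_le_mul_of_nonneg_left (hτg x) (by linarith [hu0 x, hw0 x])
    simp only [hs]
    linarith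
  have h2 : ∀ x ∈ Set.Icc (0:ℝ) 1, s x ≤ p2.eval x := by
    intro x hx
    have := (abs_lt.mp (hp2 x hx)).1
    have h2 : (u x - w x) * g x ≤ (u x - w x) * τ (x + η) :=
      mul_le_mul_of_nonneg_left (hgτ x) (by linarith [hu0 x, hw0 x])
    simp only [hs]
    linarith
  have h3 : ∀ x ∈ Set.Icc (0:ℝ) 1, g x = x + x * (1 - x) * s x := by
    intro x hx
    simp only [hs, hg]
    split_ifs with h
    · have e1 : u x = x⁻¹ := by
        simp only [hu]
        rw [max_eq_left (by linarith)]
      have hx0 : x ≠ 0 := by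
        intro h0
        linarith
      rw [mul_one, add_sub_cancel, e1]
      field_simp
      ring
    · push Not at h
      have e1 : w x = -(1 - x)⁻¹ := by
        simp only [hw]
        rw [max_eq_left (by linarith)]
      have hx0 : 1 - x ≠ 0 := by
        intro h0
        linarith
      rw [mul_zero, add_zero, e1]
      field_simp
      ring
  refine ⟨p1, p2 - p1, ?_, ?_, ?_⟩
  · intro x hx
    have hxx : 0 ≤ x * (1 - x) := mul_nonneg hx.1 (by linarith [hx.2])
    have e1 : (if c ≤ x then (1:ℝ) else 0) = x + x * (1 - x) * s x := h3 x hx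
    rw [e1]
    have e2 : x + x * (1 - x) * s x - (x + x * (1 - x) * p1.eval x) = x * (1 - x) * (s x - p1.eval x) := by ring
    rw [e2, abs_of_nonneg (mul_nonneg hxx (by linarith [h1 x hx])), Polynomial.eval_sub]
    exact mul_le_mul_of_nonneg_left (by linarith [h2 x hx]) hxx
  · intro x hx
    rw [Polynomial.eval_sub]
    linarith [h1 x hx, h2 x hx]
  · have hτcont' : Continuous fun x => τ (x + η) := hτcont.comp (continuous_id.add continuous_const)
    have e1 : ∫ x in (0:ℝ)..1, (p2 - p1).eval x ≤ ∫ x in (0:ℝ)..1, (4 * η + M * (τ (x + η) - τ x)) := by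
      apply intervalIntegral.integral_mono_on zero_le_one
      · exact (Polynomial.continuous _).intervalIntegrable _ _
      · apply Continuous.intervalIntegrable
        fun_prop
      · intro x hx
        rw [Polynomial.eval_sub]
        have a1 := (abs_lt.mp (hp1 x hx)).1
        have a2 := (abs_lt.mp (hp2 x hx)).2
        have a3 : (u x - w x) * (τ (x + η) - τ x) ≤ M * (τ (x + η) - τ x) := by
          apply mul_le_mul_of_nonneg_right
          · linarith [huM x, hwM x]
          · linarith [hτg x, hgτ x]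
        linarith
    have hi : ∀ a b : ℝ, IntervalIntegrable τ MeasureTheory.volume a b := fun a b => hτcont.intervalIntegrable _ _
    have e2 : ∫ x in (0:ℝ)..1, (4 * η + M * (τ (x + η) - τ x)) = 4 * η + M * ((∫ x in (0:ℝ)..1, τ (x + η)) - ∫ x in (0:ℝ)..1, τ x) := by
      have b1 : ∫ x in (0:ℝ)..1, M * (τ (x + η) - τ x) = M * ((∫ x in (0:ℝ)..1, τ (x + η)) - ∫ x in (0:ℝ)..1, τ x) := by
        rw [intervalIntegral.integral_const_mul, intervalIntegral.integral_sub (hτcont'.intervalIntegrable _ _) (hi _ _)]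
      rw [intervalIntegral.integral_add (by simp) ((Continuous.intervalIntegrable (by fun_prop) _ _)), b1]
      simp
    have e3 : ∫ x in (0:ℝ)..1, τ (x + η) = ∫ x in (0 + η)..(1 + η), τ x := by
      rw [intervalIntegral.integral_comp_add_right]
    have e4 : (∫ x in (0 + η)..(1 + η), τ x) - ∫ x in (0:ℝ)..1, τ x = (∫ x in (1:ℝ)..(1 + η), τ x) - ∫ x in (0:ℝ)..(0 + η), τ x := by
      have b1 := intervalIntegral.integral_add_adjacent_intervals (hi 0 (0 + η)) (hi (0 + η) (1 + η))
      have b2 := intervalIntegral.integral_add_adjacent_intervals (hi 0 1) (hi 1 (1 + η))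
      linarith
    have e5 : ∫ x in (1:ℝ)..(1 + η), τ x ≤ η := by
      have b1 : ∫ x in (1:ℝ)..(1 + η), τ x ≤ ∫ x in (1:ℝ)..(1 + η), (1:ℝ) := by
        apply intervalIntegral.integral_mono_on (by linarith) (hi _ _) (by simp)
        intro x _
        exact hτ1 x
      simpa using b1
    have e6 : 0 ≤ ∫ x in (0:ℝ)..(0 + η), τ x := by
      apply intervalIntegral.integral_nonneg (by linarith)
      intro x _
      exact hτ0 x
    rw [e2, e3, e4] at e1
    have e7 : M * ((∫ x in (1:ℝ)..(1 + η), τ x) - ∫ x in (0:ℝ)..(0 + η), τ x) ≤ M * η :=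
      mul_le_mul_of_nonneg_left (by linarith) hMpos.le
    calc _ ≤ 4 * η + M * ((∫ x in (1:ℝ)..(1 + η), τ x) - ∫ x in (0:ℝ)..(0 + η), τ x) := e1
      _ ≤ 4 * η + M * η := by linarith
      _ = (4 + M) * η := by ring
      _ = ε := by
        rw [hη]
        field_simp

end Pool.Agent.H91.Edge
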