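import Mathlib

open Complex Filter Topology

namespace Pool.Agent.H91.Edge


/-- `log p` at primes and `0` elsewhere -/
noncomputable def th (n : ℕ) : ℝ := if n.Prime then Real.log n else 0

lemma th_nonneg (n : ℕ) : 0 ≤ th n := by
  unfold th
  split_ifs with h
  · exact Real.log_nonneg (by exact_mod_cast h.one_lt.le)
  · exact le_rfl

/-- Dirichlet series -/
noncomputable def D (f : ℕ → ℂ) (s : ℂ) : ℂ := ∑' n : ℕ, f n * (n:ℂ)^(-s)

lemma term_eq {f : ℕ → ℂ} (h0 : f 0 = 0) (s : ℂ) (n : ℕ) :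
    LSeries.term f s n = f n * (n:ℂ)^(-s) := by
  rcases eq_or_ne n 0 with rfl | hn
  · simp [h0]
  · rw [LSeries.term_of_ne_zero hn, Complex.cpow_neg, div_eq_mul_inv]

lemma D_eq {f : ℕ → ℂ} (h0 : f 0 = 0) (s : ℂ) : D f s = LSeries f s := by
  unfold D LSeries
  exact tsum_congr fun n => (term_eq h0 s n).symm

lemma summable_D_iff {f : ℕ → ℂ} (h0 : f 0 = 0) (s : ℂ) :
    (Summable fun n : ℕ => f n * (n:ℂ)^(-s)) ↔ LSeriesSummable f s := by
  unfold LSeriesSummable
  have : LSeries.term f s = fun n : ℕ => f n * (n:ℂ)^(-s) := funext fun n => term_eq h0 s n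
  rw [this]

/-- the kernel -/
noncomputable def K (s : ℂ) : ℂ := D (fun n => (th n : ℂ)) s

lemma th_zero : th 0 = 0 := by simp [th, Nat.not_prime_zero]

lemma th_le_vonMangoldt (n : ℕ) : th n ≤ ArithmeticFunction.vonMangoldt n := by
  unfold th
  split_ifs with h
  · rw [ArithmeticFunction.vonMangoldt_apply_prime h]
  · exact ArithmeticFunction.vonMangoldt_nonneg

lemma norm_cpow_neg_nat {n : ℕ} (hn : 0 < n) (s : ℂ) : ‖(n:ℂ)^(-s)‖ = (n:ℝ)^(-s.re) := by
  have := Complex.norm_natCast_cpow_of_pos hn (-s)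
  simpa using this

lemma summable_vM {s : ℂ} (hs : 1 < s.re) :
    Summable fun n : ℕ => ((ArithmeticFunction.vonMangoldt n : ℝ) : ℂ) * (n:ℂ)^(-s) := by
  rw [summable_D_iff (f := fun n => ((ArithmeticFunction.vonMangoldt n : ℝ) : ℂ)) (by simp)]
  exact ArithmeticFunction.LSeriesSummable_vonMangoldt hs

lemma summable_th {s : ℂ} (hs : 1 < s.re) : Summable fun n : ℕ => (th n : ℂ) * (n:ℂ)^(-s) := by
  refine Summable.of_norm_bounded (summable_vM hs).norm ?_
  intro n
  rw [norm_mul, norm_mul]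
  apply mul_le_mul_of_nonneg_right _ (norm_nonneg _)
  rw [Complex.norm_real, Complex.norm_real, Real.norm_of_nonneg (th_nonneg n),
    Real.norm_of_nonneg ArithmeticFunction.vonMangoldt_nonneg]
  exact th_le_vonMangoldt n

lemma K_bound (T : ℝ) : ∃ C : ℝ, 0 ≤ C ∧ ∀ s : ℂ, 1 < s.re → s.re ≤ 2 → |s.im| ≤ T →
    ‖K s - 1 / (s - 1)‖ ≤ C := by
  have hcont := ArithmeticFunction.vonMangoldt.continuousOn_LFunctionResidueClassAux (q := 1) (0 : ZMod 1)
  have hcomp : IsCompact ((Set.Icc (1:ℝ) 2) ×ℂ (Set.Icc (-T) T)) := isCompact_Icc.reProdIm isCompact_Icc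
  have hsub : ((Set.Icc (1:ℝ) 2) ×ℂ (Set.Icc (-T) T)) ⊆ {s : ℂ | 1 ≤ s.re} := by
    intro s hs
    rw [Complex.mem_reProdIm] at hs
    exact hs.1.1
  obtain ⟨C, hC⟩ := hcomp.exists_bound_of_continuousOn (hcont.mono hsub)
  have hsum := ArithmeticFunction.vonMangoldt.summable_residueClass_non_primes_div (q := 1) (0 : ZMod 1)
  have hres : ∀ n : ℕ, ArithmeticFunction.vonMangoldt.residueClass (0 : ZMod 1) n
      = ArithmeticFunction.vonMangoldt n := by
    intro n
    simp only [ArithmeticFunction.vonMangoldt.residueClass]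
    rw [Set.indicator_of_mem]
    exact Subsingleton.elim _ _
  refine ⟨max C 0 + ∑' n : ℕ, (if n.Prime then 0 else
    ArithmeticFunction.vonMangoldt.residueClass (0 : ZMod 1) n) / (n:ℝ), ?_, ?_⟩
  · apply add_nonneg (le_max_right _ _)
    apply tsum_nonneg
    intro n
    apply div_nonneg _ (Nat.cast_nonneg _)
    split_ifs
    · exact le_rfl
    · exact ArithmeticFunction.vonMangoldt.residueClass_nonneg _ _
  intro s h1 h2 h3
  have hmem : s ∈ ((Set.Icc (1:ℝ) 2) ×ℂ (Set.Icc (-T) T)) := by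
    rw [Complex.mem_reProdIm]
    exact ⟨⟨h1.le, h2⟩, abs_le.mp h3⟩
  have h4 := hC s hmem
  have h5 := ArithmeticFunction.vonMangoldt.eqOn_LFunctionResidueClassAux (q := 1) (a := 0)
    (by simp [isUnit_iff_eq_one, Subsingleton.elim (0 : ZMod 1) 1]) (show s ∈ {s : ℂ | 1 < s.re} from h1)
  rw [h5] at h4
  simp only [Nat.totient_one, Nat.cast_one, inv_one] at h4
  have h6 : LSeries (fun n => ((ArithmeticFunction.vonMangoldt.residueClass (0 : ZMod 1) n : ℝ) : ℂ)) s
      = ∑' n : ℕ, ((ArithmeticFunction.vonMangoldt n : ℝ) : ℂ) * (n:ℂ)^(-s) := by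
    rw [← D_eq (by simp)]
    unfold D
    apply tsum_congr
    intro n
    show ((ArithmeticFunction.vonMangoldt.residueClass (0 : ZMod 1) n : ℝ) : ℂ) * _ = _
    rw [hres]
  rw [h6] at h4
  have h7 : ‖(∑' n : ℕ, ((ArithmeticFunction.vonMangoldt n : ℝ) : ℂ) * (n:ℂ)^(-s)) - K s‖ ≤
      ∑' n : ℕ, (if n.Prime then 0 else
    ArithmeticFunction.vonMangoldt.residueClass (0 : ZMod 1) n) / (n:ℝ) := by
    unfold K D
    rw [← (summable_vM h1).tsum_sub (summable_th h1)]
    apply tsum_of_norm_bounded hsum.hasSum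
    intro n
    rw [hres]
    by_cases hp : n.Prime
    · simp [th, hp, ArithmeticFunction.vonMangoldt_apply_prime hp]
    · simp only [th, hp, if_false]
      rcases Nat.eq_zero_or_pos n with rfl | hn
      · simp
      rw [Complex.ofReal_zero, zero_mul, sub_zero, norm_mul, Complex.norm_real,
        Real.norm_of_nonneg ArithmeticFunction.vonMangoldt_nonneg, norm_cpow_neg_nat hn, div_eq_mul_inv]
      apply mul_le_mul_of_nonneg_left _ ArithmeticFunction.vonMangoldt_nonneg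
      rw [← Real.rpow_neg_one]
      apply Real.rpow_le_rpow_of_exponent_le
      · exact_mod_cast hn
      · linarith
  have h8 : K s - 1 / (s-1) = ((∑' n : ℕ, ((ArithmeticFunction.vonMangoldt n : ℝ) : ℂ) * (n:ℂ)^(-s)) - 1/(s-1))
     - ((∑' n : ℕ, ((ArithmeticFunction.vonMangoldt n : ℝ) : ℂ) * (n:ℂ)^(-s)) - K s) := by ring
  rw [h8]
  refine (norm_sub_le _ _).trans ?_
  exact add_le_add (h4.trans (le_max_left _ _)) h7

end Pool.Agent.H91.Edge
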