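import Mathlib
import Pool.Agent.H91.Edge.Kernel

open Complex Filter Topology

namespace Pool.Agent.H91.Edge

/-- bounded coefficients supported on primes -/
structure Adm (f : ℕ → ℂ) (b : ℝ) : Prop where
  bd : ∀ n, ‖f n‖ ≤ b
  supp : ∀ n, ¬ n.Prime → f n = 0

lemma Adm.b_nonneg {f : ℕ → ℂ} {b : ℝ} (H : Adm f b) : 0 ≤ b := (norm_nonneg _).trans (H.bd 0)

lemma tsum_mul_le_sqrt {ι : Type*} {f g : ι → ℝ} (hf : ∀ i, 0 ≤ f i) (hg : ∀ i, 0 ≤ g i)
    (hfs : Summable fun i => f i ^ 2) (hgs : Summable fun i => g i ^ 2) :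
    ∑' i, f i * g i ≤ Real.sqrt (∑' i, f i ^ 2) * Real.sqrt (∑' i, g i ^ 2) := by
  have h := Real.inner_le_Lp_mul_Lq_tsum_of_nonneg Real.HolderConjugate.two_two hf hg
    (by simpa using hfs) (by simpa using hgs)
  simpa [Real.sqrt_eq_rpow] using h

lemma summable_mul_of_sq {ι : Type*} {f g : ι → ℝ} (hf : ∀ i, 0 ≤ f i) (hg : ∀ i, 0 ≤ g i)
    (hfs : Summable fun i => f i ^ 2) (hgs : Summable fun i => g i ^ 2) :
    Summable fun i => f i * g i := by
  refine Summable.of_nonneg_of_le (fun i => mul_nonneg (hf i) (hg i)) (fun i => ?_) (hfs.add hgs)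
  nlinarith [sq_nonneg (f i - g i), mul_nonneg (hf i) (hg i)]

lemma summable_G {f : ℕ → ℂ} {b : ℝ} (H : Adm f b) {s : ℂ} (hs : 1 < s.re) :
    Summable fun n : ℕ => (f n * (th n : ℂ)) * (n:ℂ)^(-s) := by
  refine Summable.of_norm_bounded ((summable_th hs).norm.mul_left b) ?_
  intro n
  rw [mul_assoc, norm_mul]
  exact mul_le_mul_of_nonneg_right (H.bd n) (norm_nonneg _)

lemma conj_cpow_nat (n : ℕ) (s : ℂ) : (starRingEnd ℂ) ((n:ℂ)^s) = (n:ℂ)^((starRingEnd ℂ) s) := by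
  have h : (n:ℂ).arg ≠ Real.pi := by
    rw [Complex.natCast_arg]
    exact Real.pi_ne_zero.symm
  have := Complex.cpow_conj (n:ℂ) s h
  rw [this, Complex.conj_natCast]

lemma norm_cpow_eq {n : ℕ} (_hn : 0 < n) (x : ℝ) : ((n:ℝ)^x : ℝ) = ((n:ℂ)^(x:ℂ) : ℂ) := by
  rw [Complex.ofReal_cpow (Nat.cast_nonneg n)]
  simp

lemma dual {f : ℕ → ℂ} {b : ℝ} (H : Adm f b) {h : ℝ} (hh : 0 < h) (S : Finset ℝ) (u : ℝ → ℝ)
    (hu : ∀ t ∈ S, h ≤ u t) :
    ∑ t ∈ S, ‖D (fun n => f n * (th n : ℂ)) (1 + (u t : ℂ) + t * I)‖ ≤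
      b * (Real.sqrt ‖K (1 + (h:ℂ))‖ *
        Real.sqrt (∑ t ∈ S, ∑ t' ∈ S, ‖K (1 - (h:ℂ) + u t + u t' + (t - t') * I)‖)) := by
  classical
  have hc : ∀ z : ℂ, ∃ c : ℂ, ‖c‖ = 1 ∧ (‖z‖ : ℂ) = c * z := fun z => Complex.exists_norm_eq_mul_self z
  choose e he1 he2 using hc
  set z : ℝ → ℂ := fun t => 1 + (u t : ℂ) + t * I with hz
  set c : ℝ → ℂ := fun t => e (D (fun n => f n * (th n : ℂ)) (z t)) with hcdef
  set W : ℕ → ℂ := fun n => ∑ t ∈ S, c t * (n:ℂ)^(-(z t)) with hW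
  set A : ℕ → ℝ := fun n => Real.sqrt (th n * (n:ℝ)^(-(1+h))) with hA
  set B : ℕ → ℝ := fun n => Real.sqrt (th n * (n:ℝ)^(1+h)) * ‖W n‖ with hB
  have hzre : ∀ t ∈ S, 1 < (z t).re := by
    intro t ht
    have := hu t ht
    simp [hz]
    linarith
  have hcn : ∀ t, ‖c t‖ = 1 := fun t => he1 _
  -- the sum as a series
  have e1 : ((∑ t ∈ S, ‖D (fun n => f n * (th n : ℂ)) (z t)‖ : ℝ) : ℂ)
      = ∑' n : ℕ, (f n * (th n : ℂ)) * W n := by
    push_cast
    have e2 : ∀ n : ℕ, (f n * (th n : ℂ)) * W n = ∑ t ∈ S, c t * ((f n * (th n : ℂ)) * (n:ℂ)^(-(z t))) := by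
      intro n
      rw [hW, Finset.mul_sum]
      apply Finset.sum_congr rfl
      intro t _
      ring
    simp_rw [e2]
    rw [Summable.tsum_finsetSum (fun t ht => (summable_G H (hzre t ht)).mul_left _)]
    apply Finset.sum_congr rfl
    intro t ht
    rw [tsum_mul_left, he2]
    rfl
  -- the square of B
  have hBsq : ∀ n : ℕ, ((B n ^ 2 : ℝ) : ℂ) = ∑ t ∈ S, ∑ t' ∈ S, (c t * (starRingEnd ℂ) (c t')) *
      ((th n : ℂ) * (n:ℂ)^(-(1 - (h:ℂ) + u t + u t' + (t - t') * I))) := by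
    intro n
    rcases Nat.eq_zero_or_pos n with rfl | hn
    · simp [hB, th_zero]
    have hn0 : (n:ℂ) ≠ 0 := by exact_mod_cast hn.ne'
    have h1 : B n ^ 2 = th n * (n:ℝ)^(1+h) * ‖W n‖ ^ 2 := by
      rw [hB]
      simp only
      rw [mul_pow, Real.sq_sqrt (mul_nonneg (th_nonneg n) (by positivity))]
    rw [h1]
    have h2 : ((‖W n‖ ^ 2 : ℝ) : ℂ) = ∑ t ∈ S, ∑ t' ∈ S, (c t * (starRingEnd ℂ) (c t')) *
        ((n:ℂ)^(-(z t)) * (n:ℂ)^(-((starRingEnd ℂ) (z t')))) := by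
      rw [Complex.ofReal_pow, ← Complex.mul_conj', hW]
      simp only
      rw [map_sum, Finset.sum_mul_sum]
      apply Finset.sum_congr rfl
      intro t _
      apply Finset.sum_congr rfl
      intro t' _
      rw [map_mul, conj_cpow_nat, map_neg]
      ring
    rw [Complex.ofReal_mul, h2, Finset.mul_sum]
    apply Finset.sum_congr rfl
    intro t _
    rw [Finset.mul_sum]
    apply Finset.sum_congr rfl
    intro t' _
    have h3 : (n:ℂ)^(-(1 - (h:ℂ) + u t + u t' + (t - t') * I))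
        = ((n:ℝ)^(1+h) : ℝ) * ((n:ℂ)^(-(z t)) * (n:ℂ)^(-((starRingEnd ℂ) (z t')))) := by
      rw [norm_cpow_eq hn, ← Complex.cpow_add _ _ hn0, ← Complex.cpow_add _ _ hn0]
      congr 1
      simp only [hz, map_add, map_one, map_mul, Complex.conj_ofReal, Complex.conj_I]
      push_cast
      ring
    rw [h3]
    push_cast
    ring
  have hkre : ∀ t ∈ S, ∀ t' ∈ S, 1 < ((1:ℂ) - (h:ℂ) + u t + u t' + (t - t') * I).re := by
    intro t ht t' ht'
    have := hu t ht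
    have := hu t' ht'
    simp
    linarith
  have hsumB : Summable fun n => ((B n ^ 2 : ℝ) : ℂ) := by
    simp_rw [hBsq]
    exact summable_sum fun t ht => summable_sum fun t' ht' =>
      (summable_th (hkre t ht t' ht')).mul_left _
  have hsumB' : Summable fun n => B n ^ 2 := by exact_mod_cast hsumB
  have hBtot : ∑' n, B n ^ 2 ≤ ∑ t ∈ S, ∑ t' ∈ S, ‖K (1 - (h:ℂ) + u t + u t' + (t - t') * I)‖ := by
    have h1 : ((∑' n, B n ^ 2 : ℝ) : ℂ) = ∑ t ∈ S, ∑ t' ∈ S, (c t * (starRingEnd ℂ) (c t')) *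
        K (1 - (h:ℂ) + u t + u t' + (t - t') * I) := by
      rw [Complex.ofReal_tsum]
      simp_rw [hBsq]
      rw [Summable.tsum_finsetSum (fun t ht => summable_sum fun t' ht' =>
        (summable_th (hkre t ht t' ht')).mul_left _)]
      apply Finset.sum_congr rfl
      intro t ht
      rw [Summable.tsum_finsetSum (fun t' ht' => (summable_th (hkre t ht t' ht')).mul_left _)]
      apply Finset.sum_congr rfl
      intro t' ht'
      rw [tsum_mul_left]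
      rfl
    have h2 : ∑' n, B n ^ 2 = ‖((∑' n, B n ^ 2 : ℝ) : ℂ)‖ := by
      rw [Complex.norm_real, Real.norm_of_nonneg (tsum_nonneg fun n => sq_nonneg _)]
    rw [h2, h1]
    refine (norm_sum_le _ _).trans (Finset.sum_le_sum fun t _ => ?_)
    refine (norm_sum_le _ _).trans (Finset.sum_le_sum fun t' _ => ?_)
    rw [norm_mul, norm_mul, RCLike.norm_conj, hcn, hcn, one_mul, one_mul]
  -- the square of A
  have hAsq : ∀ n : ℕ, ((A n ^ 2 : ℝ) : ℂ) = (th n : ℂ) * (n:ℂ)^(-(1 + (h:ℂ))) := by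
    intro n
    rcases Nat.eq_zero_or_pos n with rfl | hn
    · simp [hA, th_zero]
    rw [hA]
    simp only
    rw [Real.sq_sqrt (mul_nonneg (th_nonneg n) (by positivity)), Complex.ofReal_mul, norm_cpow_eq hn]
    push_cast
    rfl
  have hAre : 1 < ((1:ℂ) + (h:ℂ)).re := by simp; exact hh
  have hsumA : Summable fun n => ((A n ^ 2 : ℝ) : ℂ) := by
    simp_rw [hAsq]
    exact summable_th hAre
  have hsumA' : Summable fun n => A n ^ 2 := by exact_mod_cast hsumA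
  have hAtot : ∑' n, A n ^ 2 ≤ ‖K (1 + (h:ℂ))‖ := by
    have h1 : ((∑' n, A n ^ 2 : ℝ) : ℂ) = K (1 + (h:ℂ)) := by
      rw [Complex.ofReal_tsum]
      simp_rw [hAsq]
      rfl
    have h2 : ∑' n, A n ^ 2 = ‖((∑' n, A n ^ 2 : ℝ) : ℂ)‖ := by
      rw [Complex.norm_real, Real.norm_of_nonneg (tsum_nonneg fun n => sq_nonneg _)]
    rw [h2, h1]
  have hA0 : ∀ n, 0 ≤ A n := fun n => Real.sqrt_nonneg _
  have hB0 : ∀ n, 0 ≤ B n := fun n => mul_nonneg (Real.sqrt_nonneg _) (norm_nonneg _)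
  have hAB := tsum_mul_le_sqrt hA0 hB0 hsumA' hsumB'
  have hABs := summable_mul_of_sq hA0 hB0 hsumA' hsumB'
  have hterm : ∀ n : ℕ, ‖(f n * (th n : ℂ)) * W n‖ ≤ b * (A n * B n) := by
    intro n
    rcases Nat.eq_zero_or_pos n with rfl | hn
    · simp [th_zero, hA, hB]
    have h1 : A n * B n = th n * ‖W n‖ := by
      rw [hA, hB]
      simp only
      rw [← mul_assoc, ← Real.sqrt_mul (mul_nonneg (th_nonneg n) (by positivity))]
      have h2 : th n * (n:ℝ)^(-(1+h)) * (th n * (n:ℝ)^(1+h)) = th n ^ 2 := by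
        have h3 : (n:ℝ)^(-(1+h)) * (n:ℝ)^(1+h) = 1 := by
          rw [← Real.rpow_add (by exact_mod_cast hn)]
          simp
        calc th n * (n:ℝ)^(-(1+h)) * (th n * (n:ℝ)^(1+h)) = th n ^ 2 * ((n:ℝ)^(-(1+h)) * (n:ℝ)^(1+h)) := by ring
          _ = th n ^ 2 := by rw [h3, mul_one]
      rw [h2, Real.sqrt_sq (th_nonneg n)]
    rw [h1, norm_mul, norm_mul, Complex.norm_real, Real.norm_of_nonneg (th_nonneg n), mul_assoc]
    exact mul_le_mul_of_nonneg_right (H.bd n) (mul_nonneg (th_nonneg n) (norm_nonneg _))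
  have hfin : ∑ t ∈ S, ‖D (fun n => f n * (th n : ℂ)) (z t)‖ ≤ b * ∑' n, A n * B n := by
    have h1 : ∑ t ∈ S, ‖D (fun n => f n * (th n : ℂ)) (z t)‖
        = ‖((∑ t ∈ S, ‖D (fun n => f n * (th n : ℂ)) (z t)‖ : ℝ) : ℂ)‖ := by
      rw [Complex.norm_real, Real.norm_of_nonneg (Finset.sum_nonneg fun _ _ => norm_nonneg _)]
    rw [h1, e1, ← tsum_mul_left]
    exact tsum_of_norm_bounded (hABs.mul_left b).hasSum hterm
  refine hfin.trans ?_
  apply mul_le_mul_of_nonneg_left _ H.b_nonneg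
  refine hAB.trans ?_
  gcongr

end Pool.Agent.H91.Edge
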