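import Mathlib
import Pool.Agent.H91.Edge.Dual
import Pool.Agent.H91.Edge.Haus

open Complex Filter Topology

namespace Pool.Agent.H91.Edge

/-- the series of the derivative -/
noncomputable def G (f : ℕ → ℂ) (u t : ℝ) : ℂ := D (fun n => f n * (th n : ℂ)) (1 + (u:ℂ) + t * I)

lemma count {f : ℕ → ℂ} {b : ℝ} (H : Adm f b) {T C : ℝ} (hC0 : 0 ≤ C)
    (hC : ∀ s : ℂ, 1 < s.re → s.re ≤ 2 → |s.im| ≤ 2 * T → ‖K s - 1 / (s - 1)‖ ≤ C)
    {h r lam : ℝ} (hh : 0 < h) (hh1 : h ≤ 1 / 7) (hr0 : 0 < r) (hr1 : r ≤ 1) (hlam : 0 ≤ lam)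
    (S : Finset ℝ) (hST : ∀ t ∈ S, |t| ≤ T)
    (hsep : ∀ t ∈ S, ∀ t' ∈ S, t ≠ t' → r ≤ |t - t'|)
    (hbig : ∀ t ∈ S, ∃ u : ℝ, h ≤ u ∧ u ≤ 4 * h ∧ lam ≤ 4 * h * ‖G f u t‖)
    (hcard : S.card * h ≤ r) :
    S.card * lam ^ 2 ≤ 32 * b ^ 2 * (1 + C) ^ 2 := by
  classical
  have hb := H.b_nonneg
  rcases S.eq_empty_or_nonempty with rfl | hne
  · simp
    positivity
  have hchoice : ∀ t : ℝ, ∃ u : ℝ, t ∈ S → (h ≤ u ∧ u ≤ 4 * h ∧ lam ≤ 4 * h * ‖G f u t‖) := by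
    intro t
    by_cases ht : t ∈ S
    · obtain ⟨u, hu⟩ := hbig t ht
      exact ⟨u, fun _ => hu⟩
    · exact ⟨0, fun h => absurd h ht⟩
  choose u hu using hchoice
  set R : ℝ := (S.card : ℝ) with hR
  have hRpos : 0 < R := by
    rw [hR]
    exact_mod_cast hne.card_pos
  have hT : 0 ≤ T := by
    obtain ⟨t, ht⟩ := hne
    exact (abs_nonneg _).trans (hST t ht)
  have hd := dual H hh S u (fun t ht => (hu t ht).1)
  -- first factor
  have hK1 : ‖K (1 + (h:ℂ))‖ ≤ (1 + C) / h := by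
    have h1 := hC (1 + (h:ℂ)) (by simp; exact hh) (by simp; linarith) (by simp; exact hT)
    have h2 : (1 + (h:ℂ)) - 1 = (h:ℂ) := by ring
    rw [h2] at h1
    have h3 : ‖(1:ℂ) / (h:ℂ)‖ = 1 / h := by
      rw [norm_div, norm_one, Complex.norm_real, Real.norm_of_nonneg hh.le]
    have h4 : ‖K (1 + (h:ℂ))‖ ≤ ‖K (1 + (h:ℂ)) - 1 / (h:ℂ)‖ + ‖(1:ℂ) / (h:ℂ)‖ := by
      have := norm_add_le (K (1 + (h:ℂ)) - 1 / (h:ℂ)) ((1:ℂ) / (h:ℂ))
      simpa using this
    rw [h3] at h4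
    have h5 : C ≤ C / h := by
      rw [le_div_iff₀ hh]
      nlinarith
    calc ‖K (1 + (h:ℂ))‖ ≤ C + 1 / h := by linarith
      _ ≤ C / h + 1 / h := by linarith
      _ = (1 + C) / h := by ring
  -- second factor
  have hK2 : ∀ t ∈ S, ∀ t' ∈ S, ‖K (1 - (h:ℂ) + u t + u t' + (t - t') * I)‖ ≤
      (if t = t' then (1 + C) / h else 0) + (1 + C) / r := by
    intro t ht t' ht'
    obtain ⟨a1, a2, -⟩ := hu t ht
    obtain ⟨b1, b2, -⟩ := hu t' ht'
    have h1 := hC (1 - (h:ℂ) + u t + u t' + (t - t') * I) (by simp; linarith) (by simp; linarith)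
      (by
        simp
        have c1 := abs_le.mp (hST t ht)
        have c2 := abs_le.mp (hST t' ht')
        rw [abs_le]
        constructor <;> linarith)
    set z : ℂ := (1 - (h:ℂ) + u t + u t' + (t - t') * I) - 1 with hz
    have h4 : ‖K (1 - (h:ℂ) + u t + u t' + (t - t') * I)‖ ≤
        ‖K (1 - (h:ℂ) + u t + u t' + (t - t') * I) - 1 / z‖ + ‖(1:ℂ) / z‖ := by
      have := norm_add_le (K (1 - (h:ℂ) + u t + u t' + (t - t') * I) - 1 / z) ((1:ℂ) / z)
      simpa using this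
    have hzre : z.re = u t + u t' - h := by
      simp [hz]
      ring
    have hzim : z.im = t - t' := by
      simp [hz]
    have h5 : C ≤ C / r := by
      rw [le_div_iff₀ hr0]
      nlinarith
    split_ifs with heq
    · have h6 : h ≤ ‖z‖ := by
        refine le_trans ?_ (Complex.re_le_norm z)
        rw [hzre]
        linarith
      have h7 : ‖(1:ℂ) / z‖ ≤ 1 / h := by
        rw [norm_div, norm_one]
        exact one_div_le_one_div_of_le hh h6
      have h8 : 0 ≤ C / h := by positivity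
      have h9 : 0 ≤ 1 / r := by positivity
      calc ‖K (1 - (h:ℂ) + u t + u t' + (t - t') * I)‖ ≤ C + 1 / h := by linarith
        _ ≤ (C / r + 1 / h) + (C / h + 1 / r) := by linarith
        _ = (1 + C) / h + (1 + C) / r := by ring
    · have h6 : r ≤ ‖z‖ := by
        refine le_trans ?_ (Complex.abs_im_le_norm z)
        rw [hzim]
        exact hsep t ht t' ht' heq
      have h7 : ‖(1:ℂ) / z‖ ≤ 1 / r := by
        rw [norm_div, norm_one]
        exact one_div_le_one_div_of_le hr0 h6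
      calc ‖K (1 - (h:ℂ) + u t + u t' + (t - t') * I)‖ ≤ C + 1 / r := by linarith
        _ ≤ C / r + 1 / r := by linarith
        _ = 0 + (1 + C) / r := by ring
  have hK3 : ∑ t ∈ S, ∑ t' ∈ S, ‖K (1 - (h:ℂ) + u t + u t' + (t - t') * I)‖ ≤
      2 * (1 + C) * R / h := by
    have h1 : ∑ t ∈ S, ∑ t' ∈ S, ‖K (1 - (h:ℂ) + u t + u t' + (t - t') * I)‖ ≤
        ∑ t ∈ S, ∑ t' ∈ S, ((if t = t' then (1 + C) / h else 0) + (1 + C) / r) :=
      Finset.sum_le_sum fun t ht => Finset.sum_le_sum fun t' ht' => hK2 t ht t' ht'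
    have h2 : ∑ t ∈ S, ∑ t' ∈ S, ((if t = t' then (1 + C) / h else 0) + (1 + C) / r)
        = R * ((1 + C) / h) + R * (R * ((1 + C) / r)) := by
      have h3 : ∀ t ∈ S, ∑ t' ∈ S, ((if t = t' then (1 + C) / h else 0) + (1 + C) / r)
          = (1 + C) / h + R * ((1 + C) / r) := by
        intro t ht
        rw [Finset.sum_add_distrib, Finset.sum_ite_eq, if_pos ht, Finset.sum_const, nsmul_eq_mul]
      rw [Finset.sum_congr rfl h3, Finset.sum_const, nsmul_eq_mul]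
      ring
    rw [h2] at h1
    have h4 : R * ((1 + C) / r) ≤ (1 + C) / h := by
      rw [le_div_iff₀ hh]
      calc R * ((1 + C) / r) * h = (1 + C) * ((R * h) / r) := by ring
        _ ≤ (1 + C) * 1 := by
            apply mul_le_mul_of_nonneg_left _ (by linarith)
            rw [div_le_one hr0]
            exact hcard
        _ = 1 + C := by ring
    have h5 : R * (R * ((1 + C) / r)) ≤ R * ((1 + C) / h) := mul_le_mul_of_nonneg_left h4 hRpos.le
    calc _ ≤ R * ((1 + C) / h) + R * (R * ((1 + C) / r)) := h1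
      _ ≤ R * ((1 + C) / h) + R * ((1 + C) / h) := by linarith
      _ = 2 * (1 + C) * R / h := by ring
  -- combine
  have hsum1 : R * lam ≤ 4 * h * ∑ t ∈ S, ‖G f (u t) t‖ := by
    rw [Finset.mul_sum, hR, ← nsmul_eq_mul]
    exact Finset.card_nsmul_le_sum _ _ _ (fun t ht => (hu t ht).2.2)
  have hsum2 : ∑ t ∈ S, ‖G f (u t) t‖ ≤ b * (Real.sqrt ((1 + C) / h) * Real.sqrt (2 * (1 + C) * R / h)) := by
    refine hd.trans ?_
    gcongr
  have hprod : Real.sqrt ((1 + C) / h) * Real.sqrt (2 * (1 + C) * R / h) = (1 + C) / h * Real.sqrt (2 * R) := by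
    rw [← Real.sqrt_mul (by positivity)]
    have : (1 + C) / h * (2 * (1 + C) * R / h) = ((1 + C) / h) ^ 2 * (2 * R) := by ring
    rw [this, Real.sqrt_mul (by positivity), Real.sqrt_sq (by positivity)]
  rw [hprod] at hsum2
  have h3 : R * lam ≤ 4 * b * (1 + C) * Real.sqrt (2 * R) := by
    calc R * lam ≤ 4 * h * ∑ t ∈ S, ‖G f (u t) t‖ := hsum1
      _ ≤ 4 * h * (b * ((1 + C) / h * Real.sqrt (2 * R))) := by gcongr
      _ = 4 * b * (1 + C) * Real.sqrt (2 * R) := by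
        field_simp
  have h4 : (R * lam) ^ 2 ≤ (4 * b * (1 + C) * Real.sqrt (2 * R)) ^ 2 :=
    pow_le_pow_left₀ (by positivity) h3 2
  rw [mul_pow (4 * b * (1 + C)), Real.sq_sqrt (by positivity)] at h4
  have h5 : R * (R * lam ^ 2) ≤ R * (32 * b ^ 2 * (1 + C) ^ 2) := by
    calc R * (R * lam ^ 2) = (R * lam) ^ 2 := by ring
      _ ≤ _ := h4
      _ = R * (32 * b ^ 2 * (1 + C) ^ 2) := by ring
  exact le_of_mul_le_mul_left h5 hRpos

/-- heights -/
noncomputable def hk (k : ℕ) : ℝ := (1/4 : ℝ) ^ (k + 2)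
noncomputable def rk (k : ℕ) : ℝ := (1/2 : ℝ) ^ (k + 2)
noncomputable def lk (k : ℕ) : ℝ := (((k:ℝ) + 1) ^ 2)⁻¹

lemma hk_pos (k : ℕ) : 0 < hk k := by unfold hk; positivity
lemma rk_pos (k : ℕ) : 0 < rk k := by unfold rk; positivity
lemma lk_pos (k : ℕ) : 0 < lk k := by unfold lk; positivity

lemma hk_eq (k : ℕ) : hk k = rk k * rk k := by
  unfold hk rk
  rw [← mul_pow]
  norm_num

lemma hk_le (k : ℕ) : hk k ≤ 1 / 16 := by
  unfold hk
  calc (1/4 : ℝ) ^ (k + 2) ≤ (1/4 : ℝ) ^ 2 := pow_le_pow_of_le_one (by norm_num) (by norm_num) (by omega)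
    _ = 1/16 := by norm_num

lemma rk_le (k : ℕ) : rk k ≤ 1 := pow_le_one₀ (by norm_num) (by norm_num)

lemma rk_antitone : Antitone rk := by
  intro a b hab
  unfold rk
  exact pow_le_pow_of_le_one (by norm_num) (by norm_num) (by omega)

lemma rk_tendsto : Tendsto rk atTop (𝓝 0) := by
  have : Tendsto (fun k : ℕ => (1/2:ℝ)^k) atTop (𝓝 0) :=
    tendsto_pow_atTop_nhds_zero_of_lt_one (by norm_num) (by norm_num)
  exact this.comp (tendsto_add_atTop_nat 2)

/-- level sets -/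
def lev (f : ℕ → ℂ) (T : ℝ) (k : ℕ) : Set ℝ :=
  {t | |t| ≤ T ∧ ∃ u : ℝ, hk k ≤ u ∧ u ≤ 4 * hk k ∧ lk k ≤ 4 * hk k * ‖G f u t‖}

lemma poly_geom (c : ℝ) (q : ℝ) (hq0 : 0 < q) (hq1 : q < 1) :
    Summable fun k : ℕ => (c * ((k:ℝ) + 1) ^ 4) * q ^ k := by
  have h := summable_pow_mul_geometric_of_norm_lt_one 4 (r := q) (by rw [Real.norm_of_nonneg hq0.le]; exact hq1)
  have h2 : Summable fun k : ℕ => (((k + 1 : ℕ) : ℝ) ^ 4) * q ^ (k + 1) := (summable_nat_add_iff 1).mpr h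
  have h3 := h2.mul_left (c / q)
  refine h3.congr ?_
  intro k
  push_cast
  rw [pow_succ]
  field_simp
  try ring

lemma exists_cover {f : ℕ → ℂ} {b : ℝ} (H : Adm f b) (T : ℝ) :
    ∃ (k0 : ℕ) (A : ℝ), 0 ≤ A ∧ ∀ k, k0 ≤ k → ∃ S : Finset ℝ, (S.card : ℝ) ≤ A * ((k:ℝ) + 1) ^ 4 ∧
      ∀ x ∈ lev f T k, ∃ s ∈ S, |x - s| ≤ rk k := by
  obtain ⟨C, hC0, hC⟩ := K_bound (2 * T)
  set M : ℕ := ⌈32 * b ^ 2 * (1 + C) ^ 2⌉₊ with hM
  have hMle : 32 * b ^ 2 * (1 + C) ^ 2 ≤ (M:ℝ) := Nat.le_ceil _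
  -- eventually small
  have hev : ∀ᶠ k : ℕ in atTop, ((M * (k + 1) ^ 4 + 1 : ℕ) : ℝ) * rk k ≤ 1 := by
    have h1 : Summable fun k : ℕ => (((M:ℝ) + 1) * ((k:ℝ) + 1) ^ 4) * (1/2:ℝ) ^ k :=
      poly_geom ((M:ℝ) + 1) (1/2) (by norm_num) (by norm_num)
    have h2 := h1.tendsto_atTop_zero
    have h3 := h2.eventually (gt_mem_nhds (show (0:ℝ) < 1 by norm_num))
    filter_upwards [h3] with k hk1
    have h4 : rk k ≤ (1/2:ℝ)^k := by
      unfold rk
      exact pow_le_pow_of_le_one (by norm_num) (by norm_num) (by omega)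
    have h5 : ((M * (k + 1) ^ 4 + 1 : ℕ) : ℝ) ≤ ((M:ℝ) + 1) * ((k:ℝ) + 1) ^ 4 := by
      push_cast
      have : (1:ℝ) ≤ ((k:ℝ) + 1) ^ 4 := one_le_pow₀ (by linarith [Nat.cast_nonneg (α := ℝ) k])
      nlinarith
    calc ((M * (k + 1) ^ 4 + 1 : ℕ) : ℝ) * rk k ≤ (((M:ℝ) + 1) * ((k:ℝ) + 1) ^ 4) * (1/2:ℝ)^k :=
          mul_le_mul h5 h4 (rk_pos k).le (by positivity)
      _ ≤ 1 := hk1.le
  obtain ⟨k0, hk0⟩ := eventually_atTop.mp hev
  refine ⟨k0, M, Nat.cast_nonneg _, ?_⟩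
  intro k hk'
  have hsmall := hk0 k hk'
  obtain ⟨S, hS1, hS2⟩ := cover_of_sep (lev f T k) (rk k) (rk_pos k).le (M * (k+1)^4) (by
    intro S hSE hsep
    by_contra hcon
    push Not at hcon
    obtain ⟨S', hS', hcard⟩ := Finset.exists_subset_card_eq (show M * (k+1)^4 + 1 ≤ S.card by omega)
    have h1 := count H hC0 hC (h := hk k) (r := rk k) (lam := lk k) (hk_pos k)
      (by have := hk_le k; linarith) (rk_pos k) (rk_le k) (lk_pos k).le S'
      (fun t ht => (hSE (hS' ht)).1)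
      (fun t ht t' ht' => hsep t (hS' ht) t' (hS' ht'))
      (fun t ht => (hSE (hS' ht)).2)
      (by
        rw [hcard, hk_eq]
        calc ((M * (k + 1) ^ 4 + 1 : ℕ) : ℝ) * (rk k * rk k) = (((M * (k + 1) ^ 4 + 1 : ℕ) : ℝ) * rk k) * rk k := by ring
          _ ≤ 1 * rk k := mul_le_mul_of_nonneg_right hsmall (rk_pos k).le
          _ = rk k := one_mul _)
    rw [hcard] at h1
    have h2 : ((M * (k + 1) ^ 4 + 1 : ℕ) : ℝ) * lk k ^ 2 ≤ M := h1.trans hMle
    have h3 : lk k ^ 2 = (((k:ℝ) + 1) ^ 4)⁻¹ := by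
      unfold lk
      rw [inv_pow, ← pow_mul]
    rw [h3, ← div_eq_mul_inv, div_le_iff₀ (by positivity)] at h2
    push_cast at h2
    linarith)
  refine ⟨S, ?_, hS2⟩
  exact_mod_cast hS1

theorem except {f : ℕ → ℂ} {b : ℝ} (H : Adm f b) :
    ∃ E : Set ℝ, dimH E = 0 ∧ ∀ t ∉ E, ∀ᶠ k : ℕ in atTop, ∀ u : ℝ, hk k ≤ u → u ≤ 4 * hk k →
      4 * hk k * ‖G f u t‖ < lk k := by
  refine ⟨⋃ T : ℕ, {t : ℝ | ∀ m : ℕ, ∃ k, t ∈ lev f T (k + m)}, ?_, ?_⟩
  · rw [dimH_iUnion]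
    simp only [ENNReal.iSup_eq_zero]
    intro T
    obtain ⟨k0, A, hA, hcov⟩ := exists_cover H (T:ℝ)
    choose S hS1 hS2 using fun k : ℕ => hcov (k + k0) (by omega)
    apply dimH_limsup S (fun k => rk (k + k0)) (fun k => (rk_pos _).le)
      (fun a b hab => rk_antitone (by omega)) (rk_tendsto.comp (tendsto_add_atTop_nat k0))
    · intro m x hx
      obtain ⟨k, hk⟩ := hx (m + k0)
      refine ⟨k, ?_⟩
      have h1 : k + (m + k0) = k + m + k0 := by ring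
      rw [h1] at hk
      obtain ⟨s, hs, hxs⟩ := hS2 (k + m) x hk
      exact ⟨s, hs, hxs⟩
    · intro δ hδ
      have hq : 0 < ((1/2:ℝ)) ^ δ := by positivity
      have hq1 : ((1/2:ℝ)) ^ δ < 1 := Real.rpow_lt_one (by norm_num) (by norm_num) hδ
      have h1 := poly_geom (A * ((k0:ℝ) + 1) ^ 4 * 2 ^ δ) (((1/2:ℝ)) ^ δ) hq hq1
      refine Summable.of_nonneg_of_le ?_ ?_ h1
      · intro k
        have := (rk_pos (k + k0)).le
        positivity
      · intro k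
        have h2 : ((S k).card : ℝ) ≤ A * ((k0:ℝ) + 1) ^ 4 * ((k:ℝ) + 1) ^ 4 := by
          refine (hS1 k).trans ?_
          rw [mul_assoc, ← mul_pow]
          apply mul_le_mul_of_nonneg_left _ hA
          apply pow_le_pow_left₀ (by positivity)
          push_cast
          have h3 : (0:ℝ) ≤ k0 := Nat.cast_nonneg _
          have h4 : (0:ℝ) ≤ k := Nat.cast_nonneg _
          nlinarith
        have h3 : (2 * rk (k + k0)) ^ δ ≤ 2 ^ δ * (((1/2:ℝ)) ^ δ) ^ k := by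
          rw [Real.mul_rpow (by norm_num) (rk_pos _).le]
          apply mul_le_mul_of_nonneg_left _ (by positivity)
          rw [← Real.rpow_natCast, ← Real.rpow_mul (by norm_num), mul_comm δ, Real.rpow_mul (by norm_num),
            Real.rpow_natCast]
          apply Real.rpow_le_rpow (rk_pos _).le _ hδ.le
          unfold rk
          exact pow_le_pow_of_le_one (by norm_num) (by norm_num) (by omega)
        calc ((S k).card : ℝ) * (2 * rk (k + k0)) ^ δ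
            ≤ (A * ((k0:ℝ) + 1) ^ 4 * ((k:ℝ) + 1) ^ 4) * (2 ^ δ * (((1/2:ℝ)) ^ δ) ^ k) := by
              apply mul_le_mul h2 h3 _ (by positivity)
              have := (rk_pos (k + k0)).le
              positivity
          _ = _ := by ring
  · intro t ht
    rw [Set.mem_iUnion] at ht
    push Not at ht
    obtain ⟨T, hT⟩ := exists_nat_ge |t|
    have h1 := ht T
    simp only [Set.mem_ofPred_eq, not_forall, not_exists] at h1
    obtain ⟨m, hm⟩ := h1
    filter_upwards [eventually_ge_atTop m] with k hk u hu1 hu2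
    have h2 := hm (k - m)
    have h3 : k - m + m = k := by omega
    rw [h3] at h2
    by_contra hcon
    push Not at hcon
    exact h2 ⟨hT, u, hu1, hu2, hcon⟩

end Pool.Agent.H91.Edge
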