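import Mathlib
import Pool.Agent.H91.Edge.Except

open Complex Filter Topology

namespace Pool.Agent.H91.Edge

lemma Adm.zero {f : ℕ → ℂ} {b : ℝ} (H : Adm f b) : f 0 = 0 := H.supp 0 Nat.not_prime_zero

lemma Adm.absc {f : ℕ → ℂ} {b : ℝ} (H : Adm f b) : LSeries.abscissaOfAbsConv f ≤ 1 :=
  LSeries.abscissaOfAbsConv_le_of_le_const ⟨b, fun n _ => H.bd n⟩

lemma Adm.summable {f : ℕ → ℂ} {b : ℝ} (H : Adm f b) {s : ℂ} (hs : 1 < s.re) :
    Summable fun n : ℕ => f n * (n:ℂ)^(-s) := by
  rw [summable_D_iff H.zero]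
  apply LSeriesSummable_of_abscissaOfAbsConv_lt_re
  refine lt_of_le_of_lt H.absc ?_
  exact_mod_cast hs

lemma logMul_eq {f : ℕ → ℂ} {b : ℝ} (H : Adm f b) : LSeries.logMul f = fun n => f n * (th n : ℂ) := by
  funext n
  unfold LSeries.logMul
  by_cases hp : n.Prime
  · simp only [th, hp, if_true]
    rw [mul_comm, ← Complex.natCast_log]
  · rw [H.supp n hp]
    simp

lemma hasDerivAt_D {f : ℕ → ℂ} {b : ℝ} (H : Adm f b) {s : ℂ} (hs : 1 < s.re) :
    HasDerivAt (D f) (-D (fun n => f n * (th n : ℂ)) s) s := by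
  have h1 : LSeries.abscissaOfAbsConv f < s.re := by
    refine lt_of_le_of_lt H.absc ?_
    exact_mod_cast hs
  have h2 := LSeries_hasDerivAt h1
  have h3 : D f = LSeries f := funext fun s => D_eq H.zero s
  rw [h3, D_eq (by simp [H.zero]), ← logMul_eq H]
  exact h2

/-- the function of the height -/
noncomputable def F (f : ℕ → ℂ) (v t : ℝ) : ℂ := D f (1 + (v:ℂ) + t * I)

lemma hasDerivAt_F {f : ℕ → ℂ} {b : ℝ} (H : Adm f b) {v : ℝ} (hv : 0 < v) (t : ℝ) :
    HasDerivAt (fun v : ℝ => F f v t) (-G f v t) v := by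
  have h1 : HasDerivAt (D f) (-G f v t) (1 + (v:ℂ) + t * I) := hasDerivAt_D H (by simp; exact hv)
  have h2 : HasDerivAt (fun v : ℝ => (1:ℂ) + (v:ℂ) + t * I) 1 v := by
    have := ((Complex.ofRealCLM.hasDerivAt (x := v)).const_add (1:ℂ)).add_const ((t:ℂ) * I)
    simpa using this
  have h3 := h1.comp_of_eq v h2 rfl
  rw [mul_one] at h3
  exact h3

lemma F_sub {f : ℕ → ℂ} {b : ℝ} (H : Adm f b) (t : ℝ) {h l : ℝ} (hh : 0 < h)
    (hG : ∀ u : ℝ, h ≤ u → u ≤ 4 * h → 4 * h * ‖G f u t‖ < l) {v w : ℝ} (hv1 : h ≤ v)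
    (hv2 : v ≤ 4 * h) (hw1 : h ≤ w) (hw2 : w ≤ 4 * h) : ‖F f v t - F f w t‖ ≤ l := by
  have hl : 0 ≤ l := by
    have := hG h le_rfl (by linarith)
    have h2 : 0 ≤ 4 * h * ‖G f h t‖ := by positivity
    linarith
  have h1 := (convex_Icc h (4 * h)).norm_image_sub_le_of_norm_hasDerivWithin_le
    (f := fun v : ℝ => F f v t) (f' := fun v => -G f v t) (C := l / (4 * h)) (x := w) (y := v)
    (fun x hx => (hasDerivAt_F H (lt_of_lt_of_le hh hx.1) t).hasDerivWithinAt)
    (fun x hx => by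
      rw [norm_neg, le_div_iff₀ (by linarith), mul_comm]
      exact (hG x hx.1 hx.2).le)
    ⟨hw1, hw2⟩ ⟨hv1, hv2⟩
  refine h1.trans ?_
  have h2 : ‖v - w‖ ≤ 4 * h := by
    rw [Real.norm_eq_abs, abs_le]
    constructor <;> linarith
  calc l / (4 * h) * ‖v - w‖ ≤ l / (4 * h) * (4 * h) := by gcongr
    _ = l := by field_simp

lemma summable_lk : Summable lk := by
  have h : Summable (fun n : ℕ => ((n:ℝ)^2)⁻¹) := Real.summable_nat_pow_inv.mpr (by norm_num)
  have h2 := (summable_nat_add_iff 1).mpr h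
  refine h2.congr ?_
  intro k
  unfold lk
  push_cast
  rfl

theorem radial {f : ℕ → ℂ} {b : ℝ} (H : Adm f b) :
    ∃ E : Set ℝ, dimH E = 0 ∧ ∀ t ∉ E, ∃ l : ℂ, Tendsto (fun v : ℝ => F f v t) (𝓝[>] 0) (𝓝 l) := by
  obtain ⟨E, hE, hE2⟩ := except H
  refine ⟨E, hE, ?_⟩
  intro t ht
  obtain ⟨m, hm⟩ := eventually_atTop.mp (hE2 t ht)
  have hstep : ∀ k, m ≤ k → ∀ v w : ℝ, hk k ≤ v → v ≤ 4 * hk k → hk k ≤ w → w ≤ 4 * hk k →
      ‖F f v t - F f w t‖ ≤ lk k := by
    intro k hk' v w a b' c d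
    exact F_sub H t (hk_pos k) (hm k hk') a b' c d
  set a : ℕ → ℂ := fun k => F f (hk (k + m)) t with ha
  have hcau : CauchySeq a := by
    apply cauchySeq_of_le_tendsto_0' (fun n => ∑' j, lk (j + (n + m)))
    · intro n n' hnn'
      have h1 : ∀ d, dist (a n) (a (n + d)) ≤ ∑ j ∈ Finset.range d, lk (j + (n + m + 1)) := by
        intro d
        induction d with
        | zero => simp
        | succ d ih =>
          rw [Finset.sum_range_succ]
          refine (dist_triangle _ (a (n + d)) _).trans (add_le_add ih ?_)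
          rw [dist_eq_norm, ha]
          simp only
          have e1 : n + (d + 1) + m = d + (n + m + 1) := by ring
          rw [e1]
          have e2 : hk (n + d + m) = 4 * hk (d + (n + m + 1)) := by
            unfold hk
            have : d + (n + m + 1) + 2 = (n + d + m + 2) + 1 := by ring
            rw [this, pow_succ (1/4:ℝ) (n + d + m + 2)]
            ring
          apply hstep _ (by omega)
          · rw [e2]
            have := hk_pos (d + (n + m + 1))
            linarith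
          · rw [e2]
          · exact le_rfl
          · have := hk_pos (d + (n + m + 1))
            linarith
      obtain ⟨d, rfl⟩ := Nat.exists_eq_add_of_le hnn'
      refine (h1 d).trans ?_
      have h2 : ∑ j ∈ Finset.range d, lk (j + (n + m + 1)) ≤ ∑' j, lk (j + (n + m + 1)) :=
        ((summable_nat_add_iff (n + m + 1)).mpr summable_lk).sum_le_tsum _ (fun j _ => (lk_pos _).le)
      refine h2.trans ?_
      have hs := (summable_nat_add_iff (n + m)).mpr summable_lk
      have h3 := hs.sum_add_tsum_nat_add 1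
      simp only [Finset.sum_range_one, zero_add] at h3
      have h4 : ∀ j, lk (j + (n + m + 1)) = lk (j + 1 + (n + m)) := fun j => by congr 1; ring
      simp_rw [h4]
      have := (lk_pos (n + m)).le
      linarith
    · have := tendsto_sum_nat_add lk
      exact this.comp (tendsto_add_atTop_nat m)
  obtain ⟨l, hl⟩ := cauchySeq_tendsto_of_complete hcau
  refine ⟨l, ?_⟩
  rw [Metric.tendsto_nhdsWithin_nhds]
  intro ε hε
  have h1 := (Metric.tendsto_atTop.mp hl) (ε / 2) (by linarith)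
  obtain ⟨n1, hn1⟩ := h1
  have h2 := summable_lk.tendsto_atTop_zero
  obtain ⟨n2, hn2⟩ := (Metric.tendsto_atTop.mp h2) (ε / 2) (by linarith)
  set M : ℕ := n1 + n2 + m with hM
  refine ⟨hk M, hk_pos M, ?_⟩
  intro v hv hvM
  rw [Set.mem_Ioi] at hv
  rw [Real.dist_eq, sub_zero, abs_of_pos hv] at hvM
  obtain ⟨n, hn3, hn4⟩ := exists_nat_pow_near_of_lt_one hv (by have := hk_le M; linarith)
    (show (0:ℝ) < 1/4 by norm_num) (by norm_num)
  have hnM : M + 2 ≤ n := by
    by_contra hcon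
    push Not at hcon
    have : (1/4:ℝ)^(M + 2) ≤ (1/4:ℝ)^(n + 1) :=
      pow_le_pow_of_le_one (by norm_num) (by norm_num) (by omega)
    unfold hk at hvM
    linarith
  obtain ⟨k, rfl⟩ : ∃ k, n = k + m + 1 := ⟨n - m - 1, by omega⟩
  have hkv1 : hk (k + m) ≤ v := by
    unfold hk
    have : k + m + 1 + 1 = k + m + 2 := by ring
    rw [this] at hn3
    exact hn3.le
  have hkv2 : v ≤ 4 * hk (k + m) := by
    refine hn4.trans (le_of_eq ?_)
    unfold hk
    rw [pow_succ _ (k + m + 1)]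
    ring
  have h3 := hstep (k + m) (by omega) v (hk (k + m)) hkv1 hkv2 le_rfl (by have := hk_pos (k + m); linarith)
  have h4 := hn1 k (by omega)
  have h5 := hn2 (k + m) (by omega)
  rw [Real.dist_eq, sub_zero, abs_of_pos (lk_pos _)] at h5
  calc dist (F f v t) l ≤ dist (F f v t) (a k) + dist (a k) l := dist_triangle _ _ _
    _ < ε / 2 + ε / 2 := by
        apply add_lt_add_of_le_of_lt _ h4
        rw [dist_eq_norm]
        exact h3.trans h5.le
    _ = ε := by ring

end Pool.Agent.H91.Edge
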