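import Mathlib
import Pool.Agent.H91.Edge.Radial
import Pool.Agent.H91.Edge.Approx

open Complex Filter Topology

namespace Pool.Agent.H91.Edge

/-- real kernel -/
noncomputable def kap (w : ℝ) : ℝ := ∑' n : ℕ, th n * (n:ℝ)^(-(1+w))

lemma th_cpow (w : ℝ) (n : ℕ) : ((th n * (n:ℝ)^(-(1+w)) : ℝ) : ℂ) = (th n : ℂ) * (n:ℂ)^(-(1 + (w:ℂ))) := by
  rw [Complex.ofReal_mul, Complex.ofReal_cpow (Nat.cast_nonneg n)]
  simp

lemma summable_kap {w : ℝ} (hw : 0 < w) : Summable fun n : ℕ => th n * (n:ℝ)^(-(1+w)) := by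
  have h : Summable fun n : ℕ => ((th n * (n:ℝ)^(-(1+w)) : ℝ) : ℂ) := by
    simp_rw [th_cpow]
    exact summable_th (by simp; exact hw)
  exact_mod_cast h

lemma kap_eq (w : ℝ) : (kap w : ℂ) = K (1 + (w:ℂ)) := by
  unfold kap K D
  rw [Complex.ofReal_tsum]
  exact tsum_congr fun n => th_cpow w n

lemma tendsto_kap : Tendsto (fun w : ℝ => w * kap w) (𝓝[>] 0) (𝓝 1) := by
  obtain ⟨C, hC0, hC⟩ := K_bound 0
  have h1 : ∀ w : ℝ, 0 < w → w ≤ 1 → |w * kap w - 1| ≤ C * w := by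
    intro w hw hw1
    have h2 := hC (1 + (w:ℂ)) (by simp; exact hw) (by simp; linarith) (by simp)
    have h3 : (1 + (w:ℂ)) - 1 = (w:ℂ) := by ring
    rw [h3, ← kap_eq] at h2
    have h4 : ((kap w : ℂ) - 1 / (w:ℂ)) = ((kap w - 1 / w : ℝ) : ℂ) := by push_cast; ring
    rw [h4, Complex.norm_real, Real.norm_eq_abs] at h2
    have h5 : w * kap w - 1 = w * (kap w - 1 / w) := by field_simp
    rw [h5, abs_mul, abs_of_pos hw, mul_comm]
    exact mul_le_mul_of_nonneg_right h2 hw.le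
  rw [tendsto_iff_dist_tendsto_zero]
  have h2 : Tendsto (fun w : ℝ => C * w) (𝓝[>] 0) (𝓝 0) := by
    have : Tendsto (fun w : ℝ => C * w) (𝓝 0) (𝓝 (C * 0)) := (continuous_const.mul continuous_id).tendsto 0
    rw [mul_zero] at this
    exact this.mono_left nhdsWithin_le_nhds
  apply squeeze_zero' (Eventually.of_forall fun _ => dist_nonneg) _ h2
  have h3 : ∀ᶠ w : ℝ in 𝓝[>] 0, w ∈ Set.Ioc (0:ℝ) 1 := Ioc_mem_nhdsGT one_pos
  filter_upwards [h3] with w hw
  rw [Real.dist_eq]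
  exact h1 w hw.1 hw.2

lemma x_mem (n : ℕ) (hn : 0 < n) {v : ℝ} (hv : 0 ≤ v) : (n:ℝ)^(-v) ∈ Set.Icc (0:ℝ) 1 := by
  have h1 : (1:ℝ) ≤ n := by exact_mod_cast hn
  exact ⟨by positivity, Real.rpow_le_one_of_one_le_of_nonpos h1 (by linarith)⟩

lemma poly_bdd (q : Polynomial ℝ) : ∃ B : ℝ, 0 ≤ B ∧ ∀ x ∈ Set.Icc (0:ℝ) 1, |q.eval x| ≤ B := by
  obtain ⟨B, hB⟩ := isCompact_Icc.exists_bound_of_continuousOn (s := Set.Icc (0:ℝ) 1) q.continuous.continuousOn
  exact ⟨max B 0, le_max_right _ _, fun x hx => (hB x hx).trans (le_max_left _ _)⟩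

lemma summable_poly (q : Polynomial ℝ) {v : ℝ} (hv : 0 < v) :
    Summable fun n : ℕ => th n * (n:ℝ)^(-(1+v)) * q.eval ((n:ℝ)^(-v)) := by
  obtain ⟨B, hB0, hB⟩ := poly_bdd q
  refine Summable.of_norm_bounded ((summable_kap hv).mul_right B) ?_
  intro n
  rcases Nat.eq_zero_or_pos n with rfl | hn
  · simp [th_zero]
  rw [norm_mul, Real.norm_of_nonneg (mul_nonneg (th_nonneg n) (by positivity))]
  exact mul_le_mul_of_nonneg_left (hB _ (x_mem n hn hv.le)) (mul_nonneg (th_nonneg n) (by positivity))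

lemma rpow_comb (n : ℕ) (hn : 0 < n) (v : ℝ) (k : ℕ) :
    (n:ℝ)^(-(1+v)) * ((n:ℝ)^(-v))^k = (n:ℝ)^(-(1 + ((k:ℝ)+1) * v)) := by
  have h0 : (0:ℝ) < n := by exact_mod_cast hn
  rw [← Real.rpow_natCast, ← Real.rpow_mul h0.le, ← Real.rpow_add h0]
  congr 1
  ring

lemma tendsto_scale (k : ℕ) : Tendsto (fun v : ℝ => ((k:ℝ) + 1) * v) (𝓝[>] 0) (𝓝[>] 0) := by
  apply tendsto_nhdsWithin_of_tendsto_nhds_of_eventually_within
  · have : Tendsto (fun v : ℝ => ((k:ℝ) + 1) * v) (𝓝 0) (𝓝 (((k:ℝ) + 1) * 0)) :=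
      (continuous_const.mul continuous_id).tendsto 0
    rw [mul_zero] at this
    exact this.mono_left nhdsWithin_le_nhds
  · filter_upwards [self_mem_nhdsWithin] with v hv
    rw [Set.mem_Ioi] at hv ⊢
    positivity

lemma tendsto_poly (q : Polynomial ℝ) :
    Tendsto (fun v : ℝ => v * ∑' n : ℕ, th n * (n:ℝ)^(-(1+v)) * q.eval ((n:ℝ)^(-v))) (𝓝[>] 0)
      (𝓝 (∫ x in (0:ℝ)..1, q.eval x)) := by
  induction q using Polynomial.induction_on' with
  | add p q hp hq =>
    have h1 : ∫ x in (0:ℝ)..1, (p + q).eval x = (∫ x in (0:ℝ)..1, p.eval x) + ∫ x in (0:ℝ)..1, q.eval x := by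
      simp only [Polynomial.eval_add]
      exact intervalIntegral.integral_add (p.continuous.intervalIntegrable _ _) (q.continuous.intervalIntegrable _ _)
    rw [h1]
    refine (hp.add hq).congr' ?_
    filter_upwards [self_mem_nhdsWithin] with v hv
    rw [Set.mem_Ioi] at hv
    rw [← mul_add, ← (summable_poly p hv).tsum_add (summable_poly q hv)]
    congr 1
    apply tsum_congr
    intro n
    rw [Polynomial.eval_add]
    ring
  | monomial k a =>
    have h1 : ∫ x in (0:ℝ)..1, (Polynomial.monomial k a).eval x = a * (1 / ((k:ℝ) + 1)) := by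
      simp only [Polynomial.eval_monomial]
      rw [intervalIntegral.integral_const_mul, integral_pow]
      simp
    rw [h1]
    have h2 := (tendsto_kap.comp (tendsto_scale k)).const_mul (a * (1 / ((k:ℝ) + 1)))
    rw [mul_one] at h2
    refine h2.congr' ?_
    filter_upwards [self_mem_nhdsWithin] with v hv
    rw [Set.mem_Ioi] at hv
    simp only [Function.comp]
    have h3 : ∑' n : ℕ, th n * (n:ℝ)^(-(1+v)) * (Polynomial.monomial k a).eval ((n:ℝ)^(-v))
        = a * kap (((k:ℝ) + 1) * v) := by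
      unfold kap
      rw [← tsum_mul_left]
      apply tsum_congr
      intro n
      rcases Nat.eq_zero_or_pos n with rfl | hn
      · simp [th_zero]
      rw [Polynomial.eval_monomial, ← rpow_comb n hn]
      ring
    rw [h3]
    field_simp

lemma norm_a_term {a : ℕ → ℂ} {b : ℝ} (H : Adm a b) (n : ℕ) (v : ℝ) :
    ‖a n * (n:ℂ)^(-(1 + (v:ℂ)))‖ = ‖a n‖ * (n:ℝ)^(-(1+v)) := by
  rcases Nat.eq_zero_or_pos n with rfl | hn
  · simp [H.zero]
  rw [norm_mul, norm_cpow_neg_nat hn]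
  simp

lemma summable_a {a : ℕ → ℂ} {b : ℝ} (H : Adm a b) {v : ℝ} (hv : 0 < v) :
    Summable fun n : ℕ => a n * (n:ℂ)^(-(1 + (v:ℂ))) := H.summable (by simp; exact hv)

lemma summable_poly_a {a : ℕ → ℂ} {b : ℝ} (H : Adm a b) (q : Polynomial ℝ) {v : ℝ} (hv : 0 < v) :
    Summable fun n : ℕ => a n * (n:ℂ)^(-(1 + (v:ℂ))) * ((q.eval ((n:ℝ)^(-v)) : ℝ) : ℂ) := by
  obtain ⟨B, hB0, hB⟩ := poly_bdd q
  refine Summable.of_norm_bounded ((summable_a H hv).norm.mul_right B) ?_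
  intro n
  rcases Nat.eq_zero_or_pos n with rfl | hn
  · simp [H.zero]
  rw [norm_mul, Complex.norm_real]
  exact mul_le_mul_of_nonneg_left (hB _ (x_mem n hn hv.le)) (norm_nonneg _)

lemma tendsto_poly_a {a : ℕ → ℂ} {b : ℝ} (H : Adm a b) {l : ℂ}
    (hl : Tendsto (fun v : ℝ => ∑' n : ℕ, a n * (n:ℂ)^(-(1 + (v:ℂ)))) (𝓝[>] 0) (𝓝 l)) (q : Polynomial ℝ) :
    Tendsto (fun v : ℝ => ∑' n : ℕ, a n * (n:ℂ)^(-(1 + (v:ℂ))) * ((q.eval ((n:ℝ)^(-v)) : ℝ) : ℂ)) (𝓝[>] 0)
      (𝓝 (((q.eval 1 : ℝ) : ℂ) * l)) := by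
  induction q using Polynomial.induction_on' with
  | add p q hp hq =>
    rw [Polynomial.eval_add, Complex.ofReal_add, add_mul]
    refine (hp.add hq).congr' ?_
    filter_upwards [self_mem_nhdsWithin] with v hv
    rw [Set.mem_Ioi] at hv
    rw [← (summable_poly_a H p hv).tsum_add (summable_poly_a H q hv)]
    apply tsum_congr
    intro n
    rw [Polynomial.eval_add]
    push_cast
    ring
  | monomial k c =>
    have h2 := (hl.comp (tendsto_scale k)).const_mul (c:ℂ)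
    have h1 : (((Polynomial.monomial k c).eval 1 : ℝ) : ℂ) = (c:ℂ) := by
      simp [Polynomial.eval_monomial]
    rw [h1]
    refine h2.congr' ?_
    filter_upwards [self_mem_nhdsWithin] with v hv
    rw [Set.mem_Ioi] at hv
    simp only [Function.comp]
    rw [← tsum_mul_left]
    apply tsum_congr
    intro n
    rcases Nat.eq_zero_or_pos n with rfl | hn
    · simp [H.zero]
    have h3 : ((n:ℂ)^(-(1 + ((((k:ℝ)+1) * v : ℝ) : ℂ)))) = (n:ℂ)^(-(1 + (v:ℂ))) * ((((n:ℝ)^(-v))^k : ℝ) : ℂ) := by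
      have h4 := rpow_comb n hn v k
      have h5 := congrArg (fun x : ℝ => (x : ℂ)) h4
      rw [Complex.ofReal_mul, Complex.ofReal_cpow (Nat.cast_nonneg n), Complex.ofReal_cpow (Nat.cast_nonneg n)] at h5
      rw [show (-(1 + ((((k:ℝ)+1) * v : ℝ) : ℂ))) = ((-(1 + ((k:ℝ)+1) * v) : ℝ) : ℂ) by push_cast; ring,
        show (-(1 + (v:ℂ))) = ((-(1+v) : ℝ) : ℂ) by push_cast; ring]
      simpa using h5.symm
    rw [h3, Polynomial.eval_monomial]
    push_cast
    ring

/-- Littlewood's Tauberian theorem for series supported on primes -/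
theorem tauber {a : ℕ → ℂ} {b : ℝ} (H : Adm a b) {l : ℂ}
    (hl : Tendsto (fun v : ℝ => ∑' n : ℕ, a n * (n:ℂ)^(-(1 + (v:ℂ)))) (𝓝[>] 0) (𝓝 l)) :
    Tendsto (fun N : ℕ => ∑ n ∈ Finset.range (N + 1), a n * (n:ℂ)^(-(1:ℂ))) atTop (𝓝 l) := by
  have hb := H.b_nonneg
  rw [Metric.tendsto_atTop]
  intro ε hε
  obtain ⟨p, q, hpq1, hq0, hq1⟩ := karamata_approx (c := Real.exp (-1)) (Real.exp_pos _)
    (by rw [Real.exp_lt_one_iff]; norm_num) (ε := ε / (4 * (b + 1))) (by positivity)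
  set Q : Polynomial ℝ := 1 + (1 - Polynomial.X) * p with hQ
  have hQ1 : Q.eval 1 = 1 := by simp [hQ]
  have hA := tendsto_poly_a H hl Q
  rw [hQ1, Complex.ofReal_one, one_mul] at hA
  have hB := tendsto_poly q
  -- the sequence of v
  have hv : Tendsto (fun N : ℕ => 1 / Real.log N) atTop (𝓝[>] 0) := by
    apply tendsto_nhdsWithin_of_tendsto_nhds_of_eventually_within
    · have : Tendsto (fun N : ℕ => Real.log N) atTop atTop := Real.tendsto_log_atTop.comp tendsto_natCast_atTop_atTop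
      exact this.const_div_atTop 1
    · filter_upwards [eventually_ge_atTop 2] with N hN
      rw [Set.mem_Ioi]
      have : 0 < Real.log N := Real.log_pos (by exact_mod_cast hN)
      positivity
  have hA2 := hA.comp hv
  have hB2 := hB.comp hv
  have hB3 : ∀ᶠ N : ℕ in atTop, ((fun v : ℝ => v * ∑' n : ℕ, th n * (n:ℝ)^(-(1+v)) * q.eval ((n:ℝ)^(-v))) ∘ (fun N : ℕ => 1 / Real.log N)) N < ε / (2 * (b + 1)) := by
    apply hB2.eventually_lt_const
    refine lt_of_le_of_lt hq1 ?_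
    apply div_lt_div_of_pos_left hε (by positivity)
    linarith
  obtain ⟨N1, hN1⟩ := (Metric.tendsto_atTop.mp hA2) (ε / 2) (by linarith)
  obtain ⟨N2, hN2⟩ := eventually_atTop.mp hB3
  refine ⟨N1 + N2 + 2, ?_⟩
  intro N hN
  have a1 := hN1 N (by omega)
  have a2 := hN2 N (by omega)
  simp only [Function.comp] at a1 a2
  have hlogN : 0 < Real.log N := Real.log_pos (by exact_mod_cast (show 1 < N by omega))
  set v : ℝ := 1 / Real.log N with hvdef
  have hv0 : 0 < v := by positivity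
  -- the partial sum as a series
  have e1 : ∑ n ∈ Finset.range (N + 1), a n * (n:ℂ)^(-(1:ℂ)) =
      ∑' n : ℕ, a n * (n:ℂ)^(-(1:ℂ)) * (((if Real.exp (-1) ≤ (n:ℝ)^(-v) then (1:ℝ) else 0 : ℝ)) : ℂ) := by
    have hiff : ∀ n : ℕ, 0 < n → (Real.exp (-1) ≤ (n:ℝ)^(-v) ↔ n ≤ N) := by
      intro n hn
      have hn0 : (0:ℝ) < n := by exact_mod_cast hn
      rw [Real.rpow_def_of_pos hn0, Real.exp_le_exp]
      constructor
      · intro h
        have h2 : Real.log n * v ≤ 1 := by linarith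
        rw [hvdef, mul_one_div, div_le_one hlogN] at h2
        have h3 := (Real.log_le_log_iff hn0 (by exact_mod_cast (show 0 < N by omega))).mp h2
        exact_mod_cast h3
      · intro h
        have h3 : Real.log n ≤ Real.log N := Real.log_le_log hn0 (by exact_mod_cast h)
        have h2 : Real.log n * v ≤ 1 := by
          rw [hvdef, mul_one_div, div_le_one hlogN]
          exact h3
        linarith
    rw [tsum_eq_sum (s := Finset.range (N + 1))]
    · apply Finset.sum_congr rfl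
      intro n hn
      rw [Finset.mem_range] at hn
      rcases Nat.eq_zero_or_pos n with rfl | hn0
      · simp [H.zero]
      rw [if_pos ((hiff n hn0).mpr (by omega))]
      simp
    · intro n hn
      rw [Finset.mem_range] at hn
      rw [if_neg]
      · simp
      · intro h
        have := (hiff n (by omega)).mp h
        omega
  have hcp : ∀ n : ℕ, a n * (n:ℂ)^(-(1 + (v:ℂ))) = a n * (n:ℂ)^(-(1:ℂ)) * (((n:ℝ)^(-v) : ℝ) : ℂ) := by
    intro n
    rcases Nat.eq_zero_or_pos n with rfl | hn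
    · simp [H.zero]
    have hn0 : (n:ℂ) ≠ 0 := by exact_mod_cast hn.ne'
    rw [mul_assoc, Complex.ofReal_cpow (Nat.cast_nonneg n), Complex.ofReal_natCast, ← Complex.cpow_add _ _ hn0]
    congr 2
    push_cast
    ring
  have hQx : ∀ x : ℝ, x * Q.eval x = x + x * (1 - x) * p.eval x := by
    intro x
    simp [hQ]
    ring
  have hbound : ‖(∑ n ∈ Finset.range (N + 1), a n * (n:ℂ)^(-(1:ℂ))) -
      ∑' n : ℕ, a n * (n:ℂ)^(-(1 + (v:ℂ))) * ((Q.eval ((n:ℝ)^(-v)) : ℝ) : ℂ)‖ ≤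
      b * (v * ∑' n : ℕ, th n * (n:ℝ)^(-(1+v)) * q.eval ((n:ℝ)^(-v))) := by
    have hs1 : Summable fun n : ℕ => a n * (n:ℂ)^(-(1:ℂ)) * (((if Real.exp (-1) ≤ (n:ℝ)^(-v) then (1:ℝ) else 0 : ℝ)) : ℂ) := by
      apply summable_of_hasFiniteSupport
      apply Set.Finite.subset (Finset.range (N + 1)).finite_toSet
      intro n hn
      rw [Function.mem_support] at hn
      simp only [Finset.coe_range, Set.mem_Iio]
      by_contra hcon
      apply hn
      rw [if_neg]
      · simp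
      · intro h
        have hn0 : (0:ℝ) < n := by exact_mod_cast (show 0 < n by omega)
        rw [Real.rpow_def_of_pos hn0, Real.exp_le_exp] at h
        have h2 : Real.log n * v ≤ 1 := by linarith
        rw [hvdef, mul_one_div, div_le_one hlogN] at h2
        have h3 := (Real.log_le_log_iff hn0 (by exact_mod_cast (show 0 < N by omega))).mp h2
        have h4 : n ≤ N := by exact_mod_cast h3
        omega
    rw [e1, ← hs1.tsum_sub (summable_poly_a H Q hv0), ← mul_assoc, ← tsum_mul_left]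
    apply tsum_of_norm_bounded ((summable_poly q hv0).mul_left (b * v)).hasSum
    intro n
    rw [hcp, mul_assoc (a n * (n:ℂ)^(-(1:ℂ))), ← Complex.ofReal_mul, hQx, ← mul_sub, ← Complex.ofReal_sub]
    by_cases hp : n.Prime
    · have hn : 0 < n := hp.pos
      have hn0 : (0:ℝ) < n := by exact_mod_cast hn
      have hx := x_mem n hn hv0.le
      set x : ℝ := (n:ℝ)^(-v) with hxdef
      rw [norm_mul, norm_mul, Complex.norm_real, Real.norm_eq_abs]
      have h1 := hpq1 x hx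
      have h2 : ‖(n:ℂ)^(-(1:ℂ))‖ = (n:ℝ)⁻¹ := by
        rw [norm_cpow_neg_nat hn, Complex.one_re, Real.rpow_neg_one]
      have h3 : 1 - x ≤ v * Real.log n := by
        have : -v * Real.log n + 1 ≤ Real.exp (-v * Real.log n) := Real.add_one_le_exp _
        rw [hxdef, Real.rpow_def_of_pos hn0, mul_comm (Real.log (n:ℝ)) (-v)]
        linarith
      have h4 : (n:ℝ)^(-(1+v)) = (n:ℝ)⁻¹ * x := by
        rw [hxdef, ← Real.rpow_neg_one, ← Real.rpow_add hn0]
        congr 1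
        ring
      have hth : th n = Real.log n := by simp [th, hp]
      rw [h2, h4, hth]
      have hq' := hq0 x hx
      have hx0 := hx.1
      have hx1 : 0 ≤ 1 - x := by linarith [hx.2]
      have hlog : 0 ≤ Real.log n := Real.log_nonneg (by exact_mod_cast hn)
      calc ‖a n‖ * (n:ℝ)⁻¹ * |(if Real.exp (-1) ≤ x then (1:ℝ) else 0) - (x + x * (1 - x) * p.eval x)|
          ≤ b * (n:ℝ)⁻¹ * (x * (1 - x) * q.eval x) := by
            apply mul_le_mul _ h1 (abs_nonneg _) (by positivity)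
            exact mul_le_mul_of_nonneg_right (H.bd n) (by positivity)
        _ ≤ b * (n:ℝ)⁻¹ * (x * (v * Real.log n) * q.eval x) := by gcongr
        _ = b * v * (Real.log n * ((n:ℝ)⁻¹ * x) * q.eval x) := by ring
    · rw [H.supp n hp]
      simp [th, hp]
  calc dist (∑ n ∈ Finset.range (N + 1), a n * (n:ℂ)^(-(1:ℂ))) l
      ≤ dist (∑ n ∈ Finset.range (N + 1), a n * (n:ℂ)^(-(1:ℂ)))
          (∑' n : ℕ, a n * (n:ℂ)^(-(1 + (v:ℂ))) * ((Q.eval ((n:ℝ)^(-v)) : ℝ) : ℂ)) +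
        dist (∑' n : ℕ, a n * (n:ℂ)^(-(1 + (v:ℂ))) * ((Q.eval ((n:ℝ)^(-v)) : ℝ) : ℂ)) l := dist_triangle _ _ _
    _ < ε / 2 + ε / 2 := by
        apply add_lt_add_of_le_of_lt _ a1
        rw [dist_eq_norm]
        refine hbound.trans ?_
        calc b * (v * ∑' n : ℕ, th n * (n:ℝ)^(-(1+v)) * q.eval ((n:ℝ)^(-v)))
            ≤ b * (ε / (2 * (b + 1))) := mul_le_mul_of_nonneg_left a2.le hb
          _ ≤ (b + 1) * (ε / (2 * (b + 1))) := mul_le_mul_of_nonneg_right (by linarith) (by positivity)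
          _ = ε / 2 := by field_simp
    _ = ε := by ring

end Pool.Agent.H91.Edge
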