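import Mathlib
import Pool.Agent.H91.Edge.Tauber

open Complex Filter Topology MeasureTheory

namespace Pool.Agent.H91.Edge

/-- Abel's theorem in Stolz angles -/
theorem abel {a : ℕ → ℂ} {b : ℝ} (H : Adm a b) {l : ℂ}
    (hl : Tendsto (fun N : ℕ => ∑ n ∈ Finset.range (N + 1), a n * (n:ℂ)^(-(1:ℂ))) atTop (𝓝 l)) (M : ℝ) :
    Tendsto (fun z : ℂ => ∑' n : ℕ, a n * (n:ℂ)^(-(1 + z))) (𝓝[{z : ℂ | 0 < z.re ∧ |z.im| ≤ M * z.re}] 0)
      (𝓝 l) := by
  set f : ℕ → ℂ := fun n => a n * (n:ℂ)^(-(1:ℂ)) with hf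
  have hf0 : f 0 = 0 := by simp [hf, H.zero]
  set S : ℕ → ℂ := fun N => ∑ k ∈ Finset.Icc 1 N, f k with hS
  have hSr : ∀ N, S N = ∑ n ∈ Finset.range (N + 1), f n := by
    intro N
    rw [hS]
    simp only
    induction N with
    | zero => simp [hf0]
    | succ N ih => rw [Finset.sum_Icc_succ_top (by omega), Finset.sum_range_succ, ih]
  have hSl : Tendsto S atTop (𝓝 l) := by
    refine hl.congr ?_
    intro N
    exact (hSr N).symm
  obtain ⟨B, hB⟩ : ∃ B, ∀ N, ‖S N‖ ≤ B := by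
    obtain ⟨B, hB⟩ := (Metric.isBounded_range_of_tendsto S hSl).exists_norm_le
    exact ⟨B, fun N => hB _ ⟨N, rfl⟩⟩
  set B' : ℝ := B + ‖l‖ with hB'
  have hB'0 : 0 ≤ B' := add_nonneg ((norm_nonneg _).trans (hB 0)) (norm_nonneg _)
  -- the key identity
  have key : ∀ z : ℂ, 0 < z.re → (∑' n : ℕ, a n * (n:ℂ)^(-(1 + z))) - l =
      z * ∫ t in Set.Ioi (1:ℝ), (S ⌊t⌋₊ - l) * (t:ℂ) ^ (-(z + 1)) := by
    intro z hz
    have hz0 : z ≠ 0 := by
      intro h
      rw [h] at hz
      simp at hz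
    have h1 : (∑' n : ℕ, a n * (n:ℂ)^(-(1 + z))) = LSeries f z := by
      rw [← D_eq hf0]
      unfold D
      apply tsum_congr
      intro n
      rcases Nat.eq_zero_or_pos n with rfl | hn
      · simp [H.zero, hf]
      have hn0 : (n:ℂ) ≠ 0 := by exact_mod_cast hn.ne'
      rw [hf]
      simp only
      rw [mul_assoc, ← Complex.cpow_add _ _ hn0]
      congr 2
      ring
    have h2 : LSeriesSummable f z := by
      rw [← summable_D_iff hf0]
      have h3 := H.summable (s := 1 + z) (by simp; exact hz)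
      refine h3.congr ?_
      intro n
      rcases Nat.eq_zero_or_pos n with rfl | hn
      · simp [H.zero, hf]
      have hn0 : (n:ℂ) ≠ 0 := by exact_mod_cast hn.ne'
      rw [hf]
      simp only
      rw [mul_assoc, ← Complex.cpow_add _ _ hn0]
      congr 2
      ring
    have h3 : (fun n ↦ ∑ k ∈ Finset.Icc 1 n, f k) =O[atTop] fun n ↦ ((n:ℕ) : ℝ) ^ (0:ℝ) := by
      simp only [Real.rpow_zero]
      apply Asymptotics.IsBigO.of_bound B
      filter_upwards with n
      simpa using hB n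
    have h4 := LSeries_eq_mul_integral f (r := 0) le_rfl hz h2 h3
    have hint : IntegrableOn (fun t : ℝ => (t:ℂ)^(-(z + 1))) (Set.Ioi 1) :=
      integrableOn_Ioi_cpow_of_lt (by simp; exact hz) one_pos
    have hmeas : Measurable fun t : ℝ => S ⌊t⌋₊ := by
      show Measurable (S ∘ (Nat.floor : ℝ → ℕ))
      exact (measurable_from_nat (f := S)).comp Nat.measurable_floor
    have hint2 : IntegrableOn (fun t : ℝ => S ⌊t⌋₊ * (t:ℂ)^(-(z + 1))) (Set.Ioi 1) := by
      apply Integrable.bdd_mul (c := B) hint hmeas.aestronglyMeasurable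
      exact Eventually.of_forall fun t => hB _
    have hcpow : ∫ t in Set.Ioi (1:ℝ), (t:ℂ) ^ (-(z + 1)) = 1 / z := by
      rw [integral_Ioi_cpow_of_lt (by simp; exact hz) one_pos]
      simp only [Complex.ofReal_one, Complex.one_cpow]
      have : -(z + 1) + 1 = -z := by ring
      rw [this]
      field_simp
    have h5 : ∫ t in Set.Ioi (1:ℝ), (S ⌊t⌋₊ - l) * (t:ℂ) ^ (-(z + 1)) =
        (∫ t in Set.Ioi (1:ℝ), S ⌊t⌋₊ * (t:ℂ) ^ (-(z + 1))) - l * (1 / z) := by
      rw [← hcpow, ← integral_const_mul, ← integral_sub hint2 (hint.const_mul l)]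
      apply integral_congr_ae
      filter_upwards with t
      ring
    rw [h1, h4, h5, mul_sub]
    congr 1
    field_simp
  -- estimate
  rw [Metric.tendsto_nhdsWithin_nhds]
  intro ε hε
  set ε' : ℝ := ε / (2 * (1 + |M|)) with hε'
  have hε'0 : 0 < ε' := by positivity
  obtain ⟨N0, hN0⟩ := (Metric.tendsto_atTop.mp hSl) ε' hε'0
  set X : ℝ := N0 + 1 with hX
  have hX1 : 1 ≤ X := by
    rw [hX]
    have : (0:ℝ) ≤ N0 := Nat.cast_nonneg _
    linarith
  have hg : ∀ t : ℝ, X ≤ t → ‖S ⌊t⌋₊ - l‖ ≤ ε' := by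
    intro t ht
    have h1 : N0 ≤ ⌊t⌋₊ := by
      apply Nat.le_floor
      rw [hX] at ht
      linarith
    have := hN0 _ h1
    rw [dist_eq_norm] at this
    exact this.le
  refine ⟨ε / (2 * (B' * X + 1)), by positivity, ?_⟩
  intro z hz hzδ
  obtain ⟨hz1, hz2⟩ := hz
  rw [dist_zero_right] at hzδ
  rw [dist_eq_norm, key z hz1, norm_mul]
  have hbound : ‖∫ t in Set.Ioi (1:ℝ), (S ⌊t⌋₊ - l) * (t:ℂ) ^ (-(z + 1))‖ ≤ ε' / z.re + B' * X := by
    have hint3 : IntegrableOn (fun t : ℝ => ε' * t ^ (-(z.re + 1))) (Set.Ioi 1) :=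
      (integrableOn_Ioi_rpow_of_lt (by linarith) one_pos).const_mul _
    have hint4 : IntegrableOn (Set.indicator (Set.Ioc 1 X) (fun _ : ℝ => B')) (Set.Ioi 1) := by
      apply Integrable.integrableOn
      rw [integrable_indicator_iff measurableSet_Ioc]
      exact integrableOn_const (by simp)
    have h1 : ‖∫ t in Set.Ioi (1:ℝ), (S ⌊t⌋₊ - l) * (t:ℂ) ^ (-(z + 1))‖ ≤
        ∫ t in Set.Ioi (1:ℝ), (ε' * t ^ (-(z.re + 1)) + Set.indicator (Set.Ioc 1 X) (fun _ : ℝ => B') t) := by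
      apply norm_integral_le_of_norm_le (hint3.add hint4)
      rw [ae_restrict_iff' measurableSet_Ioi]
      filter_upwards with t ht
      rw [Set.mem_Ioi] at ht
      have ht0 : 0 < t := by linarith
      have hn : ‖(t:ℂ) ^ (-(z + 1))‖ = t ^ (-(z.re + 1)) := by
        rw [Complex.norm_cpow_eq_rpow_re_of_pos ht0]
        simp
      rw [norm_mul, hn]
      have hp : 0 ≤ t ^ (-(z.re + 1)) := by positivity
      rw [Pi.add_apply]
      by_cases hc : t ≤ X
      · rw [Set.indicator_of_mem (show t ∈ Set.Ioc 1 X from ⟨ht, hc⟩)]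
        have h2 : ‖S ⌊t⌋₊ - l‖ ≤ B' := (norm_sub_le _ _).trans (add_le_add (hB _) le_rfl)
        have h3 : t ^ (-(z.re + 1)) ≤ 1 := Real.rpow_le_one_of_one_le_of_nonpos ht.le (by linarith)
        have h4 : ‖S ⌊t⌋₊ - l‖ * t ^ (-(z.re + 1)) ≤ B' * 1 := mul_le_mul h2 h3 hp hB'0
        have h5 : 0 ≤ ε' * t ^ (-(z.re + 1)) := by positivity
        linarith
      · rw [Set.indicator_of_notMem (fun h => hc h.2), add_zero]
        exact mul_le_mul_of_nonneg_right (hg t (by linarith)) hp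
    refine h1.trans ?_
    rw [integral_add hint3 hint4, integral_const_mul, integral_Ioi_rpow_of_lt (by linarith) one_pos]
    have h2 : ∫ t in Set.Ioi (1:ℝ), Set.indicator (Set.Ioc 1 X) (fun _ : ℝ => B') t = B' * (X - 1) := by
      rw [setIntegral_indicator measurableSet_Ioc]
      have : Set.Ioi (1:ℝ) ∩ Set.Ioc 1 X = Set.Ioc 1 X := by
        ext t
        simp
      rw [this, setIntegral_const]
      simp only [Measure.real, Real.volume_Ioc, smul_eq_mul]
      rw [ENNReal.toReal_ofReal (by linarith), mul_comm]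
    rw [h2, Real.one_rpow]
    have h3 : ε' * (-1 / (-(z.re + 1) + 1)) = ε' / z.re := by
      have : -(z.re + 1) + 1 = -z.re := by ring
      rw [this]
      field_simp
    rw [h3]
    have : B' * (X - 1) ≤ B' * X := mul_le_mul_of_nonneg_left (by linarith) hB'0
    linarith
  have hzn : ‖z‖ ≤ (1 + |M|) * z.re := by
    have h1 := Complex.norm_le_abs_re_add_abs_im z
    rw [abs_of_pos hz1] at h1
    have h2 : M * z.re ≤ |M| * z.re := mul_le_mul_of_nonneg_right (le_abs_self M) hz1.le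
    linarith
  calc ‖z‖ * ‖∫ t in Set.Ioi (1:ℝ), (S ⌊t⌋₊ - l) * (t:ℂ) ^ (-(z + 1))‖
      ≤ ‖z‖ * (ε' / z.re + B' * X) := mul_le_mul_of_nonneg_left hbound (norm_nonneg _)
    _ = ‖z‖ * (ε' / z.re) + ‖z‖ * (B' * X) := by ring
    _ ≤ ((1 + |M|) * z.re) * (ε' / z.re) + ‖z‖ * (B' * X + 1) := by
        apply add_le_add
        · exact mul_le_mul_of_nonneg_right hzn (by positivity)
        · exact mul_le_mul_of_nonneg_left (by linarith) (norm_nonneg _)
    _ < ε / 2 + ε / 2 := by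
        apply add_lt_add_of_le_of_lt
        · rw [hε']
          apply le_of_eq
          field_simp
        · calc ‖z‖ * (B' * X + 1) < ε / (2 * (B' * X + 1)) * (B' * X + 1) :=
                mul_lt_mul_of_pos_right hzδ (by positivity)
            _ = ε / 2 := by field_simp
    _ = ε := by ring

end Pool.Agent.H91.Edge
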