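import Mathlib
import Pool.Agent.H89.EdgeBasic
import Pool.Agent.H91.Edge.Abel

open Complex Filter Topology

namespace Pool.Agent.H91.Edge

open Pool.Agent.H89.EdgeBasic (Hyp tr locLog Idx exp_locLog norm_locLog_sub norm_tr_le root_inv_le
  inv_le_half idx_pos norm_cpow_neg norm_tr summable_inv_sq root_ne_zero)

variable {N i b : ℕ} {P : ℕ → Polynomial ℂ}

lemma root_bound' (H : Hyp N i b P) (p : Idx N) {s : ℂ}
    (hs : 1 + (i:ℝ)/2 ≤ s.re) {r : ℂ} (hr : r ∈ (P p).roots) :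
    ‖(p:ℂ)^(-s) / r‖ ≤ (p:ℝ)⁻¹ := by
  rw [div_eq_mul_inv, norm_mul, norm_cpow_neg]
  have h1 := root_inv_le H p hr
  have hp := idx_pos p
  have hp1 : (1:ℝ) ≤ (p:ℝ) := by exact_mod_cast p.2.1.one_lt.le
  calc (p:ℝ)^(-s.re) * ‖r⁻¹‖ ≤ (p:ℝ)^(-s.re) * (p:ℝ) ^ ((i:ℝ)/2) := by gcongr
    _ = (p:ℝ)^(-s.re + (i:ℝ)/2) := by rw [Real.rpow_add hp]
    _ ≤ (p:ℝ)^(-1:ℝ) := by
        apply Real.rpow_le_rpow_of_exponent_le hp1
        linarith
    _ = (p:ℝ)⁻¹ := by rw [Real.rpow_neg_one]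

/-- the error term of the logarithm -/
noncomputable def err (P : ℕ → Polynomial ℂ) (p : ℕ) (s : ℂ) : ℂ :=
  locLog (P p) ((p:ℂ)^(-s)) - tr (P p) * (p:ℂ)^(-s)

lemma norm_err (H : Hyp N i b P) (p : Idx N) {s : ℂ} (hs : 1 + (i:ℝ)/2 ≤ s.re) :
    ‖err P p s‖ ≤ b * ((p:ℝ)^2)⁻¹ := by
  have h := norm_locLog_sub (P p) b (H.hdeg p p.2.1 p.2.2) ((p:ℂ)^(-s)) ((p:ℝ)⁻¹)
    (inv_le_half p) (fun r hr => root_bound' H p hs hr)
  rwa [inv_pow] at h

lemma exp_locLog' (H : Hyp N i b P) (p : Idx N) {s : ℂ} (hs : 1 + (i:ℝ)/2 ≤ s.re) :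
    Complex.exp (locLog (P p) ((p:ℂ)^(-s))) = ((P p).eval ((p:ℂ)^(-s)))⁻¹ := by
  apply exp_locLog _ (H.h0 p p.2.1 p.2.2)
  intro r hr
  have h2 := root_bound' H p hs hr
  have h3 := inv_le_half p
  linarith

lemma continuousWithinAt_err (H : Hyp N i b P) (p : Idx N) {s : ℂ} (hs : 1 + (i:ℝ)/2 ≤ s.re) :
    ContinuousAt (err P p) s := by
  unfold err
  have hp0 : ((p:ℕ):ℂ) ≠ 0 := by exact_mod_cast p.2.1.ne_zero
  have hc : Continuous fun s : ℂ => (p:ℂ)^(-s) := continuous_neg.const_cpow (Or.inl hp0)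
  apply ContinuousAt.sub
  · unfold locLog
    apply tendsto_multiset_sum
    intro r hr
    have hb := root_bound' H p hs hr
    have hh := inv_le_half p
    have hlt : ‖(p:ℂ)^(-s) / r‖ < 1 := by linarith
    have hne : (1 - (p:ℂ)^(-s) / r) ≠ 0 := by
      intro h
      have : (p:ℂ)^(-s) / r = 1 := by linear_combination -h
      rw [this] at hlt
      simp at hlt
    have h0 : ContinuousAt (fun s : ℂ => 1 - (p:ℂ)^(-s) / r) s :=
      (continuous_const.sub (hc.div_const r)).continuousAt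
    have h1 : ContinuousAt (fun s : ℂ => (1 - (p:ℂ)^(-s) / r)⁻¹) s := h0.inv₀ hne
    apply h1.clog
    have h2 : 0 < (1 - (p:ℂ)^(-s) / r).re := by
      have := Complex.re_le_norm ((p:ℂ)^(-s) / r)
      rw [Complex.sub_re, Complex.one_re]
      linarith
    rw [Complex.mem_slitPlane_iff]
    left
    rw [Complex.inv_re]
    exact div_pos h2 (Complex.normSq_pos.mpr hne)
  · exact (continuous_const.mul hc).continuousAt

lemma tendsto_err (H : Hyp N i b P) {s0 : ℂ} (hs0 : 1 + (i:ℝ)/2 ≤ s0.re) {l : Filter ℂ}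
    (hl : l ≤ 𝓝 s0) (hl2 : ∀ᶠ s in l, 1 + (i:ℝ)/2 ≤ s.re) :
    Tendsto (fun s => ∑' p : Idx N, err P p s) l (𝓝 (∑' p : Idx N, err P p s0)) := by
  apply tendsto_tsum_of_dominated_convergence ((summable_inv_sq N).mul_left (b:ℝ))
  · intro p
    exact (continuousWithinAt_err H p hs0).tendsto.mono_left hl
  · filter_upwards [hl2] with s hs p
    exact norm_err H p hs

/-- normalised trace -/
noncomputable def ft (N i : ℕ) (P : ℕ → Polynomial ℂ) (t : ℝ) (n : ℕ) : ℂ :=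
  open Classical in
  if n.Prime ∧ ¬ n ∣ N then tr (P n) * (n:ℂ)^(-((i:ℂ)/2 + t * I)) else 0

lemma adm_ft (H : Hyp N i b P) (t : ℝ) : Adm (ft N i P t) b := by
  constructor
  · intro n
    unfold ft
    split_ifs with h
    · have h1 := norm_tr H ⟨n, h⟩
      have hn : 0 < n := h.1.pos
      have hn0 : (0:ℝ) < n := by exact_mod_cast hn
      rw [norm_mul, norm_cpow_neg_nat hn]
      simp only at h1
      have hre : ((i:ℂ)/2 + t * I).re = (i:ℝ)/2 := by
        simp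
      rw [hre]
      calc ‖tr (P n)‖ * (n:ℝ)^(-((i:ℝ)/2)) ≤ (b * (n:ℝ) ^ ((i:ℝ)/2)) * (n:ℝ)^(-((i:ℝ)/2)) := by
            gcongr
        _ = b := by
            rw [mul_assoc, ← Real.rpow_add hn0]
            simp
    · simp
  · intro n hn
    unfold ft
    rw [if_neg]
    exact fun h => hn h.1

lemma ft_mul (t : ℝ) (n : ℕ) (z : ℂ) :
    ft N i P t n * (n:ℂ)^(-(1 + z)) = ft N i P 0 n * (n:ℂ)^(-(1 + z + t * I)) := by
  unfold ft
  split_ifs with h
  · have hn0 : (n:ℂ) ≠ 0 := by exact_mod_cast h.1.ne_zero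
    rw [mul_assoc, mul_assoc, ← Complex.cpow_add _ _ hn0, ← Complex.cpow_add _ _ hn0]
    congr 2
    push_cast
    ring
  · simp

lemma ft_mul' (t : ℝ) {n : ℕ} (h : n.Prime ∧ ¬ n ∣ N) (z : ℂ) :
    ft N i P t n * (n:ℂ)^(-(1 + z)) = tr (P n) * (n:ℂ)^(-(1 + (i:ℂ)/2 + t * I + z)) := by
  unfold ft
  rw [if_pos h]
  have hn0 : (n:ℂ) ≠ 0 := by exact_mod_cast h.1.ne_zero
  rw [mul_assoc, ← Complex.cpow_add _ _ hn0]
  congr 2
  ring

lemma tsum_idx (g : ℕ → ℂ) (hg : ∀ n, ¬ (n.Prime ∧ ¬ n ∣ N) → g n = 0) :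
    ∑' p : Idx N, g p = ∑' n : ℕ, g n := by
  apply tsum_subtype_eq_of_support_subset (s := {n : ℕ | n.Prime ∧ ¬ n ∣ N})
  intro n hn
  by_contra hcon
  exact hn (hg n hcon)

lemma ft_zero {t : ℝ} {n : ℕ} (h : ¬ (n.Prime ∧ ¬ n ∣ N)) : ft N i P t n = 0 := by
  unfold ft
  rw [if_neg h]

/-- the Euler product to the right of the edge line -/
lemma L_eq (H : Hyp N i b P) (t : ℝ) {z : ℂ} (hz : 0 < z.re) :
    ∏' p : Idx N, ((P p).eval ((p:ℂ)^(-(1 + (i:ℂ)/2 + t * I + z))))⁻¹ =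
      Complex.exp ((∑' n : ℕ, ft N i P t n * (n:ℂ)^(-(1 + z))) +
        ∑' p : Idx N, err P p (1 + (i:ℂ)/2 + t * I + z)) := by
  have hre : 1 + (i:ℝ)/2 < (1 + (i:ℂ)/2 + t * I + z).re := by
    simp
    exact hz
  have h1 := Pool.Agent.H89.EdgeBasic.hasProd_L H hre
  rw [h1.tprod_eq]
  congr 1
  have h2 : (∑' n : ℕ, ft N i P t n * (n:ℂ)^(-(1 + z))) =
      ∑' p : Idx N, tr (P p) * (p:ℂ)^(-(1 + (i:ℂ)/2 + t * I + z)) := by
    rw [← tsum_idx (N := N) (fun n => ft N i P t n * (n:ℂ)^(-(1 + z)))]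
    · apply tsum_congr
      intro p
      exact ft_mul' t p.2 z
    · intro n hn
      rw [ft_zero hn, zero_mul]
  rw [h2, ← (Pool.Agent.H89.EdgeBasic.summable_tr_mul H hre).tsum_add]
  · apply tsum_congr
    intro p
    unfold err
    ring
  · exact Summable.of_norm_bounded ((summable_inv_sq N).mul_left (b:ℝ)) (fun p => norm_err H p hre.le)

/-- the single family statement -/
theorem main (H : Hyp N i b P) : ∃ E : Set ℝ, dimH E = 0 ∧ ∀ t : ℝ, t ∉ E → ∃ l : ℂ, l ≠ 0 ∧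
    Tendsto (fun x : ℕ => ∏ p ∈ (Finset.range (x + 1)).filter (fun p => p.Prime ∧ ¬ p ∣ N),
      ((P p).eval ((p:ℂ)^(-(1 + (i:ℂ)/2 + t * I))))⁻¹) atTop (𝓝 l) ∧
    ∀ M : ℝ, Tendsto (fun s : ℂ => ∏' p : {p : ℕ // p.Prime ∧ ¬ p ∣ N}, ((P p).eval ((p:ℂ)^(-s)))⁻¹)
      (𝓝[{s : ℂ | 1 + (i:ℝ)/2 < s.re ∧ |s.im - t| ≤ M * (s.re - (1 + (i:ℝ)/2))}]
        (1 + (i:ℂ)/2 + t * I)) (𝓝 l) := by
  obtain ⟨E, hE, hE2⟩ := radial (adm_ft H 0)
  refine ⟨E, hE, ?_⟩
  intro t ht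
  obtain ⟨l, hl⟩ := hE2 t ht
  have hl1 : Tendsto (fun v : ℝ => ∑' n : ℕ, ft N i P t n * (n:ℂ)^(-(1 + (v:ℂ)))) (𝓝[>] 0) (𝓝 l) := by
    refine hl.congr ?_
    intro v
    unfold F D
    apply tsum_congr
    intro n
    exact (ft_mul t n (v:ℂ)).symm
  have hl2 := tauber (adm_ft H t) hl1
  have hl3 := fun M => abel (adm_ft H t) hl2 M
  set s0 : ℂ := 1 + (i:ℂ)/2 + t * I with hs0
  have hs0re : s0.re = 1 + (i:ℝ)/2 := by
    simp [hs0]
  have hs0im : s0.im = t := by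
    simp [hs0]
  set R : ℂ := ∑' p : Idx N, err P p s0 with hR
  refine ⟨Complex.exp (l + R), Complex.exp_ne_zero _, ?_, ?_⟩
  · have hsum : Summable fun p : Idx N => err P p s0 :=
      Summable.of_norm_bounded ((summable_inv_sq N).mul_left (b:ℝ)) (fun p => norm_err H p hs0re.ge)
    classical
    set g : ℕ → ℂ := fun n => if n.Prime ∧ ¬ n ∣ N then err P n s0 else 0 with hg
    have hgs : Summable g := by
      have h1 : Summable (g ∘ (Subtype.val : {n : ℕ | n.Prime ∧ ¬ n ∣ N} → ℕ)) := by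
        refine hsum.congr ?_
        intro p
        simp only [hg, Function.comp]
        rw [if_pos p.2]
      have h2 := summable_subtype_iff_indicator.mp h1
      have : Set.indicator {n : ℕ | n.Prime ∧ ¬ n ∣ N} g = g := by
        ext n
        by_cases h : n.Prime ∧ ¬ n ∣ N
        · rw [Set.indicator_of_mem (show n ∈ {n : ℕ | n.Prime ∧ ¬ n ∣ N} from h)]
        · rw [Set.indicator_of_notMem (show n ∉ {n : ℕ | n.Prime ∧ ¬ n ∣ N} from h), hg]
          simp only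
          rw [if_neg h]
      rw [this] at h2
      exact h2
    have hgR : ∑' n, g n = R := by
      rw [hR, ← tsum_idx (N := N) g]
      · apply tsum_congr
        intro p
        simp only [hg]
        rw [if_pos p.2]
      · intro n hn
        simp only [hg]
        rw [if_neg hn]
    have h2 : Tendsto (fun x : ℕ => ∑ n ∈ Finset.range (x + 1), g n) atTop (𝓝 R) := by
      rw [← hgR]
      exact hgs.hasSum.tendsto_sum_nat.comp (tendsto_add_atTop_nat 1)
    have h3 := (hl2.add h2).cexp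
    refine h3.congr ?_
    intro x
    rw [← Finset.sum_add_distrib, Complex.exp_sum, Finset.prod_filter]
    apply Finset.prod_congr rfl
    intro n _
    split_ifs with h
    · have h4 := ft_mul' (i := i) (P := P) t h 0
      rw [add_zero, add_zero] at h4
      rw [h4]
      simp only [hg]
      rw [if_pos h, ← exp_locLog' H ⟨n, h⟩ hs0re.ge]
      congr 1
      unfold err
      ring
    · rw [ft_zero h]
      simp only [hg]
      rw [if_neg h]
      simp
  · intro M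
    have hmap : Tendsto (fun s : ℂ => s - s0)
        (𝓝[{s : ℂ | 1 + (i:ℝ)/2 < s.re ∧ |s.im - t| ≤ M * (s.re - (1 + (i:ℝ)/2))}] s0)
        (𝓝[{z : ℂ | 0 < z.re ∧ |z.im| ≤ M * z.re}] 0) := by
      apply tendsto_nhdsWithin_of_tendsto_nhds_of_eventually_within
      · have : Tendsto (fun s : ℂ => s - s0) (𝓝 s0) (𝓝 (s0 - s0)) :=
          (continuous_id.sub continuous_const).tendsto s0
        rw [sub_self] at this
        exact this.mono_left nhdsWithin_le_nhds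
      · filter_upwards [self_mem_nhdsWithin] with s hs
        obtain ⟨h1, h2⟩ := hs
        refine ⟨?_, ?_⟩
        · rw [Complex.sub_re, hs0re]
          linarith
        · rw [Complex.sub_re, Complex.sub_im, hs0re, hs0im]
          exact h2
    have h1 := (hl3 M).comp hmap
    have h2 := tendsto_err H hs0re.ge
      (l := 𝓝[{s : ℂ | 1 + (i:ℝ)/2 < s.re ∧ |s.im - t| ≤ M * (s.re - (1 + (i:ℝ)/2))}] s0)
      nhdsWithin_le_nhds (by
        filter_upwards [self_mem_nhdsWithin] with s hs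
        exact hs.1.le)
    have h3 := (h1.add h2).cexp
    refine h3.congr' ?_
    filter_upwards [self_mem_nhdsWithin] with s hs
    have h4 := L_eq H t (z := s - s0) (by rw [Complex.sub_re, hs0re]; linarith [hs.1])
    rw [← hs0, add_sub_cancel] at h4
    simp only [Function.comp]
    exact h4.symm

end Pool.Agent.H91.Edge
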