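import Mathlib

open Complex MeasureTheory Filter Topology

namespace Pool.Agent.H91.Edge

/-- integrable weights with nonnegative Fourier transform -/
structure PD (w : ℝ → ℝ) : Prop where
  int : Integrable w
  ft : ∀ ν : ℝ, ∃ r : ℝ, 0 ≤ r ∧ ∫ t, (w t : ℂ) * cexp ((ν * t : ℝ) * I) = (r : ℂ)

/-- trigonometric series -/
noncomputable def TS {J : Type} (c : J → ℂ) (ν : J → ℝ) (t : ℝ) : ℂ :=
  ∑' j, c j * cexp ((ν j * t : ℝ) * I)

lemma norm_term {J : Type} (c : J → ℂ) (ν : J → ℝ) (t : ℝ) (j : J) :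
    ‖c j * cexp ((ν j * t : ℝ) * I)‖ = ‖c j‖ := by
  rw [norm_mul, Complex.norm_exp_ofReal_mul_I, mul_one]

lemma summable_TS {J : Type} {c : J → ℂ} {C : J → ℝ} (hC : Summable C) (hc : ∀ j, ‖c j‖ ≤ C j)
    (ν : J → ℝ) (t : ℝ) : Summable fun j => c j * cexp ((ν j * t : ℝ) * I) :=
  Summable.of_norm_bounded hC fun j => by rw [norm_term]; exact hc j

lemma norm_TS_le {J : Type} {c : J → ℂ} {C : J → ℝ} (hC : Summable C) (hc : ∀ j, ‖c j‖ ≤ C j)
    (ν : J → ℝ) (t : ℝ) : ‖TS c ν t‖ ≤ ∑' j, C j :=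
  tsum_of_norm_bounded hC.hasSum fun j => by rw [norm_term]; exact hc j

lemma continuous_TS {J : Type} {c : J → ℂ} {C : J → ℝ} (hC : Summable C) (hc : ∀ j, ‖c j‖ ≤ C j)
    (ν : J → ℝ) : Continuous (TS c ν) := by
  unfold TS
  apply continuous_tsum (u := C)
  · intro j
    fun_prop
  · exact hC
  · intro j t
    rw [norm_term]
    exact hc j

/-- majorization of absolutely convergent trigonometric series -/
def Maj (φ Φ : ℝ → ℂ) : Prop :=
  ∃ (J : Type) (c : J → ℂ) (C : J → ℝ) (ν : J → ℝ), Countable J ∧ Summable C ∧ (∀ j, ‖c j‖ ≤ C j) ∧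
    (∀ t, φ t = TS c ν t) ∧ (∀ t, Φ t = TS (fun j => (C j : ℂ)) ν t)

lemma norm_ofReal_le {J : Type} {c : J → ℂ} {C : J → ℝ} (hc : ∀ j, ‖c j‖ ≤ C j) (j : J) :
    ‖((C j : ℝ) : ℂ)‖ ≤ C j := by
  rw [Complex.norm_real, Real.norm_of_nonneg ((norm_nonneg _).trans (hc j))]

lemma Maj.one : Maj (fun _ => 1) (fun _ => 1) := by
  refine ⟨Unit, fun _ => 1, fun _ => 1, fun _ => 0, inferInstance, ?_, ?_, ?_, ?_⟩
  · exact (hasSum_fintype _).summable
  · intro j; simp
  · intro t; simp [TS]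
  · intro t; simp [TS]

lemma TS_mul {J K : Type} {c : J → ℂ} {C : J → ℝ} {d : K → ℂ} {D : K → ℝ} (hC : Summable C)
    (hc : ∀ j, ‖c j‖ ≤ C j) (hD : Summable D) (hd : ∀ k, ‖d k‖ ≤ D k) (ν : J → ℝ) (μ : K → ℝ) (t : ℝ) :
    TS c ν t * TS d μ t = TS (fun x : J × K => c x.1 * d x.2) (fun x => ν x.1 + μ x.2) t := by
  unfold TS
  rw [tsum_mul_tsum_of_summable_norm]
  · apply tsum_congr
    intro x
    have : cexp (((ν x.1 + μ x.2) * t : ℝ) * I) = cexp ((ν x.1 * t : ℝ) * I) * cexp ((μ x.2 * t : ℝ) * I) := by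
      rw [← Complex.exp_add]
      congr 1
      push_cast
      ring
    rw [this]
    ring
  · exact Summable.of_nonneg_of_le (fun _ => norm_nonneg _) (fun j => by rw [norm_term]; exact hc j) hC
  · exact Summable.of_nonneg_of_le (fun _ => norm_nonneg _) (fun j => by rw [norm_term]; exact hd j) hD

lemma Maj.mul {φ Φ ψ Ψ : ℝ → ℂ} (h1 : Maj φ Φ) (h2 : Maj ψ Ψ) :
    Maj (fun t => φ t * ψ t) (fun t => Φ t * Ψ t) := by
  obtain ⟨J, c, C, ν, hJ, hC, hc, h3, h4⟩ := h1
  obtain ⟨K, d, D, μ, hK, hD, hd, h5, h6⟩ := h2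
  have hC0 : ∀ j, 0 ≤ C j := fun j => (norm_nonneg _).trans (hc j)
  have hD0 : ∀ j, 0 ≤ D j := fun j => (norm_nonneg _).trans (hd j)
  refine ⟨J × K, fun x => c x.1 * d x.2, fun x => C x.1 * D x.2, fun x => ν x.1 + μ x.2, inferInstance,
    hC.mul_of_nonneg hD hC0 hD0, ?_, ?_, ?_⟩
  · intro x
    rw [norm_mul]
    exact mul_le_mul (hc _) (hd _) (norm_nonneg _) (hC0 _)
  · intro t
    show φ t * ψ t = _
    rw [h3, h5, TS_mul hC hc hD hd]
  · intro t
    show Φ t * Ψ t = _
    rw [h4, h6, TS_mul hC (norm_ofReal_le hc) hD (norm_ofReal_le hd)]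
    unfold TS
    apply tsum_congr
    intro x
    push_cast
    ring

lemma Maj.pow {φ Φ : ℝ → ℂ} (h : Maj φ Φ) (m : ℕ) : Maj (fun t => φ t ^ m) (fun t => Φ t ^ m) := by
  induction m with
  | zero => simpa using Maj.one
  | succ m ih =>
    simp_rw [pow_succ]
    exact ih.mul h

lemma integral_TS {J : Type} [Countable J] {w : ℝ → ℝ} (hw : PD w) {c : J → ℂ} {C : J → ℝ} (hC : Summable C)
    (hc : ∀ j, ‖c j‖ ≤ C j) (ν : J → ℝ) (t0 : ℝ) :
    HasSum (fun j => c j * (cexp ((ν j * t0 : ℝ) * I) * ∫ t, (w t : ℂ) * cexp ((ν j * t : ℝ) * I)))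
      (∫ t, (w (t - t0) : ℂ) * TS c ν t) := by
  have hwint : Integrable (fun t => (w (t - t0) : ℂ)) := (hw.int.comp_sub_right t0).ofReal
  have hF : ∀ j, Integrable (fun t => (w (t - t0) : ℂ) * (c j * cexp ((ν j * t : ℝ) * I))) := by
    intro j
    apply hwint.mul_bdd (c := ‖c j‖)
    · apply Continuous.aestronglyMeasurable
      fun_prop
    · filter_upwards with t
      rw [norm_term]
  have hnorm : ∀ j, ∫ t, ‖(w (t - t0) : ℂ) * (c j * cexp ((ν j * t : ℝ) * I))‖ = ‖c j‖ * ∫ t, ‖(w (t - t0) : ℂ)‖ := by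
    intro j
    rw [← integral_const_mul]
    apply integral_congr_ae
    filter_upwards with t
    rw [norm_mul, norm_term, mul_comm]
  have hs := MeasureTheory.hasSum_integral_of_summable_integral_norm hF (by
    simp_rw [hnorm]
    apply Summable.mul_right
    exact Summable.of_nonneg_of_le (fun _ => norm_nonneg _) hc hC)
  have e1 : ∀ t, ∑' j, (w (t - t0) : ℂ) * (c j * cexp ((ν j * t : ℝ) * I)) = (w (t - t0) : ℂ) * TS c ν t := by
    intro t
    rw [tsum_mul_left]
    rfl
  simp_rw [e1] at hs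
  have e2 : ∀ j, ∫ t, (w (t - t0) : ℂ) * (c j * cexp ((ν j * t : ℝ) * I)) =
      c j * (cexp ((ν j * t0 : ℝ) * I) * ∫ t, (w t : ℂ) * cexp ((ν j * t : ℝ) * I)) := by
    intro j
    have h1 := integral_sub_right_eq_self (μ := volume)
      (fun t => (w t : ℂ) * (c j * cexp ((ν j * (t + t0) : ℝ) * I))) t0
    simp only [sub_add_cancel] at h1
    rw [h1, ← integral_const_mul, ← integral_const_mul]
    apply integral_congr_ae
    filter_upwards with t
    have : cexp ((ν j * (t + t0) : ℝ) * I) = cexp ((ν j * t0 : ℝ) * I) * cexp ((ν j * t : ℝ) * I) := by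
      rw [← Complex.exp_add]
      congr 1
      push_cast
      ring
    rw [this]
    ring
  simp_rw [e2] at hs
  exact hs

lemma Maj.bound {w : ℝ → ℝ} (hw : PD w) {φ Φ : ℝ → ℂ} (h : Maj φ Φ) (t0 : ℝ) :
    ‖∫ t, (w (t - t0) : ℂ) * φ t‖ ≤ (∫ t, (w t : ℂ) * Φ t).re := by
  obtain ⟨J, c, C, ν, hJ, hC, hc, h3, h4⟩ := h
  simp_rw [h3, h4]
  have h1 := integral_TS hw hC hc ν t0
  have h2 := integral_TS hw hC (norm_ofReal_le hc) ν 0
  simp only [sub_zero, mul_zero, Complex.ofReal_zero, zero_mul, Complex.exp_zero, one_mul] at h2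
  choose r hr0 hr using hw.ft
  simp_rw [hr] at h1 h2
  have h5 := Complex.hasSum_re h2
  have h6 : ∀ j, (((C j : ℝ) : ℂ) * ((r (ν j) : ℝ) : ℂ)).re = C j * r (ν j) := by
    intro j
    rw [← Complex.ofReal_mul, Complex.ofReal_re]
  simp_rw [h6] at h5
  rw [← h1.tsum_eq]
  apply tsum_of_norm_bounded h5
  intro j
  rw [norm_mul, norm_mul, Complex.norm_exp_ofReal_mul_I, one_mul, Complex.norm_real,
    Real.norm_of_nonneg (hr0 _)]
  exact mul_le_mul_of_nonneg_right (hc j) (hr0 _)

/-- real parts -/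
lemma Maj.re {J : Type} [Countable J] {c : J → ℂ} {C : J → ℝ} (hC : Summable C) (hc : ∀ j, ‖c j‖ ≤ C j)
    (ν : J → ℝ) : Maj (fun t => (((TS c ν t).re : ℝ) : ℂ)) (fun t => (((TS (fun j => (C j : ℂ)) ν t).re : ℝ) : ℂ)) := by
  have key : ∀ (d : J → ℂ), (∀ j, ‖d j‖ ≤ C j) → ∀ t, (((TS d ν t).re : ℝ) : ℂ) =
      TS (fun x : J × Bool => if x.2 then d x.1 / 2 else (starRingEnd ℂ) (d x.1) / 2)
        (fun x => if x.2 then ν x.1 else -ν x.1) t := by
    intro d hd t
    have hs : Summable (fun j => d j * cexp ((ν j * t : ℝ) * I)) := summable_TS hC hd ν t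
    have hs2 : Summable (fun x : J × Bool => (if x.2 then d x.1 / 2 else (starRingEnd ℂ) (d x.1) / 2) *
        cexp (((if x.2 then ν x.1 else -ν x.1) * t : ℝ) * I)) := by
      have hprod : Summable (fun x : J × Bool => C x.1 * (1:ℝ)) := by
        have := hC.mul_of_nonneg (g := fun _ : Bool => (1:ℝ)) (hasSum_fintype _).summable
          (fun j => (norm_nonneg _).trans (hc j)) (fun _ => zero_le_one)
        exact this
      refine Summable.of_norm_bounded hprod ?_
      rintro ⟨j, b⟩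
      rw [mul_one, norm_mul, Complex.norm_exp_ofReal_mul_I, mul_one]
      have h0 := hd j
      cases b
      · simp only [Bool.false_eq_true, if_false, norm_div, RCLike.norm_conj, Complex.norm_ofNat]
        have := norm_nonneg (d j)
        linarith
      · simp only [if_true, norm_div, Complex.norm_ofNat]
        have := norm_nonneg (d j)
        linarith
    unfold TS
    rw [hs2.tsum_prod]
    simp only [tsum_bool, Bool.false_eq_true, if_false, if_true]
    have e1 : ∀ j, (starRingEnd ℂ) (d j) / 2 * cexp ((-ν j * t : ℝ) * I) + d j / 2 * cexp ((ν j * t : ℝ) * I)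
        = (((d j * cexp ((ν j * t : ℝ) * I)).re : ℝ) : ℂ) := by
      intro j
      rw [Complex.re_eq_add_conj, map_mul, ← Complex.exp_conj, map_mul, Complex.conj_ofReal, Complex.conj_I]
      have : ((-ν j * t : ℝ) : ℂ) * I = ((ν j * t : ℝ) : ℂ) * -I := by push_cast; ring
      rw [this]
      ring
    simp_rw [e1]
    rw [← Complex.ofReal_tsum, ← Complex.re_tsum hs]
  refine ⟨J × Bool, _, fun x => C x.1 / 2, _, inferInstance, ?_, ?_, key c hc, ?_⟩
  · have := hC.mul_of_nonneg (g := fun _ : Bool => (1/2:ℝ)) (hasSum_fintype _).summable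
      (fun j => (norm_nonneg _).trans (hc j)) (fun _ => by norm_num)
    refine this.congr ?_
    intro x
    ring
  · rintro ⟨j, b⟩
    have h0 := hc j
    cases b
    · simp only [Bool.false_eq_true, if_false, norm_div, RCLike.norm_conj, Complex.norm_ofNat]
      linarith
    · simp only [if_true, norm_div, Complex.norm_ofNat]
      linarith
  · intro t
    show (((TS (fun j => (C j : ℂ)) ν t).re : ℝ) : ℂ) = _
    rw [key _ (norm_ofReal_le hc) t]
    congr 1
    funext x
    rcases x with ⟨j, b⟩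
    cases b <;> simp

/-- the exponential majorant principle -/
theorem exp_maj {J : Type} [Countable J] {w : ℝ → ℝ} (hw : PD w) {c : J → ℂ} {C : J → ℝ} (hC : Summable C)
    (hc : ∀ j, ‖c j‖ ≤ C j) (ν : J → ℝ) (t0 : ℝ) :
    |∫ t, w (t - t0) * Real.exp (TS c ν t).re| ≤ ∫ t, w t * Real.exp (TS (fun j => (C j : ℂ)) ν t).re := by
  set M : ℝ := ∑' j, C j with hM
  have hexp : ∀ (d : J → ℂ), (∀ j, ‖d j‖ ≤ C j) → ∀ t1 : ℝ,
      HasSum (fun m : ℕ => (∫ t, w (t - t1) * (TS d ν t).re ^ m) / (m.factorial : ℝ))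
        (∫ t, w (t - t1) * Real.exp (TS d ν t).re) := by
    intro d hd t1
    have hwi := hw.int.comp_sub_right t1
    have hcont : Continuous fun t => (TS d ν t).re := Complex.continuous_re.comp (continuous_TS hC hd ν)
    have hbd : ∀ t, |(TS d ν t).re| ≤ M := fun t => (Complex.abs_re_le_norm _).trans (norm_TS_le hC hd ν t)
    have hM0 : 0 ≤ M := (abs_nonneg _).trans (hbd 0)
    have hF : ∀ m : ℕ, Integrable (fun t => w (t - t1) * ((TS d ν t).re ^ m / (m.factorial : ℝ))) := by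
      intro m
      apply hwi.mul_bdd (c := M ^ m / (m.factorial : ℝ))
      · exact ((hcont.pow m).div_const _).aestronglyMeasurable
      · filter_upwards with t
        rw [norm_div, norm_pow, Real.norm_eq_abs, Real.norm_natCast]
        exact div_le_div_of_nonneg_right (pow_le_pow_left₀ (abs_nonneg _) (hbd t) m) (by positivity)
    have hsum : Summable fun m : ℕ => ∫ t, ‖w (t - t1) * ((TS d ν t).re ^ m / (m.factorial : ℝ))‖ := by
      have h1 : Summable fun m : ℕ => (∫ t, ‖w (t - t1)‖) * (M ^ m / (m.factorial : ℝ)) :=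
        (Real.summable_pow_div_factorial M).mul_left _
      refine Summable.of_nonneg_of_le (fun m => integral_nonneg fun t => norm_nonneg _) (fun m => ?_) h1
      rw [← integral_mul_const]
      apply integral_mono (hF m).norm (hwi.norm.mul_const _)
      intro t
      simp only
      rw [norm_mul]
      apply mul_le_mul_of_nonneg_left _ (norm_nonneg _)
      rw [norm_div, norm_pow, Real.norm_eq_abs, Real.norm_natCast]
      exact div_le_div_of_nonneg_right (pow_le_pow_left₀ (abs_nonneg _) (hbd t) m) (by positivity)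
    have h2 := MeasureTheory.hasSum_integral_of_summable_integral_norm hF hsum
    have e1 : ∀ t, ∑' m : ℕ, w (t - t1) * ((TS d ν t).re ^ m / (m.factorial : ℝ)) = w (t - t1) * Real.exp (TS d ν t).re := by
      intro t
      rw [tsum_mul_left, Real.exp_eq_exp_ℝ, NormedSpace.exp_eq_tsum_div]
    simp_rw [e1] at h2
    have e2 : ∀ m : ℕ, ∫ t, w (t - t1) * ((TS d ν t).re ^ m / (m.factorial : ℝ)) =
        (∫ t, w (t - t1) * (TS d ν t).re ^ m) / (m.factorial : ℝ) := by
      intro m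
      rw [← integral_div]
      apply integral_congr_ae
      filter_upwards with t
      ring
    simp_rw [e2] at h2
    exact h2
  have h1 := hexp c hc t0
  have h2 := hexp _ (norm_ofReal_le hc) 0
  simp only [sub_zero] at h2
  rw [← Real.norm_eq_abs, ← h1.tsum_eq]
  apply tsum_of_norm_bounded h2
  intro m
  rw [norm_div, Real.norm_natCast]
  apply div_le_div_of_nonneg_right _ (by positivity)
  have h3 := ((Maj.re hC hc ν).pow m).bound hw t0
  have e3 : ∫ t, (w (t - t0) : ℂ) * (((TS c ν t).re : ℝ) : ℂ) ^ m = ((∫ t, w (t - t0) * (TS c ν t).re ^ m : ℝ) : ℂ) := by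
    rw [← integral_complex_ofReal]
    apply integral_congr_ae
    filter_upwards with t
    push_cast
    ring
  have e4 : ∫ t, (w t : ℂ) * (((TS (fun j => (C j : ℂ)) ν t).re : ℝ) : ℂ) ^ m =
      ((∫ t, w t * (TS (fun j => (C j : ℂ)) ν t).re ^ m : ℝ) : ℂ) := by
    rw [← integral_complex_ofReal]
    apply integral_congr_ae
    filter_upwards with t
    push_cast
    ring
  rw [e3, e4, Complex.norm_real, Complex.ofReal_re] at h3
  exact h3

end Pool.Agent.H91.Edge
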