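import Mathlib
import Pool.Agent.H91.Edge.Maj
import Pool.Agent.H89.EdgeBasic

open Complex MeasureTheory Filter Topology

namespace Pool.Agent.H91.Edge

open Pool.Agent.H89.EdgeBasic

/-- coefficients of `log zeta (1 + h + i t)` -/
noncomputable def zc (h : ℝ) (x : Nat.Primes × ℕ) : ℝ := (((x.1 : ℕ) : ℝ) ^ (-(1 + h))) ^ x.2 / x.2

/-- frequencies -/
noncomputable def fr (x : Nat.Primes × ℕ) : ℝ := -(x.2 * Real.log ((x.1 : ℕ) : ℝ))

lemma zc_nonneg (h : ℝ) (x : Nat.Primes × ℕ) : 0 ≤ zc h x := by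
  unfold zc
  positivity

lemma prime_rpow_le_half {h : ℝ} (hh : 0 < h) (p : Nat.Primes) : (((p : ℕ) : ℝ) ^ (-(1 + h))) ≤ 1 / 2 := by
  have h2 : (2:ℝ) ≤ ((p:ℕ):ℝ) := by exact_mod_cast p.2.two_le
  calc (((p : ℕ) : ℝ) ^ (-(1 + h))) ≤ (2:ℝ) ^ (-(1 + h)) :=
        Real.rpow_le_rpow_of_nonpos (by norm_num) h2 (by linarith)
    _ ≤ (2:ℝ) ^ (-1:ℝ) := Real.rpow_le_rpow_of_exponent_le (by norm_num) (by linarith)
    _ = 1 / 2 := by rw [Real.rpow_neg_one]; norm_num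

lemma hasSum_row {x : ℝ} (h0 : 0 ≤ x) (h1 : x ≤ 1 / 2) :
    HasSum (fun k : ℕ => x ^ k / k) (-Real.log (1 - x)) := by
  have h := Real.hasSum_pow_div_log_of_abs_lt_one (x := x) (by rw [abs_of_nonneg h0]; linarith)
  rw [← hasSum_nat_add_iff' 1]
  simp only [Finset.range_one, Finset.sum_singleton, pow_zero, Nat.cast_zero, div_zero, sub_zero]
  push_cast
  exact h

lemma row_le {x : ℝ} (h0 : 0 ≤ x) (h1 : x ≤ 1 / 2) : -Real.log (1 - x) ≤ 2 * x := by
  have h2 := Real.log_le_sub_one_of_pos (x := (1 - x)⁻¹) (by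
    apply inv_pos.mpr; linarith)
  rw [Real.log_inv] at h2
  refine h2.trans ?_
  have h3 : (0:ℝ) < 1 - x := by linarith
  rw [sub_le_iff_le_add, inv_le_iff_one_le_mul₀ h3]
  nlinarith

lemma summable_zc {h : ℝ} (hh : 0 < h) : Summable (zc h) := by
  rw [summable_prod_of_nonneg (zc_nonneg h)]
  have hx0 : ∀ p : Nat.Primes, 0 ≤ ((p:ℕ):ℝ) ^ (-(1 + h)) := fun p => by positivity
  constructor
  · intro p
    exact (hasSum_row (hx0 p) (prime_rpow_le_half hh p)).summable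
  · have h1 : ∀ p : Nat.Primes, ∑' k : ℕ, zc h (p, k) = -Real.log (1 - ((p:ℕ):ℝ) ^ (-(1 + h))) := fun p =>
      (hasSum_row (hx0 p) (prime_rpow_le_half hh p)).tsum_eq
    simp_rw [h1]
    have h2 : Summable (fun p : Nat.Primes => 2 * ((p:ℕ):ℝ) ^ (-(1 + h))) := by
      apply Summable.mul_left
      have h3 : Summable (fun n : ℕ => (n:ℝ) ^ (-(1 + h))) := Real.summable_nat_rpow.mpr (by linarith)
      exact h3.comp_injective Subtype.val_injective
    refine Summable.of_nonneg_of_le (fun p => ?_) (fun p => row_le (hx0 p) (prime_rpow_le_half hh p)) h2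
    have := (hasSum_row (hx0 p) (prime_rpow_le_half hh p)).nonneg (fun k => by
      have := hx0 p
      positivity)
    exact this

lemma fr_exp (p : Nat.Primes) (k : ℕ) (t : ℝ) :
    cexp ((fr (p, k) * t : ℝ) * I) = (((p:ℕ):ℂ) ^ (-((t:ℂ) * I))) ^ k := by
  have hp : ((p:ℕ):ℂ) ≠ 0 := by exact_mod_cast p.2.ne_zero
  rw [Complex.cpow_def_of_ne_zero hp, ← Complex.exp_nat_mul, ← Complex.ofReal_natCast (p:ℕ),
    ← Complex.ofReal_log (by positivity)]
  congr 1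
  unfold fr
  push_cast
  ring

lemma zeta_TS {h : ℝ} (hh : 0 < h) (t : ℝ) :
    Complex.exp (TS (fun x => (zc h x : ℂ)) fr t) = riemannZeta (1 + (h:ℂ) + t * I) := by
  have hs : 1 < (1 + (h:ℂ) + t * I).re := by simp; exact hh
  rw [← riemannZeta_eulerProduct_exp_log hs]
  congr 1
  unfold TS
  have hsm := summable_TS (summable_zc hh) (norm_ofReal_le (c := fun x => (zc h x : ℂ)) (fun x => by
    rw [Complex.norm_real, Real.norm_of_nonneg (zc_nonneg h x)])) fr t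
  rw [hsm.tsum_prod]
  apply tsum_congr
  intro p
  have hp0 : (0:ℝ) < ((p:ℕ):ℝ) := by exact_mod_cast p.2.pos
  have hpc : ((p:ℕ):ℂ) ≠ 0 := by exact_mod_cast p.2.ne_zero
  have hz : ‖((p:ℕ):ℂ) ^ (-(1 + (h:ℂ) + t * I))‖ < 1 := by
    have h1 := Complex.norm_natCast_cpow_of_pos p.2.pos (-(1 + (h:ℂ) + t * I))
    rw [h1]
    have h2 := prime_rpow_le_half hh p
    have h3 : (-(1 + (h:ℂ) + t * I)).re = -(1 + h) := by simp
    rw [h3]
    linarith
  rw [← (hasSum_taylorSeries_neg_log hz).tsum_eq]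
  apply tsum_congr
  intro k
  rw [fr_exp]
  unfold zc
  simp only
  push_cast
  rw [Complex.ofReal_cpow hp0.le]
  push_cast
  have h4 : ((p:ℕ):ℂ) ^ (-(1 + (h:ℂ) + t * I)) = ((p:ℕ):ℂ) ^ (-(1 + (h:ℂ))) * ((p:ℕ):ℂ) ^ (-((t:ℂ) * I)) := by
    rw [← Complex.cpow_add _ _ hpc]
    congr 1
    ring
  rw [h4, mul_pow]
  ring

variable {N i b : ℕ} {P : ℕ → Polynomial ℂ}

/-- power sums of the reciprocal roots -/
noncomputable def ps (P : Polynomial ℂ) (k : ℕ) : ℂ := (P.roots.map fun r => (r⁻¹) ^ k).sum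

/-- coefficients of `log L` -/
noncomputable def lc (N i : ℕ) (P : ℕ → Polynomial ℂ) (h : ℝ) (x : Nat.Primes × ℕ) : ℂ :=
  if ((x.1 : ℕ) ∣ N) then 0 else
    ps (P x.1) x.2 * ((((x.1 : ℕ) : ℝ) ^ (-(1 + (i:ℝ)/2 + h)) : ℝ) : ℂ) ^ x.2 / x.2

lemma norm_ps_le (H : Hyp N i b P) (p : Idx N) (k : ℕ) :
    ‖ps (P p) k‖ ≤ b * ((p:ℝ) ^ ((i:ℝ)/2)) ^ k := by
  unfold ps
  refine (norm_multiset_sum_le _).trans ?_
  rw [Multiset.map_map]
  have h2 : ∀ x ∈ ((P p).roots.map ((fun x : ℂ => ‖x‖) ∘ fun r => (r⁻¹) ^ k)), x ≤ ((p:ℝ) ^ ((i:ℝ)/2)) ^ k := by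
    intro x hx
    rw [Multiset.mem_map] at hx
    obtain ⟨r, hr, rfl⟩ := hx
    simp only [Function.comp, norm_pow]
    exact pow_le_pow_left₀ (norm_nonneg _) (root_inv_le H p hr) k
  refine (Multiset.sum_le_card_nsmul _ _ h2).trans ?_
  rw [Multiset.card_map, nsmul_eq_mul]
  have h8 : (Multiset.card (P p).roots : ℝ) ≤ b := by
    exact_mod_cast (Polynomial.card_roots' (P p)).trans (H.hdeg p p.2.1 p.2.2)
  have := idx_pos p
  gcongr

lemma norm_lc_le (H : Hyp N i b P) {h : ℝ} (x : Nat.Primes × ℕ) : ‖lc N i P h x‖ ≤ b * zc h x := by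
  unfold lc
  split_ifs with hN
  · rw [norm_zero]
    exact mul_nonneg (Nat.cast_nonneg _) (zc_nonneg h x)
  · have h1 := norm_ps_le H ⟨x.1, x.1.2, hN⟩ x.2
    simp only at h1
    have hp0 : (0:ℝ) < ((x.1:ℕ):ℝ) := by exact_mod_cast x.1.2.pos
    rw [norm_div, norm_mul, norm_pow, Complex.norm_real, Real.norm_of_nonneg (by positivity), Complex.norm_natCast]
    unfold zc
    rw [mul_div_assoc']
    apply div_le_div_of_nonneg_right _ (Nat.cast_nonneg _)
    calc ‖ps (P x.1) x.2‖ * (((x.1:ℕ):ℝ) ^ (-(1 + (i:ℝ)/2 + h))) ^ x.2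
        ≤ (b * (((x.1:ℕ):ℝ) ^ ((i:ℝ)/2)) ^ x.2) * (((x.1:ℕ):ℝ) ^ (-(1 + (i:ℝ)/2 + h))) ^ x.2 := by gcongr
      _ = b * ((((x.1:ℕ):ℝ) ^ ((i:ℝ)/2)) * (((x.1:ℕ):ℝ) ^ (-(1 + (i:ℝ)/2 + h)))) ^ x.2 := by
          rw [mul_assoc, ← mul_pow]
      _ = b * (((x.1:ℕ):ℝ) ^ (-(1 + h))) ^ x.2 := by
          rw [← Real.rpow_add hp0]
          congr 3
          ring

lemma locLog_hasSum (P : Polynomial ℂ) (z : ℂ) (hz : ∀ r ∈ P.roots, ‖z / r‖ < 1) :
    HasSum (fun k : ℕ => ps P k * z ^ k / k) (locLog P z) := by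
  unfold ps locLog
  have key : ∀ S : Multiset ℂ, (∀ r ∈ S, ‖z / r‖ < 1) →
      HasSum (fun k : ℕ => (S.map fun r => (r⁻¹) ^ k).sum * z ^ k / k) (S.map fun r => Complex.log ((1 - z / r)⁻¹)).sum := by
    intro S
    induction S using Multiset.induction_on with
    | empty => intro _; simpa using (hasSum_zero : HasSum (fun _ : ℕ => (0:ℂ)) 0)
    | cons r S ih =>
      intro hS
      have h1 := ih fun r' hr' => hS r' (Multiset.mem_cons_of_mem hr')
      have hr := hS r (Multiset.mem_cons_self r S)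
      have h2 := hasSum_taylorSeries_neg_log hr
      have h3 : Complex.log ((1 - z / r)⁻¹) = -Complex.log (1 - z / r) := by
        apply Complex.log_inv
        intro h4
        rw [Complex.arg_eq_pi_iff] at h4
        have h5 := h4.1
        have h6 := Complex.re_le_norm (z / r)
        rw [Complex.sub_re, Complex.one_re] at h5
        linarith
      simp only [Multiset.map_cons, Multiset.sum_cons]
      rw [h3]
      refine (h2.add h1).congr_fun ?_
      intro k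
      rw [div_pow, inv_pow]
      ring
  exact key _ hz

lemma L_TS (H : Hyp N i b P) {h : ℝ} (hh : 0 < h) (t : ℝ) :
    Complex.exp (TS (lc N i P h) fr t) =
      ∏' p : Idx N, ((P p).eval ((p:ℂ) ^ (-(1 + (i:ℂ)/2 + (h:ℂ) + t * I))))⁻¹ := by
  have hs : 1 + (i:ℝ)/2 < (1 + (i:ℂ)/2 + (h:ℂ) + t * I).re := by simp; exact hh
  rw [(hasProd_L H hs).tprod_eq]
  congr 1
  unfold TS
  have hC : Summable fun x => (b:ℝ) * zc h x := (summable_zc hh).mul_left _
  have hsm := summable_TS hC (norm_lc_le H) fr t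
  rw [hsm.tsum_prod]
  set ι : Idx N → Nat.Primes := fun p => ⟨p, p.2.1⟩ with hι
  have hinj : Function.Injective ι := by
    intro p q hpq
    have := congrArg (fun r : Nat.Primes => (r : ℕ)) hpq
    exact Subtype.ext this
  rw [← hinj.tsum_eq]
  · apply tsum_congr
    intro p
    rw [← (locLog_hasSum (P p) ((p:ℂ) ^ (-(1 + (i:ℂ)/2 + (h:ℂ) + t * I))) (fun r hr =>
      (root_bound H p hs hr).trans_lt (by have := inv_le_half p; linarith))).tsum_eq]
    apply tsum_congr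
    intro k
    rw [fr_exp]
    unfold lc
    simp only [hι]
    rw [if_neg p.2.2]
    have hp0 : (0:ℝ) < ((p:ℕ):ℝ) := idx_pos p
    rw [Complex.ofReal_cpow hp0.le]
    push_cast
    have h4 : ((p:ℕ):ℂ) ^ (-(1 + (i:ℂ)/2 + (h:ℂ) + t * I)) =
        ((p:ℕ):ℂ) ^ (-(1 + (i:ℂ)/2 + (h:ℂ))) * ((p:ℕ):ℂ) ^ (-((t:ℂ) * I)) := by
      rw [← Complex.cpow_add _ _ (idx_ne p)]
      congr 1
      ring
    rw [h4, mul_pow]
    ring
  · intro q hq
    rw [Function.mem_support] at hq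
    by_contra hmem
    apply hq
    have hN : (q:ℕ) ∣ N := by
      by_contra hN
      exact hmem ⟨⟨q, q.2, hN⟩, rfl⟩
    have : ∀ k : ℕ, lc N i P h (q, k) * cexp ((fr (q, k) * t : ℝ) * I) = 0 := by
      intro k
      unfold lc
      simp only
      rw [if_pos hN, zero_mul]
    simp_rw [this]
    exact tsum_zero

/-- the extremal inequality to the right of the edge -/
theorem moment_h {w : ℝ → ℝ} (hw : PD w) (H : Hyp N i b P) {h : ℝ} (hh : 0 < h) (l t0 : ℝ) :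
    |∫ t, w (t - t0) * ‖∏' p : Idx N, ((P p).eval ((p:ℂ) ^ (-(1 + (i:ℂ)/2 + (h:ℂ) + t * I))))⁻¹‖ ^ l| ≤
      ∫ t, w t * ‖riemannZeta (1 + (h:ℂ) + t * I)‖ ^ (b * |l|) := by
  have hC : Summable fun x => |l| * ((b:ℝ) * zc h x) := ((summable_zc hh).mul_left _).mul_left _
  have hc : ∀ x, ‖(l:ℂ) * lc N i P h x‖ ≤ |l| * ((b:ℝ) * zc h x) := by
    intro x
    rw [norm_mul, Complex.norm_real, Real.norm_eq_abs]
    exact mul_le_mul_of_nonneg_left (norm_lc_le H x) (abs_nonneg _)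
  have h1 := exp_maj hw hC hc fr t0
  have e1 : ∀ t, Real.exp (TS (fun x => (l:ℂ) * lc N i P h x) fr t).re =
      ‖∏' p : Idx N, ((P p).eval ((p:ℂ) ^ (-(1 + (i:ℂ)/2 + (h:ℂ) + t * I))))⁻¹‖ ^ l := by
    intro t
    have : TS (fun x => (l:ℂ) * lc N i P h x) fr t = (l:ℂ) * TS (lc N i P h) fr t := by
      unfold TS
      rw [← tsum_mul_left]
      apply tsum_congr
      intro x
      ring
    rw [this, Complex.re_ofReal_mul, ← L_TS H hh t, Complex.norm_exp, ← Real.exp_mul, mul_comm]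
  have e2 : ∀ t, Real.exp (TS (fun x => ((|l| * ((b:ℝ) * zc h x) : ℝ) : ℂ)) fr t).re =
      ‖riemannZeta (1 + (h:ℂ) + t * I)‖ ^ (b * |l|) := by
    intro t
    have : TS (fun x => ((|l| * ((b:ℝ) * zc h x) : ℝ) : ℂ)) fr t = ((b * |l| : ℝ) : ℂ) * TS (fun x => (zc h x : ℂ)) fr t := by
      unfold TS
      rw [← tsum_mul_left]
      apply tsum_congr
      intro x
      push_cast
      ring
    rw [this, Complex.re_ofReal_mul, ← zeta_TS hh t, Complex.norm_exp, ← Real.exp_mul, mul_comm]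
  simp_rw [e1, e2] at h1
  exact h1

end Pool.Agent.H91.Edge
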