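import Mathlib
import Pool.Agent.H91.Edge.Kernel

open Complex Filter Topology MeasureTheory

namespace Pool.Agent.H91.Edge

section periodic

variable {m : ℕ} {f : ℕ → ℂ}

/-- mean value of a periodic function -/
noncomputable def mean (m : ℕ) (f : ℕ → ℂ) : ℂ := (∑ k ∈ Finset.range m, f k) / m

lemma norm_mean_le (hb : ∀ n, ‖f n‖ ≤ 1) : ‖mean m f‖ ≤ 1 := by
  unfold mean
  rcases Nat.eq_zero_or_pos m with rfl | hm
  · simp
  rw [norm_div, Complex.norm_natCast, div_le_one (by exact_mod_cast hm)]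
  refine (norm_sum_le _ _).trans ?_
  refine (Finset.sum_le_sum fun k _ => hb k).trans ?_
  simp

lemma partial_sum_bound (hm : 0 < m) (hper : ∀ n, f (n + m) = f n) (hb : ∀ n, ‖f n‖ ≤ 1) (n : ℕ) :
    ‖∑ k ∈ Finset.Icc 1 n, f k - mean m f * n‖ ≤ 2 * m := by
  set g : ℕ → ℂ := fun k => f (k + 1) with hg
  have h1 : ∀ n, ∑ k ∈ Finset.Icc 1 n, f k = ∑ k ∈ Finset.range n, g k := by
    intro n
    induction n with
    | zero => simp
    | succ n ih => rw [Finset.sum_Icc_succ_top (by omega), Finset.sum_range_succ, ih]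
  have hgper : ∀ n, g (n + m) = g n := by
    intro n
    simp only [hg]
    rw [show n + m + 1 = n + 1 + m by ring]
    exact hper _
  have hgper2 : ∀ q n, g (m * q + n) = g n := by
    intro q
    induction q with
    | zero => intro n; simp
    | succ q ih =>
      intro n
      rw [show m * (q + 1) + n = (m * q + n) + m by ring, hgper, ih]
  have hS : ∑ k ∈ Finset.range m, g k = ∑ k ∈ Finset.range m, f k := by
    have h2 := Finset.sum_range_succ f m
    have h3 := Finset.sum_range_succ' f m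
    have h4 : f m = f 0 := by simpa using hper 0
    rw [h2, h4] at h3
    exact (add_right_cancel h3).symm
  set S := ∑ k ∈ Finset.range m, f k with hSdef
  have hq : ∀ q r, ∑ k ∈ Finset.range (m * q + r), g k = q * S + ∑ k ∈ Finset.range r, g k := by
    intro q
    induction q with
    | zero => intro r; simp
    | succ q ih =>
      intro r
      rw [show m * (q + 1) + r = m * q + (m + r) by ring, ih, Finset.sum_range_add, hS]
      have : ∑ x ∈ Finset.range r, g (m + x) = ∑ k ∈ Finset.range r, g k := by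
        apply Finset.sum_congr rfl
        intro k _
        rw [add_comm]
        exact hgper k
      rw [this]
      push_cast
      ring
  have hmn : (m:ℂ) ≠ 0 := by exact_mod_cast hm.ne'
  have hdiv : n = m * (n / m) + n % m := (Nat.div_add_mod n m).symm
  have h5 : ∑ k ∈ Finset.Icc 1 n, f k - mean m f * n =
      ∑ k ∈ Finset.range (n % m), g k - mean m f * ((n % m : ℕ) : ℂ) := by
    rw [h1]
    conv_lhs => rw [hdiv, hq]
    unfold mean
    rw [← hSdef]
    push_cast
    field_simp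
    ring
  rw [h5]
  have h6 : ((n % m : ℕ) : ℝ) ≤ m := by exact_mod_cast (Nat.mod_lt n hm).le
  have h7 : ‖∑ k ∈ Finset.range (n % m), g k‖ ≤ (n % m : ℕ) := by
    refine (norm_sum_le _ _).trans ?_
    refine (Finset.sum_le_sum fun k _ => hb (k + 1)).trans ?_
    simp
  have h8 : ‖mean m f * ((n % m : ℕ) : ℂ)‖ ≤ (n % m : ℕ) := by
    rw [norm_mul, Complex.norm_natCast]
    exact mul_le_of_le_one_left (Nat.cast_nonneg _) (norm_mean_le hb)
  refine (norm_sub_le _ _).trans ?_
  linarith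

/-- the remainder function -/
noncomputable def rem (m : ℕ) (f : ℕ → ℂ) : ℝ → ℂ :=
  Set.indicator (Set.Ioi 1) (fun t => (∑ k ∈ Finset.Icc 1 ⌊t⌋₊, f k) - mean m f * (t:ℂ))

lemma norm_rem_le (hm : 0 < m) (hper : ∀ n, f (n + m) = f n) (hb : ∀ n, ‖f n‖ ≤ 1) (t : ℝ) :
    ‖rem m f t‖ ≤ 3 * m := by
  unfold rem
  by_cases ht : t ∈ Set.Ioi (1:ℝ)
  · rw [Set.indicator_of_mem ht]
    have ht1 : 1 < t := ht
    have h1 := partial_sum_bound hm hper hb ⌊t⌋₊
    have h2 : (∑ k ∈ Finset.Icc 1 ⌊t⌋₊, f k) - mean m f * (t:ℂ) =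
      ((∑ k ∈ Finset.Icc 1 ⌊t⌋₊, f k) - mean m f * (⌊t⌋₊:ℂ)) - mean m f * ((t - ⌊t⌋₊ : ℝ) : ℂ) := by
      push_cast
      ring
    have h3 : ‖((t - ⌊t⌋₊ : ℝ) : ℂ)‖ ≤ 1 := by
      rw [Complex.norm_real, Real.norm_eq_abs, abs_le]
      have a1 := Nat.floor_le (show 0 ≤ t by linarith)
      have a2 := Nat.lt_floor_add_one t
      constructor <;> linarith
    have h4 : ‖mean m f * ((t - ⌊t⌋₊ : ℝ) : ℂ)‖ ≤ 1 := by
      rw [norm_mul]
      exact mul_le_one₀ (norm_mean_le hb) (norm_nonneg _) h3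
    have h5 : (1:ℝ) ≤ m := by exact_mod_cast hm
    rw [h2]
    refine (norm_sub_le _ _).trans ?_
    linarith
  · rw [Set.indicator_of_notMem ht]
    simp

lemma measurable_rem : Measurable (rem m f) := by
  unfold rem
  apply Measurable.indicator _ measurableSet_Ioi
  apply Measurable.sub
  · show Measurable ((fun n : ℕ => ∑ k ∈ Finset.Icc 1 n, f k) ∘ (Nat.floor : ℝ → ℕ))
    exact (measurable_from_nat (f := fun n : ℕ => ∑ k ∈ Finset.Icc 1 n, f k)).comp Nat.measurable_floor
  · fun_prop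

/-- the transform of the remainder -/
noncomputable def Phi (m : ℕ) (f : ℕ → ℂ) (s : ℂ) : ℂ := mellin (rem m f) (-s)

lemma differentiableAt_Phi (hm : 0 < m) (hper : ∀ n, f (n + m) = f n) (hb : ∀ n, ‖f n‖ ≤ 1)
    {s : ℂ} (hs : 0 < s.re) : DifferentiableAt ℂ (Phi m f) s := by
  have h1 : DifferentiableAt ℂ (mellin (rem m f)) (-s) := by
    apply mellin_differentiableAt_of_isBigO_rpow (a := 0) (b := -s.re - 1)
    · apply LocallyIntegrable.locallyIntegrableOn
      apply LocallyIntegrable.mono (g := rem m f) (f := fun _ : ℝ => (3 * m : ℝ))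
      · exact locallyIntegrable_const _
      · exact measurable_rem.aestronglyMeasurable
      · filter_upwards with t
        refine (norm_rem_le hm hper hb t).trans ?_
        exact Real.le_norm_self _
    · simp only [neg_zero, Real.rpow_zero]
      apply Asymptotics.IsBigO.of_bound (3 * m)
      filter_upwards with t
      simpa using norm_rem_le hm hper hb t
    · simpa using hs
    · have : rem m f =ᶠ[𝓝[>] 0] fun _ => 0 := by
        have h2 : ∀ᶠ t : ℝ in 𝓝[>] 0, t < 1 := nhdsWithin_le_nhds (gt_mem_nhds one_pos)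
        filter_upwards [h2] with t ht
        unfold rem
        rw [Set.indicator_of_notMem]
        simp
        exact ht.le
      exact (Asymptotics.isBigO_zero _ _).congr' this.symm (Filter.EventuallyEq.refl _ _)
    · simp
  exact h1.comp s (differentiableAt_id.neg)

lemma Phi_eq (s : ℂ) : Phi m f s = ∫ t in Set.Ioi (1:ℝ),
    ((∑ k ∈ Finset.Icc 1 ⌊t⌋₊, f k) - mean m f * (t:ℂ)) * (t:ℂ) ^ (-(s + 1)) := by
  unfold Phi mellin rem
  have h1 : ∀ t : ℝ, (t:ℂ) ^ (-s - 1) • Set.indicator (Set.Ioi 1) (fun t : ℝ => (∑ k ∈ Finset.Icc 1 ⌊t⌋₊, f k) - mean m f * (t:ℂ)) t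
      = Set.indicator (Set.Ioi 1) (fun t : ℝ => ((∑ k ∈ Finset.Icc 1 ⌊t⌋₊, f k) - mean m f * (t:ℂ)) * (t:ℂ) ^ (-(s + 1))) t := by
    intro t
    by_cases ht : t ∈ Set.Ioi (1:ℝ)
    · rw [Set.indicator_of_mem ht, Set.indicator_of_mem ht, smul_eq_mul, mul_comm]
      congr 2
      ring
    · rw [Set.indicator_of_notMem ht, Set.indicator_of_notMem ht, smul_zero]
  simp_rw [h1]
  rw [setIntegral_indicator measurableSet_Ioi]
  have h2 : Set.Ioi (0:ℝ) ∩ Set.Ioi 1 = Set.Ioi 1 := by
    rw [Set.Ioi_inter_Ioi]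
    norm_num
  rw [h2]

lemma norm_Phi_le (hm : 0 < m) (hper : ∀ n, f (n + m) = f n) (hb : ∀ n, ‖f n‖ ≤ 1)
    {s : ℂ} (hs : 3/4 ≤ s.re) : ‖Phi m f s‖ ≤ 4 * m := by
  rw [Phi_eq]
  have hint : IntegrableOn (fun t : ℝ => (3 * m : ℝ) * t ^ (-(s.re + 1))) (Set.Ioi 1) :=
    (integrableOn_Ioi_rpow_of_lt (by linarith) one_pos).const_mul _
  refine (norm_integral_le_of_norm_le hint ?_).trans ?_
  · rw [ae_restrict_iff' measurableSet_Ioi]
    filter_upwards with t ht
    have ht0 : (0:ℝ) < t := lt_trans one_pos ht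
    have hn : ‖(t:ℂ) ^ (-(s + 1))‖ = t ^ (-(s.re + 1)) := by
      rw [Complex.norm_cpow_eq_rpow_re_of_pos ht0]
      simp
    rw [norm_mul, hn]
    apply mul_le_mul_of_nonneg_right _ (by positivity)
    have h1 := norm_rem_le hm hper hb t
    unfold rem at h1
    rwa [Set.indicator_of_mem ht] at h1
  · rw [integral_const_mul, integral_Ioi_rpow_of_lt (by linarith) one_pos, Real.one_rpow]
    have h1 : -(s.re + 1) + 1 = -s.re := by ring
    rw [h1, neg_div_neg_eq]
    have h2 : (1:ℝ) / s.re ≤ 4 / 3 := by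
      rw [div_le_div_iff₀ (by linarith) (by norm_num)]
      linarith
    have h3 : (0:ℝ) ≤ 3 * m := by positivity
    calc (3 * m : ℝ) * (1 / s.re) ≤ (3 * m) * (4 / 3) := mul_le_mul_of_nonneg_left h2 h3
      _ = 4 * m := by ring

lemma LSeries_periodic (hm : 0 < m) (hper : ∀ n, f (n + m) = f n) (hb : ∀ n, ‖f n‖ ≤ 1)
    {s : ℂ} (hs : 1 < s.re) : LSeries f s = mean m f * s / (s - 1) + s * Phi m f s := by
  have hs0 : s ≠ 0 := by
    intro h
    rw [h] at hs
    norm_num at hs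
  have hs1 : s - 1 ≠ 0 := by
    intro h
    have : s = 1 := by linear_combination h
    rw [this] at hs
    simp at hs
  have hsum : LSeriesSummable f s := by
    apply LSeriesSummable_of_bounded_of_one_lt_re (m := 1) (fun n _ => hb n) hs
  have hO : (fun n ↦ ∑ k ∈ Finset.Icc 1 n, f k) =O[atTop] fun n ↦ ((n:ℕ) : ℝ) ^ (1:ℝ) := by
    apply Asymptotics.IsBigO.of_bound 1
    filter_upwards with n
    rw [Real.rpow_one, one_mul, Real.norm_natCast]
    refine (norm_sum_le _ _).trans ?_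
    refine (Finset.sum_le_sum fun k _ => hb k).trans ?_
    simp
  rw [LSeries_eq_mul_integral f (r := 1) zero_le_one hs hsum hO, Phi_eq]
  have hint1 : IntegrableOn (fun t : ℝ => mean m f * (t:ℂ) * (t:ℂ)^(-(s + 1))) (Set.Ioi 1) := by
    have h1 : IntegrableOn (fun t : ℝ => mean m f * (t:ℂ)^(-s)) (Set.Ioi 1) :=
      (integrableOn_Ioi_cpow_of_lt (by simpa using hs) one_pos).const_mul _
    refine h1.congr_fun ?_ measurableSet_Ioi
    intro t ht
    have ht0 : (t:ℂ) ≠ 0 := by
      have : (0:ℝ) < t := lt_trans one_pos ht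
      exact_mod_cast this.ne'
    simp only
    rw [mul_assoc]
    congr 1
    nth_rewrite 2 [← Complex.cpow_one (t:ℂ)]
    rw [← Complex.cpow_add _ _ ht0]
    congr 1
    ring
  have hint2 : IntegrableOn (fun t : ℝ => ((∑ k ∈ Finset.Icc 1 ⌊t⌋₊, f k) - mean m f * (t:ℂ)) * (t:ℂ) ^ (-(s + 1))) (Set.Ioi 1) := by
    have h1 : IntegrableOn (fun t : ℝ => rem m f t * (t:ℂ) ^ (-(s + 1))) (Set.Ioi 1) := by
      apply Integrable.bdd_mul (c := 3 * m)
      · exact integrableOn_Ioi_cpow_of_lt (by simp; linarith) one_pos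
      · exact measurable_rem.aestronglyMeasurable
      · exact Eventually.of_forall fun t => norm_rem_le hm hper hb t
    refine h1.congr_fun ?_ measurableSet_Ioi
    intro t ht
    simp only [rem]
    rw [Set.indicator_of_mem ht]
  have hsplit : ∫ t in Set.Ioi (1:ℝ), (∑ k ∈ Finset.Icc 1 ⌊t⌋₊, f k) * (t:ℂ) ^ (-(s + 1)) =
      (∫ t in Set.Ioi (1:ℝ), mean m f * (t:ℂ) * (t:ℂ)^(-(s + 1))) +
      ∫ t in Set.Ioi (1:ℝ), ((∑ k ∈ Finset.Icc 1 ⌊t⌋₊, f k) - mean m f * (t:ℂ)) * (t:ℂ) ^ (-(s + 1)) := by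
    rw [← integral_add hint1 hint2]
    apply integral_congr_ae
    filter_upwards with t
    ring
  have hmain : ∫ t in Set.Ioi (1:ℝ), mean m f * (t:ℂ) * (t:ℂ)^(-(s + 1)) = mean m f / (s - 1) := by
    have h1 : ∫ t in Set.Ioi (1:ℝ), mean m f * (t:ℂ) * (t:ℂ)^(-(s + 1)) = ∫ t in Set.Ioi (1:ℝ), mean m f * (t:ℂ)^(-s) := by
      apply setIntegral_congr_fun measurableSet_Ioi
      intro t ht
      have ht0 : (t:ℂ) ≠ 0 := by
        have : (0:ℝ) < t := lt_trans one_pos ht
        exact_mod_cast this.ne'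
      simp only
      rw [mul_assoc]
      congr 1
      nth_rewrite 1 [← Complex.cpow_one (t:ℂ)]
      rw [← Complex.cpow_add _ _ ht0]
      congr 1
      ring
    rw [h1, integral_const_mul, integral_Ioi_cpow_of_lt (by simpa using hs) one_pos]
    simp only [Complex.ofReal_one, Complex.one_cpow]
    have : -s + 1 = -(s - 1) := by ring
    rw [this, neg_div_neg_eq, mul_one_div]
  rw [hsplit, hmain, mul_add]
  congr 1
  ring

end periodic

end Pool.Agent.H91.Edge
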