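import Mathlib
import Pool.Agent.H91.Edge.MajEuler
import Pool.Agent.H91.Edge.Periodic
import Pool.Agent.H91.Edge.Final

open Complex MeasureTheory Filter Topology

namespace Pool.Agent.H91.Edge

open Pool.Agent.H89.EdgeBasic

lemma zeta_upper {h t : ℝ} (h0 : 0 < h) (h1 : h ≤ 1) (ht : t ≠ 0) :
    ‖riemannZeta (1 + (h:ℂ) + t * I)‖ ≤ 9 * (|t|⁻¹ + |t|) := by
  set s : ℂ := 1 + (h:ℂ) + t * I with hs
  have hre : s.re = 1 + h := by simp [hs]
  have hs1 : 1 < s.re := by rw [hre]; linarith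
  have e1 : LSeries (fun _ : ℕ => (1:ℂ)) s = riemannZeta s := LSeries_one_eq_riemannZeta hs1
  have e2 := LSeries_periodic (m := 1) (f := fun _ => 1) one_pos (fun _ => rfl) (fun _ => by simp) hs1
  have e3 : mean 1 (fun _ : ℕ => (1:ℂ)) = 1 := by simp [mean]
  have e4 := norm_Phi_le (m := 1) (f := fun _ : ℕ => (1:ℂ)) one_pos (fun _ => rfl) (fun _ => by simp)
    (s := s) (by rw [hre]; linarith)
  rw [e3, one_mul] at e2
  have ha : 0 < |t| := abs_pos.mpr ht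
  have n1 : ‖s‖ ≤ 2 + |t| := by
    rw [hs]
    refine (norm_add_le _ _).trans ?_
    have : ‖(t:ℂ) * I‖ = |t| := by rw [norm_mul, Complex.norm_I, mul_one, Complex.norm_real, Real.norm_eq_abs]
    rw [this]
    have h2 : ‖(1:ℂ) + (h:ℂ)‖ ≤ 2 := by
      have : (1:ℂ) + (h:ℂ) = ((1 + h : ℝ) : ℂ) := by push_cast; ring
      rw [this, Complex.norm_real, Real.norm_eq_abs, abs_of_pos (by linarith)]
      linarith
    linarith
  have n2 : |t| ≤ ‖s - 1‖ := by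
    have := Complex.abs_im_le_norm (s - 1)
    have h3 : (s - 1).im = t := by simp [hs]
    rwa [h3] at this
  rw [← e1, e2]
  refine (norm_add_le _ _).trans ?_
  have n3 : ‖s / (s - 1)‖ ≤ (2 + |t|) * |t|⁻¹ := by
    rw [norm_div, div_eq_mul_inv]
    apply mul_le_mul n1 _ (by positivity) (by positivity)
    exact inv_anti₀ ha n2
  have n4 : ‖s * Phi 1 (fun _ => 1) s‖ ≤ (2 + |t|) * 4 := by
    rw [norm_mul]
    apply mul_le_mul n1 _ (norm_nonneg _) (by positivity)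
    simpa using e4
  have h5 : |t| * |t|⁻¹ = 1 := mul_inv_cancel₀ ha.ne'
  have h6 : 0 < |t|⁻¹ := by positivity
  have h7 : 2 ≤ |t|⁻¹ + |t| := by nlinarith [sq_nonneg (|t| - |t|⁻¹), sq_nonneg (|t| + |t|⁻¹)]
  nlinarith

/-- the admissible weights -/
structure Wt (w : ℝ → ℝ) (β : ℝ) : Prop where
  pd : PD w
  nn : ∀ t, 0 ≤ w t
  gr : Integrable fun t => w t * (|t|⁻¹ + |t|) ^ β

lemma hseq_pos (n : ℕ) : (0:ℝ) < 1 / ((n:ℝ) + 1) := by positivity
lemma hseq_le (n : ℕ) : 1 / ((n:ℝ) + 1) ≤ 1 := by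
  rw [div_le_one (by positivity)]
  have : (0:ℝ) ≤ n := Nat.cast_nonneg n
  linarith

lemma ae_ne_zero : ∀ᵐ t : ℝ, t ≠ 0 := by
  have : (volume : Measure ℝ) {0} = 0 := by simp
  exact compl_mem_ae_iff.mpr this

lemma tendsto_zeta {t : ℝ} (ht : t ≠ 0) :
    Tendsto (fun n : ℕ => riemannZeta (1 + ((1 / ((n:ℝ) + 1) : ℝ) : ℂ) + t * I)) atTop
      (𝓝 (riemannZeta (1 + t * I))) := by
  have hne : (1 + (t:ℂ) * I) ≠ 1 := by
    intro h
    have := congrArg Complex.im h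
    simp at this
    exact ht this
  have hc := (differentiableAt_riemannZeta hne).continuousAt
  have h1 : Tendsto (fun n : ℕ => (1:ℂ) + ((1 / ((n:ℝ) + 1) : ℝ) : ℂ) + t * I) atTop (𝓝 (1 + t * I)) := by
    have h2 : Tendsto (fun n : ℕ => ((1 / ((n:ℝ) + 1) : ℝ) : ℂ)) atTop (𝓝 ((0:ℝ):ℂ)) :=
      (Complex.continuous_ofReal.tendsto 0).comp tendsto_one_div_add_atTop_nhds_zero_nat
    have h3 := (tendsto_const_nhds (x := (1:ℂ))).add h2
    have h4 := h3.add (tendsto_const_nhds (x := (t:ℂ) * I))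
    simpa using h4
  exact hc.tendsto.comp h1

lemma tendsto_zeta_moment {w : ℝ → ℝ} {β : ℝ} (hβ : 0 ≤ β) (hw : Wt w β) :
    Integrable (fun t => w t * ‖riemannZeta (1 + t * I)‖ ^ β) ∧
    Tendsto (fun n : ℕ => ∫ t, w t * ‖riemannZeta (1 + ((1 / ((n:ℝ) + 1) : ℝ) : ℂ) + t * I)‖ ^ β) atTop
      (𝓝 (∫ t, w t * ‖riemannZeta (1 + t * I)‖ ^ β)) := by
  have hbd : Integrable fun t => (9:ℝ) ^ β * (w t * (|t|⁻¹ + |t|) ^ β) := hw.gr.const_mul _
  have hcont : ∀ n : ℕ, Continuous fun t : ℝ => riemannZeta (1 + ((1 / ((n:ℝ) + 1) : ℝ) : ℂ) + t * I) := by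
    intro n
    rw [continuous_iff_continuousAt]
    intro t
    have hne : (1 + ((1 / ((n:ℝ) + 1) : ℝ) : ℂ) + (t:ℂ) * I) ≠ 1 := by
      intro h
      have := congrArg Complex.re h
      have h2 := hseq_pos n
      simp at this
      norm_cast at this
    have h3 : ContinuousAt (fun t : ℝ => (1:ℂ) + ((1 / ((n:ℝ) + 1) : ℝ) : ℂ) + t * I) t := by
      fun_prop
    exact ContinuousAt.comp (f := fun t : ℝ => (1:ℂ) + ((1 / ((n:ℝ) + 1) : ℝ) : ℂ) + t * I)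
      (differentiableAt_riemannZeta hne).continuousAt h3
  have hmeas : ∀ n : ℕ, AEStronglyMeasurable (fun t : ℝ => w t * ‖riemannZeta (1 + ((1 / ((n:ℝ) + 1) : ℝ) : ℂ) + t * I)‖ ^ β) volume := by
    intro n
    apply hw.pd.int.aestronglyMeasurable.mul
    apply Continuous.aestronglyMeasurable
    exact ((hcont n).norm).rpow_const fun _ => Or.inr hβ
  have hle : ∀ n : ℕ, ∀ᵐ t : ℝ, ‖w t * ‖riemannZeta (1 + ((1 / ((n:ℝ) + 1) : ℝ) : ℂ) + t * I)‖ ^ β‖ ≤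
      (9:ℝ) ^ β * (w t * (|t|⁻¹ + |t|) ^ β) := by
    intro n
    filter_upwards [ae_ne_zero] with t ht
    have h1 := zeta_upper (hseq_pos n) (hseq_le n) ht
    rw [norm_mul, Real.norm_of_nonneg (hw.nn t), Real.norm_of_nonneg (by positivity)]
    have h2 : ‖riemannZeta (1 + ((1 / ((n:ℝ) + 1) : ℝ) : ℂ) + t * I)‖ ^ β ≤ (9 * (|t|⁻¹ + |t|)) ^ β :=
      Real.rpow_le_rpow (norm_nonneg _) h1 hβ
    rw [Real.mul_rpow (by norm_num) (by positivity)] at h2
    calc w t * ‖riemannZeta (1 + ((1 / ((n:ℝ) + 1) : ℝ) : ℂ) + t * I)‖ ^ β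
        ≤ w t * ((9:ℝ) ^ β * (|t|⁻¹ + |t|) ^ β) := mul_le_mul_of_nonneg_left h2 (hw.nn t)
      _ = (9:ℝ) ^ β * (w t * (|t|⁻¹ + |t|) ^ β) := by ring
  have hlim : ∀ᵐ t : ℝ, Tendsto (fun n : ℕ => w t * ‖riemannZeta (1 + ((1 / ((n:ℝ) + 1) : ℝ) : ℂ) + t * I)‖ ^ β) atTop
      (𝓝 (w t * ‖riemannZeta (1 + t * I)‖ ^ β)) := by
    filter_upwards [ae_ne_zero] with t ht
    apply Tendsto.const_mul
    have h1 := (tendsto_zeta ht).norm
    exact h1.rpow_const (Or.inr hβ)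
  refine ⟨?_, tendsto_integral_of_dominated_convergence _ hmeas hbd hle hlim⟩
  refine hbd.mono' (aestronglyMeasurable_of_tendsto_ae _ hmeas hlim) ?_
  have hle' : ∀ᵐ t : ℝ, ∀ n : ℕ, ‖w t * ‖riemannZeta (1 + ((1 / ((n:ℝ) + 1) : ℝ) : ℂ) + t * I)‖ ^ β‖ ≤
      (9:ℝ) ^ β * (w t * (|t|⁻¹ + |t|) ^ β) := ae_all_iff.mpr hle
  filter_upwards [hle', hlim] with t h1 h2
  exact le_of_tendsto h2.norm (Eventually.of_forall h1)

variable {N i b : ℕ} {P : ℕ → Polynomial ℂ}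

/-- the L-function to the right of the edge -/
noncomputable def Lf (N i : ℕ) (P : ℕ → Polynomial ℂ) (h t : ℝ) : ℂ :=
  ∏' p : Idx N, ((P p).eval ((p:ℂ) ^ (-(1 + (i:ℂ)/2 + (h:ℂ) + t * I))))⁻¹

lemma Lf_pow (H : Hyp N i b P) {h : ℝ} (hh : 0 < h) (l : ℝ) (t : ℝ) :
    ‖Lf N i P h t‖ ^ l = Real.exp (l * (TS (lc N i P h) fr t).re) := by
  unfold Lf
  rw [← L_TS H hh t, Complex.norm_exp, ← Real.exp_mul, mul_comm]

lemma continuous_TS_lc (H : Hyp N i b P) {h : ℝ} (hh : 0 < h) : Continuous (TS (lc N i P h) fr) :=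
  continuous_TS ((summable_zc hh).mul_left (b:ℝ)) (norm_lc_le H) fr

lemma integrable_Lf (H : Hyp N i b P) {h : ℝ} (hh : 0 < h) {w : ℝ → ℝ} (hw : Integrable w) (l t0 : ℝ) :
    Integrable fun t => w (t - t0) * ‖Lf N i P h t‖ ^ l := by
  simp_rw [Lf_pow H hh l]
  have hC := (summable_zc hh).mul_left (b:ℝ)
  set M : ℝ := ∑' x, (b:ℝ) * zc h x with hM
  apply (hw.comp_sub_right t0).mul_bdd (c := Real.exp (|l| * M))
  · apply Continuous.aestronglyMeasurable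
    have := continuous_TS_lc H hh
    fun_prop
  · filter_upwards with t
    rw [Real.norm_eq_abs, Real.abs_exp, Real.exp_le_exp]
    have h1 : |(TS (lc N i P h) fr t).re| ≤ M :=
      (Complex.abs_re_le_norm _).trans (norm_TS_le hC (norm_lc_le H) fr t)
    calc l * (TS (lc N i P h) fr t).re ≤ |l * (TS (lc N i P h) fr t).re| := le_abs_self _
      _ = |l| * |(TS (lc N i P h) fr t).re| := abs_mul _ _
      _ ≤ |l| * M := mul_le_mul_of_nonneg_left h1 (abs_nonneg _)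

/-- the extremal inequality on the edge -/
theorem moment_edge (H : Hyp N i b P) {w : ℝ → ℝ} {l : ℝ} (hw : Wt w (b * |l|)) (t0 : ℝ) {ℓ : ℝ → ℂ}
    (hℓ : ∀ᵐ t, ℓ t ≠ 0 ∧ Tendsto (fun n : ℕ => Lf N i P (1 / ((n:ℝ) + 1)) t) atTop (𝓝 (ℓ t))) :
    Integrable (fun t => w (t - t0) * ‖ℓ t‖ ^ l) ∧
    Integrable (fun t => w t * ‖riemannZeta (1 + t * I)‖ ^ (b * |l|)) ∧
    ∫ t, w (t - t0) * ‖ℓ t‖ ^ l ≤ ∫ t, w t * ‖riemannZeta (1 + t * I)‖ ^ (b * |l|) := by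
  have hβ : 0 ≤ b * |l| := by positivity
  obtain ⟨hz1, hz2⟩ := tendsto_zeta_moment hβ hw
  have hlim : ∀ᵐ t : ℝ, Tendsto (fun n : ℕ => w (t - t0) * ‖Lf N i P (1 / ((n:ℝ) + 1)) t‖ ^ l) atTop
      (𝓝 (w (t - t0) * ‖ℓ t‖ ^ l)) := by
    filter_upwards [hℓ] with t ht
    apply Tendsto.const_mul
    exact ht.2.norm.rpow_const (Or.inl (norm_ne_zero_iff.mpr ht.1))
  have hint : ∀ n : ℕ, Integrable fun t => w (t - t0) * ‖Lf N i P (1 / ((n:ℝ) + 1)) t‖ ^ l :=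
    fun n => integrable_Lf H (hseq_pos n) hw.pd.int l t0
  have hmeas : AEStronglyMeasurable (fun t => w (t - t0) * ‖ℓ t‖ ^ l) volume :=
    aestronglyMeasurable_of_tendsto_ae _ (fun n => (hint n).aestronglyMeasurable) hlim
  have hnn : ∀ t, 0 ≤ w (t - t0) * ‖ℓ t‖ ^ l := fun t => mul_nonneg (hw.nn _) (by positivity)
  have hfat : ∫⁻ t, ENNReal.ofReal (w (t - t0) * ‖ℓ t‖ ^ l) ≤
      ENNReal.ofReal (∫ t, w t * ‖riemannZeta (1 + t * I)‖ ^ (b * |l|)) := by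
    have h1 : ∫⁻ t, ENNReal.ofReal (w (t - t0) * ‖ℓ t‖ ^ l) =
        ∫⁻ t, liminf (fun n : ℕ => ENNReal.ofReal (w (t - t0) * ‖Lf N i P (1 / ((n:ℝ) + 1)) t‖ ^ l)) atTop := by
      apply lintegral_congr_ae
      filter_upwards [hlim] with t ht
      exact ((ENNReal.continuous_ofReal.tendsto _).comp ht).liminf_eq.symm
    rw [h1]
    refine (lintegral_liminf_le' (fun n => (hint n).aestronglyMeasurable.aemeasurable.ennreal_ofReal)).trans ?_
    have h2 : ∀ n : ℕ, ∫⁻ t, ENNReal.ofReal (w (t - t0) * ‖Lf N i P (1 / ((n:ℝ) + 1)) t‖ ^ l) ≤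
        ENNReal.ofReal (∫ t, w t * ‖riemannZeta (1 + ((1 / ((n:ℝ) + 1) : ℝ) : ℂ) + t * I)‖ ^ (b * |l|)) := by
      intro n
      rw [← ofReal_integral_eq_lintegral_ofReal (hint n) (Eventually.of_forall fun t =>
        mul_nonneg (hw.nn _) (by positivity))]
      apply ENNReal.ofReal_le_ofReal
      exact (le_abs_self _).trans (moment_h hw.pd H (hseq_pos n) l t0)
    have h3 : Tendsto (fun n : ℕ => ENNReal.ofReal (∫ t, w t * ‖riemannZeta (1 + ((1 / ((n:ℝ) + 1) : ℝ) : ℂ) + t * I)‖ ^ (b * |l|)))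
        atTop (𝓝 (ENNReal.ofReal (∫ t, w t * ‖riemannZeta (1 + t * I)‖ ^ (b * |l|)))) :=
      (ENNReal.continuous_ofReal.tendsto _).comp hz2
    rw [← h3.liminf_eq]
    exact liminf_le_liminf (Eventually.of_forall h2)
  have hfin : Integrable (fun t => w (t - t0) * ‖ℓ t‖ ^ l) := by
    refine ⟨hmeas, ?_⟩
    rw [hasFiniteIntegral_iff_ofReal (Eventually.of_forall hnn)]
    exact hfat.trans_lt ENNReal.ofReal_lt_top
  refine ⟨hfin, hz1, ?_⟩
  rw [← ofReal_integral_eq_lintegral_ofReal hfin (Eventually.of_forall hnn)] at hfat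
  exact (ENNReal.ofReal_le_ofReal_iff (integral_nonneg fun t => mul_nonneg (hw.nn _) (by positivity))).mp hfat

lemma ae_of_dimH {E : Set ℝ} (hE : dimH E = 0) : ∀ᵐ t : ℝ, t ∉ E := by
  have h1 : (volume : Measure ℝ) E = 0 := by
    rw [← MeasureTheory.hausdorffMeasure_real]
    apply measure_zero_of_dimH_lt (d := 1)
    · exact Measure.AbsolutelyContinuous.rfl
    · rw [hE]; simp
  exact compl_mem_ae_iff.mpr h1

lemma pd_of_cos {w : ℝ → ℝ} (hint : Integrable w) (heven : ∀ t, w (-t) = w t)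
    (hcos : ∀ ν : ℝ, 0 ≤ ∫ t, w t * Real.cos (ν * t)) : PD w := by
  refine ⟨hint, fun ν => ⟨_, hcos ν, ?_⟩⟩
  have hc : Integrable fun t => w t * Real.cos (ν * t) := by
    apply hint.mul_bdd (c := 1)
    · apply Continuous.aestronglyMeasurable; fun_prop
    · filter_upwards with t
      exact Real.abs_cos_le_one _
  have hs : Integrable fun t => w t * Real.sin (ν * t) := by
    apply hint.mul_bdd (c := 1)
    · apply Continuous.aestronglyMeasurable; fun_prop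
    · filter_upwards with t
      exact Real.abs_sin_le_one _
  have h1 : ∫ t, w t * Real.sin (ν * t) = 0 := by
    have h2 := integral_neg_eq_self (fun t => w t * Real.sin (ν * t)) volume
    have h3 : ∀ t, w (-t) * Real.sin (ν * -t) = -(w t * Real.sin (ν * t)) := by
      intro t
      rw [heven, mul_neg, Real.sin_neg]
      ring
    simp_rw [h3] at h2
    rw [integral_neg] at h2
    linarith
  have e : ∀ t : ℝ, (w t : ℂ) * cexp ((ν * t : ℝ) * I) = ((w t * Real.cos (ν * t) : ℝ) : ℂ) + ((w t * Real.sin (ν * t) : ℝ) : ℂ) * I := by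
    intro t
    rw [Complex.exp_mul_I, ← Complex.ofReal_cos, ← Complex.ofReal_sin]
    push_cast
    ring
  simp_rw [e]
  have i1 : Integrable (fun t => ((w t * Real.cos (ν * t) : ℝ) : ℂ)) := hc.ofReal
  have i2 : Integrable (fun t => ((w t * Real.sin (ν * t) : ℝ) : ℂ) * I) := (hs.ofReal (𝕜 := ℂ)).mul_const I
  rw [integral_add i1 i2, integral_mul_const, integral_complex_ofReal, integral_complex_ofReal, h1]
  simp

end Pool.Agent.H91.Edge
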