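import Mathlib
import Pool.Agent.H91.Edge.MomEdge

open Complex MeasureTheory Filter Topology

namespace Pool.Agent.H91.Edge

open Pool.Agent.H89.EdgeBasic

/-- the Gaussian weight -/
noncomputable def gw (t : ℝ) : ℝ := Real.exp (-1 * t ^ 2)

lemma gw_pos (t : ℝ) : 0 < gw t := Real.exp_pos _

lemma gw_int : Integrable gw := integrable_exp_neg_mul_sq one_pos

lemma gw_pd : PD gw := by
  refine ⟨gw_int, fun ν => ⟨Real.pi ^ (1/2 : ℝ) * Real.exp (-ν^2/4), by positivity, ?_⟩⟩
  have h := fourierIntegral_gaussian (b := 1) (by simp) (ν : ℂ)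
  have e : ∀ t : ℝ, (gw t : ℂ) * cexp ((ν * t : ℝ) * I) = cexp (I * ν * t) * cexp (-1 * (t:ℂ) ^ 2) := by
    intro t
    unfold gw
    push_cast
    rw [mul_comm]
    congr 2
    ring
  simp_rw [e]
  rw [h]
  push_cast
  congr 1
  · rw [div_one, Complex.ofReal_cpow Real.pi_pos.le]
    push_cast
    rfl
  · rw [mul_one]

lemma integrable_abs_rpow {s : ℝ} (hs : -1 < s) : Integrable fun x : ℝ => |x| ^ s * gw x := by
  unfold gw
  rw [← integrableOn_univ, ← @Set.Iio_union_Ici _ _ (0 : ℝ), integrableOn_union,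
    integrableOn_Ici_iff_integrableOn_Ioi]
  have h1 : IntegrableOn (fun x : ℝ => |x| ^ s * Real.exp (-1 * x ^ 2)) (Set.Ioi 0) := by
    refine (integrableOn_rpow_mul_exp_neg_mul_sq one_pos hs).congr_fun ?_ measurableSet_Ioi
    intro x hx
    simp only
    rw [abs_of_pos hx]
  refine ⟨?_, h1⟩
  rw [← (Measure.measurePreserving_neg (volume : Measure ℝ)).integrableOn_comp_preimage
      (Homeomorph.neg ℝ).measurableEmbedding]
  simp only [Function.comp_def, neg_sq, Set.neg_preimage, Set.neg_Iio, neg_zero, abs_neg]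
  exact h1

lemma gw_gr {β : ℝ} (h0 : 0 ≤ β) (h1 : β < 1) : Integrable fun t => gw t * (|t|⁻¹ + |t|) ^ β := by
  have i1 := (integrable_abs_rpow (s := -β) (by linarith)).const_mul ((2:ℝ) ^ β)
  have i2 := (integrable_abs_rpow (s := β) (by linarith)).const_mul ((2:ℝ) ^ β)
  refine (i1.add i2).mono' ?_ ?_
  · apply gw_int.aestronglyMeasurable.mul
    apply Measurable.aestronglyMeasurable
    fun_prop
  · filter_upwards [ae_ne_zero] with t ht
    have ha : 0 < |t| := abs_pos.mpr ht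
    rw [Real.norm_of_nonneg (mul_nonneg (gw_pos t).le (by positivity))]
    simp only [Pi.add_apply]
    have h2 : (|t|⁻¹ + |t|) ^ β ≤ 2 ^ β * (|t| ^ (-β) + |t| ^ β) := by
      rcases le_total |t| 1 with h | h
      · have h3 : |t| ≤ |t|⁻¹ := h.trans ((one_le_inv₀ ha).mpr h)
        calc (|t|⁻¹ + |t|) ^ β ≤ (2 * |t|⁻¹) ^ β := Real.rpow_le_rpow (by positivity) (by linarith) h0
          _ = 2 ^ β * |t| ^ (-β) := by
              rw [Real.mul_rpow (by norm_num) (by positivity), Real.inv_rpow ha.le, Real.rpow_neg ha.le]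
          _ ≤ 2 ^ β * (|t| ^ (-β) + |t| ^ β) := by
              apply mul_le_mul_of_nonneg_left _ (by positivity)
              have : 0 ≤ |t| ^ β := by positivity
              linarith
      · have h3 : |t|⁻¹ ≤ |t| := (inv_le_one_of_one_le₀ h).trans h
        calc (|t|⁻¹ + |t|) ^ β ≤ (2 * |t|) ^ β := Real.rpow_le_rpow (by positivity) (by linarith) h0
          _ = 2 ^ β * |t| ^ β := Real.mul_rpow (by norm_num) (by positivity)
          _ ≤ 2 ^ β * (|t| ^ (-β) + |t| ^ β) := by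
              apply mul_le_mul_of_nonneg_left _ (by positivity)
              have : 0 ≤ |t| ^ (-β) := by positivity
              linarith
    calc gw t * (|t|⁻¹ + |t|) ^ β ≤ gw t * (2 ^ β * (|t| ^ (-β) + |t| ^ β)) :=
          mul_le_mul_of_nonneg_left h2 (gw_pos t).le
      _ = 2 ^ β * (|t| ^ (-β) * gw t) + 2 ^ β * (|t| ^ β * gw t) := by ring

lemma gw_wt {β : ℝ} (h0 : 0 ≤ β) (h1 : β < 1) : Wt gw β := ⟨gw_pd, fun t => (gw_pos t).le, gw_gr h0 h1⟩

lemma sq_le_exp_add (x : ℝ) : x ^ 2 ≤ 2 * (Real.exp x + Real.exp (-x)) := by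
  rcases le_total 0 x with h | h
  · have h1 := Real.quadratic_le_exp_of_nonneg h
    have h2 := Real.exp_pos (-x)
    nlinarith
  · have h1 := Real.quadratic_le_exp_of_nonneg (x := -x) (by linarith)
    have h2 := Real.exp_pos x
    nlinarith

lemma TS_const_mul {J : Type} (a : ℂ) (c : J → ℂ) (ν : J → ℝ) (t : ℝ) :
    TS (fun j => a * c j) ν t = a * TS c ν t := by
  unfold TS
  rw [← tsum_mul_left]
  apply tsum_congr
  intro x
  ring

section general

variable {J : Type} [Countable J] {w : ℝ → ℝ}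

lemma second_le_exp (hw : PD w) (hnn : ∀ t, 0 ≤ w t) {C : J → ℝ} (hC : Summable C) (hC0 : ∀ j, 0 ≤ C j)
    (ν : J → ℝ) {β : ℝ} (hβ : 0 < β) :
    ∫ t, w t * (TS (fun j => (C j : ℂ)) ν t).re ^ 2 ≤
      4 / β ^ 2 * ∫ t, w t * Real.exp (β * (TS (fun j => (C j : ℂ)) ν t).re) := by
  have hCn : ∀ j, ‖((C j : ℝ) : ℂ)‖ ≤ C j := fun j => by rw [Complex.norm_real, Real.norm_of_nonneg (hC0 j)]
  set u : ℝ → ℝ := fun t => (TS (fun j => (C j : ℂ)) ν t).re with hu
  set M : ℝ := ∑' j, C j with hM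
  have hcont : Continuous u := Complex.continuous_re.comp (continuous_TS hC hCn ν)
  have hbd : ∀ t, |u t| ≤ M := fun t => (Complex.abs_re_le_norm _).trans (norm_TS_le hC hCn ν t)
  have hM0 : 0 ≤ M := (abs_nonneg _).trans (hbd 0)
  have i1 : ∀ r : ℝ, Integrable fun t => w t * Real.exp (r * u t) := by
    intro r
    apply hw.int.mul_bdd (c := Real.exp (|r| * M))
    · apply Continuous.aestronglyMeasurable
      fun_prop
    · filter_upwards with t
      rw [Real.norm_eq_abs, Real.abs_exp, Real.exp_le_exp]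
      calc r * u t ≤ |r * u t| := le_abs_self _
        _ = |r| * |u t| := abs_mul _ _
        _ ≤ |r| * M := mul_le_mul_of_nonneg_left (hbd t) (abs_nonneg _)
  have i2 : Integrable fun t => w t * u t ^ 2 := by
    apply hw.int.mul_bdd (c := M ^ 2)
    · exact (hcont.pow 2).aestronglyMeasurable
    · filter_upwards with t
      rw [norm_pow, Real.norm_eq_abs]
      exact pow_le_pow_left₀ (abs_nonneg _) (hbd t) 2
  have h1 := exp_maj hw (C := fun j => β * C j) (hC.mul_left β) (c := fun j => ((-β : ℝ) : ℂ) * (C j : ℂ))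
    (fun j => by
      rw [norm_mul, Complex.norm_real, Complex.norm_real, Real.norm_eq_abs, abs_neg, abs_of_pos hβ,
        Real.norm_of_nonneg (hC0 j)]) ν 0
  have e1 : ∀ t, (TS (fun j => ((-β : ℝ) : ℂ) * (C j : ℂ)) ν t).re = (-β) * u t := by
    intro t
    rw [TS_const_mul, Complex.re_ofReal_mul]
  have e2 : ∀ t, (TS (fun j => ((β * C j : ℝ) : ℂ)) ν t).re = β * u t := by
    intro t
    have : (fun j => ((β * C j : ℝ) : ℂ)) = fun j => ((β : ℝ) : ℂ) * (C j : ℂ) := by
      funext j; push_cast; ring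
    rw [this, TS_const_mul, Complex.re_ofReal_mul]
  simp_rw [e1, e2, sub_zero] at h1
  have h2 : ∫ t, w t * u t ^ 2 ≤ ∫ t, (2 / β ^ 2) * (w t * Real.exp (β * u t) + w t * Real.exp ((-β) * u t)) := by
    apply integral_mono i2 (((i1 β).add (i1 (-β))).const_mul _)
    intro t
    simp only
    have h3 := sq_le_exp_add (β * u t)
    have h4 : u t ^ 2 ≤ 2 / β ^ 2 * (Real.exp (β * u t) + Real.exp ((-β) * u t)) := by
      rw [div_mul_eq_mul_div, le_div_iff₀ (by positivity), neg_mul]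
      nlinarith
    calc w t * u t ^ 2 ≤ w t * (2 / β ^ 2 * (Real.exp (β * u t) + Real.exp ((-β) * u t))) :=
          mul_le_mul_of_nonneg_left h4 (hnn t)
      _ = _ := by simp only [Pi.add_apply]; ring
  rw [integral_const_mul, integral_add (i1 β) (i1 (-β))] at h2
  refine h2.trans ?_
  have h5 := (abs_le.mp h1).2
  have h6 : 4 / β ^ 2 = 2 / β ^ 2 * 2 := by ring
  rw [h6, mul_assoc]
  apply mul_le_mul_of_nonneg_left _ (by positivity)
  linarith

/-- the kernel -/
noncomputable def Kk (w : ℝ → ℝ) (ν : J → ℝ) (x : J × J) : ℝ :=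
  ∫ t, w t * (Real.cos (ν x.1 * t) * Real.cos (ν x.2 * t))

lemma cos_nonneg (hw : PD w) (u : ℝ) : 0 ≤ ∫ t, w t * Real.cos (u * t) := by
  obtain ⟨r, hr, h⟩ := hw.ft u
  have h1 := congrArg Complex.re h
  rw [Complex.ofReal_re] at h1
  have hi : Integrable fun t => (w t : ℂ) * cexp ((u * t : ℝ) * I) := by
    apply (hw.int.ofReal (𝕜 := ℂ)).mul_bdd (c := 1)
    · apply Continuous.aestronglyMeasurable; fun_prop
    · filter_upwards with t
      rw [Complex.norm_exp_ofReal_mul_I]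
  have h2 : (∫ t, (w t : ℂ) * cexp ((u * t : ℝ) * I)).re = ∫ t, ((w t : ℂ) * cexp ((u * t : ℝ) * I)).re :=
    (integral_re hi).symm
  have h3 : ∀ t : ℝ, ((w t : ℂ) * cexp ((u * t : ℝ) * I)).re = w t * Real.cos (u * t) := by
    intro t
    rw [Complex.re_ofReal_mul, Complex.exp_ofReal_mul_I_re]
  simp_rw [h3] at h2
  rw [← h2, h1]
  exact hr

omit [Countable J] in
lemma Kk_nonneg (hw : PD w) (ν : J → ℝ) (x : J × J) : 0 ≤ Kk w ν x := by
  unfold Kk
  have i : ∀ u : ℝ, Integrable fun t => w t * Real.cos (u * t) := by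
    intro u
    apply hw.int.mul_bdd (c := 1)
    · apply Continuous.aestronglyMeasurable; fun_prop
    · filter_upwards with t
      exact Real.abs_cos_le_one _
  have e : ∀ t, w t * (Real.cos (ν x.1 * t) * Real.cos (ν x.2 * t)) =
      (1/2) * (w t * Real.cos ((ν x.1 - ν x.2) * t) + w t * Real.cos ((ν x.1 + ν x.2) * t)) := by
    intro t
    rw [sub_mul, add_mul, Real.cos_sub, Real.cos_add]
    ring
  simp_rw [e]
  rw [integral_const_mul, integral_add (i _) (i _)]
  have h1 := cos_nonneg hw (ν x.1 - ν x.2)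
  have h2 := cos_nonneg hw (ν x.1 + ν x.2)
  linarith

omit [Countable J] in
lemma TS_re {C : J → ℝ} (hC : Summable C) (hC0 : ∀ j, 0 ≤ C j) (ν : J → ℝ) (t : ℝ) :
    (TS (fun j => (C j : ℂ)) ν t).re = ∑' j, C j * Real.cos (ν j * t) := by
  have hCn : ∀ j, ‖((C j : ℝ) : ℂ)‖ ≤ C j := fun j => by rw [Complex.norm_real, Real.norm_of_nonneg (hC0 j)]
  unfold TS
  rw [Complex.re_tsum (summable_TS hC hCn ν t)]
  apply tsum_congr
  intro j
  rw [Complex.re_ofReal_mul, Complex.exp_ofReal_mul_I_re]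

lemma hasSum_second (hw : PD w) {C : J → ℝ} (hC : Summable C) (hC0 : ∀ j, 0 ≤ C j) (ν : J → ℝ) :
    HasSum (fun x : J × J => C x.1 * C x.2 * Kk w ν x) (∫ t, w t * (TS (fun j => (C j : ℂ)) ν t).re ^ 2) := by
  have hCC : Summable fun x : J × J => C x.1 * C x.2 := hC.mul_of_nonneg hC hC0 hC0
  have hcos : ∀ (j : J) (t : ℝ), |C j * Real.cos (ν j * t)| ≤ C j := by
    intro j t
    rw [abs_mul, abs_of_nonneg (hC0 j)]
    exact mul_le_of_le_one_right (hC0 j) (Real.abs_cos_le_one _)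
  have hF : ∀ x : J × J, Integrable (fun t => w t * (C x.1 * C x.2 * (Real.cos (ν x.1 * t) * Real.cos (ν x.2 * t)))) := by
    intro x
    apply hw.int.mul_bdd (c := C x.1 * C x.2)
    · apply Continuous.aestronglyMeasurable; fun_prop
    · filter_upwards with t
      have h1 := hcos x.1 t
      have h2 := hcos x.2 t
      rw [Real.norm_eq_abs]
      have : C x.1 * C x.2 * (Real.cos (ν x.1 * t) * Real.cos (ν x.2 * t)) =
        (C x.1 * Real.cos (ν x.1 * t)) * (C x.2 * Real.cos (ν x.2 * t)) := by ring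
      rw [this, abs_mul]
      exact mul_le_mul h1 h2 (abs_nonneg _) (hC0 _)
  have hsum : Summable fun x : J × J => ∫ t, ‖w t * (C x.1 * C x.2 * (Real.cos (ν x.1 * t) * Real.cos (ν x.2 * t)))‖ := by
    have h1 : Summable fun x : J × J => (∫ t, ‖w t‖) * (C x.1 * C x.2) := hCC.mul_left _
    refine Summable.of_nonneg_of_le (fun x => integral_nonneg fun t => norm_nonneg _) (fun x => ?_) h1
    rw [← integral_mul_const]
    apply integral_mono (hF x).norm (hw.int.norm.mul_const _)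
    intro t
    simp only
    rw [norm_mul]
    apply mul_le_mul_of_nonneg_left _ (norm_nonneg _)
    rw [norm_mul, Real.norm_of_nonneg (mul_nonneg (hC0 _) (hC0 _)), norm_mul]
    apply mul_le_of_le_one_right (mul_nonneg (hC0 _) (hC0 _))
    exact mul_le_one₀ (Real.abs_cos_le_one _) (norm_nonneg _) (Real.abs_cos_le_one _)
  have h := MeasureTheory.hasSum_integral_of_summable_integral_norm hF hsum
  have e1 : ∀ t, ∑' x : J × J, w t * (C x.1 * C x.2 * (Real.cos (ν x.1 * t) * Real.cos (ν x.2 * t))) =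
      w t * (TS (fun j => (C j : ℂ)) ν t).re ^ 2 := by
    intro t
    rw [tsum_mul_left, TS_re hC hC0, sq]
    congr 1
    have hs : Summable fun j => ‖C j * Real.cos (ν j * t)‖ :=
      Summable.of_nonneg_of_le (fun _ => norm_nonneg _) (fun j => hcos j t) hC
    rw [tsum_mul_tsum_of_summable_norm hs hs]
    apply tsum_congr
    intro x
    ring
  have e2 : ∀ x : J × J, ∫ t, w t * (C x.1 * C x.2 * (Real.cos (ν x.1 * t) * Real.cos (ν x.2 * t))) =
      C x.1 * C x.2 * Kk w ν x := by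
    intro x
    unfold Kk
    rw [← integral_const_mul]
    apply integral_congr_ae
    filter_upwards with t
    ring
  simp_rw [e1, e2] at h
  exact h

end general

lemma zc_le (x : Nat.Primes × ℕ) {h : ℝ} (hh : 0 ≤ h) : zc h x ≤ zc 0 x := by
  unfold zc
  apply div_le_div_of_nonneg_right _ (Nat.cast_nonneg _)
  apply pow_le_pow_left₀ (by positivity)
  have : (1:ℝ) ≤ ((x.1:ℕ):ℝ) := by exact_mod_cast x.1.2.one_lt.le
  exact Real.rpow_le_rpow_of_exponent_le this (by linarith)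

lemma tendsto_zc (x : Nat.Primes × ℕ) : Tendsto (fun n : ℕ => zc (1 / ((n:ℝ) + 1)) x) atTop (𝓝 (zc 0 x)) := by
  have hp : ((x.1:ℕ):ℝ) ≠ 0 := by exact_mod_cast x.1.2.ne_zero
  have hc : Continuous fun h : ℝ => zc h x := by
    unfold zc
    apply Continuous.div_const
    apply Continuous.pow
    have : Continuous fun h : ℝ => (-(1 + h)) := by fun_prop
    exact (Real.continuous_const_rpow hp).comp this
  exact (hc.tendsto 0).comp tendsto_one_div_add_atTop_nhds_zero_nat

lemma zeta_moment_bound {h : ℝ} (hh : 0 < h) (h1 : h ≤ 1) :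
    ∫ t, gw t * Real.exp ((1/2) * (TS (fun x => (zc h x : ℂ)) fr t).re) ≤
      9 ^ (1/2:ℝ) * ∫ t, gw t * (|t|⁻¹ + |t|) ^ (1/2:ℝ) := by
  have hg := gw_gr (β := 1/2) (by norm_num) (by norm_num)
  have e : ∀ t, Real.exp ((1/2) * (TS (fun x => (zc h x : ℂ)) fr t).re) =
      ‖riemannZeta (1 + (h:ℂ) + t * I)‖ ^ (1/2:ℝ) := by
    intro t
    rw [← zeta_TS hh t, Complex.norm_exp, ← Real.exp_mul, mul_comm]
  simp_rw [e]
  rw [← integral_const_mul]
  apply integral_mono_of_nonneg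
  · filter_upwards with t
    exact mul_nonneg (gw_pos t).le (by positivity)
  · exact hg.const_mul _
  · filter_upwards [ae_ne_zero] with t ht
    have h2 := Real.rpow_le_rpow (norm_nonneg _) (zeta_upper hh h1 ht) (z := 1/2) (by norm_num)
    rw [Real.mul_rpow (by norm_num) (by positivity)] at h2
    calc gw t * ‖riemannZeta (1 + (h:ℂ) + t * I)‖ ^ (1/2:ℝ) ≤
        gw t * (9 ^ (1/2:ℝ) * (|t|⁻¹ + |t|) ^ (1/2:ℝ)) := mul_le_mul_of_nonneg_left h2 (gw_pos t).le
      _ = _ := by ring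

/-- the limit kernel -/
noncomputable def g0 (x : (Nat.Primes × ℕ) × (Nat.Primes × ℕ)) : ℝ := zc 0 x.1 * zc 0 x.2 * Kk gw fr x

lemma g0_nonneg (x : (Nat.Primes × ℕ) × (Nat.Primes × ℕ)) : 0 ≤ g0 x :=
  mul_nonneg (mul_nonneg (zc_nonneg 0 _) (zc_nonneg 0 _)) (Kk_nonneg gw_pd fr x)

lemma summable_g0 : Summable g0 := by
  set B : ℝ := 4 / (1/2) ^ 2 * (9 ^ (1/2:ℝ) * ∫ t, gw t * (|t|⁻¹ + |t|) ^ (1/2:ℝ)) with hB
  apply summable_of_sum_le g0_nonneg (c := B)
  intro F
  have h1 : Tendsto (fun n : ℕ => ∑ x ∈ F, zc (1 / ((n:ℝ) + 1)) x.1 * zc (1 / ((n:ℝ) + 1)) x.2 * Kk gw fr x) atTop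
      (𝓝 (∑ x ∈ F, g0 x)) := by
    apply tendsto_finsetSum
    intro x _
    exact ((tendsto_zc x.1).mul (tendsto_zc x.2)).mul_const _
  apply le_of_tendsto h1
  filter_upwards with n
  have h2 := hasSum_second gw_pd (summable_zc (hseq_pos n)) (zc_nonneg _) fr
  have h3 : ∑ x ∈ F, zc (1 / ((n:ℝ) + 1)) x.1 * zc (1 / ((n:ℝ) + 1)) x.2 * Kk gw fr x ≤
      ∫ t, gw t * (TS (fun x => (zc (1 / ((n:ℝ) + 1)) x : ℂ)) fr t).re ^ 2 := by
    rw [← h2.tsum_eq]
    apply h2.summable.sum_le_tsum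
    intro x _
    exact mul_nonneg (mul_nonneg (zc_nonneg _ _) (zc_nonneg _ _)) (Kk_nonneg gw_pd fr x)
  refine h3.trans ?_
  refine (second_le_exp gw_pd (fun t => (gw_pos t).le) (summable_zc (hseq_pos n)) (zc_nonneg _) fr
    (β := 1/2) (by norm_num)).trans ?_
  rw [hB]
  apply mul_le_mul_of_nonneg_left _ (by norm_num)
  exact zeta_moment_bound (hseq_pos n) (hseq_le n)

/-- tail of the second moment -/
noncomputable def tau (y : ℕ) : ℝ :=
  ∑' x : (Nat.Primes × ℕ) × (Nat.Primes × ℕ), if y < (x.1.1 : ℕ) ∧ y < (x.2.1 : ℕ) then g0 x else 0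

lemma tendsto_tau : Tendsto tau atTop (𝓝 0) := by
  have h0 : (0:ℝ) = ∑' _ : (Nat.Primes × ℕ) × (Nat.Primes × ℕ), (0:ℝ) := by simp
  rw [h0]
  unfold tau
  apply tendsto_tsum_of_dominated_convergence summable_g0
  · intro x
    apply tendsto_const_nhds.congr'
    filter_upwards [eventually_ge_atTop (x.1.1 : ℕ)] with y hy
    rw [if_neg]
    rintro ⟨h1, -⟩
    omega
  · filter_upwards with y x
    split_ifs
    · rw [Real.norm_of_nonneg (g0_nonneg x)]
    · rw [norm_zero]
      exact g0_nonneg x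

/-- cut off coefficients -/
noncomputable def zcut (h : ℝ) (y : ℕ) (x : Nat.Primes × ℕ) : ℝ := if y < (x.1 : ℕ) then zc h x else 0

lemma zcut_nonneg (h : ℝ) (y : ℕ) (x : Nat.Primes × ℕ) : 0 ≤ zcut h y x := by
  unfold zcut
  split_ifs
  · exact zc_nonneg _ _
  · exact le_rfl

lemma zcut_le (h : ℝ) (y : ℕ) (x : Nat.Primes × ℕ) : zcut h y x ≤ zc h x := by
  unfold zcut
  split_ifs
  · exact le_rfl
  · exact zc_nonneg _ _

lemma summable_zcut {h : ℝ} (hh : 0 < h) (y : ℕ) : Summable (zcut h y) :=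
  Summable.of_nonneg_of_le (zcut_nonneg h y) (zcut_le h y) (summable_zc hh)

lemma second_tail {h : ℝ} (hh : 0 < h) (y : ℕ) :
    ∫ t, gw t * (TS (fun x => (zcut h y x : ℂ)) fr t).re ^ 2 ≤ tau y := by
  have h1 := hasSum_second gw_pd (summable_zcut hh y) (zcut_nonneg h y) fr
  rw [← h1.tsum_eq]
  unfold tau
  apply h1.summable.tsum_le_tsum
  · intro x
    unfold zcut g0
    by_cases hx1 : y < (x.1.1 : ℕ)
    · by_cases hx2 : y < (x.2.1 : ℕ)
      · rw [if_pos hx1, if_pos hx2, if_pos ⟨hx1, hx2⟩]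
        apply mul_le_mul_of_nonneg_right _ (Kk_nonneg gw_pd fr x)
        exact mul_le_mul (zc_le _ hh.le) (zc_le _ hh.le) (zc_nonneg _ _) (zc_nonneg _ _)
      · simp [hx2]
    · simp [hx1]
  · refine Summable.of_nonneg_of_le (fun x => ?_) (fun x => ?_) summable_g0
    · split_ifs
      · exact g0_nonneg x
      · exact le_rfl
    · split_ifs
      · exact le_rfl
      · exact g0_nonneg x

end Pool.Agent.H91.Edge
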