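import Mathlib
import Pool.Agent.H91.Edge.Dist1

open Complex MeasureTheory Filter Topology

namespace Pool.Agent.H91.Edge

open Pool.Agent.H89.EdgeBasic

variable {N i b : ℕ} {P : ℕ → Polynomial ℂ}

lemma hyp_fac (H : Hyp N i b P) (y : ℕ) : Hyp (N * y.factorial) i b P := by
  have key : ∀ p : ℕ, ¬ p ∣ N * y.factorial → ¬ p ∣ N := fun p h h2 => h (dvd_mul_of_dvd_left h2 _)
  exact ⟨Nat.mul_pos H.N0 y.factorial_pos, fun p hp hpN => H.h0 p hp (key p hpN),
    fun p hp hpN => H.hdeg p hp (key p hpN), fun p hp hpN => H.hroots p hp (key p hpN)⟩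

lemma norm_lc_fac (H : Hyp N i b P) (y : ℕ) {h : ℝ} (x : Nat.Primes × ℕ) :
    ‖lc (N * y.factorial) i P h x‖ ≤ b * zcut h y x := by
  unfold zcut
  split_ifs with hx
  · exact norm_lc_le (hyp_fac H y) x
  · unfold lc
    rw [if_pos, norm_zero, mul_zero]
    exact dvd_mul_of_dvd_right (Nat.dvd_factorial x.1.2.pos (not_lt.mp hx)) _

lemma second_tail_L (H : Hyp N i b P) (y : ℕ) {h : ℝ} (hh : 0 < h) (t0 : ℝ) (a : ℂ) (ha : ‖a‖ = 1) :
    ∫ t, gw (t - t0) * (a * TS (lc (N * y.factorial) i P h) fr t).re ^ 2 ≤ b ^ 2 * tau y := by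
  have hC : Summable fun x => (b:ℝ) * zcut h y x := (summable_zcut hh y).mul_left _
  have hc : ∀ x, ‖a * lc (N * y.factorial) i P h x‖ ≤ b * zcut h y x := by
    intro x
    rw [norm_mul, ha, one_mul]
    exact norm_lc_fac H y x
  have h1 := ((Maj.re hC hc fr).pow 2).bound gw_pd t0
  have e3 : ∫ t, (gw (t - t0) : ℂ) * (((TS (fun x => a * lc (N * y.factorial) i P h x) fr t).re : ℝ) : ℂ) ^ 2 =
      ((∫ t, gw (t - t0) * (a * TS (lc (N * y.factorial) i P h) fr t).re ^ 2 : ℝ) : ℂ) := by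
    rw [← integral_complex_ofReal]
    apply integral_congr_ae
    filter_upwards with t
    rw [TS_const_mul]
    push_cast
    ring
  have e4 : ∫ t, (gw t : ℂ) * (((TS (fun x => (((b:ℝ) * zcut h y x : ℝ) : ℂ)) fr t).re : ℝ) : ℂ) ^ 2 =
      (((b:ℝ) ^ 2 * ∫ t, gw t * (TS (fun x => (zcut h y x : ℂ)) fr t).re ^ 2 : ℝ) : ℂ) := by
    rw [← integral_const_mul, ← integral_complex_ofReal]
    apply integral_congr_ae
    filter_upwards with t
    have : (fun x => (((b:ℝ) * zcut h y x : ℝ) : ℂ)) = fun x => ((b:ℝ) : ℂ) * (zcut h y x : ℂ) := by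
      funext x; push_cast; ring
    rw [this, TS_const_mul, Complex.re_ofReal_mul]
    push_cast
    ring
  rw [e3, e4, Complex.norm_real, Complex.ofReal_re] at h1
  refine (le_abs_self _).trans (h1.trans ?_)
  exact mul_le_mul_of_nonneg_left (second_tail hh y) (by positivity)

lemma norm_sq_tail (H : Hyp N i b P) (y : ℕ) {h : ℝ} (hh : 0 < h) (t0 : ℝ) :
    Integrable (fun t => gw (t - t0) * ‖TS (lc (N * y.factorial) i P h) fr t‖ ^ 2) ∧
    ∫ t, gw (t - t0) * ‖TS (lc (N * y.factorial) i P h) fr t‖ ^ 2 ≤ 2 * b ^ 2 * tau y := by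
  have hC : Summable fun x => (b:ℝ) * zcut h y x := (summable_zcut hh y).mul_left _
  set G := TS (lc (N * y.factorial) i P h) fr with hG
  set M : ℝ := ∑' x, (b:ℝ) * zcut h y x with hM
  have hcont : Continuous G := continuous_TS hC (norm_lc_fac H y) fr
  have hbd : ∀ t, ‖G t‖ ≤ M := fun t => norm_TS_le hC (norm_lc_fac H y) fr t
  have i1 : ∀ a : ℂ, ‖a‖ = 1 → Integrable fun t => gw (t - t0) * (a * G t).re ^ 2 := by
    intro a ha
    apply (gw_int.comp_sub_right t0).mul_bdd (c := M ^ 2)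
    · apply Continuous.aestronglyMeasurable
      fun_prop
    · filter_upwards with t
      rw [norm_pow, Real.norm_eq_abs]
      apply pow_le_pow_left₀ (abs_nonneg _)
      refine (Complex.abs_re_le_norm _).trans ?_
      rw [norm_mul, ha, one_mul]
      exact hbd t
  have e : ∀ t, gw (t - t0) * ‖G t‖ ^ 2 = gw (t - t0) * ((1:ℂ) * G t).re ^ 2 + gw (t - t0) * ((-I) * G t).re ^ 2 := by
    intro t
    have h1 : ((-I) * G t).re = (G t).im := by simp
    rw [h1, one_mul, Complex.sq_norm, Complex.normSq_apply]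
    ring
  have hI : ‖(-I : ℂ)‖ = 1 := by simp
  simp_rw [e]
  refine ⟨(i1 1 norm_one).add (i1 (-I) hI), ?_⟩
  rw [integral_add (i1 1 norm_one) (i1 (-I) hI)]
  have h1 := second_tail_L H y hh t0 1 norm_one
  have h2 := second_tail_L H y hh t0 (-I) hI
  linarith

lemma min_exp_le (G : ℂ) : min 1 (‖cexp G - 1‖ ^ 2) ≤ 4 * ‖G‖ ^ 2 := by
  rcases le_total ‖G‖ 1 with h | h
  · refine (min_le_right _ _).trans ?_
    have h1 := Complex.norm_exp_sub_one_le h
    have h2 := pow_le_pow_left₀ (norm_nonneg _) h1 2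
    calc ‖cexp G - 1‖ ^ 2 ≤ (2 * ‖G‖) ^ 2 := h2
      _ = 4 * ‖G‖ ^ 2 := by ring
  · refine (min_le_left _ _).trans ?_
    nlinarith

lemma tail_h (H : Hyp N i b P) (y : ℕ) {h : ℝ} (hh : 0 < h) (t0 : ℝ) :
    ∫ t, gw (t - t0) * min 1 (‖Lf (N * y.factorial) i P h t - 1‖ ^ 2) ≤ 8 * b ^ 2 * tau y := by
  obtain ⟨h1, h2⟩ := norm_sq_tail H y hh t0
  have h3 : ∫ t, gw (t - t0) * min 1 (‖Lf (N * y.factorial) i P h t - 1‖ ^ 2) ≤
      ∫ t, 4 * (gw (t - t0) * ‖TS (lc (N * y.factorial) i P h) fr t‖ ^ 2) := by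
    apply integral_mono_of_nonneg
    · filter_upwards with t
      exact mul_nonneg (gw_pos _).le (le_min zero_le_one (by positivity))
    · exact h1.const_mul 4
    · filter_upwards with t
      have h4 := min_exp_le (TS (lc (N * y.factorial) i P h) fr t)
      unfold Lf
      rw [← L_TS (hyp_fac H y) hh t]
      calc gw (t - t0) * min 1 (‖cexp (TS (lc (N * y.factorial) i P h) fr t) - 1‖ ^ 2) ≤
          gw (t - t0) * (4 * ‖TS (lc (N * y.factorial) i P h) fr t‖ ^ 2) :=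
            mul_le_mul_of_nonneg_left h4 (gw_pos _).le
        _ = _ := by ring
  rw [integral_const_mul] at h3
  linarith

/-- partial products -/
noncomputable def Yf (N i : ℕ) (P : ℕ → Polynomial ℂ) (x : ℕ) (t : ℝ) : ℂ :=
  ∏ p ∈ (Finset.range (x + 1)).filter (fun p => p.Prime ∧ ¬ p ∣ N),
    ((P p).eval ((p:ℂ) ^ (-(1 + (i:ℂ)/2 + t * I))))⁻¹

/-- boundary values -/
def EV (N i : ℕ) (P : ℕ → Polynomial ℂ) (ℓ : ℝ → ℂ) : Prop :=
  ∀ᵐ t : ℝ, ℓ t ≠ 0 ∧ Tendsto (fun x : ℕ => Yf N i P x t) atTop (𝓝 (ℓ t)) ∧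
    Tendsto (fun h : ℝ => Lf N i P h t) (𝓝[>] 0) (𝓝 (ℓ t))

lemma exists_EV (H : Hyp N i b P) : ∃ ℓ : ℝ → ℂ, EV N i P ℓ := by
  obtain ⟨E, hE, hE2⟩ := main H
  choose! ℓ hℓ using hE2
  refine ⟨ℓ, ?_⟩
  filter_upwards [ae_of_dimH hE] with t ht
  obtain ⟨h1, h2, h3⟩ := hℓ t ht
  refine ⟨h1, h2, ?_⟩
  have h4 := h3 0
  have hmap : Tendsto (fun h : ℝ => (1 + (i:ℂ)/2 + (h:ℂ) + t * I)) (𝓝[>] 0)
      (𝓝[{s : ℂ | 1 + (i:ℝ)/2 < s.re ∧ |s.im - t| ≤ 0 * (s.re - (1 + (i:ℝ)/2))}]
        (1 + (i:ℂ)/2 + t * I)) := by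
    apply tendsto_nhdsWithin_of_tendsto_nhds_of_eventually_within
    · have hc : Continuous fun h : ℝ => (1 + (i:ℂ)/2 + (h:ℂ) + t * I) := by fun_prop
      have h5 := (hc.tendsto 0).mono_left (nhdsWithin_le_nhds (s := Set.Ioi (0:ℝ)))
      simpa using h5
    · filter_upwards [self_mem_nhdsWithin] with h hh
      have hh' : 0 < h := hh
      refine ⟨?_, ?_⟩
      · simpa using hh'
      · simp
  exact h4.comp hmap

lemma EV.seq {ℓ : ℝ → ℂ} (h : EV N i P ℓ) :
    ∀ᵐ t : ℝ, ℓ t ≠ 0 ∧ Tendsto (fun n : ℕ => Lf N i P (1 / ((n:ℝ) + 1)) t) atTop (𝓝 (ℓ t)) := by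
  filter_upwards [h] with t ht
  refine ⟨ht.1, ?_⟩
  have hseq : Tendsto (fun n : ℕ => 1 / ((n:ℝ) + 1)) atTop (𝓝[>] 0) :=
    tendsto_nhdsWithin_of_tendsto_nhds_of_eventually_within _ tendsto_one_div_add_atTop_nhds_zero_nat
      (Eventually.of_forall hseq_pos)
  exact ht.2.2.comp hseq

lemma continuous_Lf (H : Hyp N i b P) {h : ℝ} (hh : 0 < h) : Continuous (Lf N i P h) := by
  have : Lf N i P h = fun t => cexp (TS (lc N i P h) fr t) := by
    funext t
    exact (L_TS H hh t).symm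
  rw [this]
  exact (continuous_TS_lc H hh).cexp

lemma EV.meas {ℓ : ℝ → ℂ} (H : Hyp N i b P) (h : EV N i P ℓ) : AEStronglyMeasurable ℓ volume :=
  aestronglyMeasurable_of_tendsto_ae _ (fun n : ℕ => (continuous_Lf H (hseq_pos n)).aestronglyMeasurable)
    (h.seq.mono fun _ ht => ht.2)

lemma tail_edge (H : Hyp N i b P) (y : ℕ) {ℓ : ℝ → ℂ} (hℓ : EV (N * y.factorial) i P ℓ) (t0 : ℝ) :
    ∫ t, gw (t - t0) * min 1 (‖ℓ t - 1‖ ^ 2) ≤ 8 * b ^ 2 * tau y := by
  have h1 : Tendsto (fun n : ℕ => ∫ t, gw (t - t0) * min 1 (‖Lf (N * y.factorial) i P (1 / ((n:ℝ) + 1)) t - 1‖ ^ 2))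
      atTop (𝓝 (∫ t, gw (t - t0) * min 1 (‖ℓ t - 1‖ ^ 2))) := by
    apply tendsto_integral_of_dominated_convergence (fun t => gw (t - t0))
    · intro n
      apply Continuous.aestronglyMeasurable
      have := continuous_Lf (hyp_fac H y) (hseq_pos n)
      unfold gw
      fun_prop
    · exact gw_int.comp_sub_right t0
    · intro n
      filter_upwards with t
      rw [norm_mul, Real.norm_of_nonneg (gw_pos _).le, Real.norm_of_nonneg (le_min zero_le_one (by positivity))]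
      exact mul_le_of_le_one_right (gw_pos _).le (min_le_left _ _)
    · filter_upwards [hℓ.seq] with t ht
      apply Tendsto.const_mul
      have hc : Continuous fun z : ℂ => min 1 (‖z - 1‖ ^ 2) := by fun_prop
      exact (hc.tendsto (ℓ t)).comp ht.2
  exact le_of_tendsto h1 (Eventually.of_forall fun n => tail_h H y (hseq_pos n) t0)

lemma Yf_mul (y x : ℕ) (hxy : y ≤ x) (t : ℝ) :
    Yf N i P x t = Yf N i P y t * Yf (N * y.factorial) i P x t := by
  unfold Yf
  rw [← Finset.prod_union]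
  · apply Finset.prod_congr _ fun _ _ => rfl
    ext p
    simp only [Finset.mem_filter, Finset.mem_union, Finset.mem_range]
    constructor
    · rintro ⟨h1, h2, h3⟩
      by_cases hp : p ≤ y
      · left
        exact ⟨by omega, h2, h3⟩
      · right
        refine ⟨h1, h2, ?_⟩
        rw [h2.dvd_mul]
        rintro (h4 | h4)
        · exact h3 h4
        · rw [h2.dvd_factorial] at h4
          exact hp h4
    · rintro (⟨h1, h2, h3⟩ | ⟨h1, h2, h3⟩)
      · exact ⟨by omega, h2, h3⟩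
      · exact ⟨h1, h2, fun h4 => h3 (dvd_mul_of_dvd_left h4 _)⟩
  · rw [Finset.disjoint_left]
    intro p hp hq
    simp only [Finset.mem_filter, Finset.mem_range] at hp hq
    apply hq.2.2
    apply dvd_mul_of_dvd_right
    exact Nat.dvd_factorial hp.2.1.pos (by omega)

lemma EV.factor {ℓ ℓ' : ℝ → ℂ} (y : ℕ) (h : EV N i P ℓ) (h' : EV (N * y.factorial) i P ℓ') :
    ∀ᵐ t : ℝ, ℓ t = Yf N i P y t * ℓ' t := by
  filter_upwards [h, h'] with t ht ht'
  have h1 : Tendsto (fun x : ℕ => Yf N i P y t * Yf (N * y.factorial) i P x t) atTop (𝓝 (Yf N i P y t * ℓ' t)) :=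
    ht'.2.1.const_mul _
  have h2 : Tendsto (fun x : ℕ => Yf N i P x t) atTop (𝓝 (Yf N i P y t * ℓ' t)) := by
    refine h1.congr' ?_
    filter_upwards [eventually_ge_atTop y] with x hx
    exact (Yf_mul y x hx t).symm
  exact tendsto_nhds_unique ht.2.1 h2

/-- truncated family -/
noncomputable def cutP (P : ℕ → Polynomial ℂ) (y p : ℕ) : Polynomial ℂ := if p ≤ y then P p else 1

lemma hyp_cut (H : Hyp N i b P) (y : ℕ) : Hyp N i b (cutP P y) := by
  refine ⟨H.N0, ?_, ?_, ?_⟩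
  · intro p hp hpN
    unfold cutP
    split_ifs
    · exact H.h0 p hp hpN
    · simp
  · intro p hp hpN
    unfold cutP
    split_ifs
    · exact H.hdeg p hp hpN
    · simp
  · intro p hp hpN z hz
    unfold cutP at hz
    split_ifs at hz
    · exact H.hroots p hp hpN z hz
    · simp [Polynomial.IsRoot] at hz

lemma EV.cut {ℓ : ℝ → ℂ} (y : ℕ) (h : EV N i (cutP P y) ℓ) : ∀ᵐ t : ℝ, ℓ t = Yf N i P y t := by
  filter_upwards [h] with t ht
  apply tendsto_nhds_unique ht.2.1
  apply tendsto_const_nhds.congr'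
  filter_upwards [eventually_ge_atTop y] with x hx
  unfold Yf
  symm
  rw [← Finset.prod_subset (s₁ := (Finset.range (y + 1)).filter (fun p => p.Prime ∧ ¬ p ∣ N))]
  · apply Finset.prod_congr rfl
    intro p hp
    simp only [Finset.mem_filter, Finset.mem_range] at hp
    unfold cutP
    rw [if_pos (by omega)]
  · intro p hp
    simp only [Finset.mem_filter, Finset.mem_range] at hp ⊢
    exact ⟨by omega, hp.2⟩
  · intro p hp hp2
    simp only [Finset.mem_filter, Finset.mem_range] at hp hp2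
    unfold cutP
    rw [if_neg]
    · simp
    · intro h4
      exact hp2 ⟨by omega, hp.2⟩

/-- uniformly bounded local means -/
structure UB (u : ℝ → ℝ) (B : ℝ) : Prop where
  meas : AEStronglyMeasurable u volume
  nn : ∀ᵐ t, 0 ≤ u t
  int : ∀ t0, Integrable (fun t => gw (t - t0) * u t)
  le : ∀ t0, ∫ t, gw (t - t0) * u t ≤ B

lemma UB.mono {u v : ℝ → ℝ} {B : ℝ} (h : UB u B) (hv : AEStronglyMeasurable v volume) (h0 : ∀ᵐ t, 0 ≤ v t)
    (hle : ∀ᵐ t, v t ≤ u t) : UB v B := by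
  have hi : ∀ t0, Integrable (fun t => gw (t - t0) * v t) := by
    intro t0
    refine (h.int t0).mono' ?_ ?_
    · exact (gw_int.comp_sub_right t0).aestronglyMeasurable.mul hv
    · filter_upwards [h0, hle] with t h1 h2
      rw [Real.norm_of_nonneg (mul_nonneg (gw_pos _).le h1)]
      exact mul_le_mul_of_nonneg_left h2 (gw_pos _).le
  refine ⟨hv, h0, hi, fun t0 => ?_⟩
  refine (integral_mono_ae (hi t0) (h.int t0) ?_).trans (h.le t0)
  filter_upwards [hle] with t h2
  exact mul_le_mul_of_nonneg_left h2 (gw_pos _).le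

lemma UB.add {u v : ℝ → ℝ} {B C : ℝ} (h : UB u B) (h' : UB v C) : UB (fun t => u t + v t) (B + C) := by
  have e : ∀ t0, (fun t => gw (t - t0) * (u t + v t)) = fun t => gw (t - t0) * u t + gw (t - t0) * v t := by
    intro t0
    funext t
    ring
  refine ⟨h.meas.add h'.meas, ?_, ?_, ?_⟩
  · filter_upwards [h.nn, h'.nn] with t h1 h2
    linarith
  · intro t0
    rw [e]
    exact (h.int t0).add (h'.int t0)
  · intro t0
    rw [e, integral_add (h.int t0) (h'.int t0)]
    exact add_le_add (h.le t0) (h'.le t0)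

lemma UB.const_mul {u : ℝ → ℝ} {B c : ℝ} (h : UB u B) (hc : 0 ≤ c) : UB (fun t => c * u t) (c * B) := by
  have e : ∀ t0, (fun t => gw (t - t0) * (c * u t)) = fun t => c * (gw (t - t0) * u t) := by
    intro t0
    funext t
    ring
  refine ⟨h.meas.const_mul c, ?_, ?_, ?_⟩
  · filter_upwards [h.nn] with t h1
    positivity
  · intro t0
    rw [e]
    exact (h.int t0).const_mul c
  · intro t0
    rw [e, integral_const_mul]
    exact mul_le_mul_of_nonneg_left (h.le t0) hc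

lemma UB.zero : UB (fun _ => 0) 0 := by
  refine ⟨aestronglyMeasurable_const, ?_, ?_, ?_⟩
  · filter_upwards with t
    exact le_rfl
  · intro t0
    simp
  · intro t0
    simp

lemma UB.sum {κ : Type*} (s : Finset κ) {u : κ → ℝ → ℝ} {B : κ → ℝ} (h : ∀ k ∈ s, UB (u k) (B k)) :
    UB (fun t => ∑ k ∈ s, u k t) (∑ k ∈ s, B k) := by
  classical
  induction s using Finset.induction_on with
  | empty => simpa using UB.zero
  | insert a s ha ih =>
    simp only [Finset.sum_insert ha]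
    exact (h a (Finset.mem_insert_self a s)).add (ih fun k hk => h k (Finset.mem_insert_of_mem hk))

lemma UB.const {c : ℝ} (hc : 0 ≤ c) : UB (fun _ => c) (c * ∫ t, gw t) := by
  refine ⟨aestronglyMeasurable_const, Eventually.of_forall fun _ => hc, ?_, ?_⟩
  · intro t0
    exact (gw_int.comp_sub_right t0).mul_const c
  · intro t0
    rw [integral_mul_const, integral_sub_right_eq_self, mul_comm]

lemma UB.mono_B {u : ℝ → ℝ} {B C : ℝ} (h : UB u B) (hBC : B ≤ C) : UB u C :=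
  ⟨h.meas, h.nn, h.int, fun t0 => (h.le t0).trans hBC⟩

lemma gw_ge {t : ℝ} (ht : |t| ≤ 1/2) : 1/2 ≤ gw t := by
  unfold gw
  have h1 := Real.add_one_le_exp (-1 * t ^ 2)
  have h2 : t ^ 2 ≤ 1/4 := by
    rw [← sq_abs]
    nlinarith [abs_nonneg t]
  linarith

lemma UB.unit {u : ℝ → ℝ} {B : ℝ} (h : UB u B) (a : ℝ) :
    IntegrableOn u (Set.Ioc a (a + 1)) ∧ ∫ t in Set.Ioc a (a + 1), u t ≤ 2 * B := by
  have hi := h.int (a + 1/2)
  have hge : ∀ t ∈ Set.Ioc a (a + 1), 1/2 ≤ gw (t - (a + 1/2)) := by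
    intro t ht
    apply gw_ge
    rw [abs_le]
    constructor
    · linarith [ht.1]
    · linarith [ht.2]
  have hdom : ∀ᵐ t ∂(volume.restrict (Set.Ioc a (a + 1))), 0 ≤ u t ∧ u t ≤ 2 * (gw (t - (a + 1/2)) * u t) := by
    rw [ae_restrict_iff' measurableSet_Ioc]
    filter_upwards [h.nn] with t ht ht2
    refine ⟨ht, ?_⟩
    have := hge t ht2
    nlinarith
  have hint : IntegrableOn u (Set.Ioc a (a + 1)) := by
    refine (hi.const_mul 2).integrableOn.mono' h.meas.restrict ?_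
    filter_upwards [hdom] with t ht
    rw [Real.norm_of_nonneg ht.1]
    exact ht.2
  refine ⟨hint, ?_⟩
  calc ∫ t in Set.Ioc a (a + 1), u t ≤ ∫ t in Set.Ioc a (a + 1), 2 * (gw (t - (a + 1/2)) * u t) := by
        apply integral_mono_ae hint (hi.const_mul 2).integrableOn
        filter_upwards [hdom] with t ht
        exact ht.2
    _ ≤ ∫ t, 2 * (gw (t - (a + 1/2)) * u t) := by
        apply setIntegral_le_integral (hi.const_mul 2)
        filter_upwards [h.nn] with t ht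
        have := gw_pos (t - (a + 1/2))
        positivity
    _ ≤ 2 * B := by
        rw [integral_const_mul]
        exact mul_le_mul_of_nonneg_left (h.le _) (by norm_num)

lemma UB.nat {u : ℝ → ℝ} {B : ℝ} (h : UB u B) (a : ℝ) (n : ℕ) :
    IntervalIntegrable u volume a (a + n) ∧ ∫ t in a..(a + n), u t ≤ n * (2 * B) := by
  induction n with
  | zero => simp
  | succ n ih =>
    have h1 := h.unit (a + n)
    have h2 : IntervalIntegrable u volume (a + n) (a + n + 1) := by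
      rw [intervalIntegrable_iff_integrableOn_Ioc_of_le (by linarith)]
      exact h1.1
    have e : a + ((n + 1 : ℕ) : ℝ) = a + n + 1 := by push_cast; ring
    rw [e]
    refine ⟨ih.1.trans h2, ?_⟩
    rw [← intervalIntegral.integral_add_adjacent_intervals ih.1 h2]
    have h3 : ∫ t in (a + n)..(a + n + 1), u t ≤ 2 * B := by
      rw [intervalIntegral.integral_of_le (by linarith)]
      exact h1.2
    have h4 := ih.2
    push_cast
    linarith

lemma UB.intervalIntegrable {u : ℝ → ℝ} {B : ℝ} (h : UB u B) (a c : ℝ) : IntervalIntegrable u volume a c := by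
  wlog hac : a ≤ c generalizing a c
  · exact (this c a (le_of_not_ge hac)).symm
  obtain ⟨n, hn⟩ := exists_nat_ge (c - a)
  have h1 := (h.nat a n).1
  refine h1.mono_set ?_
  rw [Set.uIcc_of_le hac, Set.uIcc_of_le (by linarith)]
  exact Set.Icc_subset_Icc le_rfl (by linarith)

lemma UB.avg {u : ℝ → ℝ} {B : ℝ} (hB : 0 ≤ B) (h : UB u B) (a : ℝ) {T : ℝ} (hT : 1 ≤ T) :
    (∫ t in a..(a + T), u t) / T ≤ 4 * B := by
  rw [div_le_iff₀ (by linarith)]
  have hn := Nat.le_ceil T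
  have hn2 := Nat.ceil_lt_add_one (show 0 ≤ T by linarith)
  have h1 := (h.nat a ⌈T⌉₊).2
  have h2 : ∫ t in a..(a + T), u t ≤ ∫ t in a..(a + ⌈T⌉₊), u t := by
    apply intervalIntegral.integral_mono_interval le_rfl (by linarith) (by linarith)
    · exact ae_restrict_of_ae h.nn
    · exact (h.nat a ⌈T⌉₊).1
  have h3 : (⌈T⌉₊ : ℝ) * (2 * B) ≤ (2 * T) * (2 * B) := by
    apply mul_le_mul_of_nonneg_right _ (by linarith)
    linarith
  linarith

/-- moments of the boundary values -/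
lemma UB_moment (H : Hyp N i b P) {ℓ : ℝ → ℂ} (hℓ : EV N i P ℓ) {l : ℝ} (hl : b * |l| < 1) :
    UB (fun t => ‖ℓ t‖ ^ l) (∫ t, gw t * ‖riemannZeta (1 + t * I)‖ ^ (b * |l|)) := by
  have h1 := fun t0 => moment_edge H (gw_wt (β := b * |l|) (by positivity) hl) t0 hℓ.seq
  refine ⟨?_, ?_, fun t0 => (h1 t0).1, fun t0 => (h1 t0).2.2⟩
  · have h2 := (hℓ.meas H).norm.aemeasurable
    exact (h2.pow_const l).aestronglyMeasurable
  · filter_upwards with t
    positivity

/-- moments of the partial products -/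
lemma UB_moment_Y (H : Hyp N i b P) (y : ℕ) {l : ℝ} (hl : b * |l| < 1) :
    UB (fun t => ‖Yf N i P y t‖ ^ l) (∫ t, gw t * ‖riemannZeta (1 + t * I)‖ ^ (b * |l|)) := by
  obtain ⟨ℓ, hℓ⟩ := exists_EV (hyp_cut H y)
  have h1 := UB_moment (hyp_cut H y) hℓ hl
  have h2 := hℓ.cut
  refine h1.mono ?_ ?_ ?_
  · refine h1.meas.congr ?_
    filter_upwards [h2] with t ht
    rw [ht]
  · filter_upwards with t
    positivity
  · filter_upwards [h2] with t ht
    rw [ht]

lemma UB_tail (H : Hyp N i b P) (y : ℕ) {ℓ : ℝ → ℂ} (hℓ : EV (N * y.factorial) i P ℓ) :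
    UB (fun t => min 1 (‖ℓ t - 1‖ ^ 2)) (8 * b ^ 2 * tau y) := by
  have hm : AEStronglyMeasurable (fun t => min 1 (‖ℓ t - 1‖ ^ 2)) volume := by
    have h1 := hℓ.meas (hyp_fac H y)
    have hc : Continuous fun z : ℂ => min 1 (‖z - 1‖ ^ 2) := by fun_prop
    exact hc.comp_aestronglyMeasurable h1
  refine ⟨hm, ?_, ?_, fun t0 => tail_edge H y hℓ t0⟩
  · filter_upwards with t
    exact le_min zero_le_one (by positivity)
  · intro t0
    refine (gw_int.comp_sub_right t0).mono' ((gw_int.comp_sub_right t0).aestronglyMeasurable.mul hm) ?_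
    filter_upwards with t
    rw [norm_mul, Real.norm_of_nonneg (gw_pos _).le, Real.norm_of_nonneg (le_min zero_le_one (by positivity))]
    exact mul_le_of_le_one_right (gw_pos _).le (min_le_left _ _)

end Pool.Agent.H91.Edge
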