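import Mathlib
import Pool.Agent.H91.Edge.Dist2

open Complex MeasureTheory Filter Topology

namespace Pool.Agent.H91.Edge

open Pool.Agent.H89.EdgeBasic

section
variable {κ : Type*} [Fintype κ]

/-- growth gauge -/
noncomputable def gg (l : ℝ) (z : κ → ℂ) : ℝ := ∑ k, (‖z k‖ ^ l + ‖z k‖ ^ (-l))

lemma gg_nonneg (l : ℝ) (z : κ → ℂ) : 0 ≤ gg l z := by
  unfold gg
  exact Finset.sum_nonneg fun k _ => by positivity

lemma one_le_max_inv {x : ℝ} (hx : 0 < x) : 1 ≤ max x x⁻¹ := by
  rcases le_total 1 x with h | h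
  · exact le_max_of_le_left h
  · exact le_max_of_le_right ((one_le_inv₀ hx).mpr h)

lemma max_rpow_le {x l : ℝ} (hx : 0 < x) : max x x⁻¹ ^ l ≤ x ^ l + x ^ (-l) := by
  have h1 : 0 < x ^ l := by positivity
  have h2 : 0 < x ^ (-l) := by positivity
  rcases le_total x x⁻¹ with h | h
  · rw [max_eq_right h, Real.inv_rpow hx.le, ← Real.rpow_neg hx.le]
    linarith
  · rw [max_eq_left h]
    linarith

lemma le_two_max {x l : ℝ} (hx : 0 < x) (hl : 0 ≤ l) : x ^ l + x ^ (-l) ≤ 2 * max x x⁻¹ ^ l := by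
  have h1 : x ^ l ≤ max x x⁻¹ ^ l := Real.rpow_le_rpow hx.le (le_max_left _ _) hl
  have h2 : x ^ (-l) ≤ max x x⁻¹ ^ l := by
    rw [Real.rpow_neg hx.le, ← Real.inv_rpow hx.le]
    exact Real.rpow_le_rpow (by positivity) (le_max_right _ _) hl
  linarith

lemma growth_out {l l' C : ℝ} (hl : 0 ≤ l) (hll : l < l') (hC : 0 ≤ C) {ε : ℝ} (hε : 0 < ε) :
    ∃ R : ℝ, 1 ≤ R ∧ ∀ z : κ → ℂ, (∀ k, z k ≠ 0) → (∃ k, R < max ‖z k‖ ‖z k‖⁻¹) →
      C * (1 + gg l z) ≤ ε * gg l' z := by
  set D : ℝ := C * (1 + 4 * Fintype.card κ) with hD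
  have hlim : Tendsto (fun R : ℝ => R ^ (l - l') * D) atTop (𝓝 0) := by
    have h1 : Tendsto (fun R : ℝ => R ^ (-(l' - l))) atTop (𝓝 0) := tendsto_rpow_neg_atTop (by linarith)
    have h2 := h1.mul_const D
    rw [zero_mul] at h2
    refine h2.congr ?_
    intro R
    rw [neg_sub]
  have hev := (hlim.eventually (ge_mem_nhds hε)).and (eventually_ge_atTop 1)
  obtain ⟨R, hR1, hR2⟩ := hev.exists
  refine ⟨R, hR2, fun z hz hk => ?_⟩
  obtain ⟨k0, hk0⟩ := hk
  have hR0 : 0 < R := by linarith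
  set v : κ → ℝ := fun k => max ‖z k‖ ‖z k‖⁻¹ with hv
  have hzp : ∀ k, 0 < ‖z k‖ := fun k => norm_pos_iff.mpr (hz k)
  have hv1 : ∀ k, 1 ≤ v k := fun k => one_le_max_inv (hzp k)
  have hvg : ∀ k, v k ^ l' ≤ gg l' z := by
    intro k
    refine (max_rpow_le (hzp k)).trans ?_
    unfold gg
    exact Finset.single_le_sum (f := fun k => ‖z k‖ ^ l' + ‖z k‖ ^ (-l')) (fun k _ => by positivity) (Finset.mem_univ k)
  have hg0 : 0 ≤ gg l' z := gg_nonneg _ _
  have hRp : 0 < R ^ (l - l') := by positivity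
  have key : ∀ x : ℝ, 1 ≤ x → x ^ l' ≤ gg l' z → x ^ l ≤ R ^ (l - l') * gg l' z := by
    intro x hx hxg
    rcases le_total x R with h | h
    · calc x ^ l ≤ R ^ l := Real.rpow_le_rpow (by linarith) h hl
        _ = R ^ (l - l') * R ^ l' := by rw [← Real.rpow_add hR0]; congr 1; ring
        _ ≤ R ^ (l - l') * v k0 ^ l' := by
            apply mul_le_mul_of_nonneg_left _ hRp.le
            exact Real.rpow_le_rpow hR0.le hk0.le (by linarith)
        _ ≤ R ^ (l - l') * gg l' z := mul_le_mul_of_nonneg_left (hvg k0) hRp.le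
    · have hx0 : 0 < x := by linarith
      calc x ^ l = x ^ (l - l') * x ^ l' := by rw [← Real.rpow_add hx0]; congr 1; ring
        _ ≤ R ^ (l - l') * x ^ l' := by
            apply mul_le_mul_of_nonneg_right _ (by positivity)
            exact Real.rpow_le_rpow_of_nonpos hR0 h (by linarith)
        _ ≤ R ^ (l - l') * gg l' z := mul_le_mul_of_nonneg_left hxg hRp.le
  have h1 : (1:ℝ) ≤ R ^ (l - l') * gg l' z := by
    have h2 := key (v k0) (hv1 k0) (hvg k0)
    exact (Real.one_le_rpow (hv1 k0) hl).trans h2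
  have h3 : gg l z ≤ ∑ _k : κ, 2 * (R ^ (l - l') * gg l' z) := by
    unfold gg
    apply Finset.sum_le_sum
    intro k _
    refine (le_two_max (hzp k) hl).trans ?_
    exact mul_le_mul_of_nonneg_left (key (v k) (hv1 k) (hvg k)) (by norm_num)
  rw [Finset.sum_const, Finset.card_univ, nsmul_eq_mul] at h3
  have hcard : (0:ℝ) ≤ Fintype.card κ := Nat.cast_nonneg _
  have hnn : 0 ≤ R ^ (l - l') * gg l' z := by positivity
  have h4 : 1 + gg l z ≤ (1 + 4 * Fintype.card κ) * (R ^ (l - l') * gg l' z) := by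
    nlinarith
  calc C * (1 + gg l z) ≤ C * ((1 + 4 * Fintype.card κ) * (R ^ (l - l') * gg l' z)) :=
        mul_le_mul_of_nonneg_left h4 hC
    _ = (R ^ (l - l') * D) * gg l' z := by rw [hD]; ring
    _ ≤ ε * gg l' z := mul_le_mul_of_nonneg_right hR1 hg0

/-- modulus of continuity in the multiplicative sense -/
lemma mult_cont {φ : (κ → ℂ) → ℂ} {l l' C : ℝ} (hl : 0 ≤ l) (hll : l < l') (hC : 0 ≤ C)
    (hφ : ContinuousOn φ {z | ∀ k, z k ≠ 0})
    (hgr : ∀ z : κ → ℂ, (∀ k, z k ≠ 0) → ‖φ z‖ ≤ C * (1 + gg l z)) {ε : ℝ} (hε : 0 < ε) :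
    ∃ A : ℝ, 0 ≤ A ∧ ∀ z u : κ → ℂ, (∀ k, z k ≠ 0) → (∀ k, u k ≠ 0) →
      ‖φ (fun k => z k * u k) - φ z‖ ≤ ε * (1 + gg l' (fun k => z k * u k) + gg l' z) +
        A * ∑ k, min 1 (‖u k - 1‖ ^ 2) := by
  obtain ⟨R, hR1, hR2⟩ := growth_out (κ := κ) hl hll hC hε
  have hR0 : 0 < R := by linarith
  set K : ℝ → Set (κ → ℂ) := fun r => {z | ∀ k, z k ∈ (Metric.closedBall (0:ℂ) r \ Metric.ball (0:ℂ) r⁻¹)} with hK
  have hKc : ∀ r, IsCompact (K r) := by
    intro r
    have : K r = Set.univ.pi fun _ : κ => (Metric.closedBall (0:ℂ) r \ Metric.ball (0:ℂ) r⁻¹) := by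
      ext z
      simp [hK]
    rw [this]
    apply isCompact_univ_pi
    intro _
    exact (isCompact_closedBall 0 r).diff Metric.isOpen_ball
  have hKm : ∀ r (z : κ → ℂ), z ∈ K r ↔ ∀ k, ‖z k‖ ≤ r ∧ r⁻¹ ≤ ‖z k‖ := by
    intro r z
    simp [hK, Metric.mem_closedBall, Metric.mem_ball]
  have hKsub : ∀ r, 0 < r → K r ⊆ {z | ∀ k, z k ≠ 0} := by
    intro r hr z hz k hk
    have h1 := ((hKm r z).mp hz k).2
    rw [hk, norm_zero] at h1
    have : 0 < r⁻¹ := by positivity
    linarith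
  have huc := (hKc (2 * R)).uniformContinuousOn_of_continuous (hφ.mono (hKsub (2 * R) (by linarith)))
  rw [Metric.uniformContinuousOn_iff] at huc
  obtain ⟨δ, hδ, huc⟩ := huc ε hε
  obtain ⟨B, hB⟩ := (hKc R).exists_bound_of_continuousOn (hφ.mono (hKsub R hR0))
  set B' := max B 0 with hB'
  have hB0 : 0 ≤ B' := le_max_right _ _
  have hBb : ∀ z : κ → ℂ, (∀ k, z k ≠ 0) → ‖φ z‖ ≤ B' + ε * gg l' z := by
    intro z hz
    by_cases h : z ∈ K R
    · have := hB z h
      have h2 : 0 ≤ ε * gg l' z := mul_nonneg hε.le (gg_nonneg _ _)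
      have h3 : B ≤ B' := le_max_left _ _
      linarith
    · have h1 : ∃ k, R < max ‖z k‖ ‖z k‖⁻¹ := by
        by_contra hcon
        push Not at hcon
        apply h
        rw [hKm]
        intro k
        have h2 := hcon k
        rw [max_le_iff] at h2
        refine ⟨h2.1, ?_⟩
        exact inv_le_of_inv_le₀ (norm_pos_iff.mpr (hz k)) h2.2
      have h2 := (hgr z hz).trans (hR2 z hz h1)
      linarith
  have hBout : ∀ z : κ → ℂ, (∀ k, z k ≠ 0) → z ∉ K R → ‖φ z‖ ≤ ε * gg l' z := by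
    intro z hz h
    have h1 : ∃ k, R < max ‖z k‖ ‖z k‖⁻¹ := by
      by_contra hcon
      push Not at hcon
      apply h
      rw [hKm]
      intro k
      have h2 := hcon k
      rw [max_le_iff] at h2
      refine ⟨h2.1, ?_⟩
      exact inv_le_of_inv_le₀ (norm_pos_iff.mpr (hz k)) h2.2
    exact (hgr z hz).trans (hR2 z hz h1)
  set η : ℝ := min (1/2) (δ / (4 * R)) with hη
  have hη0 : 0 < η := lt_min (by norm_num) (by positivity)
  have hη1 : η ≤ 1/2 := min_le_left _ _
  have hη2 : η * (4 * R) ≤ δ := by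
    have := min_le_right (1/2) (δ / (4 * R))
    rwa [← hη, le_div_iff₀ (by positivity)] at this
  refine ⟨2 * B' / η ^ 2, by positivity, fun z u hz hu => ?_⟩
  have hzu : ∀ k, z k * u k ≠ 0 := fun k => mul_ne_zero (hz k) (hu k)
  have hg1 := gg_nonneg l' (fun k => z k * u k)
  have hg2 := gg_nonneg l' z
  have hsnn : ∀ k, 0 ≤ min 1 (‖u k - 1‖ ^ 2) := fun k => le_min zero_le_one (by positivity)
  have hs0 : 0 ≤ ∑ k, min 1 (‖u k - 1‖ ^ 2) := Finset.sum_nonneg fun k _ => hsnn k
  by_cases hc : ∀ k, ‖u k - 1‖ ≤ η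
  · have hA : 0 ≤ 2 * B' / η ^ 2 * ∑ k, min 1 (‖u k - 1‖ ^ 2) := by positivity
    have hul : ∀ k, 1/2 ≤ ‖u k‖ := by
      intro k
      have h1 := norm_sub_norm_le (1:ℂ) (1 - u k)
      rw [sub_sub_cancel, norm_one] at h1
      have h2 := hc k
      rw [norm_sub_rev] at h2
      linarith
    have huu : ∀ k, ‖u k‖ ≤ 3/2 := by
      intro k
      have h1 := norm_add_le (u k - 1) 1
      rw [sub_add_cancel, norm_one] at h1
      have h2 := hc k
      linarith
    by_cases hor : z ∈ K R ∨ (fun k => z k * u k) ∈ K R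
    · have hboth : z ∈ K (2 * R) ∧ (fun k => z k * u k) ∈ K (2 * R) := by
        rcases hor with h | h
        · rw [hKm] at h
          rw [hKm, hKm]
          refine ⟨fun k => ⟨by linarith [(h k).1], ?_⟩, fun k => ⟨?_, ?_⟩⟩
          · have : (2 * R)⁻¹ ≤ R⁻¹ := inv_anti₀ hR0 (by linarith)
            linarith [(h k).2]
          · rw [norm_mul]
            have := mul_le_mul (h k).1 (huu k) (norm_nonneg _) hR0.le
            linarith
          · rw [norm_mul]
            have := mul_le_mul (h k).2 (hul k) (by norm_num) (norm_nonneg _)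
            rw [mul_inv]
            linarith
        · rw [hKm] at h
          rw [hKm, hKm]
          have h5 : ∀ k, ‖z k‖ * ‖u k‖ ≤ R ∧ R⁻¹ ≤ ‖z k‖ * ‖u k‖ := by
            intro k
            have := h k
            simp only [norm_mul] at this
            exact this
          refine ⟨fun k => ⟨?_, ?_⟩, fun k => ⟨by linarith [(h k).1], ?_⟩⟩
          · have h6 := (h5 k).1
            have h7 := mul_le_mul_of_nonneg_left (hul k) (norm_nonneg (z k))
            linarith
          · have h6 := (h5 k).2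
            have h7 := mul_le_mul_of_nonneg_left (huu k) (norm_nonneg (z k))
            have h8 : (0:ℝ) < R⁻¹ := by positivity
            rw [mul_inv]
            linarith [norm_nonneg (z k)]
          · have : (2 * R)⁻¹ ≤ R⁻¹ := inv_anti₀ hR0 (by linarith)
            exact this.trans (h k).2
      have hdist : dist (fun k => z k * u k) z < δ := by
        rw [dist_pi_lt_iff hδ]
        intro k
        rw [dist_eq_norm]
        have e : z k * u k - z k = z k * (u k - 1) := by ring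
        rw [e, norm_mul]
        have h1 := ((hKm _ _).mp hboth.1 k).1
        calc ‖z k‖ * ‖u k - 1‖ ≤ (2 * R) * η := mul_le_mul h1 (hc k) (norm_nonneg _) (by linarith)
          _ < δ := by nlinarith
      have h1 := huc _ hboth.2 _ hboth.1 hdist
      rw [dist_eq_norm] at h1
      have h2 : ε ≤ ε * (1 + gg l' (fun k => z k * u k) + gg l' z) := by
        apply le_mul_of_one_le_right hε.le
        linarith
      linarith
    · push Not at hor
      have h1 := hBout z hz hor.1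
      have h2 := hBout _ hzu hor.2
      refine (norm_sub_le _ _).trans ?_
      have h3 : ε * (1 + gg l' (fun k => z k * u k) + gg l' z) = ε + ε * gg l' (fun k => z k * u k) + ε * gg l' z := by ring
      linarith
  · push Not at hc
    obtain ⟨k, hk⟩ := hc
    have h1 := hBb z hz
    have h2 := hBb _ hzu
    have h4 : η ^ 2 ≤ min 1 (‖u k - 1‖ ^ 2) := by
      apply le_min
      · nlinarith
      · exact pow_le_pow_left₀ hη0.le hk.le 2
    have h5 : min 1 (‖u k - 1‖ ^ 2) ≤ ∑ k, min 1 (‖u k - 1‖ ^ 2) :=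
      Finset.single_le_sum (f := fun k => min 1 (‖u k - 1‖ ^ 2)) (fun k _ => hsnn k) (Finset.mem_univ k)
    have h6 : 2 * B' ≤ 2 * B' / η ^ 2 * ∑ k, min 1 (‖u k - 1‖ ^ 2) := by
      rw [div_mul_eq_mul_div, le_div_iff₀ (by positivity)]
      exact mul_le_mul_of_nonneg_left (h4.trans h5) (by positivity)
    refine (norm_sub_le _ _).trans ?_
    have h3 : ε * (1 + gg l' (fun k => z k * u k) + gg l' z) = ε + ε * gg l' (fun k => z k * u k) + ε * gg l' z := by ring
    linarith

end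

end Pool.Agent.H91.Edge
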