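import Mathlib

open Complex MeasureTheory Filter Topology Set

namespace Pool.Agent.H91.Edge

noncomputable section

local instance : MeasureSpace UnitAddCircle := ⟨AddCircle.haarAddCircle⟩

local instance : Measure.IsAddHaarMeasure (volume : Measure UnitAddCircle) :=
  inferInstanceAs (Measure.IsAddHaarMeasure AddCircle.haarAddCircle)

local instance : IsProbabilityMeasure (volume : Measure UnitAddCircle) :=
  inferInstanceAs (IsProbabilityMeasure AddCircle.haarAddCircle)

variable {d : Type*} [Fintype d]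

/-- the unit cube -/
def cube (d : Type*) : Set (d → ℝ) := {x : d → ℝ | ∀ i, x i ∈ Ioc (0:ℝ) 1}

/-- the linear flow on the torus -/
def flow (ω : d → ℝ) (t : ℝ) : UnitAddTorus d := fun i => ((t * ω i : ℝ) : UnitAddCircle)

omit [Fintype d] in
lemma continuous_flow (ω : d → ℝ) : Continuous (flow ω) := by
  unfold flow
  apply continuous_pi
  intro i
  exact (AddCircle.continuous_mk' 1).comp (by fun_prop)

/-- mean over the torus -/
def tmean (F : C(UnitAddTorus d, ℂ)) : ℂ := ∫ x in cube d, F (fun i => (x i : UnitAddCircle))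

lemma tmean_eq (F : C(UnitAddTorus d, ℂ)) : tmean F = ∫ x : UnitAddTorus d, F x := by
  have h := UnitAddTorus.integral_preimage (fun x => F x) (fun _ : d => (0:ℝ))
  rw [h]
  unfold tmean cube
  simp only [zero_add]

lemma integrable_F (F : C(UnitAddTorus d, ℂ)) : Integrable (fun x : UnitAddTorus d => F x) := by
  apply Integrable.mono' (integrable_const ‖F‖)
  · exact F.continuous.aestronglyMeasurable
  · exact Eventually.of_forall fun x => F.norm_coe_le_norm x

lemma tmean_add (F G : C(UnitAddTorus d, ℂ)) : tmean (F + G) = tmean F + tmean G := by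
  rw [tmean_eq, tmean_eq, tmean_eq]
  exact integral_add (integrable_F F) (integrable_F G)

lemma tmean_smul (c : ℂ) (F : C(UnitAddTorus d, ℂ)) : tmean (c • F) = c * tmean F := by
  rw [tmean_eq, tmean_eq]
  exact integral_const_mul c _

lemma norm_tmean_sub_le (F G : C(UnitAddTorus d, ℂ)) : ‖tmean F - tmean G‖ ≤ ‖F - G‖ := by
  rw [tmean_eq, tmean_eq, ← integral_sub (integrable_F F) (integrable_F G)]
  have h := norm_integral_le_of_norm_le_const (μ := (volume : Measure (UnitAddTorus d))) (f := fun x => F x - G x)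
    (C := ‖F - G‖) (Eventually.of_forall fun x => (F - G).norm_coe_le_norm x)
  simpa using h

lemma tmean_mFourier (n : d → ℤ) : tmean (UnitAddTorus.mFourier n) = if n = 0 then 1 else 0 := by
  classical
  rw [tmean_eq]
  have h := orthonormal_iff_ite.mp (UnitAddTorus.orthonormal_mFourier (d := d)) 0 n
  simp only [ContinuousMap.inner_toLp, UnitAddTorus.mFourier_zero] at h
  have h2 : ∀ x : UnitAddTorus d, UnitAddTorus.mFourier n x * (starRingEnd ℂ) ((1 : C(UnitAddTorus d, ℂ)) x) =
      UnitAddTorus.mFourier n x := by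
    intro x
    simp
  simp_rw [h2] at h
  rw [h]
  simp only [eq_comm]

/-- the averaging property -/
def KW (ω : d → ℝ) (F : C(UnitAddTorus d, ℂ)) : Prop :=
  ∀ ε : ℝ, 0 < ε → ∃ T0 : ℝ, 0 < T0 ∧ ∀ T : ℝ, T0 ≤ T → ∀ a : ℝ,
    ‖(∫ t in a..(a + T), F (flow ω t)) / T - tmean F‖ ≤ ε

omit [Fintype d] in
lemma ii (ω : d → ℝ) (F : C(UnitAddTorus d, ℂ)) (a c : ℝ) :
    IntervalIntegrable (fun t => F (flow ω t)) volume a c :=
  (F.continuous.comp (continuous_flow ω)).intervalIntegrable _ _

lemma KW.add {ω : d → ℝ} {F G : C(UnitAddTorus d, ℂ)} (hF : KW ω F) (hG : KW ω G) : KW ω (F + G) := by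
  intro ε hε
  obtain ⟨T1, hT1, h1⟩ := hF (ε/2) (by linarith)
  obtain ⟨T2, hT2, h2⟩ := hG (ε/2) (by linarith)
  refine ⟨max T1 T2, lt_max_of_lt_left hT1, fun T hT a => ?_⟩
  have h3 := h1 T ((le_max_left _ _).trans hT) a
  have h4 := h2 T ((le_max_right _ _).trans hT) a
  have e : (∫ t in a..(a + T), (F + G) (flow ω t)) / T - tmean (F + G) =
      ((∫ t in a..(a + T), F (flow ω t)) / T - tmean F) + ((∫ t in a..(a + T), G (flow ω t)) / T - tmean G) := by
    rw [tmean_add]
    have : ∫ t in a..(a + T), (F + G) (flow ω t) =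
        (∫ t in a..(a + T), F (flow ω t)) + ∫ t in a..(a + T), G (flow ω t) :=
      intervalIntegral.integral_add (ii ω F _ _) (ii ω G _ _)
    rw [this]
    ring
  rw [e]
  refine (norm_add_le _ _).trans ?_
  linarith

lemma KW.smul {ω : d → ℝ} {F : C(UnitAddTorus d, ℂ)} (c : ℂ) (hF : KW ω F) : KW ω (c • F) := by
  intro ε hε
  obtain ⟨T1, hT1, h1⟩ := hF (ε / (‖c‖ + 1)) (by positivity)
  refine ⟨T1, hT1, fun T hT a => ?_⟩
  have e : (∫ t in a..(a + T), (c • F) (flow ω t)) / T - tmean (c • F) =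
      c * ((∫ t in a..(a + T), F (flow ω t)) / T - tmean F) := by
    rw [tmean_smul]
    have : ∫ t in a..(a + T), (c • F) (flow ω t) = c * ∫ t in a..(a + T), F (flow ω t) :=
      intervalIntegral.integral_const_mul c _
    rw [this]
    ring
  rw [e, norm_mul]
  have h3 := h1 T hT a
  calc ‖c‖ * ‖(∫ t in a..(a + T), F (flow ω t)) / T - tmean F‖ ≤ ‖c‖ * (ε / (‖c‖ + 1)) :=
        mul_le_mul_of_nonneg_left h3 (norm_nonneg _)
    _ ≤ (‖c‖ + 1) * (ε / (‖c‖ + 1)) := by
        apply mul_le_mul_of_nonneg_right _ (by positivity)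
        linarith
    _ = ε := by
        field_simp

lemma KW.closed {ω : d → ℝ} {F : C(UnitAddTorus d, ℂ)}
    (h : ∀ ε : ℝ, 0 < ε → ∃ G : C(UnitAddTorus d, ℂ), KW ω G ∧ ‖F - G‖ ≤ ε) : KW ω F := by
  intro ε hε
  obtain ⟨G, hG, hFG⟩ := h (ε/3) (by linarith)
  obtain ⟨T1, hT1, h1⟩ := hG (ε/3) (by linarith)
  refine ⟨T1, hT1, fun T hT a => ?_⟩
  have hT0 : 0 < T := hT1.trans_le hT
  have h3 := h1 T hT a
  have h4 := norm_tmean_sub_le F G
  have h5 : ‖(∫ t in a..(a + T), F (flow ω t)) / T - (∫ t in a..(a + T), G (flow ω t)) / T‖ ≤ ε/3 := by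
    rw [← sub_div, ← intervalIntegral.integral_sub (ii ω F _ _) (ii ω G _ _), norm_div, Complex.norm_real,
      Real.norm_of_nonneg hT0.le, div_le_iff₀ hT0]
    have h6 := intervalIntegral.norm_integral_le_of_norm_le_const (a := a) (b := a + T)
      (f := fun t => F (flow ω t) - G (flow ω t)) (C := ε/3)
      (fun t _ => ((F - G).norm_coe_le_norm (flow ω t)).trans hFG)
    rwa [add_sub_cancel_left, abs_of_pos hT0] at h6
  have e : (∫ t in a..(a + T), F (flow ω t)) / T - tmean F =
      ((∫ t in a..(a + T), F (flow ω t)) / T - (∫ t in a..(a + T), G (flow ω t)) / T) +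
      ((∫ t in a..(a + T), G (flow ω t)) / T - tmean G) + (tmean G - tmean F) := by ring
  rw [e]
  refine (norm_add₃_le).trans ?_
  rw [norm_sub_rev (tmean G)]
  linarith

lemma mFourier_flow (ω : d → ℝ) (n : d → ℤ) (t : ℝ) :
    UnitAddTorus.mFourier n (flow ω t) = cexp ((2 * Real.pi * (∑ i, n i * ω i) : ℝ) * I * t) := by
  unfold UnitAddTorus.mFourier flow
  simp only [ContinuousMap.coe_mk, fourier_coe_apply]
  rw [← Complex.exp_sum]
  congr 1
  push_cast
  rw [Finset.mul_sum, Finset.sum_mul, Finset.sum_mul]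
  apply Finset.sum_congr rfl
  intro i _
  ring

lemma KW_mFourier {ω : d → ℝ} (hω : ∀ n : d → ℤ, n ≠ 0 → ∑ i, n i * ω i ≠ 0) (n : d → ℤ) :
    KW ω (UnitAddTorus.mFourier n) := by
  intro ε hε
  by_cases hn : n = 0
  · refine ⟨1, one_pos, fun T hT a => ?_⟩
    have hT0 : (T:ℂ) ≠ 0 := by
      have : (0:ℝ) < T := by linarith
      exact_mod_cast this.ne'
    rw [tmean_mFourier, if_pos hn, hn, UnitAddTorus.mFourier_zero]
    simp only [ContinuousMap.one_apply]
    rw [intervalIntegral.integral_const]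
    simp [hT0]
    exact hε.le
  · have hμ := hω n hn
    set μ : ℝ := 2 * Real.pi * ∑ i, n i * ω i with hμd
    have hμ0 : μ ≠ 0 := by
      rw [hμd]
      have := Real.pi_pos.ne'
      positivity
    have hμc : (μ:ℂ) * I ≠ 0 := by
      apply mul_ne_zero
      · exact_mod_cast hμ0
      · exact I_ne_zero
    refine ⟨2 / (|μ| * ε), by positivity, fun T hT a => ?_⟩
    have hT0 : 0 < T := lt_of_lt_of_le (by positivity) hT
    rw [tmean_mFourier, if_neg hn, sub_zero]
    simp_rw [mFourier_flow]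
    rw [← hμd]
    rw [integral_exp_mul_complex hμc, norm_div, norm_div, Complex.norm_real, Real.norm_of_nonneg hT0.le]
    have h1 : ‖cexp ((μ:ℂ) * I * ((a + T : ℝ) : ℂ)) - cexp ((μ:ℂ) * I * (a:ℂ))‖ ≤ 2 := by
      refine (norm_sub_le _ _).trans ?_
      have e1 : (μ:ℂ) * I * ((a + T : ℝ) : ℂ) = ((μ * (a + T) : ℝ) : ℂ) * I := by push_cast; ring
      have e2 : (μ:ℂ) * I * (a:ℂ) = ((μ * a : ℝ) : ℂ) * I := by push_cast; ring
      rw [e1, e2, Complex.norm_exp_ofReal_mul_I, Complex.norm_exp_ofReal_mul_I]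
      norm_num
    have h2 : ‖(μ:ℂ) * I‖ = |μ| := by
      rw [norm_mul, Complex.norm_I, mul_one, Complex.norm_real, Real.norm_eq_abs]
    rw [h2]
    have hμa : 0 < |μ| := abs_pos.mpr hμ0
    rw [div_div, div_le_iff₀ (by positivity)]
    rw [div_le_iff₀ (by positivity)] at hT
    calc _ ≤ (2:ℝ) := h1
      _ ≤ T * (|μ| * ε) := hT
      _ = ε * (|μ| * T) := by ring

/-- Kronecker-Weyl -/
theorem kron {ω : d → ℝ} (hω : ∀ n : d → ℤ, n ≠ 0 → ∑ i, n i * ω i ≠ 0) (F : C(UnitAddTorus d, ℂ)) :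
    KW ω F := by
  apply KW.closed
  intro ε hε
  have h1 : F ∈ (Submodule.span ℂ (Set.range (UnitAddTorus.mFourier (d := d)))).topologicalClosure := by
    rw [UnitAddTorus.span_mFourier_closure_eq_top]
    trivial
  have h2 : F ∈ closure ((Submodule.span ℂ (Set.range (UnitAddTorus.mFourier (d := d))) : Submodule ℂ C(UnitAddTorus d, ℂ)) : Set C(UnitAddTorus d, ℂ)) := h1
  rw [Metric.mem_closure_iff] at h2
  obtain ⟨G, hG, hd⟩ := h2 ε hε
  refine ⟨G, ?_, ?_⟩
  · refine Submodule.span_induction ?_ ?_ ?_ ?_ hG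
    · rintro _ ⟨n, rfl⟩
      exact KW_mFourier hω n
    · have h0 := (KW_mFourier hω 0).smul (0:ℂ)
      have e : (0:ℂ) • UnitAddTorus.mFourier (0 : d → ℤ) = 0 := by
        ext x
        simp
      rw [e] at h0
      exact h0
    · intro x y _ _ hx hy
      exact hx.add hy
    · intro c x _ hx
      exact hx.smul c
  · rw [← dist_eq_norm]
    exact hd.le

/-- logarithms of primes are independent -/
lemma log_indep (S : Finset ℕ) (hS : ∀ p ∈ S, p.Prime) (n : S → ℤ) (hn : n ≠ 0) :
    ∑ p : S, n p * (-(Real.log ((p:ℕ):ℝ) / (2 * Real.pi))) ≠ 0 := by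
  intro h
  apply hn
  have h1 : ∑ p : S, (n p : ℝ) * Real.log ((p:ℕ):ℝ) = 0 := by
    have h2 : ∑ p : S, (n p : ℝ) * (-(Real.log ((p:ℕ):ℝ) / (2 * Real.pi))) =
        -(∑ p : S, (n p : ℝ) * Real.log ((p:ℕ):ℝ)) / (2 * Real.pi) := by
      rw [← Finset.sum_neg_distrib, Finset.sum_div]
      apply Finset.sum_congr rfl
      intro p _
      ring
    rw [h2] at h
    have hpi : (2 * Real.pi) ≠ 0 := by positivity
    rw [div_eq_zero_iff] at h
    rcases h with h | h
    · linarith
    · exact absurd h hpi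
  have hpos : ∀ p : S, 0 < ((p:ℕ)) := fun p => (hS p p.2).pos
  have h3 : ∏ p : S, (p:ℕ) ^ (n p).toNat = ∏ p : S, (p:ℕ) ^ (-(n p)).toNat := by
    have h4 : Real.log ((∏ p : S, (p:ℕ) ^ (n p).toNat : ℕ) : ℝ) = Real.log ((∏ p : S, (p:ℕ) ^ (-(n p)).toNat : ℕ) : ℝ) := by
      push_cast
      rw [Real.log_prod, Real.log_prod, ← sub_eq_zero, ← Finset.sum_sub_distrib, ← h1]
      · apply Finset.sum_congr rfl
        intro p _
        rw [Real.log_pow, Real.log_pow, ← sub_mul]
        congr 1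
        have h5 := Int.toNat_sub_toNat_neg (n p)
        have h6 : (((n p).toNat : ℤ) : ℝ) - (((-(n p)).toNat : ℤ) : ℝ) = (n p : ℝ) := by
          rw [← Int.cast_sub, h5]
        rw [Int.cast_natCast, Int.cast_natCast] at h6
        exact h6
      · intro p _
        have := hpos p
        positivity
      · intro p _
        have := hpos p
        positivity
    have h7 := Real.log_injOn_pos (Set.mem_Ioi.mpr ?_) (Set.mem_Ioi.mpr ?_) h4
    · exact_mod_cast h7
    · have : 0 < ∏ p : S, (p:ℕ) ^ (n p).toNat := Finset.prod_pos fun p _ => pow_pos (hpos p) _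
      exact_mod_cast this
    · have : 0 < ∏ p : S, (p:ℕ) ^ (-(n p)).toNat := Finset.prod_pos fun p _ => pow_pos (hpos p) _
      exact_mod_cast this
  have hfac : ∀ (u : S → ℕ) (q : S), (∏ p : S, (p:ℕ) ^ (u p)).factorization q = u q := by
    intro u q
    classical
    rw [Nat.factorization_prod (fun p _ => (pow_pos (hpos p) _).ne')]
    rw [Finsupp.finsetSum_apply]
    rw [Finset.sum_eq_single q]
    · rw [Nat.Prime.factorization_pow (hS q q.2)]
      simp
    · intro p _ hpq
      rw [Nat.Prime.factorization_pow (hS p p.2), Finsupp.single_apply, if_neg]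
      intro h8
      exact hpq (Subtype.ext h8)
    · intro h8
      exact absurd (Finset.mem_univ q) h8
  funext q
  have h9 := congrArg (fun m : ℕ => m.factorization q) h3
  simp only [hfac] at h9
  have h5 := Int.toNat_sub_toNat_neg (n q)
  rw [h9, sub_self] at h5
  exact h5.symm

end

end Pool.Agent.H91.Edge
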