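import Mathlib
import Pool.Agent.H91.Edge.Dist3
import Pool.Agent.H91.Edge.Kron

open Complex MeasureTheory Filter Topology

namespace Pool.Agent.H91.Edge

open Pool.Agent.H89.EdgeBasic

section single

variable {N i b : ℕ} {P : ℕ → Polynomial ℂ}

lemma Yf_facts (H : Hyp N i b P) (y : ℕ) :
    AEStronglyMeasurable (Yf N i P y) volume ∧ ∀ᵐ t, Yf N i P y t ≠ 0 := by
  obtain ⟨ℓ, hℓ⟩ := exists_EV (hyp_cut H y)
  have h2 := hℓ.cut
  constructor
  · exact (hℓ.meas (hyp_cut H y)).congr h2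
  · filter_upwards [h2, hℓ] with t h3 h4
    rw [← h3]
    exact h4.1

/-- the random Euler product as a function on the torus -/
noncomputable def Psi (N i : ℕ) (P : ℕ → Polynomial ℂ) (y : ℕ) (x : UnitAddTorus (Nat.primesBelow (y + 1))) : ℂ :=
  ∏ p : Nat.primesBelow (y + 1), if (p:ℕ) ∣ N then 1 else
    ((P p).eval ((AddCircle.toCircle (x p) : ℂ) * ((p:ℕ):ℂ) ^ (-(1 + (i:ℂ)/2))))⁻¹

/-- frequencies of the flow -/
noncomputable def om (y : ℕ) (p : Nat.primesBelow (y + 1)) : ℝ := -(Real.log ((p:ℕ):ℝ) / (2 * Real.pi))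

lemma prime_of_below {y : ℕ} (p : Nat.primesBelow (y + 1)) : (p:ℕ).Prime := Nat.prime_of_mem_primesBelow p.2

lemma eval_ne (H : Hyp N i b P) {p : ℕ} (hp : p.Prime) (hpN : ¬ p ∣ N) {c : ℂ} (hc : ‖c‖ = 1) :
    (P p).eval (c * (p:ℂ) ^ (-(1 + (i:ℂ)/2))) ≠ 0 := by
  intro h
  have h1 := H.hroots p hp hpN _ h
  rw [norm_mul, hc, one_mul, Complex.norm_natCast_cpow_of_pos hp.pos] at h1
  have hre : (-(1 + (i:ℂ)/2)).re = -(1 + (i:ℝ)/2) := by simp
  rw [hre] at h1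
  have hp1 : (1:ℝ) < p := by exact_mod_cast hp.one_lt
  rw [Real.rpow_le_rpow_left_iff hp1] at h1
  linarith

lemma continuous_Psi (H : Hyp N i b P) (y : ℕ) : Continuous (Psi N i P y) := by
  unfold Psi
  apply continuous_finsetProd
  intro p _
  by_cases hp : (p:ℕ) ∣ N
  · simp only [if_pos hp]
    exact continuous_const
  · simp only [if_neg hp]
    apply Continuous.inv₀
    · apply (P p).continuous.comp
      apply Continuous.mul _ continuous_const
      exact continuous_subtype_val.comp (AddCircle.continuous_toCircle.comp (continuous_apply p))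
    · intro x
      exact eval_ne H (prime_of_below p) hp (Circle.norm_coe _)

lemma Psi_ne (H : Hyp N i b P) (y : ℕ) (x : UnitAddTorus (Nat.primesBelow (y + 1))) : Psi N i P y x ≠ 0 := by
  unfold Psi
  rw [Finset.prod_ne_zero_iff]
  intro p _
  split_ifs with hp
  · exact one_ne_zero
  · exact inv_ne_zero (eval_ne H (prime_of_below p) hp (Circle.norm_coe _))

lemma Psi_mk (y : ℕ) (x : Nat.primesBelow (y + 1) → ℝ) :
    Psi N i P y (fun p => (x p : UnitAddCircle)) =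
      ∏ p : Nat.primesBelow (y + 1), if (p:ℕ) ∣ N then 1 else
        ((P p).eval (cexp (2 * Real.pi * x p * I) * ((p:ℕ):ℂ) ^ (-(1 + (i:ℂ)/2))))⁻¹ := by
  unfold Psi
  apply Finset.prod_congr rfl
  intro p _
  rw [AddCircle.toCircle_apply_mk, Circle.coe_exp]
  congr 5
  push_cast
  ring

lemma Psi_flow (y : ℕ) (t : ℝ) : Psi N i P y (flow (om y) t) = Yf N i P y t := by
  unfold flow
  rw [Psi_mk]
  unfold Yf
  rw [Finset.prod_filter]
  have e1 : ∀ p : Nat.primesBelow (y + 1), (if (p:ℕ) ∣ N then (1:ℂ) else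
        ((P p).eval (cexp (2 * Real.pi * ((t * om y p : ℝ) : ℂ) * I) * ((p:ℕ):ℂ) ^ (-(1 + (i:ℂ)/2))))⁻¹) =
      (fun p : ℕ => if p ∣ N then (1:ℂ) else ((P p).eval ((p:ℂ) ^ (-(1 + (i:ℂ)/2 + t * I))))⁻¹) (p:ℕ) := by
    intro p
    simp only
    split_ifs with hp
    · rfl
    · have hp0 : ((p:ℕ):ℂ) ≠ 0 := by exact_mod_cast (prime_of_below p).ne_zero
      congr 2
      have h1 : cexp (2 * Real.pi * ((t * om y p : ℝ) : ℂ) * I) = ((p:ℕ):ℂ) ^ (-(t * I)) := by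
        rw [Complex.cpow_def_of_ne_zero hp0, ← Complex.ofReal_natCast (p:ℕ), ← Complex.ofReal_log (by positivity)]
        congr 1
        unfold om
        push_cast
        have hpi : (Real.pi : ℂ) ≠ 0 := by exact_mod_cast Real.pi_pos.ne'
        field_simp
      rw [h1, ← Complex.cpow_add _ _ hp0]
      congr 1
      ring
  simp_rw [e1]
  rw [Finset.prod_coe_sort (Nat.primesBelow (y + 1))
    (fun p : ℕ => if p ∣ N then (1:ℂ) else ((P p).eval ((p:ℂ) ^ (-(1 + (i:ℂ)/2 + t * I))))⁻¹)]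
  unfold Nat.primesBelow
  rw [Finset.prod_filter]
  apply Finset.prod_congr rfl
  intro p _
  by_cases h1 : p.Prime <;> by_cases h2 : p ∣ N <;> simp [h1, h2]

end single

section family

variable {κ : Type*} [Fintype κ] {N i b : κ → ℕ} {P : κ → ℕ → Polynomial ℂ}

lemma meas_phi {φ : (κ → ℂ) → ℂ} (hφ : ContinuousOn φ {z | ∀ k, z k ≠ 0}) {f : κ → ℝ → ℂ}
    (hf : ∀ k, AEStronglyMeasurable (f k) volume) (hne : ∀ᵐ t, ∀ k, f k t ≠ 0) :
    AEStronglyMeasurable (fun t => φ (fun k => f k t)) volume := by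
  classical
  have hU : MeasurableSet {z : κ → ℂ | ∀ k, z k ≠ 0} := by
    have : {z : κ → ℂ | ∀ k, z k ≠ 0} = ⋂ k, {z : κ → ℂ | z k ≠ 0} := by
      ext z; simp
    rw [this]
    apply MeasurableSet.iInter
    intro k
    exact (measurableSet_singleton (0:ℂ)).compl.preimage (measurable_pi_apply k)
  have h1 : Measurable ({z : κ → ℂ | ∀ k, z k ≠ 0}.piecewise φ (fun _ => 0)) :=
    hφ.measurable_piecewise continuousOn_const hU
  have h2 : AEMeasurable (fun t => fun k => f k t) volume := aemeasurable_pi_lambda _ fun k => (hf k).aemeasurable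
  have h3 := (h1.comp_aemeasurable h2).aestronglyMeasurable
  refine h3.congr ?_
  filter_upwards [hne] with t ht
  simp only [Function.comp]
  rw [Set.piecewise_eq_of_mem]
  exact ht

lemma exists_exp {l : ℝ} (hbl : ∀ k, (b k : ℝ) * l < 1) : ∃ l' : ℝ, l < l' ∧ ∀ k, (b k : ℝ) * l' < 1 := by
  have h1 : ∀ k, ∀ᶠ x : ℝ in 𝓝[>] l, (b k : ℝ) * x < 1 := by
    intro k
    have hc : Continuous fun x : ℝ => (b k : ℝ) * x := by fun_prop
    exact nhdsWithin_le_nhds ((hc.tendsto l).eventually (gt_mem_nhds (hbl k)))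
  have h2 := (Filter.eventually_all.mpr h1).and (self_mem_nhdsWithin (s := Set.Ioi l) (a := l))
  obtain ⟨x, hx1, hx2⟩ := h2.exists
  exact ⟨x, hx2, hx1⟩

/-- zeta moments -/
noncomputable def Mz (b : κ → ℕ) (l : ℝ) : ℝ :=
  ∑ k, 2 * ∫ t, gw t * ‖riemannZeta (1 + t * I)‖ ^ ((b k : ℝ) * |l|)

lemma UB_gg {f : κ → ℝ → ℂ} {l : ℝ}
    (h : ∀ k, ∀ s : ℝ, |s| = |l| → UB (fun t => ‖f k t‖ ^ s) (∫ t, gw t * ‖riemannZeta (1 + t * I)‖ ^ ((b k : ℝ) * |s|))) :
    UB (fun t => gg l (fun k => f k t)) (Mz b l) := by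
  unfold gg Mz
  apply UB.sum
  intro k _
  have h1 := h k l rfl
  have h2 := h k (-l) (abs_neg l)
  rw [abs_neg] at h2
  have h3 := h1.add h2
  rw [two_mul]
  exact h3

lemma UB_diff (H : ∀ k, Hyp (N k) (i k) (b k) (P k)) {ℓ : κ → ℝ → ℂ}
    (hℓ : ∀ k, EV (N k) (i k) (P k) (ℓ k)) {φ : (κ → ℂ) → ℂ} {l C : ℝ} (hl : 0 ≤ l) (hC : 0 ≤ C)
    (hbl : ∀ k, (b k : ℝ) * l < 1) (hφ : ContinuousOn φ {z | ∀ k, z k ≠ 0})
    (hgr : ∀ z : κ → ℂ, (∀ k, z k ≠ 0) → ‖φ z‖ ≤ C * (1 + gg l z)) {ε : ℝ} (hε : 0 < ε) :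
    ∃ y0 : ℕ, ∀ y : ℕ, y0 ≤ y →
      UB (fun t => ‖φ (fun k => ℓ k t) - φ (fun k => Yf (N k) (i k) (P k) y t)‖) ε := by
  obtain ⟨l', hll, hbl'⟩ := exists_exp hbl
  have hl'0 : 0 < l' := by linarith
  have hM0 : 0 ≤ Mz b l' := by
    unfold Mz
    apply Finset.sum_nonneg
    intro k _
    have : 0 ≤ ∫ t, gw t * ‖riemannZeta (1 + t * I)‖ ^ ((b k : ℝ) * |l'|) :=
      integral_nonneg fun t => mul_nonneg (gw_pos t).le (by positivity)
    linarith
  have hW0 : 0 ≤ ∫ t, gw t := integral_nonneg fun t => (gw_pos t).le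
  set W := ∫ t, gw t with hW
  set ε1 : ℝ := ε / (2 * (W + 2 * Mz b l' + 1)) with hε1
  have hε1p : 0 < ε1 := by positivity
  obtain ⟨A, hA0, hA⟩ := mult_cont hl hll hC hφ hgr hε1p
  have htau : Tendsto (fun y : ℕ => A * ∑ k, 8 * (b k : ℝ) ^ 2 * tau y) atTop (𝓝 0) := by
    have h1 : Tendsto (fun y : ℕ => A * ∑ k : κ, 8 * (b k : ℝ) ^ 2 * tau y) atTop (𝓝 (A * ∑ k : κ, 8 * (b k : ℝ) ^ 2 * 0)) := by
      apply Tendsto.const_mul
      apply tendsto_finsetSum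
      intro k _
      exact tendsto_tau.const_mul _
    simpa using h1
  obtain ⟨y0, hy0⟩ := eventually_atTop.mp (htau.eventually (ge_mem_nhds (show (0:ℝ) < ε / 2 by linarith)))
  refine ⟨y0, fun y hy => ?_⟩
  have hex : ∀ k, ∃ ℓ' : ℝ → ℂ, EV (N k * y.factorial) (i k) (P k) ℓ' := fun k => exists_EV (hyp_fac (H k) y)
  choose ℓ' hℓ' using hex
  have habs : ∀ k s, |s| = |l'| → (b k : ℝ) * |s| < 1 := by
    intro k s hs
    rw [hs, abs_of_pos hl'0]
    exact hbl' k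
  have hg1 : UB (fun t => gg l' (fun k => ℓ k t)) (Mz b l') :=
    UB_gg fun k s hs => UB_moment (H k) (hℓ k) (habs k s hs)
  have hg2 : UB (fun t => gg l' (fun k => Yf (N k) (i k) (P k) y t)) (Mz b l') :=
    UB_gg fun k s hs => UB_moment_Y (H k) y (habs k s hs)
  have hg3 : UB (fun t => ∑ k, min 1 (‖ℓ' k t - 1‖ ^ 2)) (∑ k, 8 * (b k : ℝ) ^ 2 * tau y) :=
    UB.sum _ fun k _ => UB_tail (H k) y (hℓ' k)
  have hg4 := ((((UB.const zero_le_one).add hg1).add hg2).const_mul hε1p.le).add (hg3.const_mul hA0)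
  have hle : ε1 * (1 * W + Mz b l' + Mz b l') + A * ∑ k, 8 * (b k : ℝ) ^ 2 * tau y ≤ ε := by
    have h1 := hy0 y hy
    have h2 : ε1 * (1 * W + Mz b l' + Mz b l') ≤ ε / 2 := by
      rw [hε1, div_mul_eq_mul_div, div_le_iff₀ (by positivity)]
      nlinarith
    linarith
  have hae : ∀ᵐ t, ∀ k, ℓ k t ≠ 0 ∧ ℓ k t = Yf (N k) (i k) (P k) y t * ℓ' k t := by
    rw [ae_all_iff]
    intro k
    filter_upwards [hℓ k, (hℓ k).factor y (hℓ' k)] with t h1 h2
    exact ⟨h1.1, h2⟩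
  refine (hg4.mono_B hle).mono ?_ ?_ ?_
  · apply AEStronglyMeasurable.norm
    apply AEStronglyMeasurable.sub
    · apply meas_phi hφ (fun k => (hℓ k).meas (H k))
      filter_upwards [hae] with t ht k
      exact (ht k).1
    · apply meas_phi hφ (fun k => (Yf_facts (H k) y).1)
      rw [ae_all_iff]
      exact fun k => (Yf_facts (H k) y).2
  · filter_upwards with t
    exact norm_nonneg _
  · filter_upwards [hae] with t ht
    have hY : ∀ k, Yf (N k) (i k) (P k) y t ≠ 0 := by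
      intro k h0
      have := (ht k).2
      rw [h0, zero_mul] at this
      exact (ht k).1 this
    have hl1 : ∀ k, ℓ' k t ≠ 0 := by
      intro k h0
      have := (ht k).2
      rw [h0, mul_zero] at this
      exact (ht k).1 this
    have h1 := hA (fun k => Yf (N k) (i k) (P k) y t) (fun k => ℓ' k t) hY hl1
    have h2 : (fun k => Yf (N k) (i k) (P k) y t * ℓ' k t) = fun k => ℓ k t := by
      funext k
      exact (ht k).2.symm
    simp only [h2] at h1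
    exact h1

lemma UB_phi (H : ∀ k, Hyp (N k) (i k) (b k) (P k)) {ℓ : κ → ℝ → ℂ}
    (hℓ : ∀ k, EV (N k) (i k) (P k) (ℓ k)) {φ : (κ → ℂ) → ℂ} {l C : ℝ} (hl : 0 ≤ l) (hC : 0 ≤ C)
    (hbl : ∀ k, (b k : ℝ) * l < 1) (hφ : ContinuousOn φ {z | ∀ k, z k ≠ 0})
    (hgr : ∀ z : κ → ℂ, (∀ k, z k ≠ 0) → ‖φ z‖ ≤ C * (1 + gg l z)) :
    AEStronglyMeasurable (fun t => φ (fun k => ℓ k t)) volume ∧
      ∃ B : ℝ, UB (fun t => ‖φ (fun k => ℓ k t)‖) B := by
  have habs : ∀ k s, |s| = |l| → (b k : ℝ) * |s| < 1 := by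
    intro k s hs
    rw [hs, abs_of_nonneg hl]
    exact hbl k
  have hg1 : UB (fun t => gg l (fun k => ℓ k t)) (Mz b l) :=
    UB_gg fun k s hs => UB_moment (H k) (hℓ k) (habs k s hs)
  have hae : ∀ᵐ t, ∀ k, ℓ k t ≠ 0 := by
    rw [ae_all_iff]
    intro k
    filter_upwards [hℓ k] with t h1
    exact h1.1
  have hm := meas_phi hφ (fun k => (hℓ k).meas (H k)) hae
  refine ⟨hm, _, (((UB.const zero_le_one).add hg1).const_mul hC).mono hm.norm ?_ ?_⟩
  · filter_upwards with t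
    exact norm_nonneg _
  · filter_upwards [hae] with t ht
    exact hgr _ ht

omit [Fintype κ] in
lemma continuous_phi_Psi (H : ∀ k, Hyp (N k) (i k) (b k) (P k)) {φ : (κ → ℂ) → ℂ}
    (hφ : ContinuousOn φ {z | ∀ k, z k ≠ 0}) (y : ℕ) :
    Continuous fun x : UnitAddTorus (Nat.primesBelow (y + 1)) => φ (fun k => Psi (N k) (i k) (P k) y x) := by
  have h1 : Continuous fun x : UnitAddTorus (Nat.primesBelow (y + 1)) => (fun k => Psi (N k) (i k) (P k) y x) :=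
    continuous_pi fun k => continuous_Psi (H k) y
  exact hφ.comp_continuous h1 fun x k => Psi_ne (H k) y x

/-- the distribution theorem -/
theorem distribution (H : ∀ k, Hyp (N k) (i k) (b k) (P k)) {ℓ : κ → ℝ → ℂ}
    (hℓ : ∀ k, EV (N k) (i k) (P k) (ℓ k)) {φ : (κ → ℂ) → ℂ} {l C : ℝ} (hl : 0 ≤ l) (hC : 0 ≤ C)
    (hbl : ∀ k, (b k : ℝ) * l < 1) (hφ : ContinuousOn φ {z | ∀ k, z k ≠ 0})
    (hgr : ∀ z : κ → ℂ, (∀ k, z k ≠ 0) → ‖φ z‖ ≤ C * (1 + gg l z)) :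
    (∀ a c : ℝ, IntervalIntegrable (fun t => φ (fun k => ℓ k t)) volume a c) ∧
    ∃ m : ℂ, (∀ ε : ℝ, 0 < ε → ∃ T0 : ℝ, 0 < T0 ∧ ∀ T : ℝ, T0 ≤ T → ∀ a : ℝ,
        ‖(∫ t in a..(a + T), φ (fun k => ℓ k t)) / T - m‖ ≤ ε) ∧
      Tendsto (fun y : ℕ => ∫ θ in cube (Nat.primesBelow (y + 1)),
        φ (fun k => ∏ p : Nat.primesBelow (y + 1), if (p:ℕ) ∣ N k then 1 else
          ((P k p).eval (cexp (2 * Real.pi * θ p * I) * ((p:ℕ):ℂ) ^ (-(1 + (i k:ℂ)/2))))⁻¹)) atTop (𝓝 m) := by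
  obtain ⟨hm, B, hB⟩ := UB_phi H hℓ hl hC hbl hφ hgr
  have hii : ∀ a c : ℝ, IntervalIntegrable (fun t => φ (fun k => ℓ k t)) volume a c := by
    intro a c
    have h1 := hB.intervalIntegrable a c
    rw [intervalIntegrable_iff] at h1 ⊢
    exact (integrable_norm_iff hm.restrict).mp h1
  refine ⟨hii, ?_⟩
  set F : ∀ y : ℕ, C(UnitAddTorus (Nat.primesBelow (y + 1)), ℂ) := fun y =>
    ⟨fun x => φ (fun k => Psi (N k) (i k) (P k) y x), continuous_phi_Psi H hφ y⟩ with hF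
  set M : ℕ → ℂ := fun y => tmean (F y) with hM
  have hMe : ∀ y : ℕ, (∫ θ in cube (Nat.primesBelow (y + 1)),
        φ (fun k => ∏ p : Nat.primesBelow (y + 1), if (p:ℕ) ∣ N k then 1 else
          ((P k p).eval (cexp (2 * Real.pi * θ p * I) * ((p:ℕ):ℂ) ^ (-(1 + (i k:ℂ)/2))))⁻¹)) = M y := by
    intro y
    simp only [hM, tmean, hF, ContinuousMap.coe_mk, Psi_mk]
  simp_rw [hMe]
  have hKW : ∀ y, KW (om y) (F y) := by
    intro y
    apply kron
    intro n hn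
    exact log_indep (Nat.primesBelow (y + 1)) (fun p hp => Nat.prime_of_mem_primesBelow hp) n hn
  have hflow : ∀ y t, F y (flow (om y) t) = φ (fun k => Yf (N k) (i k) (P k) y t) := by
    intro y t
    simp only [hF, ContinuousMap.coe_mk, Psi_flow]
  -- comparison
  have hcomp : ∀ ε : ℝ, 0 < ε → ∃ y0 : ℕ, ∀ y : ℕ, y0 ≤ y → ∃ T0 : ℝ, 0 < T0 ∧ ∀ T : ℝ, T0 ≤ T → ∀ a : ℝ,
      ‖(∫ t in a..(a + T), φ (fun k => ℓ k t)) / T - M y‖ ≤ ε := by
    intro ε hε
    obtain ⟨y0, hy0⟩ := UB_diff H hℓ hl hC hbl hφ hgr (ε := ε / 8) (by linarith)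
    refine ⟨y0, fun y hy => ?_⟩
    obtain ⟨T1, hT1, h1⟩ := hKW y (ε / 2) (by linarith)
    refine ⟨max T1 1, lt_max_of_lt_left hT1, fun T hT a => ?_⟩
    have hT2 : 1 ≤ T := (le_max_right _ _).trans hT
    have hT0 : 0 < T := by linarith
    have h2 := h1 T ((le_max_left _ _).trans hT) a
    simp_rw [hflow] at h2
    have hYi : ∀ a c : ℝ, IntervalIntegrable (fun t => φ (fun k => Yf (N k) (i k) (P k) y t)) volume a c := by
      intro a c
      have h5 := ii (om y) (F y) a c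
      simp_rw [hflow] at h5
      exact h5
    have h3 := (hy0 y hy).avg (by linarith) a hT2
    have h4 : ‖(∫ t in a..(a + T), φ (fun k => ℓ k t)) / T -
        (∫ t in a..(a + T), φ (fun k => Yf (N k) (i k) (P k) y t)) / T‖ ≤ ε / 2 := by
      rw [← sub_div, ← intervalIntegral.integral_sub (hii _ _) (hYi _ _), norm_div, Complex.norm_real,
        Real.norm_of_nonneg hT0.le]
      calc ‖∫ t in a..(a + T), (φ (fun k => ℓ k t) - φ (fun k => Yf (N k) (i k) (P k) y t))‖ / T ≤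
          (∫ t in a..(a + T), ‖φ (fun k => ℓ k t) - φ (fun k => Yf (N k) (i k) (P k) y t)‖) / T := by
            apply div_le_div_of_nonneg_right _ hT0.le
            exact intervalIntegral.norm_integral_le_integral_norm (by linarith)
        _ ≤ 4 * (ε / 8) := h3
        _ = ε / 2 := by ring
    calc ‖(∫ t in a..(a + T), φ (fun k => ℓ k t)) / T - M y‖ =
        ‖((∫ t in a..(a + T), φ (fun k => ℓ k t)) / T - (∫ t in a..(a + T), φ (fun k => Yf (N k) (i k) (P k) y t)) / T)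
          + ((∫ t in a..(a + T), φ (fun k => Yf (N k) (i k) (P k) y t)) / T - M y)‖ := by
            congr 1; ring
      _ ≤ ε / 2 + ε / 2 := (norm_add_le _ _).trans (add_le_add h4 h2)
      _ = ε := by ring
  have hcau : CauchySeq M := by
    rw [Metric.cauchySeq_iff]
    intro ε hε
    obtain ⟨y0, hy0⟩ := hcomp (ε / 3) (by linarith)
    refine ⟨y0, fun y hy y' hy' => ?_⟩
    obtain ⟨T1, hT1, h1⟩ := hy0 y hy
    obtain ⟨T2, hT2, h2⟩ := hy0 y' hy'
    have h3 := h1 (max T1 T2) (le_max_left _ _) 0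
    have h4 := h2 (max T1 T2) (le_max_right _ _) 0
    rw [dist_eq_norm]
    calc ‖M y - M y'‖ = ‖((∫ t in (0:ℝ)..(0 + max T1 T2), φ (fun k => ℓ k t)) / ((max T1 T2 : ℝ) : ℂ) - M y') -
          ((∫ t in (0:ℝ)..(0 + max T1 T2), φ (fun k => ℓ k t)) / ((max T1 T2 : ℝ) : ℂ) - M y)‖ := by congr 1; ring
      _ ≤ ε / 3 + ε / 3 := (norm_sub_le _ _).trans (add_le_add h4 h3)
      _ < ε := by linarith
  obtain ⟨m, hmlim⟩ := cauchySeq_tendsto_of_complete hcau
  refine ⟨m, ?_, hmlim⟩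
  intro ε hε
  obtain ⟨y0, hy0⟩ := hcomp (ε / 2) (by linarith)
  have h5 := hmlim.eventually (Metric.closedBall_mem_nhds m (show (0:ℝ) < ε / 2 by linarith))
  obtain ⟨y, hy1, hy2⟩ := (h5.and (eventually_ge_atTop y0)).exists
  obtain ⟨T1, hT1, h1⟩ := hy0 y hy2
  refine ⟨T1, hT1, fun T hT a => ?_⟩
  have h2 := h1 T hT a
  rw [dist_eq_norm] at hy1
  calc ‖(∫ t in a..(a + T), φ (fun k => ℓ k t)) / T - m‖ =
      ‖((∫ t in a..(a + T), φ (fun k => ℓ k t)) / T - M y) + (M y - m)‖ := by congr 1; ring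
    _ ≤ ε / 2 + ε / 2 := (norm_add_le _ _).trans (add_le_add h2 hy1)
    _ = ε := by ring

end family

end Pool.Agent.H91.Edge
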