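import Mathlib
import Pool.Agent.H91.Edge.Final

open Complex Filter Topology

namespace Pool.Agent.H91.Edge

open Pool.Agent.H89.EdgeBasic (Hyp tr locLog Idx exp_locLog norm_tr_le root_inv_le eval_eq_prod
  idx_pos norm_cpow_neg norm_tr root_ne_zero)

/-! ### traces of twisted polynomials -/

lemma coeff_prod_lin (s : Multiset ℂ) :
    ((s.map fun c => (1 - Polynomial.C c * Polynomial.X : Polynomial ℂ)).prod).coeff 0 = 1 ∧
    ((s.map fun c => (1 - Polynomial.C c * Polynomial.X : Polynomial ℂ)).prod).coeff 1 = -s.sum := by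
  induction s using Multiset.induction with
  | empty => simp [Polynomial.coeff_one]
  | cons a s ih =>
    obtain ⟨h1, h2⟩ := ih
    rw [Multiset.map_cons, Multiset.prod_cons, Multiset.sum_cons]
    constructor
    · rw [Polynomial.mul_coeff_zero, h1]
      simp
    · rw [Polynomial.mul_coeff_one, h1, h2]
      simp [Polynomial.coeff_one]

lemma tr_eq_coeff (P : Polynomial ℂ) (h0 : P.eval 0 = 1) : tr P = -P.coeff 1 := by
  have h1 : P = (P.roots.map fun r => (1 - Polynomial.C (r⁻¹) * Polynomial.X : Polynomial ℂ)).prod := by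
    apply Polynomial.funext
    intro z
    rw [Polynomial.eval_multiset_prod, Multiset.map_map, eval_eq_prod P h0 z]
    congr 1
    apply Multiset.map_congr rfl
    intro r _
    simp only [Function.comp, Polynomial.eval_sub, Polynomial.eval_one, Polynomial.eval_mul,
      Polynomial.eval_C, Polynomial.eval_X]
    rw [div_eq_mul_inv, mul_comm]
  have h2 : (P.roots.map fun r => (1 - Polynomial.C (r⁻¹) * Polynomial.X : Polynomial ℂ)) =
      ((P.roots.map fun r => r⁻¹).map fun c => (1 - Polynomial.C c * Polynomial.X : Polynomial ℂ)) := by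
    rw [Multiset.map_map]
    rfl
  have h3 := (coeff_prod_lin (P.roots.map fun r => r⁻¹)).2
  rw [← h2, ← h1] at h3
  rw [h3, neg_neg]
  rfl

/-- the twisted polynomial -/
noncomputable def tw (P : Polynomial ℂ) (a : ℂ) : Polynomial ℂ := P.comp (Polynomial.C a * Polynomial.X)

lemma tw_eval (P : Polynomial ℂ) (a z : ℂ) : (tw P a).eval z = P.eval (a * z) := by
  simp [tw]

lemma tr_tw (P : Polynomial ℂ) (h0 : P.eval 0 = 1) (a : ℂ) : tr (tw P a) = a * tr P := by
  rw [tr_eq_coeff _ (by rw [tw_eval, mul_zero, h0]), tr_eq_coeff P h0]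
  have : (tw P a).coeff 1 = P.coeff 1 * a := by
    unfold tw
    rw [Polynomial.comp_C_mul_X_coeff, pow_one]
  rw [this]
  ring

variable {N i b : ℕ} {P : ℕ → Polynomial ℂ}

lemma hyp_tw (H : Hyp N i b P) (c : ℕ → ℂ) (hc : ∀ n, ‖c n‖ ≤ 1) :
    Hyp N i b (fun p => tw (P p) (c p)) := by
  refine ⟨H.N0, ?_, ?_, ?_⟩
  · intro p hp hpN
    rw [tw_eval, mul_zero, H.h0 p hp hpN]
  · intro p hp hpN
    refine le_trans ?_ (H.hdeg p hp hpN)
    unfold tw
    refine Polynomial.natDegree_comp_le.trans ?_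
    have : (Polynomial.C (c p) * Polynomial.X : Polynomial ℂ).natDegree ≤ 1 :=
      (Polynomial.natDegree_C_mul_le _ _).trans Polynomial.natDegree_X_le
    calc (P p).natDegree * (Polynomial.C (c p) * Polynomial.X : Polynomial ℂ).natDegree ≤ (P p).natDegree * 1 :=
          Nat.mul_le_mul_left _ this
      _ = _ := mul_one _
  · intro p hp hpN z hz
    rw [Polynomial.IsRoot, tw_eval] at hz
    have h1 := H.hroots p hp hpN (c p * z) hz
    refine h1.trans ?_
    rw [norm_mul]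
    exact mul_le_of_le_one_left (norm_nonneg _) (hc p)

lemma ft_tw (H : Hyp N i b P) (c : ℕ → ℂ) (t : ℝ) (n : ℕ) :
    ft N i (fun p => tw (P p) (c p)) t n = c n * ft N i P t n := by
  unfold ft
  split_ifs with h
  · rw [tr_tw (P n) (H.h0 n h.1 h.2)]
    ring
  · simp

/-! ### the error term left of the edge -/

lemma norm_locLog_sub2 (P : Polynomial ℂ) (b : ℕ) (hdeg : P.natDegree ≤ b) (z : ℂ) (ε : ℝ)
    (hε : ε ≤ 3 / 5)
    (hz : ∀ r ∈ P.roots, ‖z / r‖ ≤ ε) :
    ‖locLog P z - tr P * z‖ ≤ b * (2 * ε ^ 2) := by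
  have h1 : locLog P z - tr P * z
      = (P.roots.map fun r => (Complex.log ((1 - z / r)⁻¹) - z / r)).sum := by
    rw [Multiset.sum_map_sub, locLog, tr, ← Multiset.sum_map_mul_right]
    congr 2
    apply Multiset.map_congr rfl
    intro r _
    rw [div_eq_mul_inv, mul_comm]
  rw [h1]
  refine (norm_multiset_sum_le _).trans ?_
  rw [Multiset.map_map]
  have h2 : ∀ x ∈ (P.roots.map ((fun x : ℂ => ‖x‖) ∘ fun r => (Complex.log ((1 - z / r)⁻¹) - z / r))),
      x ≤ 2 * ε ^ 2 := by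
    intro x hx
    rw [Multiset.mem_map] at hx
    obtain ⟨r, hr, rfl⟩ := hx
    have h3 := hz r hr
    have h4 := Complex.norm_log_one_sub_inv_sub_self_le (z := z / r) (by linarith)
    simp only [Function.comp]
    refine h4.trans ?_
    have h5 : (1 - ‖z / r‖)⁻¹ ≤ 5 / 2 := by
      rw [inv_le_comm₀ (by linarith) (by norm_num)]
      have : (5/2:ℝ)⁻¹ = 2/5 := by norm_num
      rw [this]
      linarith
    have h6 : ‖z / r‖ ^ 2 ≤ ε ^ 2 := by
      apply pow_le_pow_left₀ (norm_nonneg _) h3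
    have h7 : 0 ≤ (1 - ‖z / r‖)⁻¹ := by
      apply inv_nonneg.mpr; linarith
    nlinarith [sq_nonneg ‖z / r‖]
  refine (Multiset.sum_le_card_nsmul _ _ h2).trans ?_
  rw [Multiset.card_map, nsmul_eq_mul]
  have h8 : (Multiset.card P.roots : ℝ) ≤ b := by
    exact_mod_cast (Polynomial.card_roots' P).trans hdeg
  gcongr

lemma root_bound2 (H : Hyp N i b P) (p : Idx N) {s : ℂ}
    (hs : 3/4 + (i:ℝ)/2 ≤ s.re) {r : ℂ} (hr : r ∈ (P p).roots) :
    ‖(p:ℂ)^(-s) / r‖ ≤ (p:ℝ)^(-(3/4):ℝ) := by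
  rw [div_eq_mul_inv, norm_mul, norm_cpow_neg]
  have h1 := root_inv_le H p hr
  have hp := idx_pos p
  have hp1 : (1:ℝ) ≤ (p:ℝ) := by exact_mod_cast p.2.1.one_lt.le
  calc (p:ℝ)^(-s.re) * ‖r⁻¹‖ ≤ (p:ℝ)^(-s.re) * (p:ℝ) ^ ((i:ℝ)/2) := by gcongr
    _ = (p:ℝ)^(-s.re + (i:ℝ)/2) := by rw [Real.rpow_add hp]
    _ ≤ (p:ℝ)^(-(3/4):ℝ) := by
        apply Real.rpow_le_rpow_of_exponent_le hp1
        linarith

lemma p34 (p : Idx N) : (p:ℝ)^(-(3/4):ℝ) ≤ 3/5 := by
  have hp2 : (2:ℝ) ≤ (p:ℝ) := by exact_mod_cast p.2.1.two_le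
  have h1 : (p:ℝ)^(-(3/4):ℝ) ≤ (2:ℝ)^(-(3/4):ℝ) :=
    Real.rpow_le_rpow_of_nonpos (by norm_num) hp2 (by norm_num)
  refine h1.trans ?_
  have h2 : ((2:ℝ)^(-(3/4):ℝ)) ^ (4:ℕ) ≤ (3/5:ℝ) ^ (4:ℕ) := by
    rw [← Real.rpow_natCast, ← Real.rpow_mul (by norm_num)]
    have : (-(3/4):ℝ) * ((4:ℕ):ℝ) = -3 := by norm_num
    rw [this]
    norm_num
  exact le_of_pow_le_pow_left₀ (by norm_num) (by norm_num) h2

lemma norm_err2 (H : Hyp N i b P) (p : Idx N) {s : ℂ} (hs : 3/4 + (i:ℝ)/2 ≤ s.re) :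
    ‖err P p s‖ ≤ b * (2 * (p:ℝ)^(-(3/2):ℝ)) := by
  have h := norm_locLog_sub2 (P p) b (H.hdeg p p.2.1 p.2.2) ((p:ℂ)^(-s)) ((p:ℝ)^(-(3/4):ℝ))
    (p34 p) (fun r hr => root_bound2 H p hs hr)
  have h2 : ((p:ℝ)^(-(3/4):ℝ)) ^ (2:ℕ) = (p:ℝ)^(-(3/2):ℝ) := by
    rw [← Real.rpow_natCast, ← Real.rpow_mul (idx_pos p).le]
    norm_num
  rwa [h2] at h

lemma differentiableAt_err (H : Hyp N i b P) (p : Idx N) {s : ℂ} (hs : 3/4 + (i:ℝ)/2 ≤ s.re) :
    DifferentiableAt ℂ (err P p) s := by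
  unfold err
  have hp0 : ((p:ℕ):ℂ) ≠ 0 := by exact_mod_cast p.2.1.ne_zero
  have hc : Differentiable ℂ fun s : ℂ => (p:ℂ)^(-s) := by
    intro s
    exact (differentiableAt_id.neg).const_cpow (Or.inl hp0)
  apply DifferentiableAt.sub
  · unfold locLog
    have key : ∀ S : Multiset ℂ, (∀ r ∈ S, ‖(p:ℂ)^(-s) / r‖ ≤ 3/5) →
        DifferentiableAt ℂ (fun s : ℂ => (S.map fun r => Complex.log ((1 - (p:ℂ)^(-s) / r)⁻¹)).sum) s := by
      intro S
      induction S using Multiset.induction with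
      | empty => intro _; simp
      | cons r S ih =>
        intro hS
        simp only [Multiset.map_cons, Multiset.sum_cons]
        apply DifferentiableAt.add _ (ih fun r' hr' => hS r' (Multiset.mem_cons_of_mem hr'))
        have hb := hS r (Multiset.mem_cons_self r S)
        have hlt : ‖(p:ℂ)^(-s) / r‖ < 1 := by linarith
        have hne : (1 - (p:ℂ)^(-s) / r) ≠ 0 := by
          intro h
          have : (p:ℂ)^(-s) / r = 1 := by linear_combination -h
          rw [this] at hlt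
          simp at hlt
        have h0 : DifferentiableAt ℂ (fun s : ℂ => 1 - (p:ℂ)^(-s) / r) s :=
          (differentiableAt_const _).sub ((hc s).div_const r)
        have h1 : DifferentiableAt ℂ (fun s : ℂ => (1 - (p:ℂ)^(-s) / r)⁻¹) s := h0.inv hne
        apply h1.clog
        have h2 : 0 < (1 - (p:ℂ)^(-s) / r).re := by
          have := Complex.re_le_norm ((p:ℂ)^(-s) / r)
          rw [Complex.sub_re, Complex.one_re]
          linarith
        rw [Complex.mem_slitPlane_iff]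
        left
        rw [Complex.inv_re]
        exact div_pos h2 (Complex.normSq_pos.mpr hne)
    exact key _ fun r hr => (root_bound2 H p hs hr).trans (p34 p)
  · exact (hc s).const_mul _

/-- absolute constant -/
noncomputable def C3 : ℝ := 8 * (2 * ∑' n : ℕ, (n:ℝ)^(-(3/2):ℝ))

lemma summable_32 : Summable (fun n : ℕ => (n:ℝ)^(-(3/2):ℝ)) := Real.summable_nat_rpow.mpr (by norm_num)

lemma C3_nonneg : 0 ≤ C3 := by
  unfold C3
  have : 0 ≤ ∑' n : ℕ, (n:ℝ)^(-(3/2):ℝ) := tsum_nonneg fun n => by positivity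
  linarith

lemma norm_E (H : Hyp N i b P) {s : ℂ} (hs : 3/4 + (i:ℝ)/2 ≤ s.re) :
    ‖∑' p : Idx N, err P p s‖ ≤ b * (2 * ∑' n : ℕ, (n:ℝ)^(-(3/2):ℝ)) := by
  have hs1 : Summable (fun p : Idx N => ((p:ℕ):ℝ)^(-(3/2):ℝ)) := summable_32.comp_injective Subtype.val_injective
  have h1 := tsum_of_norm_bounded ((hs1.mul_left 2).mul_left (b:ℝ)).hasSum (fun p => norm_err2 H p hs)
  refine h1.trans ?_
  rw [tsum_mul_left, tsum_mul_left]
  apply mul_le_mul_of_nonneg_left _ (Nat.cast_nonneg _)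
  apply mul_le_mul_of_nonneg_left _ (by norm_num)
  exact Summable.tsum_subtype_le (fun n : ℕ => (n:ℝ)^(-(3/2):ℝ)) {n : ℕ | n.Prime ∧ ¬ n ∣ N}
    (fun n => by positivity) summable_32

lemma differentiableOn_E (H : Hyp N i b P) :
    DifferentiableOn ℂ (fun s => ∑' p : Idx N, err P p s) {s : ℂ | 3/4 + (i:ℝ)/2 < s.re} := by
  have hs1 : Summable (fun p : Idx N => ((p:ℕ):ℝ)^(-(3/2):ℝ)) := summable_32.comp_injective Subtype.val_injective
  apply differentiableOn_tsum_of_summable_norm ((hs1.mul_left 2).mul_left (b:ℝ))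
  · intro p s hs
    exact (differentiableAt_err H p (le_of_lt hs)).differentiableWithinAt
  · exact isOpen_lt continuous_const Complex.continuous_re
  · intro p s hs
    exact norm_err2 H p (le_of_lt hs)

lemma norm_deriv_E (H : Hyp N i b P) {s : ℂ} (hs : 1 + (i:ℝ)/2 < s.re) :
    ‖deriv (fun s => ∑' p : Idx N, err P p s) s‖ ≤ b * C3 := by
  have hsub : Metric.closedBall s (1/8) ⊆ {s : ℂ | 3/4 + (i:ℝ)/2 < s.re} := by
    intro z hz
    rw [Metric.mem_closedBall, dist_eq_norm] at hz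
    have a1 := (abs_le.mp ((Complex.abs_re_le_norm (z - s)).trans hz)).1
    rw [Complex.sub_re] at a1
    show 3/4 + (i:ℝ)/2 < z.re
    linarith
  have h1 := Complex.norm_deriv_le_of_forall_mem_sphere_norm_le (c := s) (R := 1/8)
    (f := fun s => ∑' p : Idx N, err P p s) (C := b * (2 * ∑' n : ℕ, (n:ℝ)^(-(3/2):ℝ))) (by norm_num)
    (by
      apply DifferentiableOn.diffContOnCl
      rw [closure_ball _ (by norm_num)]
      exact (differentiableOn_E H).mono hsub)
    (by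
      intro z hz
      exact norm_E H (le_of_lt (hsub (Metric.sphere_subset_closedBall hz))))
  refine h1.trans (le_of_eq ?_)
  unfold C3
  ring

/-- the logarithmic derivative of the Euler product -/
theorem logDeriv_L (H : Hyp N i b P) {s : ℂ} (hs : 1 + (i:ℝ)/2 < s.re) :
    ‖logDeriv (fun s : ℂ => ∏' p : {p : ℕ // p.Prime ∧ ¬ p ∣ N}, ((P p).eval ((p:ℂ)^(-s)))⁻¹) s +
      D (fun n => ft N i P 0 n * (th n : ℂ)) (s - (i:ℂ)/2)‖ ≤ b * C3 := by
  have hopen : IsOpen {s : ℂ | 1 + (i:ℝ)/2 < s.re} := isOpen_lt continuous_const Complex.continuous_re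
  have hopen2 : IsOpen {s : ℂ | 3/4 + (i:ℝ)/2 < s.re} := isOpen_lt continuous_const Complex.continuous_re
  have hA := adm_ft H 0
  have hEd : DifferentiableAt ℂ (fun s => ∑' p : Idx N, err P p s) s :=
    (differentiableOn_E H).differentiableAt (hopen2.mem_nhds (by
      show 3/4 + (i:ℝ)/2 < s.re
      linarith))
  have hDd : HasDerivAt (fun s => D (ft N i P 0) (s - (i:ℂ)/2))
      (-D (fun n => ft N i P 0 n * (th n : ℂ)) (s - (i:ℂ)/2)) s := by
    have h1 : HasDerivAt (D (ft N i P 0)) (-D (fun n => ft N i P 0 n * (th n : ℂ)) (s - (i:ℂ)/2)) (s - (i:ℂ)/2) :=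
      hasDerivAt_D hA (by simp; linarith)
    have h2 : HasDerivAt (fun s : ℂ => s - (i:ℂ)/2) 1 s := (hasDerivAt_id s).sub_const _
    have h3 := h1.comp s h2
    rw [mul_one] at h3
    exact h3
  have hev : (fun s : ℂ => ∏' p : {p : ℕ // p.Prime ∧ ¬ p ∣ N}, ((P p).eval ((p:ℂ)^(-s)))⁻¹) =ᶠ[𝓝 s]
      fun s => Complex.exp (D (ft N i P 0) (s - (i:ℂ)/2) + ∑' p : Idx N, err P p s) := by
    filter_upwards [hopen.mem_nhds hs] with z hz
    have hz' : 1 + (i:ℝ)/2 < z.re := hz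
    have h1 := L_eq H 0 (z := z - (1 + (i:ℂ)/2)) (by simp; linarith)
    have e1 : 1 + (i:ℂ)/2 + ((0:ℝ):ℂ) * I + (z - (1 + (i:ℂ)/2)) = z := by
      push_cast
      ring
    rw [e1] at h1
    rw [h1]
    congr 2
    unfold D
    apply tsum_congr
    intro n
    congr 2
    ring
  have hld : logDeriv (fun s : ℂ => ∏' p : {p : ℕ // p.Prime ∧ ¬ p ∣ N}, ((P p).eval ((p:ℂ)^(-s)))⁻¹) s =
      -D (fun n => ft N i P 0 n * (th n : ℂ)) (s - (i:ℂ)/2) + deriv (fun s => ∑' p : Idx N, err P p s) s := by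
    rw [(logDeriv_congr_nhds hev).self_of_nhds, logDeriv_apply]
    have h1 := (hDd.add hEd.hasDerivAt).cexp
    have h2 : HasDerivAt (fun s => Complex.exp (D (ft N i P 0) (s - (i:ℂ)/2) + ∑' p : Idx N, err P p s))
        (Complex.exp (D (ft N i P 0) (s - (i:ℂ)/2) + ∑' p : Idx N, err P p s) *
          (-D (fun n => ft N i P 0 n * (th n : ℂ)) (s - (i:ℂ)/2) + deriv (fun s => ∑' p : Idx N, err P p s) s)) s := h1
    rw [h2.deriv, mul_div_cancel_left₀ _ (Complex.exp_ne_zero _)]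
  rw [hld]
  have e : -D (fun n => ft N i P 0 n * (th n : ℂ)) (s - (i:ℂ)/2) + deriv (fun s => ∑' p : Idx N, err P p s) s +
      D (fun n => ft N i P 0 n * (th n : ℂ)) (s - (i:ℂ)/2) = deriv (fun s => ∑' p : Idx N, err P p s) s := by ring
  rw [e]
  exact norm_deriv_E H hs

end Pool.Agent.H91.Edge
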