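import Mathlib

open Complex Filter Topology Metric

namespace Pool.Agent.H91.Edge

/-- logarithmic derivative at the centre for zero free functions -/
lemma logDeriv_zero_free {G : ℂ → ℂ} {r B M : ℝ} (hr : 0 < r) (hG : DifferentiableOn ℂ G (ball 0 r))
    (hne : ∀ z ∈ ball (0:ℂ) r, G z ≠ 0) (hB : ∀ z ∈ ball (0:ℂ) r, ‖G z‖ ≤ B)
    (hM : 0 < M) (hBM : B ≤ Real.exp M * ‖G 0‖) : ‖logDeriv G 0‖ ≤ 2 * M / r := by
  have h0mem : (0:ℂ) ∈ ball (0:ℂ) r := mem_ball_self hr
  have hG0 : 0 < ‖G 0‖ := norm_pos_iff.mpr (hne 0 h0mem)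
  have hd : DifferentiableOn ℂ (logDeriv G) (ball 0 r) := by
    have h1 : DifferentiableOn ℂ (deriv G) (ball 0 r) := hG.deriv isOpen_ball
    exact h1.div hG hne
  obtain ⟨h, hh0, hh⟩ := (hd.isExactOn_ball).with_val_at 0 0
  -- G = G 0 * exp h
  have hconst : ∀ z ∈ ball (0:ℂ) r, G z = G 0 * Complex.exp (h z) := by
    intro z hz
    have hF : ∀ w ∈ ball (0:ℂ) r, HasDerivWithinAt (fun w => G w * Complex.exp (-h w)) 0 (ball 0 r) w := by
      intro w hw
      have h1 : HasDerivAt G (deriv G w) w := (hG.differentiableAt (isOpen_ball.mem_nhds hw)).hasDerivAt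
      have h2 := hh w hw
      have h3 : HasDerivAt (fun w => G w * Complex.exp (-h w))
          (deriv G w * Complex.exp (-h w) + G w * (Complex.exp (-h w) * -(logDeriv G w))) w :=
        h1.mul (h2.neg.cexp)
      have h4 : deriv G w * Complex.exp (-h w) + G w * (Complex.exp (-h w) * -(logDeriv G w)) = 0 := by
        rw [logDeriv_apply]
        have := hne w hw
        field_simp
        ring
      rw [h4] at h3
      exact h3.hasDerivWithinAt
    have h5 := (convex_ball (0:ℂ) r).is_const_of_fderivWithin_eq_zero (𝕜 := ℂ)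
      (f := fun w => G w * Complex.exp (-h w)) (fun w hw => (hF w hw).differentiableWithinAt)
      (fun w hw => by
        have := (hF w hw).hasFDerivWithinAt.fderivWithin (isOpen_ball.uniqueDiffWithinAt hw)
        rw [this]
        ext
        simp) hz h0mem
    simp only [hh0, neg_zero, Complex.exp_zero, mul_one] at h5
    rw [← h5, mul_assoc, ← Complex.exp_add]
    simp
  have hre : Set.MapsTo h (ball 0 r) {z | z.re ≤ M} := by
    intro z hz
    have h1 := hconst z hz
    have h2 : ‖G z‖ = ‖G 0‖ * Real.exp (h z).re := by rw [h1, norm_mul, Complex.norm_exp]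
    have h3 := hB z hz
    rw [h2] at h3
    have h4 : ‖G 0‖ * Real.exp (h z).re ≤ ‖G 0‖ * Real.exp M := by linarith
    have h5 := le_of_mul_le_mul_left h4 hG0
    exact Real.exp_le_exp.mp h5
  have hdiff : DifferentiableOn ℂ h (ball 0 r) := fun z hz => (hh z hz).differentiableAt.differentiableWithinAt
  have hbc : ∀ z ∈ ball (0:ℂ) r, ‖h z‖ ≤ 2 * M * ‖z‖ / (r - ‖z‖) := fun z hz =>
    Complex.borelCaratheodory_zero hM hdiff hre hr hz hh0
  -- derivative at zero
  have hder := (hh 0 h0mem).tendsto_slope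
  have hlim : Tendsto (fun z : ℂ => 2 * M / (r - ‖z‖)) (𝓝[≠] 0) (𝓝 (2 * M / r)) := by
    have : ContinuousAt (fun z : ℂ => 2 * M / (r - ‖z‖)) 0 := by
      apply ContinuousAt.div continuousAt_const
      · fun_prop
      · simp [hr.ne']
    have h2 := this.tendsto
    simp only [norm_zero, sub_zero] at h2
    exact h2.mono_left nhdsWithin_le_nhds
  refine le_of_tendsto_of_tendsto hder.norm hlim ?_
  have hmem : ∀ᶠ z : ℂ in 𝓝[≠] 0, z ∈ ball (0:ℂ) r := nhdsWithin_le_nhds (isOpen_ball.mem_nhds h0mem)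
  filter_upwards [hmem, self_mem_nhdsWithin] with z hz hz0
  have hz1 : z ≠ 0 := hz0
  have hzn : 0 < ‖z‖ := norm_pos_iff.mpr hz1
  have hzr : ‖z‖ < r := by simpa using hz
  rw [slope_def_field, hh0, sub_zero, sub_zero, norm_div, div_le_iff₀ hzn]
  refine (hbc z hz).trans (le_of_eq ?_)
  ring

lemma factor {f : ℂ → ℂ} {r : ℝ} (hr : 0 < r) (hf : AnalyticOnNhd ℂ f (closedBall 0 r)) (hf0 : f 0 ≠ 0) :
    ∃ (Z : Finset ℂ) (n : ℂ → ℕ) (g : ℂ → ℂ), AnalyticOnNhd ℂ g (closedBall 0 r) ∧
      (∀ z ∈ closedBall (0:ℂ) r, g z ≠ 0) ∧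
      (∀ z ∈ closedBall (0:ℂ) r, f z = (∏ u ∈ Z, (z - u) ^ n u) * g z) ∧
      (∀ u ∈ Z, u ∈ closedBall (0:ℂ) r ∧ f u = 0 ∧ n u ≠ 0) := by
  set U : Set ℂ := closedBall (0:ℂ) r with hU
  have h0U : (0:ℂ) ∈ U := mem_closedBall_self hr.le
  have hmero : MeromorphicOn f U := hf.meromorphicOn
  have hconn : IsPreconnected U := (convex_closedBall (0:ℂ) r).isPreconnected
  have hord0 : meromorphicOrderAt f 0 ≠ ⊤ := by
    rw [(hf 0 h0U).meromorphicOrderAt_eq, (hf 0 h0U).analyticOrderAt_eq_zero.mpr hf0]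
    simp
  have hord : ∀ u : U, meromorphicOrderAt f u ≠ ⊤ := fun u =>
    hmero.meromorphicOrderAt_ne_top_of_isPreconnected hconn h0U u.2 hord0
  set D := MeromorphicOn.divisor f U with hD
  have hDfin : D.support.Finite := D.finiteSupport (isCompact_closedBall 0 r)
  obtain ⟨g, hg1, hg2, hg3⟩ := hmero.extract_zeros_poles hord hDfin
  set Z := hDfin.toFinset with hZ
  set n : ℂ → ℕ := fun u => (D u).toNat with hn
  have hDnn : ∀ u, 0 ≤ D u := fun u => MeromorphicOn.AnalyticOnNhd.divisor_nonneg hf u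
  have hnD : ∀ u, ((n u : ℕ) : ℤ) = D u := fun u => Int.toNat_of_nonneg (hDnn u)
  have hprod : (∏ᶠ u, (· - u) ^ D u : ℂ → ℂ) = fun z => ∏ u ∈ Z, (z - u) ^ n u := by
    rw [finprod_eq_prod_of_mulSupport_subset (s := Z)]
    · funext z
      rw [Finset.prod_apply]
      apply Finset.prod_congr rfl
      intro u _
      rw [Pi.pow_apply, ← hnD, zpow_natCast]
    · intro u hu
      rw [Function.mem_mulSupport] at hu
      rw [Finset.mem_coe, hZ, Set.Finite.mem_toFinset, Function.mem_support]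
      intro h
      apply hu
      rw [h, zpow_zero]
  refine ⟨Z, n, g, hg1, fun z hz => hg2 ⟨z, hz⟩, ?_, ?_⟩
  · have hR : AnalyticOnNhd ℂ (fun z => (∏ u ∈ Z, (z - u) ^ n u) * g z) U := by
      intro z hz
      apply AnalyticAt.mul _ (hg1 z hz)
      apply Finset.analyticAt_fun_prod
      intro u _
      fun_prop
    have hev : ∀ᶠ z in 𝓝[≠] (0:ℂ), f z = (∏ u ∈ Z, (z - u) ^ n u) * g z := by
      have h1 := mem_codiscreteWithin_iff_forall_mem_nhdsNE.mp hg3 0 h0U
      have h2 : U ∈ 𝓝[≠] (0:ℂ) := nhdsWithin_le_nhds (closedBall_mem_nhds 0 hr)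
      filter_upwards [h1, h2] with z hz hzU
      rcases hz with hz | hz
      · have hz' : f z = ((∏ᶠ u, (· - u) ^ D u : ℂ → ℂ) • g) z := hz
        rw [hz', hprod]
        rfl
      · exact absurd hzU hz
    exact hf.eqOn_of_preconnected_of_frequently_eq hR hconn h0U hev.frequently
  · intro u hu
    rw [hZ, Set.Finite.mem_toFinset, Function.mem_support] at hu
    have huU : u ∈ U := by
      by_contra h
      exact hu (by simp [hD, h])
    refine ⟨huU, ?_, ?_⟩
    · by_contra h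
      apply hu
      rw [hD, hmero.divisor_apply huU, (hf u huU).meromorphicOrderAt_eq, (hf u huU).analyticOrderAt_eq_zero.mpr h]
      simp
    · intro h
      apply hu
      rw [← hnD, h]
      rfl


/-- Landau's lemma on a disc whose boundary circle is free of zeros. -/
lemma landau_sphere {f : ℂ → ℂ} {r M : ℝ} (hr : 0 < r) (hM : 0 < M)
    (hf : AnalyticOnNhd ℂ f (closedBall 0 r)) (hf0 : f 0 ≠ 0)
    (hsph : ∀ z ∈ sphere (0:ℂ) r, f z ≠ 0)
    (hB : ∀ z ∈ sphere (0:ℂ) r, ‖f z‖ ≤ Real.exp M * ‖f 0‖)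
    (hz : ∀ z ∈ ball (0:ℂ) r, f z = 0 → z.re ≤ 0) :
    -(2 * M / r) ≤ (logDeriv f 0).re := by
  obtain ⟨Z, n, g, hg, hg0, hfg, hZ⟩ := factor hr hf hf0
  have h0 : (0:ℂ) ∈ closedBall (0:ℂ) r := mem_closedBall_self hr.le
  have hr0 : (r:ℂ) ≠ 0 := by exact_mod_cast hr.ne'
  have hZball : ∀ u ∈ Z, ‖u‖ < r ∧ u ≠ 0 ∧ u.re ≤ 0 := by
    intro u hu
    obtain ⟨h1, h2, -⟩ := hZ u hu
    have h3 : ‖u‖ ≤ r := by simpa using h1
    have h4 : ‖u‖ < r := by
      rcases h3.lt_or_eq with h | h
      · exact h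
      · exact absurd h2 (hsph u (by simpa using h))
    refine ⟨h4, ?_, hz u (by simpa using h4) h2⟩
    rintro rfl
    exact hf0 h2
  -- the function without zeros
  set Bl : ℂ → ℂ → ℂ := fun u z => ((r:ℂ)^2 - (starRingEnd ℂ) u * z) / r with hBl
  set G : ℂ → ℂ := fun z => (∏ u ∈ Z, (Bl u z) ^ n u) * g z with hG
  have hBlne : ∀ u ∈ Z, ∀ z : ℂ, ‖z‖ ≤ r → Bl u z ≠ 0 := by
    intro u hu z hzr h
    have h1 : (r:ℂ)^2 - (starRingEnd ℂ) u * z = 0 := by
      rw [hBl] at h
      simp only at h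
      rw [div_eq_zero_iff] at h
      rcases h with h | h
      · exact h
      · exact absurd h hr0
    have h2 : ‖(r:ℂ)^2‖ = ‖(starRingEnd ℂ) u * z‖ := by
      rw [sub_eq_zero] at h1
      rw [h1]
    rw [norm_mul, RCLike.norm_conj, norm_pow, Complex.norm_real, Real.norm_of_nonneg hr.le] at h2
    have h3 := (hZball u hu).1
    nlinarith [norm_nonneg u, norm_nonneg z]
  have hBlsph : ∀ u ∈ Z, ∀ z : ℂ, ‖z‖ = r → ‖Bl u z‖ = ‖z - u‖ := by
    intro u hu z hzr
    have h1 : (r:ℂ)^2 = z * (starRingEnd ℂ) z := by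
      rw [Complex.mul_conj, Complex.normSq_eq_norm_sq, hzr]
      push_cast
      rfl
    rw [hBl]
    simp only
    rw [h1, norm_div, Complex.norm_real, Real.norm_of_nonneg hr.le]
    have h2 : z * (starRingEnd ℂ) z - (starRingEnd ℂ) u * z = z * (starRingEnd ℂ) (z - u) := by
      rw [map_sub]
      ring
    rw [h2, norm_mul, RCLike.norm_conj, hzr]
    field_simp
  have hBldiff : ∀ u : ℂ, Differentiable ℂ (Bl u) := by
    intro u
    rw [hBl]
    fun_prop
  have hGan : AnalyticOnNhd ℂ G (closedBall 0 r) := by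
    intro z hz
    apply AnalyticAt.mul _ (hg z hz)
    apply Finset.analyticAt_fun_prod
    intro u _
    exact ((hBldiff u).analyticAt z).pow _
  have hGne : ∀ z ∈ closedBall (0:ℂ) r, G z ≠ 0 := by
    intro z hz
    apply mul_ne_zero _ (hg0 z hz)
    rw [Finset.prod_ne_zero_iff]
    intro u hu
    exact pow_ne_zero _ (hBlne u hu z (by simpa using hz))
  have hGsph : ∀ z ∈ sphere (0:ℂ) r, ‖G z‖ = ‖f z‖ := by
    intro z hz
    have hzr : ‖z‖ = r := by simpa using hz
    rw [hfg z (sphere_subset_closedBall hz), hG]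
    simp only
    rw [norm_mul, norm_mul, norm_prod, norm_prod]
    congr 1
    apply Finset.prod_congr rfl
    intro u hu
    rw [norm_pow, norm_pow, hBlsph u hu z hzr]
  have hG0 : ‖f 0‖ ≤ ‖G 0‖ := by
    rw [hfg 0 h0, hG]
    simp only
    rw [norm_mul, norm_mul, norm_prod, norm_prod]
    apply mul_le_mul_of_nonneg_right _ (norm_nonneg _)
    apply Finset.prod_le_prod
    · intro u _
      exact norm_nonneg _
    · intro u hu
      rw [norm_pow, norm_pow]
      apply pow_le_pow_left₀ (norm_nonneg _)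
      rw [hBl]
      simp only [mul_zero, sub_zero, zero_sub, norm_neg]
      have : ((r:ℂ)^2 / r) = (r:ℂ) := by field_simp
      rw [this, Complex.norm_real, Real.norm_of_nonneg hr.le]
      exact (hZball u hu).1.le
  have hGB : ∀ z ∈ ball (0:ℂ) r, ‖G z‖ ≤ Real.exp M * ‖f 0‖ := by
    intro z hz
    apply Complex.norm_le_of_forall_mem_frontier_norm_le (U := ball (0:ℂ) r) isBounded_ball
    · apply DifferentiableOn.diffContOnCl
      rw [closure_ball _ hr.ne']
      exact hGan.differentiableOn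
    · intro w hw
      rw [frontier_ball _ hr.ne'] at hw
      rw [hGsph w hw]
      exact hB w hw
    · exact subset_closure hz
  have hzf := logDeriv_zero_free hr (hGan.differentiableOn.mono ball_subset_closedBall)
    (fun z hz => hGne z (ball_subset_closedBall hz)) hGB hM
    (mul_le_mul_of_nonneg_left hG0 (Real.exp_pos M).le)
  -- compare the logarithmic derivatives
  have hgd : DifferentiableAt ℂ g 0 := (hg 0 h0).differentiableAt
  have e1 : logDeriv f 0 = (∑ u ∈ Z, (n u : ℂ) * (-1 / u)) + logDeriv g 0 := by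
    have h1 : f =ᶠ[𝓝 0] fun z => (∏ u ∈ Z, (z - u) ^ n u) * g z := by
      filter_upwards [closedBall_mem_nhds (0:ℂ) hr] with z hz
      exact hfg z hz
    have h2 : logDeriv f 0 = logDeriv (fun z => (∏ u ∈ Z, (z - u) ^ n u) * g z) 0 :=
      (logDeriv_congr_nhds h1).self_of_nhds
    have hne : ∀ u ∈ Z, ((0:ℂ) - u) ^ n u ≠ 0 := by
      intro u hu
      apply pow_ne_zero
      rw [zero_sub, neg_ne_zero]
      exact (hZball u hu).2.1
    rw [h2, logDeriv_mul 0 (by rw [Finset.prod_ne_zero_iff]; exact hne) (hg0 0 h0)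
      (by fun_prop) hgd, logDeriv_prod (f := fun u z => (z - u) ^ n u) hne (fun u _ => by fun_prop)]
    congr 1
    apply Finset.sum_congr rfl
    intro u hu
    rw [logDeriv_fun_pow (by fun_prop)]
    congr 1
    rw [logDeriv_apply]
    simp only [deriv_sub_const, deriv_id'', zero_sub]
    rw [div_neg, neg_div]
  have e2 : logDeriv G 0 = (∑ u ∈ Z, (n u : ℂ) * (-(starRingEnd ℂ) u / r^2)) + logDeriv g 0 := by
    have hne : ∀ u ∈ Z, (Bl u 0) ^ n u ≠ 0 := fun u hu => pow_ne_zero _ (hBlne u hu 0 (by simpa using hr.le))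
    rw [hG, logDeriv_mul 0 (by rw [Finset.prod_ne_zero_iff]; exact hne) (hg0 0 h0)
      (by
        apply DifferentiableAt.fun_finsetProd
        intro u _
        exact ((hBldiff u) 0).pow _) hgd,
      logDeriv_prod (f := fun u z => (Bl u z) ^ n u) hne (fun u _ => ((hBldiff u) 0).pow _)]
    congr 1
    apply Finset.sum_congr rfl
    intro u hu
    rw [logDeriv_fun_pow ((hBldiff u) 0)]
    congr 1
    rw [logDeriv_apply]
    have h3 : HasDerivAt (Bl u) (-(starRingEnd ℂ) u / r) 0 := by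
      rw [hBl]
      have := (((hasDerivAt_id (0:ℂ)).const_mul ((starRingEnd ℂ) u)).const_sub ((r:ℂ)^2)).div_const (r:ℂ)
      simpa using this
    rw [h3.deriv, hBl]
    simp only [mul_zero, sub_zero]
    field_simp
  have e3 : logDeriv f 0 = logDeriv G 0 + ∑ u ∈ Z, (n u : ℂ) * ((starRingEnd ℂ) u / r^2 - 1 / u) := by
    rw [e1, e2]
    have : ∑ u ∈ Z, (n u : ℂ) * ((starRingEnd ℂ) u / r^2 - 1 / u) =
        (∑ u ∈ Z, (n u : ℂ) * (-1 / u)) - ∑ u ∈ Z, (n u : ℂ) * (-(starRingEnd ℂ) u / r^2) := by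
      rw [← Finset.sum_sub_distrib]
      apply Finset.sum_congr rfl
      intro u _
      ring
    rw [this]
    ring
  have e4 : 0 ≤ (∑ u ∈ Z, (n u : ℂ) * ((starRingEnd ℂ) u / r^2 - 1 / u)).re := by
    rw [Complex.re_sum]
    apply Finset.sum_nonneg
    intro u hu
    obtain ⟨h1, h2, h3⟩ := hZball u hu
    have hun : 0 < ‖u‖ := norm_pos_iff.mpr h2
    have h4 : ((n u : ℂ) * ((starRingEnd ℂ) u / r^2 - 1 / u)).re = n u * (-u.re * (1 / ‖u‖^2 - 1 / r^2)) := by
      have h5 : (1:ℂ) / u = (starRingEnd ℂ) u / ((‖u‖^2 : ℝ) : ℂ) := by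
        rw [div_eq_div_iff h2 (by exact_mod_cast (pow_pos hun 2).ne'), one_mul]
        rw [← Complex.normSq_eq_norm_sq, Complex.normSq_eq_conj_mul_self]
      have h6 : (starRingEnd ℂ) u / (r:ℂ)^2 - 1 / u = (starRingEnd ℂ) u * (((1 / r^2 - 1 / ‖u‖^2 : ℝ)) : ℂ) := by
        rw [h5]
        push_cast
        ring
      rw [h6, ← Complex.ofReal_natCast, Complex.re_ofReal_mul, Complex.re_mul_ofReal, Complex.conj_re]
      ring
    rw [h4]
    apply mul_nonneg (Nat.cast_nonneg _)
    apply mul_nonneg (by linarith)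
    rw [sub_nonneg]
    apply one_div_le_one_div_of_le (by positivity)
    apply pow_le_pow_left₀ hun.le h1.le
  rw [e3, Complex.add_re]
  have h5 := abs_le.mp ((Complex.abs_re_le_norm (logDeriv G 0)).trans hzf)
  linarith

/-- Landau's lemma: a bounded analytic function whose zeros are to the left of the centre. -/
theorem landau {f : ℂ → ℂ} {s0 : ℂ} {R M : ℝ} (hR : 0 < R) (hM : 0 < M)
    (hf : AnalyticOnNhd ℂ f (closedBall s0 R)) (hf0 : f s0 ≠ 0)
    (hB : ∀ z ∈ closedBall s0 R, ‖f z‖ ≤ Real.exp M * ‖f s0‖)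
    (hz : ∀ z ∈ closedBall s0 R, f z = 0 → z.re ≤ s0.re) :
    -(4 * M / R) ≤ (logDeriv f s0).re := by
  set F : ℂ → ℂ := fun z => f (s0 + z) with hF
  have hmem : ∀ z : ℂ, ‖z‖ ≤ R → s0 + z ∈ closedBall s0 R := by
    intro z hz
    simpa using hz
  have hFan : AnalyticOnNhd ℂ F (closedBall 0 R) := by
    intro z hz
    have h1 := hf (s0 + z) (hmem z (by simpa using hz))
    exact h1.comp_of_eq (by fun_prop) rfl
  have hF0 : F 0 ≠ 0 := by simpa [hF] using hf0
  -- choose a good radius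
  obtain ⟨Z, n, g, hg, hg0, hfg, hZ⟩ := factor hR hFan hF0
  have hfin : (Z.image (fun u => ‖u‖) : Set ℝ).Finite := Finset.finite_toSet _
  obtain ⟨r, hr1, hr2⟩ := (Set.Ioo_infinite (show R / 2 < R by linarith)).exists_notMem_finite hfin
  have hr0 : 0 < r := by linarith [hr1.1]
  have hrR : r < R := hr1.2
  have hsub : closedBall (0:ℂ) r ⊆ closedBall 0 R := closedBall_subset_closedBall hrR.le
  have h1 := landau_sphere hr0 hM (hFan.mono hsub) hF0
    (by
      intro z hz h
      have hzR : z ∈ closedBall (0:ℂ) R := hsub (sphere_subset_closedBall hz)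
      rw [hfg z hzR] at h
      rcases mul_eq_zero.mp h with h | h
      · rw [Finset.prod_eq_zero_iff] at h
        obtain ⟨u, hu, hu2⟩ := h
        have : z = u := by
          have := pow_eq_zero_iff (hZ u hu).2.2 |>.mp hu2
          linear_combination this
        subst this
        apply hr2
        rw [Finset.mem_coe, Finset.mem_image]
        exact ⟨z, hu, by simpa using hz⟩
      · exact hg0 z hzR h)
    (by
      intro z hz
      have h2 := hB (s0 + z) (hmem z (by
        have : ‖z‖ = r := by simpa using hz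
        linarith))
      simpa [hF] using h2)
    (by
      intro z hzb h
      have h2 := hz (s0 + z) (hmem z (by
        have : ‖z‖ < r := by simpa using hzb
        linarith)) h
      rw [Complex.add_re] at h2
      linarith)
  have h2 : logDeriv F 0 = logDeriv f s0 := by
    rw [logDeriv_apply, logDeriv_apply, hF]
    simp only [add_zero]
    rw [deriv_comp_const_add, add_zero]
  rw [h2] at h1
  refine le_trans ?_ h1
  rw [neg_le_neg_iff, div_le_div_iff₀ hr0 hR]
  nlinarith [hr1.1]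

end Pool.Agent.H91.Edge
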