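import Mathlib
import Pool.Agent.H91.Edge.Landau
import Pool.Agent.H91.Edge.Periodic

open Complex Filter Topology MeasureTheory

namespace Pool.Agent.H91.Edge

section

variable {m : ℕ} [NeZero m] (ψ : DirichletCharacter ℂ m)

/-- the character as a function on the naturals -/
noncomputable def chf (n : ℕ) : ℂ := ψ (n : ZMod m)

omit [NeZero m] in
lemma chf_per (n : ℕ) : chf ψ (n + m) = chf ψ n := by
  unfold chf
  congr 1
  simp

omit [NeZero m] in
lemma chf_norm (n : ℕ) : ‖chf ψ n‖ ≤ 1 := ψ.norm_le_one _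

lemma mean_chf_of_ne (h : ψ ≠ 1) : mean m (chf ψ) = 0 := by
  unfold mean chf
  have h1 : ∑ k ∈ Finset.range m, ψ (k : ZMod m) = ∑ a : ZMod m, ψ a := by
    rw [Finset.sum_range fun k => ψ ((k:ℕ) : ZMod m)]
    obtain ⟨k, rfl⟩ : ∃ k, m = k + 1 := ⟨m - 1, by have := NeZero.ne m; omega⟩
    apply Fintype.sum_equiv (Equiv.refl _)
    intro x
    simp only [Equiv.refl_apply]
    congr 1
    exact Fin.cast_val_eq_self x
  rw [h1, MulChar.sum_eq_zero_of_ne_one h, zero_div]

lemma m_pos : 0 < m := Nat.pos_of_ne_zero (NeZero.ne m)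

lemma zeta_bound {h : ℝ} (h0 : 0 < h) (h1 : h ≤ 1) : ∑' n : ℕ, ‖LSeries.term 1 (1 + (h:ℂ)) n‖ ≤ 10 / h := by
  have hb : ∀ n : ℕ, ‖(1 : ℕ → ℂ) n‖ ≤ 1 := by simp
  have hper : ∀ n : ℕ, (1 : ℕ → ℂ) (n + 1) = (1 : ℕ → ℂ) n := by simp
  have hs : 1 < (1 + (h:ℂ)).re := by simp; exact h0
  have hsum : LSeriesSummable (1 : ℕ → ℂ) (1 + (h:ℂ)) :=
    LSeriesSummable_of_bounded_of_one_lt_re (m := 1) (fun n _ => hb n) hs
  have e1 : ((∑' n : ℕ, ‖LSeries.term 1 (1 + (h:ℂ)) n‖ : ℝ) : ℂ) = LSeries 1 (1 + (h:ℂ)) := by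
    rw [Complex.ofReal_tsum, LSeries]
    apply tsum_congr
    intro n
    rcases Nat.eq_zero_or_pos n with rfl | hn
    · simp
    rw [LSeries.norm_term_eq, LSeries.term_of_ne_zero hn.ne', if_neg hn.ne']
    simp only [Pi.one_apply, norm_one, Complex.add_re, Complex.one_re, Complex.ofReal_re]
    rw [Complex.ofReal_div, Complex.ofReal_cpow (Nat.cast_nonneg n)]
    push_cast
    rfl
  have e2 : ∑' n : ℕ, ‖LSeries.term 1 (1 + (h:ℂ)) n‖ = ‖LSeries 1 (1 + (h:ℂ))‖ := by
    rw [← e1, Complex.norm_real, Real.norm_of_nonneg (tsum_nonneg fun n => norm_nonneg _)]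
  rw [e2, LSeries_periodic (m := 1) one_pos hper hb hs]
  have hPhi := norm_Phi_le (m := 1) (f := (1 : ℕ → ℂ)) one_pos hper hb (s := 1 + (h:ℂ)) (by simp; linarith)
  have hmean := norm_mean_le (m := 1) hb
  have hn : ‖(1 + (h:ℂ))‖ ≤ 2 := by
    have : (1 + (h:ℂ)) = ((1 + h : ℝ) : ℂ) := by push_cast; rfl
    rw [this, Complex.norm_real, Real.norm_of_nonneg (by linarith)]
    linarith
  have a1 : ‖mean 1 (1 : ℕ → ℂ) * (1 + (h:ℂ)) / ((1 + (h:ℂ)) - 1)‖ ≤ 2 / h := by
    rw [add_sub_cancel_left, norm_div, norm_mul, Complex.norm_real, Real.norm_of_nonneg h0.le]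
    apply div_le_div_of_nonneg_right _ h0.le
    calc ‖mean 1 (1 : ℕ → ℂ)‖ * ‖1 + (h:ℂ)‖ ≤ 1 * 2 := mul_le_mul hmean hn (norm_nonneg _) zero_le_one
      _ = 2 := by norm_num
  have a2 : ‖(1 + (h:ℂ)) * Phi 1 (1 : ℕ → ℂ) (1 + (h:ℂ))‖ ≤ 8 := by
    rw [norm_mul]
    calc ‖1 + (h:ℂ)‖ * ‖Phi 1 (1 : ℕ → ℂ) (1 + (h:ℂ))‖ ≤ 2 * (4 * (1:ℕ)) :=
          mul_le_mul hn hPhi (norm_nonneg _) (by norm_num)
      _ = 8 := by norm_num
  have a3 : (8:ℝ) ≤ 8 / h := by
    rw [le_div_iff₀ h0]
    linarith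
  calc _ ≤ 2 / h + 8 := (norm_add_le _ _).trans (add_le_add a1 a2)
    _ ≤ 2 / h + 8 / h := by linarith
    _ = 10 / h := by ring

/-- lower bound for Dirichlet `L`-functions right of the line -/
lemma L_lower {s : ℂ} (hs : 1 < s.re) (hs2 : s.re ≤ 2) : (s.re - 1) / 10 ≤ ‖LSeries (chf ψ) s‖ := by
  have h1 := DirichletCharacter.LSeries.mul_mu_eq_one ψ hs
  have h2 : LSeries (chf ψ) s * LSeries ((chf ψ) * (fun n : ℕ => ((ArithmeticFunction.moebius n : ℤ) : ℂ))) s = 1 := h1
  set g : ℕ → ℂ := (chf ψ) * (fun n : ℕ => ((ArithmeticFunction.moebius n : ℤ) : ℂ)) with hg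
  have hgb : ∀ n, ‖g n‖ ≤ 1 := by
    intro n
    rw [hg, Pi.mul_apply, norm_mul]
    apply mul_le_one₀ (chf_norm ψ n) (norm_nonneg _)
    have : |(ArithmeticFunction.moebius n : ℤ)| ≤ 1 := ArithmeticFunction.abs_moebius_le_one
    have h3 : ‖((ArithmeticFunction.moebius n : ℤ) : ℂ)‖ = ((|(ArithmeticFunction.moebius n : ℤ)| : ℤ) : ℝ) := by
      rw [Complex.norm_intCast]
      push_cast
      rfl
    rw [h3]
    exact_mod_cast this
  have h3 : ‖LSeries g s‖ ≤ 10 / (s.re - 1) := by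
    have hz := zeta_bound (h := s.re - 1) (by linarith) (by linarith)
    refine le_trans ?_ hz
    have hsum1 : Summable fun n => ‖LSeries.term 1 (1 + ((s.re - 1 : ℝ):ℂ)) n‖ := by
      have : LSeriesSummable (1 : ℕ → ℂ) (1 + ((s.re - 1 : ℝ):ℂ)) :=
        LSeriesSummable_of_bounded_of_one_lt_re (m := 1) (fun n _ => by simp) (by simp; linarith)
      exact this.norm
    unfold LSeries
    apply tsum_of_norm_bounded hsum1.hasSum
    intro n
    rw [LSeries.norm_term_eq, LSeries.norm_term_eq]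
    split_ifs with hn
    · exact le_rfl
    · have e : (1 + ((s.re - 1 : ℝ):ℂ)).re = s.re := by simp
      rw [e]
      apply div_le_div_of_nonneg_right _ (by positivity)
      simpa using hgb n
  have h4 : ‖LSeries (chf ψ) s‖ * ‖LSeries g s‖ = 1 := by
    rw [← norm_mul, h2, norm_one]
  have h5 : 0 < s.re - 1 := by linarith
  have h6 : 1 ≤ ‖LSeries (chf ψ) s‖ * (10 / (s.re - 1)) :=
    h4.symm.le.trans (mul_le_mul_of_nonneg_left h3 (norm_nonneg _))
  rw [mul_div_assoc', le_div_iff₀ h5] at h6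
  linarith

/-- the one-sided bound for the logarithmic derivative -/
theorem logDeriv_bound {h u : ℝ} (h0 : 0 < h) (h1 : h ≤ 1) :
    (-(logDeriv (LSeries (chf ψ)) (1 + (h:ℂ) + u * I))).re ≤
      (if ψ = 1 then h / (h ^ 2 + u ^ 2) else 0) +
      16 * Real.log (200 * m * (|u| + 3) ^ 2 / h ^ 2) := by
  have hm0 : 0 < m := m_pos
  have hm1 : (1:ℝ) ≤ m := by exact_mod_cast hm0
  set s0 : ℂ := 1 + (h:ℂ) + u * I with hs0
  have hs0re : s0.re = 1 + h := by simp [hs0]
  have hs0im : s0.im = u := by simp [hs0]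
  have hs0n : ‖s0‖ ≤ |u| + 2 := by
    calc ‖s0‖ ≤ ‖(1 + (h:ℂ))‖ + ‖(u:ℂ) * I‖ := norm_add_le _ _
      _ ≤ 2 + |u| := by
        apply add_le_add
        · have : (1 + (h:ℂ)) = ((1 + h : ℝ) : ℂ) := by push_cast; rfl
          rw [this, Complex.norm_real, Real.norm_of_nonneg (by linarith)]
          linarith
        · simp
      _ = |u| + 2 := by ring
  set M : ℝ := Real.log (200 * m * (|u| + 3) ^ 2 / h ^ 2) with hM
  have hu0 : 0 ≤ |u| := abs_nonneg u
  have hx9 : (9:ℝ) ≤ (|u| + 3) ^ 2 := by nlinarith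
  have hh2 : h ^ 2 ≤ 1 := pow_le_one₀ h0.le h1
  have hbig : 1 < 200 * m * (|u| + 3) ^ 2 / h ^ 2 := by
    rw [lt_div_iff₀ (by positivity)]
    nlinarith
  have hMpos : 0 < M := Real.log_pos hbig
  have hexpM : Real.exp M = 200 * m * (|u| + 3) ^ 2 / h ^ 2 := Real.exp_log (by linarith)
  have hexph : Real.exp M * (h ^ 2 / 10) = 20 * m * (|u| + 3) ^ 2 := by
    rw [hexpM]
    field_simp
    ring
  have hlow := L_lower ψ (s := s0) (by rw [hs0re]; linarith) (by rw [hs0re]; linarith)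
  rw [hs0re, add_sub_cancel_left] at hlow
  have hLpos : 0 < ‖LSeries (chf ψ) s0‖ := lt_of_lt_of_le (by positivity) hlow
  have hballre : ∀ z ∈ Metric.closedBall s0 (1/4), 3/4 ≤ z.re ∧ ‖z‖ ≤ |u| + 9/4 := by
    intro z hz
    rw [Metric.mem_closedBall, dist_eq_norm] at hz
    have a1 := (abs_le.mp ((Complex.abs_re_le_norm (z - s0)).trans hz)).1
    rw [Complex.sub_re, hs0re] at a1
    refine ⟨by linarith, ?_⟩
    have a2 : ‖z‖ ≤ ‖z - s0‖ + ‖s0‖ := by
      have := norm_add_le (z - s0) s0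
      simpa using this
    linarith
  have hPhid : ∀ z : ℂ, 0 < z.re → DifferentiableAt ℂ (Phi m (chf ψ)) z := fun z hz =>
    differentiableAt_Phi hm0 (chf_per ψ) (chf_norm ψ) hz
  have hopen : IsOpen {z : ℂ | 0 < z.re} := isOpen_lt continuous_const Complex.continuous_re
  have hopen1 : IsOpen {z : ℂ | 1 < z.re} := isOpen_lt continuous_const Complex.continuous_re
  have hLne : ∀ z : ℂ, 1 < z.re → LSeries (chf ψ) z ≠ 0 := fun z hz =>
    DirichletCharacter.LSeries_ne_zero_of_one_lt_re ψ hz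
  have hLd : DifferentiableAt ℂ (LSeries (chf ψ)) s0 := by
    have h2 : LSeries.abscissaOfAbsConv (chf ψ) < s0.re := by
      refine lt_of_le_of_lt (LSeries.abscissaOfAbsConv_le_of_le_const ⟨1, fun n _ => chf_norm ψ n⟩) ?_
      rw [hs0re]
      exact_mod_cast (by linarith : (1:ℝ) < 1 + h)
    exact (LSeries_hasDerivAt h2).differentiableAt
  have hs0mem : 1 < s0.re := by
    rw [hs0re]
    linarith
  have hmem1 : ∀ᶠ z in 𝓝 s0, 1 < z.re := hopen1.mem_nhds hs0mem
  by_cases hψ : ψ = 1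
  · rw [if_pos hψ]
    set F : ℂ → ℂ := fun s => mean m (chf ψ) * s + (s - 1) * (s * Phi m (chf ψ) s) with hF
    have hFeq : ∀ z : ℂ, 1 < z.re → F z = (z - 1) * LSeries (chf ψ) z := by
      intro z hz
      rw [LSeries_periodic hm0 (chf_per ψ) (chf_norm ψ) hz]
      have hz1 : z - 1 ≠ 0 := by
        intro h
        have : z = 1 := by linear_combination h
        rw [this] at hz
        simp at hz
      rw [hF]
      simp only
      field_simp
    have hFd : DifferentiableOn ℂ F {z : ℂ | 0 < z.re} := by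
      intro z hz
      have h2 := hPhid z hz
      apply DifferentiableAt.differentiableWithinAt
      rw [hF]
      fun_prop
    have hFan : AnalyticOnNhd ℂ F (Metric.closedBall s0 (1/4)) := by
      intro z hz
      have h2 := (hballre z hz).1
      exact hFd.analyticAt (hopen.mem_nhds (show 0 < z.re by linarith))
    have hs01 : s0 - 1 ≠ 0 := by
      intro h2
      have := congrArg Complex.re h2
      rw [Complex.sub_re, hs0re] at this
      simp at this
      linarith
    have hF0eq : F s0 = (s0 - 1) * LSeries (chf ψ) s0 := hFeq s0 hs0mem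
    have hF0 : F s0 ≠ 0 := by
      rw [hF0eq]
      exact mul_ne_zero hs01 (hLne s0 hs0mem)
    have hs01n : h ≤ ‖s0 - 1‖ := by
      have := Complex.re_le_norm (s0 - 1)
      rw [Complex.sub_re, hs0re] at this
      simp at this
      exact this
    have hF0low : h ^ 2 / 10 ≤ ‖F s0‖ := by
      rw [hF0eq, norm_mul]
      calc h ^ 2 / 10 = h * (h / 10) := by ring
        _ ≤ _ := mul_le_mul hs01n hlow (by positivity) (norm_nonneg _)
    have hB : ∀ z ∈ Metric.closedBall s0 (1/4), ‖F z‖ ≤ Real.exp M * ‖F s0‖ := by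
      intro z hz
      obtain ⟨b1, b2⟩ := hballre z hz
      have hPhi := norm_Phi_le hm0 (chf_per ψ) (chf_norm ψ) b1
      have hmean := norm_mean_le (m := m) (chf_norm ψ)
      have c1 : ‖F z‖ ≤ 20 * m * (|u| + 3) ^ 2 := by
        rw [hF]
        simp only
        refine (norm_add_le _ _).trans ?_
        rw [norm_mul, norm_mul, norm_mul]
        have c2 : ‖z - 1‖ ≤ |u| + 13/4 := by
          refine (norm_sub_le _ _).trans ?_
          rw [norm_one]
          linarith
        have c3 : ‖z‖ ≤ |u| + 13/4 := by linarith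
        have c4 : ‖mean m (chf ψ)‖ * ‖z‖ ≤ 1 * (|u| + 13/4) := mul_le_mul hmean c3 (norm_nonneg _) zero_le_one
        have c5 : ‖z - 1‖ * (‖z‖ * ‖Phi m (chf ψ) z‖) ≤ (|u| + 13/4) * ((|u| + 13/4) * (4 * m)) := by
          gcongr
        have c6 : 1 * (|u| + 13/4) ≤ m * (2 * (|u| + 3) ^ 2) := by
          calc 1 * (|u| + 13/4) ≤ 1 * (2 * (|u| + 3) ^ 2) := by nlinarith
            _ ≤ m * (2 * (|u| + 3) ^ 2) := mul_le_mul_of_nonneg_right hm1 (by positivity)
        have c7 : (|u| + 13/4) * ((|u| + 13/4) * (4 * m)) ≤ m * (8 * (|u| + 3) ^ 2) := by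
          have c8 : (|u| + 13/4) * (|u| + 13/4) ≤ 2 * (|u| + 3) ^ 2 := by nlinarith
          calc (|u| + 13/4) * ((|u| + 13/4) * (4 * m)) = (4 * m) * ((|u| + 13/4) * (|u| + 13/4)) := by ring
            _ ≤ (4 * m) * (2 * (|u| + 3) ^ 2) := mul_le_mul_of_nonneg_left c8 (by positivity)
            _ = m * (8 * (|u| + 3) ^ 2) := by ring
        have c9 : 0 ≤ m * (|u| + 3) ^ 2 := by positivity
        nlinarith
      refine c1.trans ?_
      rw [← hexph]
      exact mul_le_mul_of_nonneg_left hF0low (Real.exp_pos M).le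
    have hzeros : ∀ z ∈ Metric.closedBall s0 (1/4), F z = 0 → z.re ≤ s0.re := by
      intro z _ hz0
      by_contra hcon
      push Not at hcon
      have hz1 : 1 < z.re := by linarith
      rw [hFeq z hz1] at hz0
      rcases mul_eq_zero.mp hz0 with h2 | h2
      · have : z = 1 := by linear_combination h2
        rw [this] at hz1
        simp at hz1
      · exact hLne z hz1 h2
    have hmain := landau (by norm_num : (0:ℝ) < 1/4) hMpos hFan hF0 hB hzeros
    have hld : logDeriv F s0 = 1 / (s0 - 1) + logDeriv (LSeries (chf ψ)) s0 := by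
      have h2 : F =ᶠ[𝓝 s0] fun z => (z - 1) * LSeries (chf ψ) z := by
        filter_upwards [hmem1] with z hz
        exact hFeq z hz
      rw [(logDeriv_congr_nhds h2).self_of_nhds, logDeriv_mul s0 hs01 (hLne s0 hs0mem) (by fun_prop) hLd]
      congr 1
      rw [logDeriv_apply]
      simp
    rw [hld, Complex.add_re] at hmain
    have hre : (1 / (s0 - 1)).re = h / (h ^ 2 + u ^ 2) := by
      rw [one_div, Complex.inv_re, Complex.normSq_apply, Complex.sub_re, Complex.sub_im, hs0re, hs0im]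
      simp only [Complex.one_re, Complex.one_im, add_sub_cancel_left, sub_zero]
      rw [pow_two, pow_two]
    rw [hre] at hmain
    rw [Complex.neg_re]
    have : 4 * M / (1/4) = 16 * M := by ring
    rw [this] at hmain
    linarith
  · rw [if_neg hψ, zero_add]
    set F : ℂ → ℂ := fun s => s * Phi m (chf ψ) s with hF
    have hFeq : ∀ z : ℂ, 1 < z.re → F z = LSeries (chf ψ) z := by
      intro z hz
      rw [LSeries_periodic hm0 (chf_per ψ) (chf_norm ψ) hz, mean_chf_of_ne ψ hψ]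
      simp [hF]
    have hFd : DifferentiableOn ℂ F {z : ℂ | 0 < z.re} := by
      intro z hz
      have h2 := hPhid z hz
      apply DifferentiableAt.differentiableWithinAt
      rw [hF]
      fun_prop
    have hFan : AnalyticOnNhd ℂ F (Metric.closedBall s0 (1/4)) := by
      intro z hz
      have h2 := (hballre z hz).1
      exact hFd.analyticAt (hopen.mem_nhds (show 0 < z.re by linarith))
    have hF0eq : F s0 = LSeries (chf ψ) s0 := hFeq s0 hs0mem
    have hF0 : F s0 ≠ 0 := by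
      rw [hF0eq]
      exact hLne s0 hs0mem
    have hF0low : h ^ 2 / 10 ≤ ‖F s0‖ := by
      rw [hF0eq]
      refine le_trans ?_ hlow
      have : h ^ 2 ≤ h := by nlinarith
      linarith
    have hB : ∀ z ∈ Metric.closedBall s0 (1/4), ‖F z‖ ≤ Real.exp M * ‖F s0‖ := by
      intro z hz
      obtain ⟨b1, b2⟩ := hballre z hz
      have hPhi := norm_Phi_le hm0 (chf_per ψ) (chf_norm ψ) b1
      have c1 : ‖F z‖ ≤ 20 * m * (|u| + 3) ^ 2 := by
        rw [hF]
        simp only
        rw [norm_mul]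
        have c3 : ‖z‖ ≤ |u| + 3 := by linarith
        have c5 : ‖z‖ * ‖Phi m (chf ψ) z‖ ≤ (|u| + 3) * (4 * m) := by
          gcongr
        have c8 : |u| + 3 ≤ (|u| + 3) ^ 2 := by nlinarith
        have c9 : (|u| + 3) * (4 * m) ≤ (|u| + 3) ^ 2 * (4 * m) := mul_le_mul_of_nonneg_right c8 (by positivity)
        have c10 : 0 ≤ m * (|u| + 3) ^ 2 := by positivity
        nlinarith
      refine c1.trans ?_
      rw [← hexph]
      exact mul_le_mul_of_nonneg_left hF0low (Real.exp_pos M).le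
    have hzeros : ∀ z ∈ Metric.closedBall s0 (1/4), F z = 0 → z.re ≤ s0.re := by
      intro z _ hz0
      by_contra hcon
      push Not at hcon
      have hz1 : 1 < z.re := by linarith
      rw [hFeq z hz1] at hz0
      exact hLne z hz1 hz0
    have hmain := landau (by norm_num : (0:ℝ) < 1/4) hMpos hFan hF0 hB hzeros
    have hld : logDeriv F s0 = logDeriv (LSeries (chf ψ)) s0 := by
      have h2 : F =ᶠ[𝓝 s0] LSeries (chf ψ) := by
        filter_upwards [hmem1] with z hz
        exact hFeq z hz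
      exact (logDeriv_congr_nhds h2).self_of_nhds
    rw [hld] at hmain
    rw [Complex.neg_re]
    have : 4 * M / (1/4) = 16 * M := by ring
    rw [this] at hmain
    linarith

/-- the same bound for the sum over primes -/
theorem prime_kernel_bound : ∃ C : ℝ, 0 ≤ C ∧ ∀ (m : ℕ) [NeZero m] (ψ : DirichletCharacter ℂ m) (h u : ℝ),
    0 < h → h ≤ 1 →
    (∑' n : ℕ, (chf ψ n * (th n : ℂ)) * (n:ℂ)^(-(1 + (h:ℂ) + u * I))).re ≤
      (if ψ = 1 then h / (h ^ 2 + u ^ 2) else 0) +
      16 * Real.log (200 * m * (|u| + 3) ^ 2 / h ^ 2) + C := by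
  have hsum := ArithmeticFunction.vonMangoldt.summable_residueClass_non_primes_div (q := 1) (0 : ZMod 1)
  have hres : ∀ n : ℕ, ArithmeticFunction.vonMangoldt.residueClass (0 : ZMod 1) n
      = ArithmeticFunction.vonMangoldt n := by
    intro n
    simp only [ArithmeticFunction.vonMangoldt.residueClass]
    rw [Set.indicator_of_mem]
    exact Subsingleton.elim _ _
  refine ⟨∑' n : ℕ, (if n.Prime then 0 else
    ArithmeticFunction.vonMangoldt.residueClass (0 : ZMod 1) n) / (n:ℝ), ?_, ?_⟩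
  · apply tsum_nonneg
    intro n
    apply div_nonneg _ (Nat.cast_nonneg _)
    split_ifs
    · exact le_rfl
    · exact ArithmeticFunction.vonMangoldt.residueClass_nonneg _ _
  intro m _ ψ h u h0 h1
  set s0 : ℂ := 1 + (h:ℂ) + u * I with hs0
  have hs0re : s0.re = 1 + h := by simp [hs0]
  have hs0mem : 1 < s0.re := by
    rw [hs0re]
    linarith
  have h2 := logDeriv_bound ψ (u := u) h0 h1
  rw [← hs0] at h2
  have h3 : -(logDeriv (LSeries (chf ψ)) s0) =
      ∑' n : ℕ, (chf ψ n * ((ArithmeticFunction.vonMangoldt n : ℝ) : ℂ)) * (n:ℂ)^(-s0) := by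
    have h4 := DirichletCharacter.LSeries_twist_vonMangoldt_eq ψ hs0mem
    have h5 : -(logDeriv (LSeries (chf ψ)) s0) = -deriv (LSeries (chf ψ)) s0 / LSeries (chf ψ) s0 := by
      rw [logDeriv_apply, neg_div]
    rw [h5]
    have h6 : LSeries (fun n => chf ψ n * ((ArithmeticFunction.vonMangoldt n : ℝ) : ℂ)) s0
        = -deriv (LSeries (chf ψ)) s0 / LSeries (chf ψ) s0 := h4
    rw [← h6, ← D_eq (by simp)]
    rfl
  have hsA : Summable fun n : ℕ => (chf ψ n * ((ArithmeticFunction.vonMangoldt n : ℝ) : ℂ)) * (n:ℂ)^(-s0) := by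
    refine Summable.of_norm_bounded (summable_vM hs0mem).norm ?_
    intro n
    rw [mul_assoc, norm_mul]
    exact mul_le_of_le_one_left (norm_nonneg _) (chf_norm ψ n)
  have hsB : Summable fun n : ℕ => (chf ψ n * (th n : ℂ)) * (n:ℂ)^(-s0) := by
    refine Summable.of_norm_bounded (summable_th hs0mem).norm ?_
    intro n
    rw [mul_assoc, norm_mul]
    exact mul_le_of_le_one_left (norm_nonneg _) (chf_norm ψ n)
  have h7 : ‖(∑' n : ℕ, (chf ψ n * ((ArithmeticFunction.vonMangoldt n : ℝ) : ℂ)) * (n:ℂ)^(-s0)) -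
      ∑' n : ℕ, (chf ψ n * (th n : ℂ)) * (n:ℂ)^(-s0)‖ ≤ ∑' n : ℕ, (if n.Prime then 0 else
    ArithmeticFunction.vonMangoldt.residueClass (0 : ZMod 1) n) / (n:ℝ) := by
    rw [← hsA.tsum_sub hsB]
    apply tsum_of_norm_bounded hsum.hasSum
    intro n
    rw [hres]
    by_cases hp : n.Prime
    · simp [th, hp, ArithmeticFunction.vonMangoldt_apply_prime hp]
    · simp only [th, hp, if_false]
      rcases Nat.eq_zero_or_pos n with rfl | hn
      · simp
      rw [Complex.ofReal_zero, mul_zero, zero_mul, sub_zero, norm_mul, norm_mul, Complex.norm_real,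
        Real.norm_of_nonneg ArithmeticFunction.vonMangoldt_nonneg, norm_cpow_neg_nat hn, div_eq_mul_inv]
      have h8 : (n:ℝ) ^ (-s0.re) ≤ (n:ℝ)⁻¹ := by
        rw [← Real.rpow_neg_one]
        apply Real.rpow_le_rpow_of_exponent_le
        · exact_mod_cast hn
        · linarith
      have h9 : (0:ℝ) ≤ ArithmeticFunction.vonMangoldt n := ArithmeticFunction.vonMangoldt_nonneg
      calc ‖chf ψ n‖ * ArithmeticFunction.vonMangoldt n * (n:ℝ) ^ (-s0.re)
          ≤ 1 * ArithmeticFunction.vonMangoldt n * (n:ℝ)⁻¹ := by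
            gcongr
            exact chf_norm ψ n
        _ = ArithmeticFunction.vonMangoldt n * (n:ℝ)⁻¹ := by rw [one_mul]
  rw [← h3] at h7
  have h8 := (abs_le.mp ((Complex.abs_re_le_norm _).trans h7)).1
  rw [Complex.sub_re] at h8
  linarith

end

end Pool.Agent.H91.Edge
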