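import Mathlib
import Pool.Agent.H91.Edge.Twist
import Pool.Agent.H91.Edge.LogD

open Complex Filter Topology

namespace Pool.Agent.H91.Edge

variable {ι : Type*}

/-- duality with twists -/
lemma dual_tw {f : ℕ → ℂ} {b : ℝ} (H : Adm f b) {h : ℝ} (hh : 0 < h) (J : Finset ι) (c : ι → ℕ → ℂ)
    (hc : ∀ j n, ‖c j n‖ ≤ 1) (t : ι → ℝ) :
    ‖∑ j ∈ J, D (fun n => (c j n * f n) * (th n : ℂ)) (1 + (h:ℂ) + t j * I)‖ ≤
      b * (Real.sqrt (kap h) * Real.sqrt (∑ j ∈ J, ∑ k ∈ J,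
        (∑' n : ℕ, ((c j n * (starRingEnd ℂ) (c k n)) * (th n : ℂ)) *
          (n:ℂ)^(-(1 + (h:ℂ) + ((t j - t k : ℝ):ℂ) * I))).re)) := by
  set z : ι → ℂ := fun j => 1 + (h:ℂ) + t j * I with hz
  set W : ℕ → ℂ := fun n => ∑ j ∈ J, c j n * (n:ℂ)^(-(z j)) with hW
  set A : ℕ → ℝ := fun n => Real.sqrt (th n * (n:ℝ)^(-(1+h))) with hA
  set B : ℕ → ℝ := fun n => Real.sqrt (th n * (n:ℝ)^(1+h)) * ‖W n‖ with hB
  have hzre : ∀ j, 1 < (z j).re := by
    intro j
    simp [hz]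
    exact hh
  have hsm : ∀ j, Summable fun n : ℕ => ((c j n * f n) * (th n : ℂ)) * (n:ℂ)^(-(z j)) := by
    intro j
    refine Summable.of_norm_bounded ((summable_th (hzre j)).norm.mul_left b) ?_
    intro n
    rw [mul_assoc, norm_mul, norm_mul]
    apply mul_le_mul_of_nonneg_right _ (norm_nonneg _)
    calc ‖c j n‖ * ‖f n‖ ≤ 1 * b := mul_le_mul (hc j n) (H.bd n) (norm_nonneg _) zero_le_one
      _ = b := one_mul b
  have e1 : ∑ j ∈ J, D (fun n => (c j n * f n) * (th n : ℂ)) (z j) = ∑' n : ℕ, (f n * (th n : ℂ)) * W n := by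
    have e2 : ∀ n : ℕ, (f n * (th n : ℂ)) * W n = ∑ j ∈ J, ((c j n * f n) * (th n : ℂ)) * (n:ℂ)^(-(z j)) := by
      intro n
      rw [hW, Finset.mul_sum]
      apply Finset.sum_congr rfl
      intro j _
      ring
    simp_rw [e2]
    rw [Summable.tsum_finsetSum (fun j _ => hsm j)]
    rfl
  -- the square of B
  have hBsq : ∀ n : ℕ, ((B n ^ 2 : ℝ) : ℂ) = ∑ j ∈ J, ∑ k ∈ J,
      ((c j n * (starRingEnd ℂ) (c k n)) * (th n : ℂ)) * (n:ℂ)^(-(1 + (h:ℂ) + ((t j - t k : ℝ):ℂ) * I)) := by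
    intro n
    rcases Nat.eq_zero_or_pos n with rfl | hn
    · simp [hB, th_zero]
    have hn0 : (n:ℂ) ≠ 0 := by exact_mod_cast hn.ne'
    have h1 : B n ^ 2 = th n * (n:ℝ)^(1+h) * ‖W n‖ ^ 2 := by
      rw [hB]
      simp only
      rw [mul_pow, Real.sq_sqrt (mul_nonneg (th_nonneg n) (by positivity))]
    rw [h1]
    have h2 : ((‖W n‖ ^ 2 : ℝ) : ℂ) = ∑ j ∈ J, ∑ k ∈ J, (c j n * (starRingEnd ℂ) (c k n)) *
        ((n:ℂ)^(-(z j)) * (n:ℂ)^(-((starRingEnd ℂ) (z k)))) := by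
      rw [Complex.ofReal_pow, ← Complex.mul_conj', hW]
      simp only
      rw [map_sum, Finset.sum_mul_sum]
      apply Finset.sum_congr rfl
      intro j _
      apply Finset.sum_congr rfl
      intro k _
      rw [map_mul, conj_cpow_nat, map_neg]
      ring
    rw [Complex.ofReal_mul, h2, Finset.mul_sum]
    apply Finset.sum_congr rfl
    intro j _
    rw [Finset.mul_sum]
    apply Finset.sum_congr rfl
    intro k _
    have h3 : (n:ℂ)^(-(1 + (h:ℂ) + ((t j - t k : ℝ):ℂ) * I))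
        = ((n:ℝ)^(1+h) : ℝ) * ((n:ℂ)^(-(z j)) * (n:ℂ)^(-((starRingEnd ℂ) (z k)))) := by
      rw [norm_cpow_eq hn, ← Complex.cpow_add _ _ hn0, ← Complex.cpow_add _ _ hn0]
      congr 1
      simp only [hz, map_add, map_one, map_mul, Complex.conj_ofReal, Complex.conj_I]
      push_cast
      ring
    rw [h3]
    push_cast
    ring
  have hkre : ∀ j k, 1 < ((1:ℂ) + (h:ℂ) + ((t j - t k : ℝ):ℂ) * I).re := by
    intro j k
    simp
    exact hh
  have hks : ∀ j k, Summable fun n : ℕ => ((c j n * (starRingEnd ℂ) (c k n)) * (th n : ℂ)) *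
      (n:ℂ)^(-(1 + (h:ℂ) + ((t j - t k : ℝ):ℂ) * I)) := by
    intro j k
    refine Summable.of_norm_bounded (summable_th (hkre j k)).norm ?_
    intro n
    rw [mul_assoc, norm_mul]
    apply mul_le_of_le_one_left (norm_nonneg _)
    rw [norm_mul, RCLike.norm_conj]
    exact mul_le_one₀ (hc j n) (norm_nonneg _) (hc k n)
  have hsumB : Summable fun n => ((B n ^ 2 : ℝ) : ℂ) := by
    simp_rw [hBsq]
    exact summable_sum fun j _ => summable_sum fun k _ => hks j k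
  have hsumB' : Summable fun n => B n ^ 2 := by exact_mod_cast hsumB
  have hBtot : ∑' n, B n ^ 2 = ∑ j ∈ J, ∑ k ∈ J, (∑' n : ℕ, ((c j n * (starRingEnd ℂ) (c k n)) * (th n : ℂ)) *
          (n:ℂ)^(-(1 + (h:ℂ) + ((t j - t k : ℝ):ℂ) * I))).re := by
    have h1 : ((∑' n, B n ^ 2 : ℝ) : ℂ) = ∑ j ∈ J, ∑ k ∈ J, ∑' n : ℕ,
        ((c j n * (starRingEnd ℂ) (c k n)) * (th n : ℂ)) * (n:ℂ)^(-(1 + (h:ℂ) + ((t j - t k : ℝ):ℂ) * I)) := by
      rw [Complex.ofReal_tsum]
      simp_rw [hBsq]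
      rw [Summable.tsum_finsetSum (fun j _ => summable_sum fun k _ => hks j k)]
      apply Finset.sum_congr rfl
      intro j _
      rw [Summable.tsum_finsetSum (fun k _ => hks j k)]
    have h2 := congrArg Complex.re h1
    rw [Complex.ofReal_re] at h2
    rw [h2, Complex.re_sum]
    apply Finset.sum_congr rfl
    intro j _
    rw [Complex.re_sum]
  -- the square of A
  have hAsq : ∀ n : ℕ, A n ^ 2 = th n * (n:ℝ)^(-(1+h)) := by
    intro n
    rw [hA]
    simp only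
    rw [Real.sq_sqrt (mul_nonneg (th_nonneg n) (by positivity))]
  have hsumA' : Summable fun n => A n ^ 2 := by
    simp_rw [hAsq]
    exact summable_kap hh
  have hAtot : ∑' n, A n ^ 2 = kap h := by
    simp_rw [hAsq]
    rfl
  have hA0 : ∀ n, 0 ≤ A n := fun n => Real.sqrt_nonneg _
  have hB0 : ∀ n, 0 ≤ B n := fun n => mul_nonneg (Real.sqrt_nonneg _) (norm_nonneg _)
  have hAB := tsum_mul_le_sqrt hA0 hB0 hsumA' hsumB'
  have hABs := summable_mul_of_sq hA0 hB0 hsumA' hsumB'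
  have hterm : ∀ n : ℕ, ‖(f n * (th n : ℂ)) * W n‖ ≤ b * (A n * B n) := by
    intro n
    rcases Nat.eq_zero_or_pos n with rfl | hn
    · simp [th_zero, hA, hB]
    have h1 : A n * B n = th n * ‖W n‖ := by
      rw [hA, hB]
      simp only
      rw [← mul_assoc, ← Real.sqrt_mul (mul_nonneg (th_nonneg n) (by positivity))]
      have h2 : th n * (n:ℝ)^(-(1+h)) * (th n * (n:ℝ)^(1+h)) = th n ^ 2 := by
        have h3 : (n:ℝ)^(-(1+h)) * (n:ℝ)^(1+h) = 1 := by
          rw [← Real.rpow_add (by exact_mod_cast hn)]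
          simp
        calc th n * (n:ℝ)^(-(1+h)) * (th n * (n:ℝ)^(1+h)) = th n ^ 2 * ((n:ℝ)^(-(1+h)) * (n:ℝ)^(1+h)) := by ring
          _ = th n ^ 2 := by rw [h3, mul_one]
      rw [h2, Real.sqrt_sq (th_nonneg n)]
    rw [h1, norm_mul, norm_mul, Complex.norm_real, Real.norm_of_nonneg (th_nonneg n), mul_assoc]
    exact mul_le_mul_of_nonneg_right (H.bd n) (mul_nonneg (th_nonneg n) (norm_nonneg _))
  rw [e1]
  refine (tsum_of_norm_bounded (hABs.mul_left b).hasSum hterm).trans ?_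
  rw [tsum_mul_left, ← hAtot, ← hBtot]
  exact mul_le_mul_of_nonneg_left hAB H.b_nonneg

/-- the product character -/
noncomputable def prodChar {q r : ℕ} (χ : DirichletCharacter ℂ q) (ξ : DirichletCharacter ℂ r) :
    DirichletCharacter ℂ (q * r) :=
  DirichletCharacter.changeLevel (Nat.dvd_mul_right q r) χ *
    (DirichletCharacter.changeLevel (Nat.dvd_mul_left r q) ξ)⁻¹

lemma prodChar_apply {q r : ℕ} [NeZero q] [NeZero r] (χ : DirichletCharacter ℂ q)
    (ξ : DirichletCharacter ℂ r) (n : ℕ) :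
    chf (prodChar χ ξ) n = chf χ n * (starRingEnd ℂ) (chf ξ n) := by
  unfold chf prodChar
  by_cases hn : n.Coprime (q * r)
  · have h1 : IsCoprime (n:ℤ) ((q * r : ℕ) : ℤ) := Nat.isCoprime_iff_coprime.mpr hn
    have h2 := DirichletCharacter.changeLevel_eq_cast_of_dvd' χ (Nat.dvd_mul_right q r) h1
    have h3 := DirichletCharacter.changeLevel_eq_cast_of_dvd' ξ (Nat.dvd_mul_left r q) h1
    rw [Int.cast_natCast, Int.cast_natCast] at h2 h3
    rw [MulChar.mul_apply, h2, ← MulChar.star_apply', h3]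
    rfl
  · have h0 : ¬ IsUnit ((n : ℕ) : ZMod (q * r)) := by
      rw [ZMod.isUnit_iff_coprime]
      exact hn
    rw [MulChar.map_nonunit _ h0]
    rw [Nat.coprime_mul_iff_right, not_and_or] at hn
    rcases hn with hn | hn
    · have h1 : ¬ IsUnit ((n : ℕ) : ZMod q) := by
        rw [ZMod.isUnit_iff_coprime]
        exact hn
      rw [MulChar.map_nonunit _ h1, zero_mul]
    · have h1 : ¬ IsUnit ((n : ℕ) : ZMod r) := by
        rw [ZMod.isUnit_iff_coprime]
        exact hn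
      rw [MulChar.map_nonunit _ h1, map_zero, mul_zero]

lemma prodChar_ne_one {q r : ℕ} [NeZero q] [NeZero r] (χ : DirichletCharacter ℂ q)
    (ξ : DirichletCharacter ℂ r) {n : ℕ} (hn : n.Coprime (q * r)) (hne : chf χ n ≠ chf ξ n) :
    prodChar χ ξ ≠ 1 := by
  intro h
  have h1 := prodChar_apply χ ξ n
  rw [h] at h1
  have h2 : chf (1 : DirichletCharacter ℂ (q * r)) n = 1 := by
    unfold chf
    rw [MulChar.one_apply]
    rw [ZMod.isUnit_iff_coprime]
    exact hn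
  rw [h2] at h1
  have hu : IsUnit ((n:ℕ) : ZMod r) := by
    rw [ZMod.isUnit_iff_coprime]
    exact (Nat.coprime_mul_iff_right.mp hn).2
  have h3 : ‖chf ξ n‖ = 1 := by
    unfold chf
    rw [← hu.unit_spec]
    exact ξ.unit_norm_eq_one _
  have h4 : (starRingEnd ℂ) (chf ξ n) * chf ξ n = 1 := by
    rw [Complex.conj_mul', h3]
    simp
  apply hne
  calc chf χ n = chf χ n * ((starRingEnd ℂ) (chf ξ n) * chf ξ n) := by rw [h4, mul_one]
    _ = (chf χ n * (starRingEnd ℂ) (chf ξ n)) * chf ξ n := by ring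
    _ = chf ξ n := by rw [← h1, one_mul]

lemma kap_le : ∃ C : ℝ, 0 ≤ C ∧ ∀ h : ℝ, 0 < h → h ≤ 1 → kap h ≤ 1 / h + C := by
  obtain ⟨C, hC0, hC⟩ := K_bound 0
  refine ⟨C, hC0, ?_⟩
  intro h h0 h1
  have h2 := hC (1 + (h:ℂ)) (by simp; exact h0) (by simp; linarith) (by simp)
  have h3 : (1 + (h:ℂ)) - 1 = (h:ℂ) := by ring
  rw [h3, ← kap_eq] at h2
  have h4 : ((kap h : ℂ) - 1 / (h:ℂ)) = ((kap h - 1 / h : ℝ) : ℂ) := by push_cast; ring
  rw [h4, Complex.norm_real, Real.norm_eq_abs] at h2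
  have := (abs_le.mp h2).2
  linarith

lemma log_bound {c h u q r : ℝ} (hc0 : 0 < c) (hc1 : c ≤ 1) (h0 : 0 < h) (hhc : h ≤ c) (hq0 : 0 < q)
    (hr0 : 0 < r) (hq : q ≤ Real.exp (c / h)) (hr : r ≤ Real.exp (c / h))
    (hu : |u| ≤ 2 * Real.exp (c / h)) :
    h * (16 * Real.log (200 * (q * r) * (|u| + 3) ^ 2 / h ^ 2)) ≤ 300 * Real.sqrt c := by
  have hh1 : h ≤ 1 := hhc.trans hc1
  set e := Real.exp (c / h) with he
  have he1 : 1 ≤ e := Real.one_le_exp (by positivity)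
  have h1 : 200 * (q * r) * (|u| + 3) ^ 2 / h ^ 2 ≤ Real.exp 9 * e ^ 4 * (h⁻¹) ^ 2 := by
    have a1 : |u| + 3 ≤ 5 * e := by linarith
    have a2 : (|u| + 3) ^ 2 ≤ (5 * e) ^ 2 := pow_le_pow_left₀ (by positivity) a1 2
    have a3 : q * r ≤ e * e := mul_le_mul hq hr hr0.le (by positivity)
    have a4 : (5000:ℝ) ≤ Real.exp 9 := by
      have : (2.7182818283:ℝ) ^ 9 ≤ Real.exp 9 := by
        have h := Real.exp_one_gt_d9
        have h2 : Real.exp 9 = (Real.exp 1) ^ 9 := by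
          rw [← Real.exp_nat_mul]
          norm_num
        rw [h2]
        exact pow_le_pow_left₀ (by norm_num) h.le 9
      refine le_trans ?_ this
      norm_num
    rw [div_eq_mul_inv, inv_pow]
    apply mul_le_mul_of_nonneg_right _ (by positivity)
    calc 200 * (q * r) * (|u| + 3) ^ 2 ≤ 200 * (e * e) * (5 * e) ^ 2 := by gcongr
      _ = 5000 * e ^ 4 := by ring
      _ ≤ Real.exp 9 * e ^ 4 := by gcongr
  have hpos : 0 < 200 * (q * r) * (|u| + 3) ^ 2 / h ^ 2 := by positivity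
  have h2 : Real.log (200 * (q * r) * (|u| + 3) ^ 2 / h ^ 2) ≤ 9 + 4 * (c / h) + 2 * Real.log (h⁻¹) := by
    refine (Real.log_le_log hpos h1).trans ?_
    rw [Real.log_mul (by positivity) (by positivity), Real.log_mul (by positivity) (by positivity),
      Real.log_exp, Real.log_pow, Real.log_pow, he, Real.log_exp]
    push_cast
    linarith
  have h3 : h * Real.log (h⁻¹) ≤ 2 * Real.sqrt h := by
    have hs : 0 < Real.sqrt h := Real.sqrt_pos.mpr h0
    have b1 : Real.log (h⁻¹) ≤ 2 * (Real.sqrt h)⁻¹ := by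
      have b2 : h⁻¹ = ((Real.sqrt h)⁻¹) ^ 2 := by
        rw [inv_pow, Real.sq_sqrt h0.le]
      rw [b2, Real.log_pow]
      push_cast
      have b3 := Real.log_le_sub_one_of_pos (inv_pos.mpr hs)
      linarith
    calc h * Real.log (h⁻¹) ≤ h * (2 * (Real.sqrt h)⁻¹) := mul_le_mul_of_nonneg_left b1 h0.le
      _ = 2 * Real.sqrt h := by
        have : h = Real.sqrt h * Real.sqrt h := (Real.mul_self_sqrt h0.le).symm
        nth_rewrite 1 [this]
        field_simp
  have h4 : Real.sqrt h ≤ Real.sqrt c := Real.sqrt_le_sqrt hhc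
  have h5 : c ≤ Real.sqrt c := by
    have := Real.sqrt_le_one.mpr hc1
    have h6 := Real.mul_self_sqrt hc0.le
    nlinarith [Real.sqrt_nonneg c]
  have h6 : h * (c / h) = c := by field_simp
  calc h * (16 * Real.log (200 * (q * r) * (|u| + 3) ^ 2 / h ^ 2))
      ≤ h * (16 * (9 + 4 * (c / h) + 2 * Real.log (h⁻¹))) := by gcongr
    _ = 144 * h + 64 * (h * (c / h)) + 32 * (h * Real.log (h⁻¹)) := by ring
    _ ≤ 144 * c + 64 * c + 32 * (2 * Real.sqrt c) := by
        rw [h6]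
        have := mul_le_mul_of_nonneg_left (h3.trans (mul_le_mul_of_nonneg_left h4 (by norm_num : (0:ℝ) ≤ 2))) (by norm_num : (0:ℝ) ≤ 32)
        linarith
    _ ≤ 300 * Real.sqrt c := by nlinarith [Real.sqrt_nonneg c]

end Pool.Agent.H91.Edge
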