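import Mathlib
import Pool.Agent.H91.Edge.LP
import Pool.Agent.H91.Edge.Dist1

open Complex MeasureTheory Filter Topology

namespace Pool.Agent.H91.Edge

lemma zeta_real_le {h : ℝ} (h0 : 0 < h) (h1 : h ≤ 1) : ∑' x, zc h x ≤ Real.log (10 / h) := by
  have hs : 1 < (1 + (h:ℂ)).re := by simp; exact h0
  have e1 := zeta_TS h0 0
  have e2 : TS (fun x => (zc h x : ℂ)) fr 0 = ((∑' x, zc h x : ℝ) : ℂ) := by
    unfold TS
    rw [Complex.ofReal_tsum]
    apply tsum_congr
    intro x
    simp
  rw [e2] at e1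
  simp only [Complex.ofReal_zero, zero_mul, add_zero] at e1
  have e3 : ‖riemannZeta (1 + (h:ℂ))‖ ≤ 10 / h := by
    rw [← LSeries_one_eq_riemannZeta hs]
    have hsum : LSeriesSummable (1 : ℕ → ℂ) (1 + (h:ℂ)) :=
      LSeriesSummable_of_bounded_of_one_lt_re (m := 1) (fun n _ => by simp) hs
    unfold LSeries
    exact (norm_tsum_le_tsum_norm hsum.norm).trans (zeta_bound h0 h1)
  rw [← e1, ← Complex.ofReal_exp, Complex.norm_real, Real.norm_of_nonneg (Real.exp_pos _).le] at e3
  rw [Real.le_log_iff_exp_le (by positivity)]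
  exact e3

/-- a prime as an element of the type of primes -/
def mkP (p : ℕ) (hp : p.Prime) : Nat.Primes := ⟨p, hp⟩

/-- Mertens upper bound -/
lemma mertens : ∃ A : ℝ, 1 ≤ A ∧ ∀ (x : ℝ), 3 ≤ x → ∀ S : Finset ℕ, (∀ p ∈ S, p.Prime ∧ (p:ℝ) ≤ x) →
    ∏ p ∈ S, (1 - (p:ℝ)⁻¹)⁻¹ ≤ A * Real.log x := by
  obtain ⟨C, hC0, hC⟩ := kap_le
  refine ⟨10 * Real.exp (2 * Real.exp 1 * (1 + C)), ?_, ?_⟩
  · have : 1 ≤ Real.exp (2 * Real.exp 1 * (1 + C)) := Real.one_le_exp (by positivity)
    linarith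
  intro x hx S hS
  have hlog : 1 ≤ Real.log x := by
    rw [Real.le_log_iff_exp_le (by linarith)]
    exact (Real.exp_one_lt_d9.le.trans (by norm_num)).trans hx
  set h : ℝ := 1 / Real.log x with hh
  have hlog0 : 0 < Real.log x := by linarith
  have h0 : 0 < h := by positivity
  have h1 : h ≤ 1 := by rw [hh, div_le_one hlog0]; exact hlog
  have hxh : x ^ h = Real.exp 1 := by
    rw [Real.rpow_def_of_pos (by linarith), hh]
    congr 1
    field_simp
  -- per prime inequality
  have key : ∀ p ∈ S, Real.log ((1 - (p:ℝ)⁻¹)⁻¹) ≤ -Real.log (1 - (p:ℝ) ^ (-(1 + h))) +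
      2 * h * Real.exp 1 * (th p * (p:ℝ) ^ (-(1 + h))) := by
    intro p hp
    obtain ⟨hpp, hpx⟩ := hS p hp
    have hp2 : (2:ℝ) ≤ p := by exact_mod_cast hpp.two_le
    have hp0 : (0:ℝ) < p := by linarith
    set a : ℝ := (p:ℝ)⁻¹ with ha
    set c : ℝ := (p:ℝ) ^ (-(1 + h)) with hc
    have ha1 : a ≤ 1/2 := by
      rw [ha, inv_le_comm₀ hp0 (by norm_num)]
      norm_num
      exact hpp.two_le
    have ha0 : 0 < a := by positivity
    have hc0 : 0 < c := by positivity
    have hca : c = a * (p:ℝ) ^ (-h) := by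
      rw [hc, ha, ← Real.rpow_neg_one, ← Real.rpow_add hp0]
      congr 1
      ring
    have hph : (p:ℝ) ^ (-h) ≤ 1 := Real.rpow_le_one_of_one_le_of_nonpos (by linarith) (by linarith)
    have hc1 : c ≤ a := by
      rw [hca]
      exact mul_le_of_le_one_right ha0.le hph
    have hexp : 1 - (p:ℝ) ^ (-h) ≤ h * Real.log p := by
      rw [Real.rpow_def_of_pos hp0]
      have := Real.add_one_le_exp (Real.log p * -h)
      linarith
    have hlogp : 0 ≤ Real.log p := Real.log_nonneg (by linarith)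
    have h3 : Real.log ((1 - a)⁻¹) + Real.log (1 - c) ≤ 2 * (a - c) := by
      rw [← Real.log_mul (by apply inv_ne_zero; linarith) (by linarith)]
      have hne : (1 - a) ≠ 0 := by
        have : 0 < 1 - a := by linarith
        exact this.ne'
      have h4 : (1 - a)⁻¹ * (1 - c) = 1 + (a - c) / (1 - a) := by
        field_simp
        ring
      rw [h4]
      have h5 := Real.log_le_sub_one_of_pos (x := 1 + (a - c) / (1 - a)) (by
        have : 0 ≤ (a - c) / (1 - a) := div_nonneg (by linarith) (by linarith)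
        linarith)
      have h6 : (a - c) / (1 - a) ≤ 2 * (a - c) := by
        rw [div_le_iff₀ (by linarith)]
        nlinarith
      linarith
    have h7 : a ≤ Real.exp 1 * c := by
      have h8 : (p:ℝ) ^ h ≤ Real.exp 1 := by
        rw [← hxh]
        exact Real.rpow_le_rpow hp0.le hpx h0.le
      have h9 : a = c * (p:ℝ) ^ h := by
        rw [hc, ha, ← Real.rpow_neg_one, ← Real.rpow_add hp0]
        congr 1
        ring
      rw [h9, mul_comm]
      exact mul_le_mul_of_nonneg_right h8 hc0.le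
    have hth : th p = Real.log p := by
      unfold th
      rw [if_pos hpp]
    rw [hth]
    have h10 : a - c ≤ h * Real.exp 1 * (Real.log p * c) := by
      calc a - c = a * (1 - (p:ℝ) ^ (-h)) := by rw [hca]; ring
        _ ≤ a * (h * Real.log p) := mul_le_mul_of_nonneg_left hexp ha0.le
        _ ≤ (Real.exp 1 * c) * (h * Real.log p) := mul_le_mul_of_nonneg_right h7 (by positivity)
        _ = h * Real.exp 1 * (Real.log p * c) := by ring
    linarith
  have hsum1 : ∑ p ∈ S, -Real.log (1 - (p:ℝ) ^ (-(1 + h))) ≤ Real.log (10 / h) := by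
    refine le_trans ?_ (zeta_real_le h0 h1)
    have hs := summable_zc h0
    have e1 : ∑' x, zc h x = ∑' p : Nat.Primes, -Real.log (1 - ((p:ℕ):ℝ) ^ (-(1 + h))) := by
      rw [hs.tsum_prod]
      apply tsum_congr
      intro p
      exact (hasSum_row (by positivity) (prime_rpow_le_half h0 p)).tsum_eq
    have hs2 : Summable fun p : Nat.Primes => -Real.log (1 - ((p:ℕ):ℝ) ^ (-(1 + h))) := by
      have h5 := hs.prod
      refine h5.congr ?_
      intro p
      exact (hasSum_row (by positivity) (prime_rpow_le_half h0 p)).tsum_eq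
    rw [e1]
    have hnn : ∀ p : Nat.Primes, 0 ≤ -Real.log (1 - ((p:ℕ):ℝ) ^ (-(1 + h))) := fun p =>
      (hasSum_row (by positivity) (prime_rpow_le_half h0 p)).nonneg (fun k => by positivity)
    have hfin : ∀ S : Finset ℕ, (∀ p ∈ S, p.Prime) → ∃ S' : Finset Nat.Primes,
        ∑ p ∈ S, -Real.log (1 - (p:ℝ) ^ (-(1 + h))) = ∑ p ∈ S', -Real.log (1 - ((p:ℕ):ℝ) ^ (-(1 + h))) := by
      intro S hS
      refine ⟨S.attach.image (fun p => mkP p.1 (hS p.1 p.2)), ?_⟩
      rw [Finset.sum_image]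
      · rw [← Finset.sum_attach]
        rfl
      · intro p _ q _ hpq
        have := congrArg (fun r : Nat.Primes => (r : ℕ)) hpq
        exact Subtype.ext this
    obtain ⟨S', h6⟩ := hfin S (fun p hp => (hS p hp).1)
    rw [h6]
    exact hs2.sum_le_tsum S' fun p _ => hnn p
  have hsum2 : ∑ p ∈ S, th p * (p:ℝ) ^ (-(1 + h)) ≤ 1 / h + C := by
    refine le_trans ?_ (hC h h0 h1)
    unfold kap
    apply (summable_kap h0).sum_le_tsum
    intro n _
    exact mul_nonneg (th_nonneg n) (by positivity)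
  have hlogprod : Real.log (∏ p ∈ S, (1 - (p:ℝ)⁻¹)⁻¹) ≤ Real.log (10 / h) + 2 * Real.exp 1 * (1 + C) := by
    rw [Real.log_prod (fun p hp => by
      have hp2 : (2:ℝ) ≤ p := by exact_mod_cast (hS p hp).1.two_le
      apply inv_ne_zero
      have : (p:ℝ)⁻¹ < 1 := inv_lt_one_of_one_lt₀ (by linarith)
      linarith)]
    refine (Finset.sum_le_sum key).trans ?_
    rw [Finset.sum_add_distrib, ← Finset.mul_sum]
    have h8 : 2 * h * Real.exp 1 * ∑ p ∈ S, th p * (p:ℝ) ^ (-(1 + h)) ≤ 2 * h * Real.exp 1 * (1 / h + C) :=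
      mul_le_mul_of_nonneg_left hsum2 (by positivity)
    have h9 : 2 * h * Real.exp 1 * (1 / h + C) ≤ 2 * Real.exp 1 * (1 + C) := by
      have e : 2 * h * Real.exp 1 * (1 / h + C) = 2 * Real.exp 1 * (1 + h * C) := by
        field_simp
      rw [e]
      apply mul_le_mul_of_nonneg_left _ (by positivity)
      nlinarith
    linarith
  have hprodpos : 0 < ∏ p ∈ S, (1 - (p:ℝ)⁻¹)⁻¹ := by
    apply Finset.prod_pos
    intro p hp
    have hp2 : (2:ℝ) ≤ p := by exact_mod_cast (hS p hp).1.two_le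
    apply inv_pos.mpr
    have : (p:ℝ)⁻¹ < 1 := inv_lt_one_of_one_lt₀ (by linarith)
    linarith
  rw [Real.log_le_iff_le_exp hprodpos] at hlogprod
  refine hlogprod.trans ?_
  rw [Real.exp_add, Real.exp_log (by positivity)]
  have : 10 / h = 10 * Real.log x := by rw [hh]; field_simp
  rw [this]
  apply le_of_eq
  ring

end Pool.Agent.H91.Edge
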