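import Mathlib
import Pool.Agent.H91.Edge.Ext1
import Pool.Agent.H91.Edge.Dist4

open Complex MeasureTheory Filter Topology

namespace Pool.Agent.H91.Edge

open Pool.Agent.H89.EdgeBasic

attribute [local instance] instMeasureSpaceUnitAddCircle_pool
attribute [local instance] instIsProbabilityMeasureUnitAddCircleVolume_pool

noncomputable section

lemma int_fourier (n : ℤ) : ∫ x : UnitAddCircle, fourier n x = if n = 0 then 1 else 0 := by
  have h := orthonormal_iff_ite.mp (orthonormal_fourier (T := (1:ℝ))) 0 n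
  simp only [ContinuousMap.inner_toLp, fourier_zero] at h
  have h2 : ∀ x : UnitAddCircle, (fourier n x : ℂ) * (starRingEnd ℂ) (1:ℂ) = fourier n x := by
    intro x
    simp
  simp_rw [h2] at h
  have h3 : ∫ x : UnitAddCircle, fourier n x = ∫ x, fourier n x ∂(AddCircle.haarAddCircle (T := (1:ℝ))) := rfl
  rw [h3, h]
  simp only [eq_comm]

section localfactor

variable {Q : Polynomial ℂ} {b : ℕ} {w : ℂ} {ε : ℝ}

/-- the circle coordinate -/
def ec (x : UnitAddCircle) : ℂ := (AddCircle.toCircle x : ℂ)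

lemma norm_ec (x : UnitAddCircle) : ‖ec x‖ = 1 := Circle.norm_coe _

lemma continuous_ec : Continuous ec := continuous_subtype_val.comp AddCircle.continuous_toCircle

lemma ec_pow (x : UnitAddCircle) (k : ℕ) : ec x ^ k = fourier (k:ℤ) x := by
  rw [fourier_apply, natCast_zsmul, AddCircle.toCircle_nsmul]
  simp [ec]

lemma norm_div_root (hz : ∀ r ∈ Q.roots, ‖w / r‖ ≤ ε) (x : UnitAddCircle) :
    ∀ r ∈ Q.roots, ‖ec x * w / r‖ ≤ ε := by
  intro r hr
  rw [mul_div_assoc, norm_mul, norm_ec, one_mul]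
  exact hz r hr

lemma norm_ps (hdeg : Q.natDegree ≤ b) (hz : ∀ r ∈ Q.roots, ‖w / r‖ ≤ ε) (hε : 0 ≤ ε) (k : ℕ) :
    ‖ps Q k * w ^ k‖ ≤ b * ε ^ k := by
  have e : ps Q k * w ^ k = (Q.roots.map fun r => (w / r) ^ k).sum := by
    unfold ps
    rw [← Multiset.sum_map_mul_right]
    congr 1
    apply Multiset.map_congr rfl
    intro r _
    rw [div_eq_mul_inv, mul_pow, mul_comm]
  rw [e]
  refine (norm_multiset_sum_le _).trans ?_
  rw [Multiset.map_map]
  have h2 : ∀ y ∈ (Q.roots.map ((fun x : ℂ => ‖x‖) ∘ fun r => (w / r) ^ k)), y ≤ ε ^ k := by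
    intro y hy
    rw [Multiset.mem_map] at hy
    obtain ⟨r, hr, rfl⟩ := hy
    simp only [Function.comp, norm_pow]
    exact pow_le_pow_left₀ (norm_nonneg _) (hz r hr) k
  refine (Multiset.sum_le_card_nsmul _ _ h2).trans ?_
  rw [Multiset.card_map, nsmul_eq_mul]
  have h8 : (Multiset.card Q.roots : ℝ) ≤ b := by
    exact_mod_cast (Polynomial.card_roots' Q).trans hdeg
  gcongr

lemma norm_W (hdeg : Q.natDegree ≤ b) (hz : ∀ r ∈ Q.roots, ‖w / r‖ ≤ ε) (hε0 : 0 ≤ ε) (hε : ε ≤ 1/2)
    (x : UnitAddCircle) : ‖locLog Q (ec x * w)‖ ≤ 2 * (b * ε) := by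
  have h1 := norm_locLog_sub Q b hdeg (ec x * w) ε hε (norm_div_root hz x)
  have h2 : ‖tr Q * (ec x * w)‖ ≤ b * ε := by
    have h3 := norm_ps hdeg hz hε0 1
    rw [pow_one, pow_one] at h3
    have h4 : tr Q = ps Q 1 := by
      unfold tr ps
      simp
    rw [h4]
    have h5 : ps Q 1 * (ec x * w) = ec x * (ps Q 1 * w) := by ring
    rw [h5, norm_mul, norm_ec, one_mul]
    exact h3
  have h6 : locLog Q (ec x * w) = (locLog Q (ec x * w) - tr Q * (ec x * w)) + tr Q * (ec x * w) := by ring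
  rw [h6]
  refine (norm_add_le _ _).trans ?_
  have hb : (0:ℝ) ≤ b := Nat.cast_nonneg b
  have h7 : (b:ℝ) * ε ^ 2 ≤ b * ε := by
    apply mul_le_mul_of_nonneg_left _ hb
    nlinarith
  linarith

lemma hasSum_W (hz : ∀ r ∈ Q.roots, ‖w / r‖ ≤ ε) (hε : ε ≤ 1/2) (x : UnitAddCircle) :
    HasSum (fun k : ℕ => (ps Q k * w ^ k / k) * fourier (k:ℤ) x) (locLog Q (ec x * w)) := by
  have h := locLog_hasSum Q (ec x * w) (fun r hr => (norm_div_root hz x r hr).trans_lt (by linarith))
  refine h.congr_fun ?_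
  intro k
  rw [mul_pow, ec_pow]
  ring

lemma int_W (hdeg : Q.natDegree ≤ b) (hz : ∀ r ∈ Q.roots, ‖w / r‖ ≤ ε) (hε0 : 0 ≤ ε) (hε : ε ≤ 1/2) :
    ∫ x : UnitAddCircle, locLog Q (ec x * w) = 0 := by
  have hF : ∀ k : ℕ, Integrable (fun x : UnitAddCircle => (ps Q k * w ^ k / k) * fourier (k:ℤ) x) := by
    intro k
    apply Integrable.mono' (integrable_const ‖ps Q k * w ^ k / k‖)
    · apply Continuous.aestronglyMeasurable
      fun_prop
    · filter_upwards with x
      rw [norm_mul, fourier_apply, Circle.norm_coe, mul_one]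
  have hn : ∀ k : ℕ, ‖ps Q k * w ^ k / k‖ ≤ b * ε ^ k := by
    intro k
    rcases Nat.eq_zero_or_pos k with rfl | hk
    · simp
    · rw [norm_div, Complex.norm_natCast]
      have hk1 : (1:ℝ) ≤ k := by exact_mod_cast hk
      have h1 := norm_ps hdeg hz hε0 k
      rw [div_le_iff₀ (by linarith)]
      have h2 : 0 ≤ (b:ℝ) * ε ^ k := by positivity
      nlinarith
  have hs : Summable fun k : ℕ => ∫ x : UnitAddCircle, ‖(ps Q k * w ^ k / k) * fourier (k:ℤ) x‖ := by
    have h1 : ∀ k : ℕ, ∫ x : UnitAddCircle, ‖(ps Q k * w ^ k / k) * fourier (k:ℤ) x‖ = ‖ps Q k * w ^ k / k‖ := by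
      intro k
      have : ∀ x : UnitAddCircle, ‖(ps Q k * w ^ k / k) * fourier (k:ℤ) x‖ = ‖ps Q k * w ^ k / k‖ := by
        intro x
        rw [norm_mul, fourier_apply, Circle.norm_coe, mul_one]
      simp_rw [this]
      simp
    simp_rw [h1]
    refine Summable.of_nonneg_of_le (fun _ => norm_nonneg _) hn ?_
    exact (summable_geometric_of_lt_one hε0 (by linarith)).mul_left _
  have h := hasSum_integral_of_summable_integral_norm hF hs
  have e1 : ∀ x : UnitAddCircle, ∑' k : ℕ, (ps Q k * w ^ k / k) * fourier (k:ℤ) x = locLog Q (ec x * w) :=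
    fun x => (hasSum_W hz hε x).tsum_eq
  simp_rw [e1] at h
  have e2 : ∀ k : ℕ, ∫ x : UnitAddCircle, (ps Q k * w ^ k / k) * fourier (k:ℤ) x = 0 := by
    intro k
    rw [integral_const_mul, int_fourier]
    rcases Nat.eq_zero_or_pos k with rfl | hk
    · simp
    · rw [if_neg (by exact_mod_cast hk.ne'), mul_zero]
  simp_rw [e2] at h
  exact h.unique hasSum_zero

/-- local moment -/
lemma local_eq (h0 : Q.eval 0 = 1) (hz : ∀ r ∈ Q.roots, ‖w / r‖ ≤ ε) (hε : ε ≤ 1/2) (l : ℝ)
    (x : UnitAddCircle) : ‖(Q.eval (ec x * w))⁻¹‖ ^ l = Real.exp (l * (locLog Q (ec x * w)).re) := by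
  rw [← exp_locLog Q h0 (ec x * w) (fun r hr => (norm_div_root hz x r hr).trans_lt (by linarith)),
    Complex.norm_exp, ← Real.exp_mul, mul_comm]

lemma continuous_W (hdeg : Q.natDegree ≤ b) (hz : ∀ r ∈ Q.roots, ‖w / r‖ ≤ ε)
    (hε0 : 0 ≤ ε) (hε : ε ≤ 1/2) : Continuous fun x : UnitAddCircle => locLog Q (ec x * w) := by
  have hn : ∀ k : ℕ, ‖ps Q k * w ^ k / k‖ ≤ b * ε ^ k := by
    intro k
    rcases Nat.eq_zero_or_pos k with rfl | hk
    · simp
    · rw [norm_div, Complex.norm_natCast]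
      have hk1 : (1:ℝ) ≤ k := by exact_mod_cast hk
      have h1 := norm_ps hdeg hz hε0 k
      rw [div_le_iff₀ (by linarith)]
      have h2 : 0 ≤ (b:ℝ) * ε ^ k := by positivity
      nlinarith
  have e1 : (fun x : UnitAddCircle => locLog Q (ec x * w)) = fun x => ∑' k : ℕ, (ps Q k * w ^ k / k) * fourier (k:ℤ) x := by
    funext x
    exact (hasSum_W hz hε x).tsum_eq.symm
  rw [e1]
  apply continuous_tsum (u := fun k : ℕ => (b:ℝ) * ε ^ k)
  · intro k
    fun_prop
  · exact (summable_geometric_of_lt_one hε0 (by linarith)).mul_left _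
  · intro k x
    rw [norm_mul, fourier_apply, Circle.norm_coe, mul_one]
    exact hn k

lemma local_moment (h0 : Q.eval 0 = 1) (hdeg : Q.natDegree ≤ b) (hz : ∀ r ∈ Q.roots, ‖w / r‖ ≤ ε)
    (hε0 : 0 ≤ ε) (hε : ε ≤ 1/2) (l : ℝ) (hl : |l| * (2 * (b * ε)) ≤ 1) :
    ∫ x : UnitAddCircle, ‖(Q.eval (ec x * w))⁻¹‖ ^ l ≤ 1 + (|l| * (2 * (b * ε))) ^ 2 := by
  simp_rw [local_eq h0 hz hε]
  set M : ℝ := |l| * (2 * (b * ε)) with hM
  have hcont := continuous_W hdeg hz hε0 hε
  set W : UnitAddCircle → ℂ := fun x => locLog Q (ec x * w) with hW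
  have hu : ∀ x, |l * (W x).re| ≤ M := by
    intro x
    rw [abs_mul]
    exact mul_le_mul_of_nonneg_left ((Complex.abs_re_le_norm _).trans (norm_W hdeg hz hε0 hε x)) (abs_nonneg _)
  have hc1 : Continuous fun x => l * (W x).re := by fun_prop
  have i1 : Integrable fun x => l * (W x).re :=
    Integrable.mono' (integrable_const M) hc1.aestronglyMeasurable (Eventually.of_forall hu)
  have i2 : Integrable fun x => (l * (W x).re) ^ 2 := by
    apply Integrable.mono' (integrable_const (M ^ 2)) (hc1.pow 2).aestronglyMeasurable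
    filter_upwards with x
    show ‖(l * (W x).re) ^ 2‖ ≤ M ^ 2
    rw [norm_pow]
    exact pow_le_pow_left₀ (norm_nonneg _) (hu x) 2
  have i3 : Integrable fun x => Real.exp (l * (W x).re) := by
    apply Integrable.mono' (integrable_const (Real.exp M)) (Real.continuous_exp.comp hc1).aestronglyMeasurable
    filter_upwards with x
    show ‖Real.exp (l * (W x).re)‖ ≤ Real.exp M
    rw [Real.norm_of_nonneg (Real.exp_pos _).le, Real.exp_le_exp]
    exact (le_abs_self _).trans (hu x)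
  have h1 : ∫ x, Real.exp (l * (W x).re) ≤ ∫ x, (1 + l * (W x).re + (l * (W x).re) ^ 2) := by
    apply integral_mono i3 (((integrable_const 1).add i1).add i2)
    intro x
    have h2 := Real.abs_exp_sub_one_sub_id_le ((hu x).trans hl)
    have h3 := (abs_le.mp h2).2
    show Real.exp (l * (W x).re) ≤ 1 + l * (W x).re + (l * (W x).re) ^ 2
    linarith
  have h4 : ∫ x, (1 + l * (W x).re + (l * (W x).re) ^ 2) = 1 + ∫ x, (l * (W x).re) ^ 2 := by
    rw [integral_add (f := fun x => 1 + l * (W x).re) ((integrable_const 1).add i1) i2,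
      integral_add (integrable_const 1) i1, integral_const_mul]
    have h5 : ∫ x, (W x).re = 0 := by
      have hWi : Integrable W := by
        apply Integrable.mono' (integrable_const (2 * (b * ε))) hcont.aestronglyMeasurable
        exact Eventually.of_forall (norm_W hdeg hz hε0 hε)
      have h6 : ∫ x, (W x).re = (∫ x, W x).re := integral_re hWi
      rw [h6, int_W hdeg hz hε0 hε]
      simp
    rw [h5]
    simp
  have h7 : ∫ x, (l * (W x).re) ^ 2 ≤ M ^ 2 := by
    have h8 : ∫ x, (l * (W x).re) ^ 2 ≤ ∫ _x : UnitAddCircle, M ^ 2 := by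
      apply integral_mono i2 (integrable_const _)
      intro x
      simp only
      rw [← sq_abs]
      exact pow_le_pow_left₀ (abs_nonneg _) (hu x) 2
    simpa using h8
  linarith

lemma local_sup (h0 : Q.eval 0 = 1) (hdeg : Q.natDegree ≤ b) (hz : ∀ r ∈ Q.roots, ‖w / r‖ ≤ ε)
    (hε0 : 0 ≤ ε) (hε : ε ≤ 1/2) (l : ℝ) (x : UnitAddCircle) :
    ‖(Q.eval (ec x * w))⁻¹‖ ^ l ≤ ((1 - ε)⁻¹) ^ ((b:ℝ) * |l|) := by
  have h1e : 0 < 1 - ε := by linarith
  have h1i : 1 ≤ (1 - ε)⁻¹ := (one_le_inv₀ h1e).mpr (by linarith)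
  have key : ‖(Q.eval (ec x * w))⁻¹‖ ≤ (1 - ε)⁻¹ ^ b ∧ ‖Q.eval (ec x * w)‖ ≤ (1 - ε)⁻¹ ^ b := by
    rw [norm_inv, eval_eq_prod Q h0]
    have hS : ∀ S : Multiset ℂ, (∀ r ∈ S, ‖ec x * w / r‖ ≤ ε) →
        ‖(S.map fun r => (1 - ec x * w / r)).prod‖⁻¹ ≤ (1 - ε)⁻¹ ^ (Multiset.card S) ∧
        ‖(S.map fun r => (1 - ec x * w / r)).prod‖ ≤ (1 - ε)⁻¹ ^ (Multiset.card S) := by
      intro S
      induction S using Multiset.induction_on with
      | empty => intro _; simp
      | cons r S ih =>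
        intro hS
        obtain ⟨i1, i2⟩ := ih fun r' hr' => hS r' (Multiset.mem_cons_of_mem hr')
        have hr := hS r (Multiset.mem_cons_self r S)
        rw [Multiset.map_cons, Multiset.prod_cons, norm_mul, Multiset.card_cons, pow_succ]
        have hlo : 1 - ε ≤ ‖1 - ec x * w / r‖ := by
          have := norm_sub_norm_le (1:ℂ) (ec x * w / r)
          rw [norm_one] at this
          linarith
        have hhi : ‖1 - ec x * w / r‖ ≤ (1 - ε)⁻¹ := by
          have h2 := norm_sub_le (1:ℂ) (ec x * w / r)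
          rw [norm_one] at h2
          have h3 : 1 + ε ≤ (1 - ε)⁻¹ := by
            rw [le_inv_comm₀ (by linarith) h1e, ← one_div, le_div_iff₀ (by linarith)]
            nlinarith
          linarith
        constructor
        · rw [mul_inv, mul_comm]
          exact mul_le_mul i1 (inv_anti₀ h1e hlo) (by positivity) (by positivity)
        · rw [mul_comm]
          exact mul_le_mul i2 hhi (norm_nonneg _) (by positivity)
    obtain ⟨i1, i2⟩ := hS Q.roots (norm_div_root hz x)
    have hcard : Multiset.card Q.roots ≤ b := (Polynomial.card_roots' Q).trans hdeg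
    have hmono := pow_le_pow_right₀ h1i hcard
    exact ⟨i1.trans hmono, i2.trans hmono⟩
  have hne : Q.eval (ec x * w) ≠ 0 := by
    have h2 := exp_locLog Q h0 (ec x * w) (fun r hr => (norm_div_root hz x r hr).trans_lt (by linarith))
    intro h3
    rw [h3, inv_zero] at h2
    exact Complex.exp_ne_zero _ h2
  have hpos : 0 < ‖Q.eval (ec x * w)‖ := norm_pos_iff.mpr hne
  rcases le_total 0 l with hl | hl
  · rw [abs_of_nonneg hl, Real.rpow_mul (by positivity), Real.rpow_natCast]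
    exact Real.rpow_le_rpow (norm_nonneg _) key.1 hl
  · rw [abs_of_nonpos hl, Real.rpow_mul (by positivity), Real.rpow_natCast, norm_inv,
      Real.inv_rpow (norm_nonneg _), ← Real.rpow_neg (norm_nonneg _)]
    exact Real.rpow_le_rpow (norm_nonneg _) key.2 (by linarith)

end localfactor

end

end Pool.Agent.H91.Edge
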