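import Mathlib
import Pool.Agent.H91.Edge.Ext2

open Complex MeasureTheory Filter Topology

namespace Pool.Agent.H91.Edge

open Pool.Agent.H89.EdgeBasic

attribute [local instance] instMeasureSpaceUnitAddCircle_pool
attribute [local instance] instIsProbabilityMeasureUnitAddCircleVolume_pool

noncomputable section

variable {N i b : ℕ} {P : ℕ → Polynomial ℂ}

/-- radius at `p` -/
def wp (i p : ℕ) : ℂ := (p:ℂ) ^ (-(1 + (i:ℂ)/2))

lemma wp_root (H : Hyp N i b P) {p : ℕ} (hp : p.Prime) (hpN : ¬ p ∣ N) :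
    ∀ r ∈ (P p).roots, ‖wp i p / r‖ ≤ (p:ℝ)⁻¹ := by
  intro r hr
  have h := root_bound' H ⟨p, hp, hpN⟩ (s := 1 + (i:ℂ)/2) (by simp) hr
  exact h

lemma inv_le_half' {p : ℕ} (hp : p.Prime) : (p:ℝ)⁻¹ ≤ 1/2 := by
  have hp2 : (2:ℝ) ≤ p := by exact_mod_cast hp.two_le
  have hp0 : (0:ℝ) < p := by linarith
  rw [inv_le_comm₀ hp0 (by norm_num)]
  norm_num
  exact hp.two_le

/-- local function -/
def lf (N i : ℕ) (P : ℕ → Polynomial ℂ) (l : ℝ) (p : ℕ) (x : UnitAddCircle) : ℝ :=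
  if p ∣ N then 1 else ‖((P p).eval (ec x * wp i p))⁻¹‖ ^ l

lemma Psi_pow (y : ℕ) (l : ℝ) (x : UnitAddTorus (Nat.primesBelow (y + 1))) :
    ‖Psi N i P y x‖ ^ l = ∏ p : Nat.primesBelow (y + 1), lf N i P l p (x p) := by
  unfold Psi lf
  rw [norm_prod, ← Real.finsetProd_rpow _ _ (fun p _ => norm_nonneg _)]
  apply Finset.prod_congr rfl
  intro p _
  split_ifs
  · simp
  · rfl

lemma lf_nonneg (l : ℝ) (p : ℕ) (x : UnitAddCircle) : 0 ≤ lf N i P l p x := by
  unfold lf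
  split_ifs
  · exact zero_le_one
  · positivity

lemma int_lf_small (H : Hyp N i b P) {p : ℕ} (hp : p.Prime) (l : ℝ) :
    ∫ x : UnitAddCircle, lf N i P l p x ≤ ((1 - (p:ℝ)⁻¹)⁻¹) ^ ((b:ℝ) * |l|) := by
  have hp1 : (1:ℝ) ≤ (1 - (p:ℝ)⁻¹)⁻¹ := by
    have := inv_le_half' hp
    have h2 : (0:ℝ) < (p:ℝ)⁻¹ := by
      have : (0:ℝ) < p := by exact_mod_cast hp.pos
      positivity
    exact (one_le_inv₀ (by linarith)).mpr (by linarith)
  unfold lf
  split_ifs with hpN
  · simp only [integral_const, probReal_univ, smul_eq_mul, mul_one]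
    exact Real.one_le_rpow hp1 (by positivity)
  · have h1 := wp_root H hp hpN
    have h2 : ∀ x, ‖((P p).eval (ec x * wp i p))⁻¹‖ ^ l ≤ ((1 - (p:ℝ)⁻¹)⁻¹) ^ ((b:ℝ) * |l|) := fun x =>
      local_sup (H.h0 p hp hpN) (H.hdeg p hp hpN) h1 (by positivity) (inv_le_half' hp) l x
    have h3 : ∫ x : UnitAddCircle, ‖((P p).eval (ec x * wp i p))⁻¹‖ ^ l ≤
        ∫ _x : UnitAddCircle, ((1 - (p:ℝ)⁻¹)⁻¹) ^ ((b:ℝ) * |l|) := by
      apply integral_mono_of_nonneg
      · filter_upwards with x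
        positivity
      · exact integrable_const _
      · exact Eventually.of_forall h2
    simpa using h3

lemma int_lf_large (H : Hyp N i b P) {p : ℕ} (hp : p.Prime) (l : ℝ) {K : ℕ} (hK : (b:ℝ) * |l| = K)
    (hpK : 2 * K < p) :
    ∫ x : UnitAddCircle, lf N i P l p x ≤ Real.exp (4 * (K:ℝ) ^ 2 * ((p:ℝ) ^ 2)⁻¹) := by
  have hp0 : (0:ℝ) < p := by exact_mod_cast hp.pos
  unfold lf
  split_ifs with hpN
  · simp only [integral_const, probReal_univ, smul_eq_mul, mul_one]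
    exact Real.one_le_exp (by positivity)
  · have h1 := wp_root H hp hpN
    have e : |l| * (2 * (b * (p:ℝ)⁻¹)) = 2 * K * (p:ℝ)⁻¹ := by
      rw [← hK]; ring
    have hle : |l| * (2 * (b * (p:ℝ)⁻¹)) ≤ 1 := by
      rw [e, ← div_eq_mul_inv, div_le_one hp0]
      exact_mod_cast hpK.le
    refine (local_moment (H.h0 p hp hpN) (H.hdeg p hp hpN) h1 (by positivity) (inv_le_half' hp) l hle).trans ?_
    rw [e]
    have h2 := Real.add_one_le_exp (4 * (K:ℝ) ^ 2 * ((p:ℝ) ^ 2)⁻¹)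
    have h3 : (2 * (K:ℝ) * (p:ℝ)⁻¹) ^ 2 = 4 * (K:ℝ) ^ 2 * ((p:ℝ) ^ 2)⁻¹ := by
      rw [mul_pow, mul_pow, inv_pow]; ring
    rw [h3]
    linarith

lemma torus_moment (H : Hyp N i b P) (y : ℕ) {K : ℕ} (hK0 : 0 < K) (l : ℝ) (hK : (b:ℝ) * |l| = K) {A : ℝ}
    (hA1 : 1 ≤ A)
    (hA : ∀ (x : ℝ), 3 ≤ x → ∀ S : Finset ℕ, (∀ p ∈ S, p.Prime ∧ (p:ℝ) ≤ x) →
      ∏ p ∈ S, (1 - (p:ℝ)⁻¹)⁻¹ ≤ A * Real.log x) :
    ∫ x : UnitAddTorus (Nat.primesBelow (y + 1)), ‖Psi N i P y x‖ ^ l ≤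
      (A * Real.exp 2 * Real.log (2 * K + 1)) ^ K := by
  simp_rw [Psi_pow]
  rw [integral_fintype_prod_volume_eq_prod (fun (p : Nat.primesBelow (y + 1)) x => lf N i P l p x)]
  have hKr : (1:ℝ) ≤ K := by exact_mod_cast hK0
  set B : ℕ → ℝ := fun p => if p ≤ 2 * K then ((1 - (p:ℝ)⁻¹)⁻¹) ^ K else Real.exp (4 * (K:ℝ) ^ 2 * ((p:ℝ) ^ 2)⁻¹) with hB
  have h1 : ∏ p : Nat.primesBelow (y + 1), ∫ x : UnitAddCircle, lf N i P l p x ≤ ∏ p : Nat.primesBelow (y + 1), B p := by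
    apply Finset.prod_le_prod
    · intro p _
      exact integral_nonneg fun x => lf_nonneg l p x
    · intro p _
      have hp := prime_of_below p
      simp only [hB]
      split_ifs with h
      · have h2 := int_lf_small H hp l
        rwa [hK, Real.rpow_natCast] at h2
      · exact int_lf_large H hp l hK (not_le.mp h)
  refine h1.trans ?_
  rw [Finset.prod_coe_sort (Nat.primesBelow (y + 1)) B,
    ← Finset.prod_filter_mul_prod_filter_not (Nat.primesBelow (y + 1)) (fun p => p ≤ 2 * K)]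
  have h2 : ∏ p ∈ (Nat.primesBelow (y + 1)).filter (fun p => p ≤ 2 * K), B p ≤ (A * Real.log (2 * K + 1)) ^ K := by
    have e : ∏ p ∈ (Nat.primesBelow (y + 1)).filter (fun p => p ≤ 2 * K), B p =
        (∏ p ∈ (Nat.primesBelow (y + 1)).filter (fun p => p ≤ 2 * K), (1 - (p:ℝ)⁻¹)⁻¹) ^ K := by
      rw [← Finset.prod_pow]
      apply Finset.prod_congr rfl
      intro p hp
      simp only [hB]
      rw [if_pos (Finset.mem_filter.mp hp).2]
    rw [e]
    apply pow_le_pow_left₀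
    · apply Finset.prod_nonneg
      intro p hp
      have hpp := Nat.prime_of_mem_primesBelow (Finset.mem_filter.mp hp).1
      have := inv_le_half' hpp
      apply inv_nonneg.mpr
      linarith
    · apply hA (2 * K + 1) (by linarith)
      intro p hp
      refine ⟨Nat.prime_of_mem_primesBelow (Finset.mem_filter.mp hp).1, ?_⟩
      have : (p:ℝ) ≤ 2 * K := by exact_mod_cast (Finset.mem_filter.mp hp).2
      linarith
  have h3 : ∏ p ∈ (Nat.primesBelow (y + 1)).filter (fun p => ¬ p ≤ 2 * K), B p ≤ (Real.exp 2) ^ K := by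
    have e : ∏ p ∈ (Nat.primesBelow (y + 1)).filter (fun p => ¬ p ≤ 2 * K), B p =
        Real.exp (∑ p ∈ (Nat.primesBelow (y + 1)).filter (fun p => ¬ p ≤ 2 * K), 4 * (K:ℝ) ^ 2 * ((p:ℝ) ^ 2)⁻¹) := by
      rw [Real.exp_sum]
      apply Finset.prod_congr rfl
      intro p hp
      simp only [hB]
      rw [if_neg (Finset.mem_filter.mp hp).2]
    rw [e, ← Real.exp_nat_mul, Real.exp_le_exp, ← Finset.mul_sum]
    have h4 : ∑ p ∈ (Nat.primesBelow (y + 1)).filter (fun p => ¬ p ≤ 2 * K), ((p:ℝ) ^ 2)⁻¹ ≤ (2 * K : ℝ)⁻¹ := by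
      have h5 : (Nat.primesBelow (y + 1)).filter (fun p => ¬ p ≤ 2 * K) ⊆ Finset.Ioc (2 * K) (max (2 * K) y) := by
        intro p hp
        obtain ⟨hp1, hp2⟩ := Finset.mem_filter.mp hp
        have hp3 := Nat.lt_of_mem_primesBelow hp1
        rw [Finset.mem_Ioc]
        omega
      refine (Finset.sum_le_sum_of_subset_of_nonneg h5 (fun p _ _ => by positivity)).trans ?_
      have h6 := sum_Ioc_inv_sq_le_sub (α := ℝ) (k := 2 * K) (n := max (2 * K) y) (by omega) (le_max_left _ _)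
      refine h6.trans ?_
      have : (0:ℝ) ≤ ((max (2 * K) y : ℕ) : ℝ)⁻¹ := by positivity
      push_cast at this ⊢
      linarith
    calc 4 * (K:ℝ) ^ 2 * ∑ p ∈ (Nat.primesBelow (y + 1)).filter (fun p => ¬ p ≤ 2 * K), ((p:ℝ) ^ 2)⁻¹
        ≤ 4 * (K:ℝ) ^ 2 * (2 * K : ℝ)⁻¹ := mul_le_mul_of_nonneg_left h4 (by positivity)
      _ = K * 2 := by field_simp; ring
  have hlog0 : 0 ≤ A * Real.log (2 * K + 1) := by
    have : 0 ≤ Real.log (2 * (K:ℝ) + 1) := Real.log_nonneg (by linarith)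
    positivity
  calc _ ≤ (A * Real.log (2 * K + 1)) ^ K * (Real.exp 2) ^ K := by
        apply mul_le_mul h2 h3
        · apply Finset.prod_nonneg
          intro p hp
          simp only [hB]
          rw [if_neg (Finset.mem_filter.mp hp).2]
          exact (Real.exp_pos _).le
        · positivity
    _ = (A * Real.exp 2 * Real.log (2 * K + 1)) ^ K := by rw [← mul_pow]; ring

/-- test functions -/
def phiT (V l : ℝ) (z : Unit → ℂ) : ℂ := ((min 1 (‖z ()‖ ^ l * V ^ (-|l|)) : ℝ) : ℂ)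

lemma phiT_cont (V l : ℝ) : ContinuousOn (phiT V l) {z | ∀ k, z k ≠ 0} := by
  unfold phiT
  apply Complex.continuous_ofReal.comp_continuousOn
  apply ContinuousOn.inf continuousOn_const
  apply ContinuousOn.mul _ continuousOn_const
  apply ContinuousOn.rpow_const
  · exact (continuous_norm.comp (continuous_apply ())).continuousOn
  · intro z hz
    left
    exact norm_ne_zero_iff.mpr (hz ())

lemma phiT_bd {V l : ℝ} (hV : 0 < V) (z : Unit → ℂ) : ‖phiT V l z‖ ≤ 1 := by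
  unfold phiT
  rw [Complex.norm_real, Real.norm_of_nonneg (le_min zero_le_one (by positivity))]
  exact min_le_left _ _

lemma single_bound (H : Hyp N i b P) {ℓ : ℝ → ℂ} (hℓ : EV N i P ℓ) {V : ℝ} (hV : 0 < V) {K : ℕ} (hK0 : 0 < K)
    (l : ℝ) (hK : (b:ℝ) * |l| = K) {A : ℝ} (hA1 : 1 ≤ A)
    (hA : ∀ (x : ℝ), 3 ≤ x → ∀ S : Finset ℕ, (∀ p ∈ S, p.Prime ∧ (p:ℝ) ≤ x) →
      ∏ p ∈ S, (1 - (p:ℝ)⁻¹)⁻¹ ≤ A * Real.log x) {ε : ℝ} (hε : 0 < ε) :
    (∀ a c : ℝ, IntervalIntegrable (fun t => min 1 (‖ℓ t‖ ^ l * V ^ (-|l|))) volume a c) ∧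
    ∃ T0 : ℝ, 0 < T0 ∧ ∀ T : ℝ, T0 ≤ T → ∀ a : ℝ,
      ∫ t in a..(a + T), min 1 (‖ℓ t‖ ^ l * V ^ (-|l|)) ≤
        (V ^ (-|l|) * (A * Real.exp 2 * Real.log (2 * K + 1)) ^ K + ε) * T := by
  obtain ⟨h1, m, h2, h3⟩ := distribution (κ := Unit) (N := fun _ => N) (i := fun _ => i) (b := fun _ => b)
    (P := fun _ => P) (ℓ := fun _ => ℓ) (fun _ => H) (fun _ => hℓ) (φ := phiT V l) (l := 0) (C := 1) le_rfl
    zero_le_one (fun _ => by simp) (phiT_cont V l) (fun z _ => by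
      have h4 := phiT_bd (l := l) hV z
      have h5 := gg_nonneg 0 z
      linarith)
  have hii : ∀ a c : ℝ, IntervalIntegrable (fun t => min 1 (‖ℓ t‖ ^ l * V ^ (-|l|))) volume a c := by
    intro a c
    have h4 := (h1 a c).norm
    refine h4.congr ?_
    intro t _
    show ‖phiT V l (fun _ => ℓ t)‖ = _
    unfold phiT
    rw [Complex.norm_real, Real.norm_of_nonneg (le_min zero_le_one (by positivity))]
  refine ⟨hii, ?_⟩
  set B : ℝ := V ^ (-|l|) * (A * Real.exp 2 * Real.log (2 * K + 1)) ^ K with hBd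
  have hm : ‖m‖ ≤ B := by
    apply le_of_tendsto h3.norm
    filter_upwards with y
    set F : C(UnitAddTorus (Nat.primesBelow (y + 1)), ℂ) :=
      ⟨fun x => phiT V l (fun _ => Psi N i P y x), continuous_phi_Psi (κ := Unit) (N := fun _ => N)
        (i := fun _ => i) (b := fun _ => b) (P := fun _ => P) (fun _ => H) (phiT_cont V l) y⟩ with hF
    have e : (∫ θ in cube (Nat.primesBelow (y + 1)),
        phiT V l (fun _ => ∏ p : Nat.primesBelow (y + 1), if (p:ℕ) ∣ N then 1 else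
          ((P p).eval (cexp (2 * Real.pi * θ p * I) * ((p:ℕ):ℂ) ^ (-(1 + (i:ℂ)/2))))⁻¹)) = tmean F := by
      simp only [tmean, hF, ContinuousMap.coe_mk, Psi_mk]
    rw [e, tmean_eq]
    refine (norm_integral_le_integral_norm _).trans ?_
    have h6 : ∫ x : UnitAddTorus (Nat.primesBelow (y + 1)), ‖F x‖ ≤
        ∫ x : UnitAddTorus (Nat.primesBelow (y + 1)), V ^ (-|l|) * ‖Psi N i P y x‖ ^ l := by
      apply integral_mono_of_nonneg
      · filter_upwards with x
        exact norm_nonneg _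
      · apply Integrable.const_mul
        have hc : Continuous fun x : UnitAddTorus (Nat.primesBelow (y + 1)) => ‖Psi N i P y x‖ ^ l := by
          apply (continuous_Psi H y).norm.rpow_const
          intro x
          left
          exact norm_ne_zero_iff.mpr (Psi_ne H y x)
        set G : C(UnitAddTorus (Nat.primesBelow (y + 1)), ℝ) := ⟨_, hc⟩
        have : Integrable (fun x : UnitAddTorus (Nat.primesBelow (y + 1)) => G x) := by
          apply Integrable.mono' (integrable_const ‖G‖)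
          · exact G.continuous.aestronglyMeasurable
          · exact Eventually.of_forall fun x => G.norm_coe_le_norm x
        exact this
      · filter_upwards with x
        simp only [hF, ContinuousMap.coe_mk, phiT]
        rw [Complex.norm_real, Real.norm_of_nonneg (le_min zero_le_one (by positivity))]
        refine (min_le_right _ _).trans (le_of_eq (mul_comm _ _))
    refine h6.trans ?_
    rw [integral_const_mul]
    apply mul_le_mul_of_nonneg_left _ (by positivity)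
    exact torus_moment H y hK0 l hK hA1 hA
  obtain ⟨T0, hT0, h7⟩ := h2 ε hε
  refine ⟨T0, hT0, fun T hT a => ?_⟩
  have hTp : 0 < T := hT0.trans_le hT
  have h8 := h7 T hT a
  have e2 : (∫ t in a..(a + T), phiT V l (fun _ => ℓ t)) = ((∫ t in a..(a + T), min 1 (‖ℓ t‖ ^ l * V ^ (-|l|)) : ℝ) : ℂ) := by
    unfold phiT
    exact intervalIntegral.integral_ofReal
  rw [e2] at h8
  have h9 : ‖((∫ t in a..(a + T), min 1 (‖ℓ t‖ ^ l * V ^ (-|l|)) : ℝ) : ℂ) / T‖ ≤ B + ε := by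
    have := norm_add_le (((∫ t in a..(a + T), min 1 (‖ℓ t‖ ^ l * V ^ (-|l|)) : ℝ) : ℂ) / T - m) m
    rw [sub_add_cancel] at this
    linarith
  rw [norm_div, Complex.norm_real, Complex.norm_real, Real.norm_of_nonneg hTp.le, div_le_iff₀ hTp] at h9
  exact (le_abs_self _).trans h9

end

end Pool.Agent.H91.Edge
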