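import Mathlib
import Pool.Agent.H5.EBJ.Candidate
import Pool.Agent.H91.Edge.MomEdge

/-!
# Assembly of the statement on the behaviour on the edge
-/

open Complex Filter Topology MeasureTheory

namespace Pool.Agent.H91.Edge.Behave

open Pool.Agent.H91.Edge
open Pool.Agent.H89.EdgeBasic (Hyp)
open Pool.Agent.H5.EBJ (RateP)

/-- the limit law for the characters of one modulus -/
def QLaw {n : ℕ} (N i b : Fin n → ℕ) (P : Fin n → ℕ → Polynomial ℂ) : Prop :=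
  ∀ (φ : (Fin n → ℂ) → ℂ) (l C : ℝ), 0 ≤ l → ContinuousOn φ {z | ∀ j, z j ≠ 0} →
    (∀ z : Fin n → ℂ, (∀ j, z j ≠ 0) → ‖φ z‖ ≤ C * (1 + ∑ j, (‖z j‖ ^ l + ‖z j‖ ^ (-l)))) →
    ∃ m : ℂ,
      Tendsto (fun y : ℕ => ∫ θ in {θ : Nat.primesBelow (y + 1) → ℝ | ∀ p, θ p ∈ Set.Ioc (0:ℝ) 1},
        φ (fun j => ∏ p : Nat.primesBelow (y + 1), if (p:ℕ) ∣ N j then 1 else
          ((P j p).eval (cexp (2 * Real.pi * θ p * I) *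
            ((p:ℕ):ℂ) ^ (-(1 + (i j:ℂ)/2))))⁻¹)) atTop (𝓝 m) ∧
      ∀ r : ℕ, 2 ≤ r → (∀ j, (b j : ℝ) * l < 2 * r) → ∀ ε : ℝ, 0 < ε →
        ∃ (Q : ℕ) (δ : ℝ), 0 < δ ∧ ∀ (q : ℕ) [NeZero q], (∀ p : ℕ, p.Prime → p ∣ q → Q ≤ p) →
          ∀ h t : ℝ, (q : ℝ) ^ (-(1 / (2 * (r : ℝ) ^ 2))) ≤ h → h ≤ δ →
            ‖(∑ ψ : DirichletCharacter ℂ q, φ (fun j => ∏' p : {p : ℕ // p.Prime ∧ ¬ p ∣ N j},
              ((P j p).eval (ψ (p : ℕ) * ((p : ℕ) : ℂ) ^ (-(1 + (i j:ℂ)/2 + h + t * I))))⁻¹)) /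
                (q.totient : ℂ) - m‖ ≤ ε

theorem behave {κ : Type} [Countable κ] (N i b : κ → ℕ) (P : κ → ℕ → Polynomial ℂ)
    (H : ∀ k, Hyp (N k) (i k) (b k) (P k))
    (HR : ∀ k, ∀ γ : ℝ, 0 ≤ γ → γ < 1/2 → RateP (N k) (i k) (P k) γ)
    (HQ : ∀ (n : ℕ) (e : Fin n → κ), QLaw (fun j => N (e j)) (fun j => i (e j)) (fun j => b (e j))
      (fun j => P (e j))) :
    ∃ E : κ → ℝ → ℂ,
      (∀ γ : ℝ, 0 ≤ γ → γ < 1/2 → ∃ Z : Set ℝ, dimH Z ≤ ENNReal.ofReal (2 * γ) ∧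
        ∀ t : ℝ, t ∉ Z → ∀ k : κ, E k t ≠ 0 ∧
          Tendsto (fun x : ℕ => ∏ p ∈ (Finset.range (x + 1)).filter (fun p => p.Prime ∧ ¬ p ∣ N k),
            ((P k p).eval ((p:ℂ) ^ (-(1 + (i k:ℂ)/2 + t * I))))⁻¹) atTop (𝓝 (E k t)) ∧
          (∃ C : ℝ, ∀ x : ℕ, 2 ≤ x →
            ‖(∏ p ∈ (Finset.range (x + 1)).filter (fun p => p.Prime ∧ ¬ p ∣ N k),
              ((P k p).eval ((p:ℂ) ^ (-(1 + (i k:ℂ)/2 + t * I))))⁻¹) - E k t‖ ≤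
                C * Real.log x ^ (-γ)) ∧
          ∀ M : ℝ, Tendsto (fun s : ℂ => ∏' p : {p : ℕ // p.Prime ∧ ¬ p ∣ N k},
              ((P k p).eval ((p:ℂ)^(-s)))⁻¹)
            (𝓝[{s : ℂ | 1 + (i k:ℝ)/2 < s.re ∧ |s.im - t| ≤ M * (s.re - (1 + (i k:ℝ)/2))}]
              (1 + (i k:ℂ)/2 + t * I)) (𝓝 (E k t))) ∧
      (∀ (n : ℕ) (e : Fin n → κ) (φ : (Fin n → ℂ) → ℂ) (l C : ℝ), 0 ≤ l →
        ContinuousOn φ {z | ∀ j, z j ≠ 0} →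
        (∀ z : Fin n → ℂ, (∀ j, z j ≠ 0) → ‖φ z‖ ≤ C * (1 + ∑ j, (‖z j‖ ^ l + ‖z j‖ ^ (-l)))) →
        ∃ m : ℂ,
          Tendsto (fun y : ℕ => ∫ θ in {θ : Nat.primesBelow (y + 1) → ℝ | ∀ p, θ p ∈ Set.Ioc (0:ℝ) 1},
            φ (fun j => ∏ p : Nat.primesBelow (y + 1), if (p:ℕ) ∣ N (e j) then 1 else
              ((P (e j) p).eval (cexp (2 * Real.pi * θ p * I) *
                ((p:ℕ):ℂ) ^ (-(1 + (i (e j):ℂ)/2))))⁻¹)) atTop (𝓝 m) ∧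
          ((∀ j, (b (e j) : ℝ) * l < 1) →
            (∀ a c : ℝ, IntervalIntegrable (fun t => φ (fun j => E (e j) t)) volume a c) ∧
            ∀ ε : ℝ, 0 < ε → ∃ T0 : ℝ, 0 < T0 ∧ ∀ T : ℝ, T0 ≤ T → ∀ a : ℝ,
              ‖(∫ t in a..(a + T), φ (fun j => E (e j) t)) / T - m‖ ≤ ε) ∧
          ∀ r : ℕ, 2 ≤ r → (∀ j, (b (e j) : ℝ) * l < 2 * r) → ∀ ε : ℝ, 0 < ε →
            ∃ (Q : ℕ) (δ : ℝ), 0 < δ ∧ ∀ (q : ℕ) [NeZero q], (∀ p : ℕ, p.Prime → p ∣ q → Q ≤ p) →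
              ∀ h t : ℝ, (q : ℝ) ^ (-(1 / (2 * (r : ℝ) ^ 2))) ≤ h → h ≤ δ →
                ‖(∑ ψ : DirichletCharacter ℂ q,
                  φ (fun j => ∏' p : {p : ℕ // p.Prime ∧ ¬ p ∣ N (e j)},
                    ((P (e j) p).eval (ψ (p : ℕ) *
                      ((p : ℕ) : ℂ) ^ (-(1 + (i (e j):ℂ)/2 + h + t * I))))⁻¹)) /
                    (q.totient : ℂ) - m‖ ≤ ε) ∧
      ∀ (k : κ) (w : ℝ → ℝ) (l t0 : ℝ), Integrable w → (∀ t, 0 ≤ w t) → (∀ t, w (-t) = w t) →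
        (∀ ν : ℝ, 0 ≤ ∫ t, w t * Real.cos (ν * t)) →
        Integrable (fun t => w t * (|t|⁻¹ + |t|) ^ (b k * |l|)) →
        Integrable (fun t => w (t - t0) * ‖E k t‖ ^ l) ∧
        Integrable (fun t => w t * ‖riemannZeta (1 + t * I)‖ ^ (b k * |l|)) ∧
        ∫ t, w (t - t0) * ‖E k t‖ ^ l ≤ ∫ t, w t * ‖riemannZeta (1 + t * I)‖ ^ (b k * |l|) := by
  obtain ⟨E, hE1, hE2⟩ := Pool.Agent.H5.EBJ.behaviour N i b P H HR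
  refine ⟨E, hE1, ?_, ?_⟩
  · intro n e φ l C hl hφ hgr
    obtain ⟨m, hm1, hm2⟩ := HQ n e φ l C hl hφ hgr
    refine ⟨m, hm1, fun hbl => ?_, hm2⟩
    obtain ⟨h1, m', h2, h3⟩ := hE2 n e φ l C hl hbl hφ hgr
    have hmm : m' = m := tendsto_nhds_unique h3 hm1
    rw [hmm] at h2
    exact ⟨h1, h2⟩
  · intro k w l t0 hint hnn heven hcos hgr
    obtain ⟨Z, hZ, hZ2⟩ := hE1 0 le_rfl (by norm_num)
    have hZ0 : dimH Z = 0 := by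
      rw [mul_zero, ENNReal.ofReal_zero] at hZ
      exact le_antisymm hZ bot_le
    apply moment_edge (H k) (w := w) (l := l) ⟨pd_of_cos hint heven hcos, hnn, hgr⟩ t0
    filter_upwards [ae_of_dimH hZ0] with t ht
    obtain ⟨a1, -, -, a4⟩ := hZ2 t ht k
    refine ⟨a1, ?_⟩
    have h4 := a4 0
    have hmap : Tendsto (fun h : ℝ => (1 + (i k:ℂ)/2 + (h:ℂ) + t * I)) (𝓝[>] 0)
        (𝓝[{s : ℂ | 1 + (i k:ℝ)/2 < s.re ∧ |s.im - t| ≤ 0 * (s.re - (1 + (i k:ℝ)/2))}]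
          (1 + (i k:ℂ)/2 + t * I)) := by
      apply tendsto_nhdsWithin_of_tendsto_nhds_of_eventually_within
      · have hc : Continuous fun h : ℝ => (1 + (i k:ℂ)/2 + (h:ℂ) + t * I) := by fun_prop
        have h5 := (hc.tendsto 0).mono_left (nhdsWithin_le_nhds (s := Set.Ioi (0:ℝ)))
        simpa using h5
      · filter_upwards [self_mem_nhdsWithin] with h hh
        have hh' : 0 < h := hh
        refine ⟨?_, ?_⟩
        · simpa using hh'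
        · simp
    have hseq : Tendsto (fun n : ℕ => 1 / ((n:ℝ) + 1)) atTop (𝓝[>] 0) :=
      tendsto_nhdsWithin_of_tendsto_nhds_of_eventually_within _ tendsto_one_div_add_atTop_nhds_zero_nat
        (Eventually.of_forall hseq_pos)
    exact (h4.comp hmap).comp hseq

end Pool.Agent.H91.Edge.Behave
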