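import Mathlib
import Pool.Agent.H91.Edge.Ext3

open Complex MeasureTheory Filter Topology

namespace Pool.Agent.H91.Edge

open Pool.Agent.H89.EdgeBasic

variable {N i b : ℕ} {P : ℕ → Polynomial ℂ}

lemma exp_three_half : Real.exp (3/2) ≤ 4.5 := by
  have h1 : Real.exp (3/2) ^ 2 = Real.exp 1 ^ 3 := by
    rw [← Real.exp_nat_mul, ← Real.exp_nat_mul]
    norm_num
  have h2 := Real.exp_one_lt_d9
  have h3 : Real.exp 1 ^ 3 ≤ 2.7182818286 ^ 3 := pow_le_pow_left₀ (Real.exp_pos _).le h2.le 3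
  by_contra hcon
  push Not at hcon
  have h4 : (4.5:ℝ) ^ 2 < Real.exp (3/2) ^ 2 := pow_lt_pow_left₀ hcon (by norm_num) (by norm_num)
  rw [h1] at h4
  norm_num at h3 h4
  linarith

lemma markov {u : ℝ → ℝ} {a T B : ℝ} (hT : 0 ≤ T) (h0 : ∀ t, 0 ≤ u t) (hi : IntervalIntegrable u volume a (a + T))
    (hB : ∫ t in a..(a + T), u t ≤ B) :
    volume {t ∈ Set.Icc a (a + T) | 1 ≤ u t} ≤ ENNReal.ofReal B := by
  have hi' : IntegrableOn u (Set.Icc a (a + T)) := by
    rw [integrableOn_Icc_iff_integrableOn_Ioc, ← intervalIntegrable_iff_integrableOn_Ioc_of_le (by linarith)]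
    exact hi
  have h1 := mul_meas_ge_le_lintegral₀ (μ := volume.restrict (Set.Icc a (a + T)))
    (f := fun t => ENNReal.ofReal (u t)) hi'.aestronglyMeasurable.aemeasurable.ennreal_ofReal 1
  rw [one_mul, Measure.restrict_apply' measurableSet_Icc] at h1
  have h2 : ∫⁻ t in Set.Icc a (a + T), ENNReal.ofReal (u t) = ENNReal.ofReal (∫ t in Set.Icc a (a + T), u t) :=
    (ofReal_integral_eq_lintegral_ofReal hi' (Eventually.of_forall h0)).symm
  rw [h2] at h1
  have h3 : ∫ t in Set.Icc a (a + T), u t = ∫ t in a..(a + T), u t := by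
    rw [intervalIntegral.integral_of_le (by linarith), integral_Icc_eq_integral_Ioc]
  rw [h3] at h1
  refine le_trans (measure_mono ?_) (h1.trans (ENNReal.ofReal_le_ofReal hB))
  rintro t ⟨ht1, ht2⟩
  refine ⟨?_, ht1⟩
  simp only [Set.mem_ofPred_eq]
  rw [ENNReal.one_le_ofReal]
  exact ht2

/-- extreme values on the edge are doubly exponentially rare -/
theorem extremes : ∃ c : ℝ, 0 < c ∧ ∀ (b : ℕ), 0 < b → ∀ (N i : ℕ) (P : ℕ → Polynomial ℂ), Hyp N i b P →
    ∀ ℓ : ℝ → ℂ, EV N i P ℓ → ∀ V : ℝ, 0 < V → ∃ T0 : ℝ, 0 < T0 ∧ ∀ T : ℝ, T0 ≤ T → ∀ a : ℝ,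
      volume {t ∈ Set.Icc a (a + T) | V ≤ ‖ℓ t‖ ∨ ‖ℓ t‖ ≤ V⁻¹} ≤
        ENNReal.ofReal (10 * Real.exp (-(Real.exp (c * V ^ (1 / (b:ℝ))) / 2)) * T) := by
  obtain ⟨A, hA1, hA⟩ := mertens
  set A1 : ℝ := A * Real.exp 2 with hA1d
  have hA1p : 0 < A1 := by positivity
  refine ⟨1 / (Real.exp 1 * A1), by positivity, ?_⟩
  intro b hb N i P H ℓ hℓ V hV
  have hbr : (0:ℝ) < b := by exact_mod_cast hb
  set c : ℝ := 1 / (Real.exp 1 * A1) with hc
  have hc0 : 0 < c := by positivity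
  set E : ℝ := Real.exp (c * V ^ (1 / (b:ℝ))) with hE
  have hEpos : 0 < E := Real.exp_pos _
  set K : ℕ := ⌊(E - 1) / 2⌋₊ with hK
  have hfl : (E - 1) / 2 < K + 1 := Nat.lt_floor_add_one _
  rcases Nat.eq_zero_or_pos K with hK0 | hK0
  · refine ⟨1, one_pos, fun T hT a => ?_⟩
    have hE3 : E < 3 := by
      rw [hK0] at hfl
      push_cast at hfl
      linarith
    have h1 : 1 ≤ 10 * Real.exp (-(E / 2)) := by
      have h2 : Real.exp (E / 2) ≤ 4.5 := by
        refine le_trans ?_ exp_three_half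
        rw [Real.exp_le_exp]
        linarith
      have h3 : Real.exp (-(E / 2)) * Real.exp (E / 2) = 1 := by rw [← Real.exp_add]; simp
      have h4 := Real.exp_pos (-(E / 2))
      nlinarith
    calc volume {t ∈ Set.Icc a (a + T) | V ≤ ‖ℓ t‖ ∨ ‖ℓ t‖ ≤ V⁻¹} ≤ volume (Set.Icc a (a + T)) :=
          measure_mono fun t ht => ht.1
      _ = ENNReal.ofReal T := by rw [Real.volume_Icc, add_sub_cancel_left]
      _ ≤ ENNReal.ofReal (10 * Real.exp (-(E / 2)) * T) := by
          apply ENNReal.ofReal_le_ofReal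
          nlinarith
  · have hKE : (K:ℝ) ≤ (E - 1) / 2 := by
      apply Nat.floor_le
      by_contra hneg
      push Not at hneg
      have := Nat.floor_of_nonpos hneg.le
      rw [← hK] at this
      omega
    have hKr : (1:ℝ) ≤ K := by exact_mod_cast hK0
    set l : ℝ := K / b with hl
    have hlpos : 0 < l := by positivity
    have hlab : |l| = l := abs_of_pos hlpos
    have hlK : (b:ℝ) * |l| = K := by rw [hlab, hl]; field_simp
    have hlKn : (b:ℝ) * |(-l)| = K := by rw [abs_neg, hlab, hl]; field_simp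
    have hbound : V ^ (-l) * (A1 * Real.log (2 * K + 1)) ^ K ≤ 4.5 * Real.exp (-(E / 2)) := by
      have h1 : Real.log (2 * (K:ℝ) + 1) ≤ c * V ^ (1 / (b:ℝ)) := by
        rw [Real.log_le_iff_le_exp (by linarith)]
        linarith
      have h0 : 0 ≤ Real.log (2 * (K:ℝ) + 1) := Real.log_nonneg (by linarith)
      have h2 : A1 * Real.log (2 * K + 1) ≤ V ^ (1 / (b:ℝ)) * Real.exp (-1) := by
        calc A1 * Real.log (2 * K + 1) ≤ A1 * (c * V ^ (1 / (b:ℝ))) := mul_le_mul_of_nonneg_left h1 hA1p.le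
          _ = V ^ (1 / (b:ℝ)) * Real.exp (-1) := by
              rw [hc, Real.exp_neg]
              field_simp
      have h3 : (A1 * Real.log (2 * K + 1)) ^ K ≤ (V ^ (1 / (b:ℝ)) * Real.exp (-1)) ^ K :=
        pow_le_pow_left₀ (by positivity) h2 K
      have h4 : (V ^ (1 / (b:ℝ)) * Real.exp (-1)) ^ K = V ^ l * Real.exp (-(K:ℝ)) := by
        rw [mul_pow, ← Real.rpow_natCast, ← Real.rpow_mul hV.le, ← Real.exp_nat_mul]
        congr 2
        · rw [hl]; ring
        · ring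
      have h5 : V ^ (-l) * V ^ l = 1 := by
        rw [← Real.rpow_add hV]; simp
      have h6 : Real.exp (-(K:ℝ)) ≤ 4.5 * Real.exp (-(E / 2)) := by
        calc Real.exp (-(K:ℝ)) ≤ Real.exp (3/2 + (-(E / 2))) := by
              rw [Real.exp_le_exp]; linarith
          _ = Real.exp (3/2) * Real.exp (-(E / 2)) := Real.exp_add _ _
          _ ≤ 4.5 * Real.exp (-(E / 2)) := mul_le_mul_of_nonneg_right exp_three_half (Real.exp_pos _).le
      calc V ^ (-l) * (A1 * Real.log (2 * K + 1)) ^ K ≤ V ^ (-l) * (V ^ l * Real.exp (-(K:ℝ))) := by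
            apply mul_le_mul_of_nonneg_left _ (by positivity)
            rw [← h4]; exact h3
        _ = Real.exp (-(K:ℝ)) := by rw [← mul_assoc, h5, one_mul]
        _ ≤ _ := h6
    have hε : 0 < 0.5 * Real.exp (-(E / 2)) := by positivity
    obtain ⟨i1, T1, hT1, h1⟩ := single_bound H hℓ hV hK0 l hlK hA1 hA hε
    obtain ⟨i2, T2, hT2, h2⟩ := single_bound H hℓ hV hK0 (-l) hlKn hA1 hA hε
    rw [abs_neg, hlab] at h2 i2
    rw [hlab] at h1 i1
    refine ⟨max T1 T2, lt_max_of_lt_left hT1, fun T hT a => ?_⟩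
    have hTp : 0 < T := hT1.trans_le ((le_max_left _ _).trans hT)
    have h3 := h1 T ((le_max_left _ _).trans hT) a
    have h4 := h2 T ((le_max_right _ _).trans hT) a
    have hle : (V ^ (-l) * (A * Real.exp 2 * Real.log (2 * K + 1)) ^ K + 0.5 * Real.exp (-(E / 2))) * T ≤
        5 * Real.exp (-(E / 2)) * T := by
      apply mul_le_mul_of_nonneg_right _ hTp.le
      linarith
    have m1 := markov hTp.le (fun t => le_min zero_le_one (by positivity)) (i1 a (a + T)) (h3.trans hle)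
    have m2 := markov hTp.le (fun t => le_min zero_le_one (by positivity)) (i2 a (a + T)) (h4.trans hle)
    have hsub : {t ∈ Set.Icc a (a + T) | V ≤ ‖ℓ t‖ ∨ ‖ℓ t‖ ≤ V⁻¹} ⊆
        {t ∈ Set.Icc a (a + T) | 1 ≤ min 1 (‖ℓ t‖ ^ l * V ^ (-l))} ∪
        ({t ∈ Set.Icc a (a + T) | 1 ≤ min 1 (‖ℓ t‖ ^ (-l) * V ^ (-l))} ∪ {t | ℓ t = 0}) := by
      rintro t ⟨ht1, ht2⟩
      rcases ht2 with h | h
      · left
        refine ⟨ht1, le_min le_rfl ?_⟩
        have h5 : V ^ l ≤ ‖ℓ t‖ ^ l := Real.rpow_le_rpow hV.le h hlpos.le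
        have h6 : V ^ l * V ^ (-l) = 1 := by rw [← Real.rpow_add hV]; simp
        have h7 : 0 < V ^ (-l) := by positivity
        calc (1:ℝ) = V ^ l * V ^ (-l) := h6.symm
          _ ≤ _ := mul_le_mul_of_nonneg_right h5 h7.le
      · right
        by_cases h0 : ℓ t = 0
        · right
          exact h0
        · left
          refine ⟨ht1, le_min le_rfl ?_⟩
          have hpos : 0 < ‖ℓ t‖ := norm_pos_iff.mpr h0
          have h5 : (V⁻¹) ^ (-l) ≤ ‖ℓ t‖ ^ (-l) := Real.rpow_le_rpow_of_nonpos hpos h (by linarith)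
          have h6 : (V⁻¹) ^ (-l) * V ^ (-l) = 1 := by
            rw [Real.inv_rpow hV.le, inv_mul_cancel₀ (by positivity)]
          have h7 : 0 < V ^ (-l) := by positivity
          calc (1:ℝ) = (V⁻¹) ^ (-l) * V ^ (-l) := h6.symm
            _ ≤ _ := mul_le_mul_of_nonneg_right h5 h7.le
    have hnull : volume {t | ℓ t = 0} = 0 := by
      have h5 : ∀ᵐ t, ¬ (ℓ t = 0) := by
        filter_upwards [hℓ] with t ht
        exact ht.1
      rw [ae_iff] at h5
      simpa using h5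
    calc volume {t ∈ Set.Icc a (a + T) | V ≤ ‖ℓ t‖ ∨ ‖ℓ t‖ ≤ V⁻¹}
        ≤ volume {t ∈ Set.Icc a (a + T) | 1 ≤ min 1 (‖ℓ t‖ ^ l * V ^ (-l))} +
          (volume {t ∈ Set.Icc a (a + T) | 1 ≤ min 1 (‖ℓ t‖ ^ (-l) * V ^ (-l))} + volume {t | ℓ t = 0}) :=
          (measure_mono hsub).trans ((measure_union_le _ _).trans (add_le_add le_rfl (measure_union_le _ _)))
      _ ≤ ENNReal.ofReal (5 * Real.exp (-(E / 2)) * T) + (ENNReal.ofReal (5 * Real.exp (-(E / 2)) * T) + 0) := by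
          rw [hnull]
          exact add_le_add m1 (add_le_add m2 le_rfl)
      _ = ENNReal.ofReal (10 * Real.exp (-(E / 2)) * T) := by
          rw [add_zero, ← ENNReal.ofReal_add (by positivity) (by positivity)]
          congr 1
          ring

end Pool.Agent.H91.Edge
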