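import Mathlib
import Pool.Agent.H91.Edge.LP

open Complex Filter Topology

namespace Pool.Agent.H91.Edge

open Pool.Agent.H89.EdgeBasic (Hyp)

/-- the twisted Euler product -/
noncomputable def Ltw (N : ℕ) (P : ℕ → Polynomial ℂ) (c : ℕ → ℂ) (s : ℂ) : ℂ :=
  ∏' p : {p : ℕ // p.Prime ∧ ¬ p ∣ N}, ((P p).eval (c p * (p:ℂ)^(-s)))⁻¹

lemma core : ∃ C : ℝ, 0 ≤ C ∧ ∀ (ι : Type*) (N i b : ℕ) (P : ℕ → Polynomial ℂ), Hyp N i b P →
    ∀ (c h ε : ℝ) (σ : ℂ), 0 < c → c ≤ 1 → 0 < h → h ≤ c → ‖σ‖ = 1 →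
    ∀ (q : ι → ℕ) (_ : ∀ j, NeZero (q j)) (χ : ∀ j, DirichletCharacter ℂ (q j)) (t : ι → ℝ)
      (J : Finset ι), (∀ j ∈ J, (q j : ℝ) ≤ Real.exp (c / h)) → (∀ j ∈ J, |t j| ≤ Real.exp (c / h)) →
      (∀ j ∈ J, ∀ k ∈ J, j ≠ k → (∃ n : ℕ, n.Coprime (q j * q k) ∧ chf (χ j) n ≠ chf (χ k) n) ∨
        h / Real.sqrt c ≤ |t j - t k|) →
      (∀ j ∈ J, ε / h ≤ (σ * logDeriv (Ltw N P (chf (χ j))) (1 + (i:ℂ)/2 + (h:ℂ) + (t j:ℂ) * I)).re) →
      (J.card : ℝ) * ε ≤ b * Real.sqrt (1 + C * c) *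
        Real.sqrt (J.card * (1 + C * c) + J.card ^ 2 * (c + 300 * Real.sqrt c + C * c)) +
        J.card * (b * C3 * c) := by
  obtain ⟨C1, hC1, hkap⟩ := kap_le
  obtain ⟨C2, hC2, hker⟩ := prime_kernel_bound
  refine ⟨max C1 C2, le_max_of_le_left hC1, ?_⟩
  intro ι N i b P H c h ε σ hc0 hc1 h0 hhc hσ q hq χ t J hqJ htJ hsep hbig
  classical
  set C := max C1 C2 with hC
  have hC0 : 0 ≤ C := le_max_of_le_left hC1
  have hh1 : h ≤ 1 := hhc.trans hc1
  set n : ℝ := (J.card : ℝ) with hn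
  have hn0 : 0 ≤ n := Nat.cast_nonneg _
  set f := ft N i P 0 with hf
  have hfA : Adm f b := adm_ft H 0
  have hb0 : (0:ℝ) ≤ b := Nat.cast_nonneg _
  have hch : C ≤ C * c / h := by
    rw [le_div_iff₀ h0]
    exact mul_le_mul_of_nonneg_left hhc hC0
  have hkap' : kap h ≤ (1 + C * c) / h := by
    have h1 := hkap h h0 hh1
    have h2 : C1 ≤ C := le_max_left _ _
    calc kap h ≤ 1 / h + C := by linarith
      _ ≤ 1 / h + C * c / h := by linarith
      _ = (1 + C * c) / h := by ring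
  have hkap0 : 0 ≤ kap h := tsum_nonneg fun n => mul_nonneg (th_nonneg n) (by positivity)
  -- the quadratic form
  set Qf : ι → ι → ℝ := fun j k => (∑' n : ℕ, ((chf (χ j) n * (starRingEnd ℂ) (chf (χ k) n)) * (th n : ℂ)) *
          (n:ℂ)^(-(1 + (h:ℂ) + ((t j - t k : ℝ):ℂ) * I))).re with hQf
  have hdiag : ∀ j, Qf j j ≤ (1 + C * c) / h := by
    intro j
    refine le_trans ?_ hkap'
    rw [hQf]
    simp only
    refine (Complex.re_le_norm _).trans ?_
    have hk : Summable fun n : ℕ => th n * (n:ℝ)^(-(1+h)) := summable_kap h0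
    apply tsum_of_norm_bounded hk.hasSum
    intro n
    rcases Nat.eq_zero_or_pos n with rfl | hn
    · simp [th_zero]
    rw [norm_mul, norm_mul, norm_mul, RCLike.norm_conj, Complex.norm_real, Real.norm_of_nonneg (th_nonneg n),
      norm_cpow_neg_nat hn]
    have e1 : (1 + (h:ℂ) + ((t j - t j : ℝ):ℂ) * I).re = 1 + h := by simp
    rw [e1]
    apply mul_le_mul_of_nonneg_right _ (by positivity)
    apply mul_le_of_le_one_left (th_nonneg n)
    exact mul_le_one₀ (chf_norm _ n) (norm_nonneg _) (chf_norm _ n)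
  have hoff : ∀ j ∈ J, ∀ k ∈ J, j ≠ k → Qf j k ≤ (c + 300 * Real.sqrt c + C * c) / h := by
    intro j hj k hk hjk
    haveI := hq j
    haveI := hq k
    haveI : NeZero (q j * q k) := ⟨mul_ne_zero (NeZero.ne _) (NeZero.ne _)⟩
    have h1 := hker (q j * q k) (prodChar (χ j) (χ k)) h (t j - t k) h0 hh1
    have e1 : (∑' n : ℕ, (chf (prodChar (χ j) (χ k)) n * (th n : ℂ)) * (n:ℂ)^(-(1 + (h:ℂ) + ((t j - t k : ℝ):ℂ) * I))).re = Qf j k := by
      rw [hQf]
      simp only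
      congr 1
      apply tsum_congr
      intro n
      rw [prodChar_apply]
    rw [e1] at h1
    have hqj : (0:ℝ) < q j := by exact_mod_cast Nat.pos_of_ne_zero (NeZero.ne _)
    have hqk : (0:ℝ) < q k := by exact_mod_cast Nat.pos_of_ne_zero (NeZero.ne _)
    have h2 := log_bound (u := t j - t k) hc0 hc1 h0 hhc hqj hqk (hqJ j hj) (hqJ k hk) (by
      have a1 := htJ j hj
      have a2 := htJ k hk
      have a3 := abs_sub (t j) (t k)
      linarith)
    have h3 : 16 * Real.log (200 * ((q j * q k : ℕ) : ℝ) * (|t j - t k| + 3) ^ 2 / h ^ 2) ≤ 300 * Real.sqrt c / h := by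
      rw [le_div_iff₀ h0, mul_comm]
      push_cast
      exact h2
    have h4 : (if prodChar (χ j) (χ k) = 1 then h / (h ^ 2 + (t j - t k) ^ 2) else 0) ≤ c / h := by
      split_ifs with hone
      · rcases hsep j hj k hk hjk with ⟨n, hn1, hn2⟩ | hd
        · exact absurd hone (prodChar_ne_one _ _ hn1 hn2)
        · have hs : 0 < Real.sqrt c := Real.sqrt_pos.mpr hc0
          have h5 : h ^ 2 / c ≤ (t j - t k) ^ 2 := by
            have h6 : (h / Real.sqrt c) ^ 2 ≤ |t j - t k| ^ 2 := pow_le_pow_left₀ (by positivity) hd 2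
            rw [div_pow, Real.sq_sqrt hc0.le, sq_abs] at h6
            exact h6
          have h7 : 0 < h ^ 2 / c := by positivity
          calc h / (h ^ 2 + (t j - t k) ^ 2) ≤ h / (h ^ 2 / c) := by
                apply div_le_div_of_nonneg_left h0.le h7
                nlinarith [sq_nonneg h]
            _ = c / h := by field_simp
      · positivity
    have h5 : C2 ≤ C * c / h := (le_max_right _ _).trans hch
    calc Qf j k ≤ c / h + 300 * Real.sqrt c / h + C * c / h := by linarith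
      _ = _ := by ring
  have hQtot : ∑ j ∈ J, ∑ k ∈ J, Qf j k ≤ (n * (1 + C * c) + n ^ 2 * (c + 300 * Real.sqrt c + C * c)) / h := by
    have hoff0 : 0 ≤ (c + 300 * Real.sqrt c + C * c) / h := by positivity
    have h1 : ∀ j ∈ J, ∀ k ∈ J, Qf j k ≤ (if j = k then (1 + C * c) / h else 0) + (c + 300 * Real.sqrt c + C * c) / h := by
      intro j hj k hk
      split_ifs with hjk
      · subst hjk
        linarith [hdiag j]
      · rw [zero_add]
        exact hoff j hj k hk hjk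
    have h2 : ∑ j ∈ J, ∑ k ∈ J, Qf j k ≤ ∑ j ∈ J, ∑ k ∈ J,
        ((if j = k then (1 + C * c) / h else 0) + (c + 300 * Real.sqrt c + C * c) / h) :=
      Finset.sum_le_sum fun j hj => Finset.sum_le_sum fun k hk => h1 j hj k hk
    have h3 : ∀ j ∈ J, ∑ k ∈ J, ((if j = k then (1 + C * c) / h else 0) + (c + 300 * Real.sqrt c + C * c) / h)
        = (1 + C * c) / h + n * ((c + 300 * Real.sqrt c + C * c) / h) := by
      intro j hj
      rw [Finset.sum_add_distrib, Finset.sum_ite_eq, if_pos hj, Finset.sum_const, nsmul_eq_mul]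
    rw [Finset.sum_congr rfl h3, Finset.sum_const, nsmul_eq_mul] at h2
    refine h2.trans (le_of_eq ?_)
    rw [← hn]
    ring
  -- duality
  have hdual := dual_tw hfA h0 J (fun j => chf (χ j)) (fun j n => chf_norm _ n) t
  -- logarithmic derivatives
  have hld : ∀ j ∈ J, ε / h ≤ (-σ * D (fun n => (chf (χ j) n * f n) * (th n : ℂ)) (1 + (h:ℂ) + t j * I)).re + b * C3 := by
    intro j hj
    have h1 := hbig j hj
    have hH := hyp_tw H (chf (χ j)) (chf_norm _)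
    have h2 := logDeriv_L hH (s := 1 + (i:ℂ)/2 + (h:ℂ) + (t j:ℂ) * I) (by simp; exact h0)
    have e1 : (fun s : ℂ => ∏' p : {p : ℕ // p.Prime ∧ ¬ p ∣ N}, ((tw (P p) (chf (χ j) p)).eval ((p:ℂ)^(-s)))⁻¹)
        = Ltw N P (chf (χ j)) := by
      funext s
      unfold Ltw
      apply tprod_congr
      intro p
      rw [tw_eval]
    have e2 : (1 + (i:ℂ)/2 + (h:ℂ) + (t j:ℂ) * I) - (i:ℂ)/2 = 1 + (h:ℂ) + (t j:ℂ) * I := by ring
    have e3 : (fun n => ft N i (fun p => tw (P p) (chf (χ j) p)) 0 n * (th n : ℂ)) =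
        fun n => (chf (χ j) n * f n) * (th n : ℂ) := by
      funext n
      rw [ft_tw H]
    rw [e1, e2, e3] at h2
    have h3 := (Complex.re_le_norm (σ * (logDeriv (Ltw N P (chf (χ j))) (1 + (i:ℂ)/2 + (h:ℂ) + (t j:ℂ) * I) +
      D (fun n => (chf (χ j) n * f n) * (th n : ℂ)) (1 + (h:ℂ) + t j * I))))
    rw [norm_mul, hσ, one_mul] at h3
    have h4 := h3.trans h2
    rw [mul_add, Complex.add_re] at h4
    rw [neg_mul, Complex.neg_re]
    linarith
  have hsum : n * (ε / h) ≤ ‖∑ j ∈ J, D (fun n => (chf (χ j) n * f n) * (th n : ℂ)) (1 + (h:ℂ) + t j * I)‖ + n * (b * C3) := by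
    have h1 : n * (ε / h) ≤ ∑ j ∈ J, ((-σ * D (fun n => (chf (χ j) n * f n) * (th n : ℂ)) (1 + (h:ℂ) + t j * I)).re + b * C3) := by
      rw [hn, ← nsmul_eq_mul]
      exact Finset.card_nsmul_le_sum _ _ _ hld
    rw [Finset.sum_add_distrib, Finset.sum_const, nsmul_eq_mul, ← Complex.re_sum, ← Finset.mul_sum] at h1
    refine h1.trans ?_
    apply add_le_add _ le_rfl
    refine (Complex.re_le_norm _).trans ?_
    rw [norm_mul, norm_neg, hσ, one_mul]
  have hfin : n * (ε / h) ≤ b * (Real.sqrt ((1 + C * c) / h) *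
      Real.sqrt ((n * (1 + C * c) + n ^ 2 * (c + 300 * Real.sqrt c + C * c)) / h)) + n * (b * C3) := by
    refine hsum.trans (add_le_add ?_ le_rfl)
    refine hdual.trans ?_
    apply mul_le_mul_of_nonneg_left _ hb0
    apply mul_le_mul (Real.sqrt_le_sqrt hkap') (Real.sqrt_le_sqrt hQtot) (Real.sqrt_nonneg _) (Real.sqrt_nonneg _)
  have hs1 : Real.sqrt ((1 + C * c) / h) * Real.sqrt ((n * (1 + C * c) + n ^ 2 * (c + 300 * Real.sqrt c + C * c)) / h)
      = Real.sqrt (1 + C * c) * Real.sqrt (n * (1 + C * c) + n ^ 2 * (c + 300 * Real.sqrt c + C * c)) / h := by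
    rw [Real.sqrt_div (by positivity), Real.sqrt_div (by positivity), div_mul_div_comm, Real.mul_self_sqrt h0.le]
  rw [hs1] at hfin
  have hm := mul_le_mul_of_nonneg_left hfin h0.le
  have e4 : h * (n * (ε / h)) = n * ε := by field_simp
  have e5 : h * (b * (Real.sqrt (1 + C * c) * Real.sqrt (n * (1 + C * c) + n ^ 2 * (c + 300 * Real.sqrt c + C * c)) / h) + n * (b * C3))
      = b * Real.sqrt (1 + C * c) * Real.sqrt (n * (1 + C * c) + n ^ 2 * (c + 300 * Real.sqrt c + C * c)) + n * (b * C3 * h) := by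
    field_simp
  rw [e4, e5] at hm
  refine hm.trans ?_
  apply add_le_add le_rfl
  have := C3_nonneg
  gcongr

/-- Landau-Page phenomenon, counting form -/
theorem landau_page (b : ℕ) (ε : ℝ) (hε : 0 < ε) : ∃ c : ℝ, 0 < c ∧ c ≤ 1 ∧
    ∀ (N i : ℕ) (P : ℕ → Polynomial ℂ), Hyp N i b P → ∀ h : ℝ, 0 < h → h ≤ c →
    ∀ (ι : Type*) [Fintype ι] (q : ι → ℕ) (_ : ∀ j, NeZero (q j)) (χ : ∀ j, DirichletCharacter ℂ (q j))
      (t : ι → ℝ), (∀ j, (q j : ℝ) ≤ Real.exp (c / h)) → (∀ j, |t j| ≤ Real.exp (c / h)) →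
      (∀ j k, j ≠ k → (∃ n : ℕ, n.Coprime (q j * q k) ∧ chf (χ j) n ≠ chf (χ k) n) ∨
        h / c ≤ |t j - t k|) →
      ∀ σ : ℂ, ‖σ‖ = 1 →
      (∀ j, ε / h ≤ (σ * logDeriv (Ltw N P (chf (χ j))) (1 + (i:ℂ)/2 + (h:ℂ) + (t j:ℂ) * I)).re) →
      (Fintype.card ι : ℝ) ≤ (b:ℝ) ^ 2 / ε ^ 2 := by
  obtain ⟨C, hC0, hcore⟩ := core
  set n0 : ℕ := ⌊(b:ℝ) ^ 2 / ε ^ 2⌋₊ + 1 with hn0
  have hn0lt : (b:ℝ) ^ 2 / ε ^ 2 < n0 := by
    rw [hn0]
    push_cast
    exact Nat.lt_floor_add_one _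
  have hb0 : (0:ℝ) ≤ b := Nat.cast_nonneg _
  have hn0pos : (0:ℝ) < n0 := by
    rw [hn0]
    push_cast
    positivity
  have hlim0 : (b:ℝ) * Real.sqrt (1 + C * 0) *
        Real.sqrt (n0 * (1 + C * 0) + n0 ^ 2 * (0 + 300 * Real.sqrt 0 + C * 0)) + n0 * (b * C3 * 0) < n0 * ε := by
    simp only [mul_zero, add_zero, Real.sqrt_zero, Real.sqrt_one, mul_one]
    have h1 : (b:ℝ) ^ 2 < n0 * ε ^ 2 := by
      rw [div_lt_iff₀ (by positivity)] at hn0lt
      exact hn0lt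
    have h2 : (b * Real.sqrt n0) ^ 2 < (n0 * ε) ^ 2 := by
      rw [mul_pow, Real.sq_sqrt hn0pos.le, mul_pow]
      calc (b:ℝ) ^ 2 * n0 < (n0 * ε ^ 2) * n0 := mul_lt_mul_of_pos_right h1 hn0pos
        _ = (n0:ℝ) ^ 2 * ε ^ 2 := by ring
    exact lt_of_pow_lt_pow_left₀ 2 (by positivity) h2
  have hcont : ContinuousAt (fun c : ℝ => (b:ℝ) * Real.sqrt (1 + C * c) *
        Real.sqrt (n0 * (1 + C * c) + n0 ^ 2 * (c + 300 * Real.sqrt c + C * c)) + n0 * (b * C3 * c)) 0 := by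
    fun_prop
  have hev : ∀ᶠ c : ℝ in 𝓝[>] 0, (b:ℝ) * Real.sqrt (1 + C * c) *
        Real.sqrt (n0 * (1 + C * c) + n0 ^ 2 * (c + 300 * Real.sqrt c + C * c)) + n0 * (b * C3 * c) < n0 * ε :=
    nhdsWithin_le_nhds (hcont.eventually_lt_const hlim0)
  have hev2 : ∀ᶠ c : ℝ in 𝓝[>] 0, c ∈ Set.Ioc (0:ℝ) 1 := Ioc_mem_nhdsGT one_pos
  obtain ⟨c, hc, hc01⟩ := (hev.and hev2).exists
  refine ⟨c, hc01.1, hc01.2, ?_⟩
  intro N i P H h h0 hhc ι _ q hq χ t hqJ htJ hsep σ hσ hbig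
  by_contra hcon
  push Not at hcon
  have hcard : n0 ≤ Fintype.card ι := by
    rw [hn0]
    have : ⌊(b:ℝ) ^ 2 / ε ^ 2⌋₊ < Fintype.card ι := by
      rw [Nat.floor_lt (by positivity)]
      exact hcon
    omega
  obtain ⟨J, -, hJ⟩ := Finset.exists_subset_card_eq (s := (Finset.univ : Finset ι)) (by simpa using hcard)
  have h1 := hcore ι N i b P H c h ε σ hc01.1 hc01.2 h0 hhc hσ q hq χ t J (fun j _ => hqJ j) (fun j _ => htJ j)
    (fun j _ k _ hjk => by
      rcases hsep j k hjk with h2 | h2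
      · exact Or.inl h2
      · right
        refine le_trans ?_ h2
        apply div_le_div_of_nonneg_left h0.le hc01.1
        have := Real.sqrt_le_one.mpr hc01.2
        have h6 := Real.mul_self_sqrt hc01.1.le
        nlinarith [Real.sqrt_nonneg c])
    (fun j _ => hbig j)
  rw [hJ] at h1
  linarith

end Pool.Agent.H91.Edge
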